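import Pool.Agent.H18.Cage.Geo

/-! Definitions for the combinatorial modules. -/

set_option autoImplicit false

namespace Pool.Agent.H18.Cage

open Polynomial Matrix Finset

/-- Local isomorphism of balls of radius `R0`. -/
structure LocIso {V : Type} [Fintype V] [DecidableEq V] (G : SimpleGraph V)
    (R0 : ℕ) (v m : V) (φ : V → V) : Prop where
  base : φ v = m
  iso : ∀ u w, G.dist v u ≤ R0 → G.dist v w ≤ R0 → G.dist (φ u) (φ w) = G.dist u w
  onto : ∀ y, G.dist m y ≤ R0 → ∃ u, G.dist v u ≤ R0 ∧ φ u = y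

/-- A sheet: a nonnegative integer function commuting with adjacency near `(v, x0)` whose
rows and columns have small diameter. -/
structure Sheet {V : Type} [Fintype V] [DecidableEq V] (G : SimpleGraph V)
    [DecidableRel G.Adj] (q : V → V → ℤ) (v x0 : V) (T R : ℕ) : Prop where
  nonneg : ∀ u x, 0 ≤ q u x
  base : q v x0 ≠ 0
  comm : ∀ u x, G.dist v u ≤ R → G.dist x0 x ≤ 2 * R →
    ∑ u' ∈ G.neighborFinset u, q u' x = ∑ x' ∈ G.neighborFinset x, q u x'
  near1 : ∀ u x, G.dist v u ≤ R + 1 → q u x ≠ 0 → G.dist x0 x ≤ T + G.dist v u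
  near2 : ∀ u x, G.dist v u ≤ R + 1 → q u x ≠ 0 → G.dist v u ≤ T + G.dist x0 x
  diam1 : ∀ u x y, G.dist v u ≤ R + 1 → q u x ≠ 0 → q u y ≠ 0 → G.dist x y ≤ T
  diam2 : ∀ u w x, G.dist v u ≤ R + 1 → G.dist v w ≤ R + 1 → q u x ≠ 0 → q w x ≠ 0 →
    G.dist u w ≤ T

/-- The parity condition. -/
def Par {V : Type} (G : SimpleGraph V) (q : V → V → ℤ) (v x0 : V) : Prop :=
  ∀ u x, q u x ≠ 0 → Even (G.dist v u + G.dist x0 x)

/-- Bottom height with respect to the far point `o`. -/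
noncomputable def bt {V : Type} (G : SimpleGraph V) (q : V → V → ℤ) (o u : V) : ℕ :=
  sInf {h | ∃ x, q u x ≠ 0 ∧ G.dist x o = h}

end Pool.Agent.H18.Cage
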