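import Pool.Agent.H18.Cage.FinDefs

/-! Modules CONJ-1 and CONJ-2. -/

set_option autoImplicit false

namespace Pool.Agent.H18.Cage

open Polynomial Matrix Finset

lemma ev_eq_eval_map (h : ℤ[X]) (x : ℝ) : ev h x = (h.map (Int.castRingHom ℝ)).eval x := by
  rw [ev, Polynomial.aeval_def, Polynomial.eval_map]
  rfl

/-- The characteristic polynomial of a diagonalised integer matrix. -/
lemma charpoly_map_eq {V : Type} [Fintype V] [DecidableEq V] (A : Matrix V V ℤ)
    (O : Matrix V V ℝ) (lam : V → ℝ) (hO : O * Oᵀ = 1) (hA : toR A = O * diagonal lam * Oᵀ) :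
    A.charpoly.map (Int.castRingHom ℝ) = ∏ j, (X - C (lam j)) := by
  have hO' : Oᵀ * O = 1 := mul_eq_one_comm.mp hO
  have h1 : A.charpoly.map (Int.castRingHom ℝ) = (toR A).charpoly := by
    rw [← Matrix.charpoly_map]
    rfl
  rw [h1, hA, Matrix.charpoly_mul_comm, ← mul_assoc, hO', one_mul, Matrix.charpoly_diagonal]

lemma root_charpoly {V : Type} [Fintype V] [DecidableEq V] (A : Matrix V V ℤ)
    (O : Matrix V V ℝ) (lam : V → ℝ) (hO : O * Oᵀ = 1) (hA : toR A = O * diagonal lam * Oᵀ)
    (y : ℝ) : ev A.charpoly y = 0 ↔ ∃ j, lam j = y := by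
  rw [ev_eq_eval_map, charpoly_map_eq A O lam hO hA, Polynomial.eval_prod,
    Finset.prod_eq_zero_iff]
  simp only [Finset.mem_univ, true_and, Polynomial.eval_sub, Polynomial.eval_X,
    Polynomial.eval_C, sub_eq_zero]
  exact ⟨fun ⟨j, h⟩ => ⟨j, h.symm⟩, fun ⟨j, h⟩ => ⟨j, h.symm⟩⟩

lemma isIntegral_of_root {V : Type} [Fintype V] [DecidableEq V] (A : Matrix V V ℤ)
    (y : ℝ) (hy : ev A.charpoly y = 0) : IsIntegral ℤ y :=
  ⟨A.charpoly, A.charpoly_monic, by rwa [ev, Polynomial.aeval_def] at hy⟩

lemma minpoly_eq_of_root {x y : ℝ} (hx : IsIntegral ℤ x) (hy : IsIntegral ℤ y)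
    (h : ev (minpoly ℤ x) y = 0) : minpoly ℤ y = minpoly ℤ x := by
  have hdvd : minpoly ℤ y ∣ minpoly ℤ x := minpoly.isIntegrallyClosed_dvd hy h
  have hirr : Irreducible (minpoly ℤ x) := (minpoly.prime_of_isIntegrallyClosed hx).irreducible
  have hirr' : Irreducible (minpoly ℤ y) := (minpoly.prime_of_isIntegrallyClosed hy).irreducible
  have hass : Associated (minpoly ℤ y) (minpoly ℤ x) :=
    (hirr'.dvd_irreducible_iff_associated hirr).mp hdvd
  exact Polynomial.eq_of_monic_of_associated (minpoly.monic hy) (minpoly.monic hx) hass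

lemma conj_of_root {x y : ℝ} (hx : IsIntegral ℤ x) (hy : IsIntegral ℤ y)
    (h : ev (minpoly ℤ x) y = 0) : Conj x y := by
  intro g
  have heq := minpoly_eq_of_root hx hy h
  constructor
  · intro hg
    have hd : minpoly ℤ x ∣ g := minpoly.isIntegrallyClosed_dvd hx hg
    obtain ⟨q, rfl⟩ := hd
    have : ev (minpoly ℤ x * q) y = ev (minpoly ℤ x) y * ev q y := by simp [ev]
    rw [this, h, zero_mul]
  · intro hg
    have hd : minpoly ℤ y ∣ g := minpoly.isIntegrallyClosed_dvd hy hg
    rw [heq] at hd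
    obtain ⟨q, rfl⟩ := hd
    have h1 : ev (minpoly ℤ x * q) x = ev (minpoly ℤ x) x * ev q x := by simp [ev]
    have h2 : ev (minpoly ℤ x) x = 0 := minpoly.aeval ℤ x
    rw [h1, h2, zero_mul]

/-- MODULE CONJ-1. Norms of nonzero algebraic integers are at least one in absolute value. -/
theorem one_le_prod_orb {V : Type} [Fintype V] [DecidableEq V] (A : Matrix V V ℤ)
    (O : Matrix V V ℝ) (lam : V → ℝ) (hO : O * Oᵀ = 1) (hA : toR A = O * diagonal lam * Oᵀ)
    (i : V) (h : ℤ[X]) (hh : ev h (lam i) ≠ 0) :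
    1 ≤ ∏ y ∈ orb lam (lam i), |ev h y| := by
  classical
  set x := lam i with hxdef
  have hrx : ev A.charpoly x = 0 := (root_charpoly A O lam hO hA x).mpr ⟨i, rfl⟩
  have hx : IsIntegral ℤ x := isIntegral_of_root A x hrx
  set f := minpoly ℤ x with hf
  have hfd : f ∣ A.charpoly := minpoly.isIntegrallyClosed_dvd hx hrx
  have hmonic : f.Monic := minpoly.monic hx
  have hinj : Function.Injective (Int.castRingHom ℝ) := Int.cast_injective
  set fR := f.map (Int.castRingHom ℝ) with hfR
  have hfRm : fR.Monic := hmonic.map _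
  have hdR : fR ∣ ∏ j, (X - C (lam j)) := by
    rw [← charpoly_map_eq A O lam hO hA]
    exact Polynomial.map_dvd _ hfd
  have hprodne : (∏ j, (X - C (lam j)) : ℝ[X]) ≠ 0 :=
    Finset.prod_ne_zero_iff.mpr (fun j _ => Polynomial.X_sub_C_ne_zero _)
  have hsplits : fR.Splits := by
    apply Polynomial.Splits.of_dvd _ hprodne hdR
    exact Polynomial.Splits.prod (fun j _ => Polynomial.Splits.X_sub_C _)
  -- separability
  have hsep : fR.Separable := by
    have h1 : f.map (Int.castRingHom ℚ) = minpoly ℚ x := by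
      have := minpoly.isIntegrallyClosed_eq_field_fractions' ℚ hx
      rw [this]
      rfl
    have h2 : (minpoly ℚ x).Separable := (minpoly.irreducible
      (hx.tower_top (A := ℚ))).separable
    have h3 : fR = (minpoly ℚ x).map (algebraMap ℚ ℝ) := by
      rw [← h1, Polynomial.map_map]
      congr 1
    rw [h3]
    exact h2.map
  have hnodup : fR.roots.Nodup := Polynomial.nodup_roots hsep
  have horb : orb lam x = fR.roots.toFinset := by
    ext y
    rw [orb, Finset.mem_filter, Multiset.mem_toFinset, Polynomial.mem_roots hfRm.ne_zero,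
      Polynomial.IsRoot.def, hfR, ← ev_eq_eval_map]
    constructor
    · rintro ⟨-, hc⟩
      exact (hc f).mp (minpoly.aeval ℤ x)
    · intro hy
      have hry : ev A.charpoly y = 0 := by
        obtain ⟨q, hq⟩ := hfd
        rw [hq]
        have : ev (f * q) y = ev f y * ev q y := by simp [ev]
        rw [this, hy, zero_mul]
      obtain ⟨j, hj⟩ := (root_charpoly A O lam hO hA y).mp hry
      exact ⟨Finset.mem_image.mpr ⟨j, Finset.mem_univ _, hj⟩,
        conj_of_root hx (isIntegral_of_root A y hry) hy⟩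
  have hprod : ∏ y ∈ orb lam x, ev h y = ((resultant f h f.natDegree h.natDegree : ℤ) : ℝ) := by
    have h1 := resultant_eq_prod_eval fR (h.map (Int.castRingHom ℝ)) h.natDegree
      (Polynomial.natDegree_map_le) hsplits
    rw [hfRm.leadingCoeff, one_pow, one_mul] at h1
    have h2 : fR.natDegree = f.natDegree := hmonic.natDegree_map _
    rw [h2, hfR, resultant_map_map] at h1
    have h3 : ∏ y ∈ orb lam x, ev h y = (fR.roots.map (fun y => ev h y)).prod := by
      rw [horb, Finset.prod, Multiset.toFinset_val, hnodup.dedup]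
    rw [h3]
    have h4 : (fR.roots.map (fun y => ev h y)) =
        fR.roots.map (fun y => (h.map (Int.castRingHom ℝ)).eval y) := by
      apply Multiset.map_congr rfl
      intro y _
      exact ev_eq_eval_map h y
    rw [h4]
    exact h1.symm
  have hne : ∏ y ∈ orb lam x, ev h y ≠ 0 := by
    rw [Finset.prod_ne_zero_iff]
    intro y hy hy0
    have hc : Conj x y := (Finset.mem_filter.mp hy).2
    exact hh ((hc h).mpr hy0)
  rw [← Finset.abs_prod, hprod, ← Int.cast_abs]
  rw [hprod] at hne
  have hne' : resultant f h f.natDegree h.natDegree ≠ 0 := by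
    intro h0
    rw [h0] at hne
    exact hne (by simp)
  exact_mod_cast Int.one_le_abs hne'

lemma mult_eq {V : Type} [Fintype V] [DecidableEq V] (A : Matrix V V ℤ)
    (O : Matrix V V ℝ) (lam : V → ℝ) (hO : O * Oᵀ = 1) (hA : toR A = O * diagonal lam * Oᵀ)
    (x : ℝ) : mult lam x = (A.charpoly.map (Int.castRingHom ℝ)).rootMultiplicity x := by
  classical
  rw [← Polynomial.count_roots, charpoly_map_eq A O lam hO hA, Polynomial.roots_prod _ _
    (Finset.prod_ne_zero_iff.mpr (fun j _ => Polynomial.X_sub_C_ne_zero _))]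
  simp only [Polynomial.roots_X_sub_C]
  rw [Multiset.count_bind, mult, Finset.card_filter]
  rw [Finset.sum_map_val]
  apply Finset.sum_congr rfl
  intro j _
  rw [Multiset.count_singleton]
  by_cases hj : lam j = x
  · simp [hj]
  · rw [if_neg hj, if_neg (Ne.symm hj)]

/-- MODULE CONJ-2. Conjugate eigenvalues have equal multiplicities. -/
theorem conj_mult {V : Type} [Fintype V] [DecidableEq V] (A : Matrix V V ℤ)
    (O : Matrix V V ℝ) (lam : V → ℝ) (hO : O * Oᵀ = 1) (hA : toR A = O * diagonal lam * Oᵀ)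
    (x y : ℝ) (hxy : Conj x y) : mult lam x = mult lam y := by
  rw [mult_eq A O lam hO hA, mult_eq A O lam hO hA]
  set p := A.charpoly.map (Int.castRingHom ℝ) with hp
  have hpne : p ≠ 0 := (A.charpoly_monic.map _).ne_zero
  have key : ∀ n : ℕ, n < p.rootMultiplicity x ↔ n < p.rootMultiplicity y := by
    intro n
    rw [Polynomial.lt_rootMultiplicity_iff_isRoot_iterate_derivative hpne,
      Polynomial.lt_rootMultiplicity_iff_isRoot_iterate_derivative hpne]
    apply forall_congr'
    intro m
    apply imp_congr_right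
    intro _
    rw [hp, Polynomial.iterate_derivative_map, Polynomial.IsRoot.def, Polynomial.IsRoot.def,
      ← ev_eq_eval_map, ← ev_eq_eval_map]
    exact hxy _
  apply le_antisymm
  · by_contra hlt
    push Not at hlt
    exact lt_irrefl _ ((key _).mp hlt)
  · by_contra hlt
    push Not at hlt
    exact lt_irrefl _ ((key _).mpr hlt)

end Pool.Agent.H18.Cage
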