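import Pool.Agent.H18.Cage.FinDefs

/-! Module EIG. -/

set_option autoImplicit false

namespace Pool.Agent.H18.Cage

open Polynomial Matrix Finset

lemma evM_isHermitian {V : Type} (P : Matrix V V ℤ[X]) (hP : P.IsSymm) (x : ℝ) :
    (evM P x).IsHermitian := by
  ext i j
  have h : P j i = P i j := by
    have := congrFun (congrFun hP i) j
    simpa [Matrix.transpose_apply] using this
  simp [evM, h]

lemma eigs_eq {V : Type} [Fintype V] [DecidableEq V] (P : Matrix V V ℤ[X])
    (hP : P.IsSymm) (x : ℝ) :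
    eigs P x = (univ : Finset V).val.map (evM_isHermitian P hP x).eigenvalues := by
  unfold eigs
  rw [(evM_isHermitian P hP x).roots_charpoly_eq_eigenvalues]
  simp

/-- MODULE EIG. Basic facts for symmetric polynomial matrices. -/
theorem card_eigs {V : Type} [Fintype V] [DecidableEq V] (P : Matrix V V ℤ[X])
    (hP : P.IsSymm) (x : ℝ) : (eigs P x).card = Fintype.card V := by
  rw [eigs_eq P hP x, Multiset.card_map]
  rfl

theorem abs_eigs_le {V : Type} [Fintype V] [DecidableEq V] (P : Matrix V V ℤ[X])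
    (hP : P.IsSymm) (x : ℝ) (K : ℝ) (hrow : ∀ u, ∑ v, |ev (P u v) x| ≤ K) :
    ∀ y ∈ eigs P x, |y| ≤ K := by
  intro y hy
  have hroot : (evM P x).charpoly.IsRoot y := by
    unfold eigs at hy
    exact Polynomial.isRoot_of_mem_roots hy
  have hev : Module.End.HasEigenvalue (Matrix.toLin' (evM P x)) y := by
    rw [Module.End.hasEigenvalue_iff_isRoot_charpoly, Matrix.charpoly_toLin']
    exact hroot
  obtain ⟨k, hk⟩ := eigenvalue_mem_ball hev
  rw [Metric.mem_closedBall, Real.dist_eq] at hk
  have h1 : |y| ≤ |y - evM P x k k| + |evM P x k k| := by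
    have := abs_add_le (y - evM P x k k) (evM P x k k)
    rwa [sub_add_cancel] at this
  have h2 : ∑ v, |ev (P k v) x| =
      ∑ j ∈ univ.erase k, ‖evM P x k j‖ + |evM P x k k| := by
    rw [← Finset.sum_erase_add univ _ (Finset.mem_univ k)]
    rfl
  have h3 := hrow k
  rw [h2] at h3
  linarith

theorem trace_pow_eigs {V : Type} [Fintype V] [DecidableEq V] (P : Matrix V V ℤ[X])
    (hP : P.IsSymm) (x : ℝ) (j : ℕ) :
    ((evM P x) ^ j).trace = ((eigs P x).map (fun y => y ^ j)).sum := by
  have hH := evM_isHermitian P hP x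
  rw [eigs_eq P hP x, Multiset.map_map]
  have hs := hH.spectral_theorem
  conv_lhs => rw [hs, ← map_pow, Unitary.conjStarAlgAut_apply, Matrix.trace_mul_comm, ← mul_assoc]
  simp [Matrix.diagonal_pow, Matrix.trace_diagonal]

end Pool.Agent.H18.Cage
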