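import Pool.Agent.H18.Cage.Conj12
import Pool.Agent.H18.Cage.EigM

/-! Modules CONJ-3 and CONJ-4. -/

set_option autoImplicit false

namespace Pool.Agent.H18.Cage

open Polynomial Matrix Finset

namespace Conj34Aux

/-- Evaluation as a ring homomorphism. -/
noncomputable def evh (x : ℝ) : ℤ[X] →+* ℝ := (aeval x : ℤ[X] →ₐ[ℤ] ℝ).toRingHom

theorem evh_apply (x : ℝ) (p : ℤ[X]) : evh x p = ev p x := rfl

/-- The characteristic polynomial translated by `-Wp`. -/
noncomputable def Gt {V : Type} [Fintype V] [DecidableEq V] (P : Matrix V V ℤ[X]) (Wp : ℤ[X]) :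
    ℤ[X][X] := taylor (-Wp) P.charpoly

variable {V : Type} [Fintype V] [DecidableEq V] (P : Matrix V V ℤ[X]) (Wp : ℤ[X])

theorem charpoly_evM (x : ℝ) : (evM P x).charpoly = P.charpoly.map (evh x) := by
  rw [← Matrix.charpoly_map]
  rfl

theorem map_Gt (x : ℝ) : (Gt P Wp).map (evh x) = taylor (-ev Wp x) (evM P x).charpoly := by
  rw [Gt, map_taylor, charpoly_evM, map_neg, evh_apply]

theorem count_eq (x : ℝ) :
    (eigs P x).count (- ev Wp x) = ((Gt P Wp).map (evh x)).natTrailingDegree := by
  classical
  rw [map_Gt, eigs, count_roots, rootMultiplicity_eq_natTrailingDegree, taylor_apply]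

theorem support_eq {x y : ℝ} (hxy : Conj x y) :
    ((Gt P Wp).map (evh x)).support = ((Gt P Wp).map (evh y)).support := by
  ext k
  rw [mem_support_iff, mem_support_iff, coeff_map, coeff_map, evh_apply, evh_apply, Ne, Ne,
    hxy]

theorem natTrailingDegree_eq_of_support {f g : ℝ[X]} (h : f.support = g.support) :
    f.natTrailingDegree = g.natTrailingDegree := by
  by_cases hf : f = 0
  · have hg : g = 0 := by
      rw [← Polynomial.support_eq_empty, ← h, hf, Polynomial.support_zero]
    rw [hf, hg]
  · have hg : g ≠ 0 := by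
      intro hg
      apply hf
      rw [← Polynomial.support_eq_empty, h, hg, Polynomial.support_zero]
    rw [natTrailingDegree_eq_support_min' hf, natTrailingDegree_eq_support_min' hg]
    congr 1

theorem taylor_prod (c : ℝ) (s : Multiset ℝ) :
    taylor c ((s.map (fun w => X - C w)).prod) =
      X ^ (s.count c) * ((s.filter (fun w => w ≠ c)).map (fun w => X + C (c - w))).prod := by
  induction s using Multiset.induction_on with
  | empty => simp
  | cons a s ih =>
    rw [Multiset.map_cons, Multiset.prod_cons, taylor_mul, ih]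
    by_cases h : a = c
    · subst h
      have h1 : (a ::ₘ s).filter (fun w => w ≠ a) = s.filter (fun w => w ≠ a) :=
        Multiset.filter_cons_of_neg s (fun hh => hh rfl)
      rw [Multiset.count_cons_self, h1]
      simp only [map_sub, taylor_X, taylor_C]
      ring
    · have h1 : (a ::ₘ s).filter (fun w => w ≠ c) = a ::ₘ s.filter (fun w => w ≠ c) :=
        Multiset.filter_cons_of_pos s h
      rw [Multiset.count_cons_of_ne (Ne.symm h), h1, Multiset.map_cons, Multiset.prod_cons]
      simp only [map_sub, taylor_X, taylor_C]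
      ring

theorem coeff_taylor_prod (c : ℝ) (s : Multiset ℝ) :
    (taylor c ((s.map (fun w => X - C w)).prod)).coeff (s.count c) =
      ((s.filter (fun w => w ≠ c)).map (fun w => c - w)).prod := by
  rw [taylor_prod, coeff_X_pow_mul', if_pos le_rfl, Nat.sub_self, coeff_zero_eq_eval_zero,
    eval_multiset_prod, Multiset.map_map]
  congr 1
  apply Multiset.map_congr rfl
  intro w _
  simp

theorem charpoly_eq_prod (hP : P.IsSymm) (x : ℝ) :
    (evM P x).charpoly = ((eigs P x).map (fun w => X - C w)).prod := by
  have hsplit : ((evM P x).charpoly).Splits := by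
    rw [splits_iff_card_roots, (evM P x).charpoly_natDegree_eq_dim]
    exact card_eigs P hP x
  exact hsplit.eq_prod_roots_of_monic (evM P x).charpoly_monic

theorem ev_coeff (hP : P.IsSymm) (x : ℝ) :
    ev ((Gt P Wp).coeff ((eigs P x).count (- ev Wp x))) x =
      (((eigs P x).filter (fun w => w ≠ - ev Wp x)).map (fun w => - ev Wp x - w)).prod := by
  rw [← evh_apply, ← coeff_map, map_Gt, charpoly_eq_prod P hP x, coeff_taylor_prod]

theorem abs_prod_map (s : Multiset ℝ) (f : ℝ → ℝ) :
    |(s.map f).prod| = (s.map (fun w => |f w|)).prod := by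
  induction s using Multiset.induction_on with
  | empty => simp
  | cons a s ih =>
    rw [Multiset.map_cons, Multiset.prod_cons, Multiset.map_cons, Multiset.prod_cons, abs_mul, ih]

theorem prod_bound (s : Multiset ℝ) (g : ℝ → ℝ) (K ε : ℝ) (hK : 1 ≤ K) (hε : 0 < ε)
    (p : ℝ → Prop) [DecidablePred p]
    (h0 : ∀ w ∈ s, 0 ≤ g w) (h1 : ∀ w ∈ s, g w ≤ K) (h2 : ∀ w ∈ s, p w → g w ≤ ε) :
    (s.map g).prod ≤ ε ^ (s.filter p).card * K ^ s.card := by
  induction s using Multiset.induction_on with
  | empty => simp
  | cons a s ih =>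
    have ih' := ih (fun w hw => h0 w (Multiset.mem_cons_of_mem hw))
      (fun w hw => h1 w (Multiset.mem_cons_of_mem hw))
      (fun w hw => h2 w (Multiset.mem_cons_of_mem hw))
    have hs0 : 0 ≤ (s.map g).prod := by
      apply Multiset.prod_nonneg
      intro a ha
      obtain ⟨w, hw, rfl⟩ := Multiset.mem_map.1 ha
      exact h0 w (Multiset.mem_cons_of_mem hw)
    have hrhs : 0 ≤ ε ^ (s.filter p).card * K ^ s.card := by positivity
    rw [Multiset.map_cons, Multiset.prod_cons, Multiset.card_cons]
    have ha0 := h0 a (Multiset.mem_cons_self _ _)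
    by_cases hp : p a
    · rw [Multiset.filter_cons_of_pos _ hp, Multiset.card_cons]
      have ha := h2 a (Multiset.mem_cons_self _ _) hp
      calc g a * (s.map g).prod ≤ ε * (ε ^ (s.filter p).card * K ^ s.card) :=
            mul_le_mul ha ih' hs0 hε.le
        _ ≤ ε * (ε ^ (s.filter p).card * K ^ s.card) * K := by
            have : 0 ≤ ε * (ε ^ (s.filter p).card * K ^ s.card) := by positivity
            nlinarith
        _ = ε ^ ((s.filter p).card + 1) * K ^ (s.card + 1) := by ring
    · rw [Multiset.filter_cons_of_neg _ hp]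
      have ha := h1 a (Multiset.mem_cons_self _ _)
      calc g a * (s.map g).prod ≤ K * (ε ^ (s.filter p).card * K ^ s.card) :=
            mul_le_mul ha ih' hs0 (by linarith)
        _ = ε ^ ((s.filter p).card) * K ^ (s.card + 1) := by ring

end Conj34Aux

open Conj34Aux

/-- MODULE CONJ-3. Multiplicity in the polynomial matrix is the same at conjugate points. -/
theorem conj_count {V : Type} [Fintype V] [DecidableEq V] (P : Matrix V V ℤ[X]) (Wp : ℤ[X])
    (x y : ℝ) (hxy : Conj x y) :
    (eigs P x).count (- ev Wp x) = (eigs P y).count (- ev Wp y) := by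
  rw [count_eq, count_eq]
  exact natTrailingDegree_eq_of_support (support_eq P Wp hxy)

open scoped Classical in
/-- MODULE CONJ-4. On average over the conjugates there are few eigenvalues of the polynomial
matrix which are close but not equal to `- Wp`. -/
theorem near_avg {V : Type} [Fintype V] [DecidableEq V] (A : Matrix V V ℤ)
    (O : Matrix V V ℝ) (lam : V → ℝ) (hO : O * Oᵀ = 1) (hA : toR A = O * diagonal lam * Oᵀ)
    (P : Matrix V V ℤ[X]) (hP : P.IsSymm) (Wp : ℤ[X]) (K : ℝ) (hK : 1 ≤ K)
    (i : V) (hrow : ∀ y ∈ orb lam (lam i), ∀ u, ∑ v, |ev (P u v) y| ≤ K)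
    (hW : ∀ y ∈ orb lam (lam i), |ev Wp y| ≤ K) (ε : ℝ) (hε : 0 < ε) (hε1 : ε < 1) :
    (∑ y ∈ orb lam (lam i),
      (((eigs P y).filter (fun w => w ≠ - ev Wp y ∧ |w + ev Wp y| ≤ ε)).card : ℝ))
        * Real.log (1 / ε)
      ≤ (orb lam (lam i)).card * (Fintype.card V * Real.log (2 * K)) := by
  have hconj : ∀ y ∈ orb lam (lam i), Conj (lam i) y := by
    intro y hy
    unfold orb at hy
    exact (Finset.mem_filter.1 hy).2
  set k := (eigs P (lam i)).count (- ev Wp (lam i)) with hk
  set h : ℤ[X] := (Gt P Wp).coeff k with hh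
  -- the value of `h` at conjugate points
  have hval : ∀ y, Conj (lam i) y → ev h y =
      (((eigs P y).filter (fun w => w ≠ - ev Wp y)).map (fun w => - ev Wp y - w)).prod := by
    intro y hy
    rw [hh, hk, conj_count P Wp (lam i) y hy]
    exact ev_coeff P Wp hP y
  have hne : ev h (lam i) ≠ 0 := by
    rw [hval (lam i) (fun _ => Iff.rfl)]
    intro h0
    rw [Multiset.prod_eq_zero_iff] at h0
    obtain ⟨w, hw, hw'⟩ := Multiset.mem_map.1 h0
    have h1 := (Multiset.mem_filter.1 hw).2
    apply h1
    linarith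
  have hprod := one_le_prod_orb A O lam hO hA i h hne
  -- upper bound for each factor
  set near : ℝ → ℕ := fun y =>
    ((eigs P y).filter (fun w => w ≠ - ev Wp y ∧ |w + ev Wp y| ≤ ε)).card with hnear
  have hfac : ∀ y ∈ orb lam (lam i), |ev h y| ≤ ε ^ (near y) * (2 * K) ^ (Fintype.card V) := by
    intro y hy
    rw [hval y (hconj y hy), abs_prod_map]
    have hc := hW y hy
    have h3 := prod_bound ((eigs P y).filter (fun w => w ≠ - ev Wp y))
      (fun w => |- ev Wp y - w|) (2 * K) ε (by linarith) hε (fun w => |w + ev Wp y| ≤ ε)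
      (fun w _ => abs_nonneg _)
      (fun w hw => by
        have h4 := abs_eigs_le P hP y K (hrow y hy) w (Multiset.mem_filter.1 hw).1
        calc |- ev Wp y - w| ≤ |- ev Wp y| + |w| := abs_sub _ _
          _ ≤ K + K := by rw [abs_neg]; exact add_le_add hc h4
          _ = 2 * K := by ring)
      (fun w _ hw => by
        have h5 : - ev Wp y - w = - (w + ev Wp y) := by ring
        show |- ev Wp y - w| ≤ ε
        rw [h5, abs_neg]
        exact hw)
    have h6 : ((eigs P y).filter (fun w => w ≠ - ev Wp y)).filter (fun w => |w + ev Wp y| ≤ ε)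
        = (eigs P y).filter (fun w => w ≠ - ev Wp y ∧ |w + ev Wp y| ≤ ε) := by
      rw [Multiset.filter_filter]
      apply Multiset.filter_congr
      intro w _
      exact and_comm
    rw [h6] at h3
    refine h3.trans ?_
    apply mul_le_mul_of_nonneg_left _ (by positivity)
    apply pow_le_pow_right₀ (by linarith)
    rw [← card_eigs P hP y]
    exact Multiset.card_le_card (Multiset.filter_le _ _)
  have hpos : ∀ y ∈ orb lam (lam i), 0 < |ev h y| := by
    intro y hy
    rw [abs_pos]
    intro h0
    exact hne ((hconj y hy h).2 h0)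
  have hsum : 0 ≤ ∑ y ∈ orb lam (lam i), Real.log |ev h y| := by
    rw [← Real.log_prod (fun y hy => (hpos y hy).ne')]
    exact Real.log_nonneg hprod
  have hlog : ∀ y ∈ orb lam (lam i), Real.log |ev h y| ≤
      -((near y : ℝ) * Real.log (1 / ε)) + Fintype.card V * Real.log (2 * K) := by
    intro y hy
    have h1 := Real.log_le_log (hpos y hy) (hfac y hy)
    rw [Real.log_mul (by positivity) (by positivity), Real.log_pow, Real.log_pow] at h1
    rw [one_div, Real.log_inv]
    linarith
  have h2 := hsum.trans (Finset.sum_le_sum hlog)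
  rw [Finset.sum_add_distrib, Finset.sum_neg_distrib, Finset.sum_const, nsmul_eq_mul,
    ← Finset.sum_mul] at h2
  linarith

end Pool.Agent.H18.Cage
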