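import Mathlib

/-! Definitions for the cage project (bounded excess, degree five). -/

set_option autoImplicit false

namespace Pool.Agent.H18.Cage

open Polynomial Matrix Finset

/-- `U 0 = 1, U 1 = X, U (n+2) = X * U (n+1) - 4 * U n`. -/
noncomputable def U : ℕ → ℤ[X]
  | 0 => 1
  | 1 => X
  | (n + 2) => X * U (n + 1) - 4 * U n

/-- `F t` evaluated at the adjacency matrix is the distance-`t` matrix in the tree range. -/
noncomputable def F : ℕ → ℤ[X]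
  | 0 => 1
  | 1 => X
  | 2 => X ^ 2 - 5
  | (n + 3) => X * F (n + 2) - 4 * F (n + 1)

/-- `Gp n = F 0 + ... + F n`. -/
noncomputable def Gp (n : ℕ) : ℤ[X] := ∑ t ∈ range (n + 1), F t

/-- `S n = U 0 + ... + U (n-1)`. -/
noncomputable def S (n : ℕ) : ℤ[X] := ∑ i ∈ range n, U i

/-- The relation polynomial; `s = 0` for odd girth `2r+3`, `s = 4` for even girth `2r+2`. -/
noncomputable def W (s : ℤ) (r : ℕ) : ℤ[X] := Gp (r + 1) + C s * Gp r

/-- Coefficients of the divided difference of `W` in the basis `F`. -/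
noncomputable def kap (s : ℤ) (r t : ℕ) : ℤ[X] := S (r + 1 - t) + C s * S (r - t)

/-- Real evaluation of an integer polynomial. -/
noncomputable def ev (p : ℤ[X]) (x : ℝ) : ℝ := aeval x p

/-- Divided difference kernel: `(x - z) * Kr s r x z = ev (W s r) x - ev (W s r) z`. -/
noncomputable def Kr (s : ℤ) (r : ℕ) (x z : ℝ) : ℝ :=
  ∑ t ∈ range (r + 1), ev (F t) x * ev (kap s r t) z

/-- Density weight. -/
noncomputable def wt (z : ℝ) : ℝ := 5 * (16 - z ^ 2) / (2 * (25 - z ^ 2))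

/-- Integer matrix to real matrix. -/
def toR {ι : Type} (M : Matrix ι ι ℤ) : Matrix ι ι ℝ := M.map (Int.cast : ℤ → ℝ)

/-- Real evaluation of a matrix of integer polynomials. -/
noncomputable def evM {ι : Type} (P : Matrix ι ι ℤ[X]) (x : ℝ) : Matrix ι ι ℝ :=
  P.map (fun p => ev p x)

/-- `G` is connected, `5`-regular and looks like a tree up to distance `r`. -/
structure TreeLike {V : Type} [Fintype V] [DecidableEq V] (G : SimpleGraph V)
    [DecidableRel G.Adj] (r : ℕ) : Prop where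
  conn : G.Connected
  deg : G.IsRegularOfDegree 5
  tree : ∀ u w w1 w2 : V, G.dist u w ≤ r → G.Adj w w1 → G.Adj w w2 →
    G.dist u w1 ≤ G.dist u w → G.dist u w2 ≤ G.dist u w → w1 = w2

/-- The excess matrix data of a graph of bounded excess. -/
structure Setup {V : Type} [Fintype V] [DecidableEq V] (G : SimpleGraph V)
    [DecidableRel G.Adj] (s : ℤ) (r D : ℕ) (E : Matrix V V ℤ) : Prop where
  tl : TreeLike G r
  hs : s = 0 ∨ s = 4
  nonneg : ∀ u v, 0 ≤ E u v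
  symm : E.IsSymm
  row : ∀ u, ∑ v, E u v ≤ (D : ℤ)
  far : ∀ u v, G.dist u v ≤ r → E u v = 0
  rel : aeval (G.adjMatrix ℤ) (W s r) + E = (1 + s) • Matrix.of (fun _ _ => (1 : ℤ))

/-- Simultaneous diagonalization data. -/
structure Spec {V : Type} [Fintype V] [DecidableEq V] (A E : Matrix V V ℤ) (Wp : ℤ[X]) (D : ℕ)
    (O : Matrix V V ℝ) (lam mu : V → ℝ) (i0 : V) : Prop where
  O1 : O * Oᵀ = 1
  O2 : Oᵀ * O = 1
  hA : toR A = O * diagonal lam * Oᵀ
  hE : toR E = O * diagonal mu * Oᵀ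
  lam0 : lam i0 = 5
  mu_eq : ∀ i, i ≠ i0 → mu i = - ev Wp (lam i)
  mu_le : ∀ i, |mu i| ≤ D
  lam_le : ∀ i, |lam i| ≤ 5

/-- The indices whose eigenvalue is close to `z`. -/
noncomputable def cl {V : Type} [Fintype V] (r : ℕ) (lam : V → ℝ) (z : ℝ) : Finset V := by
  classical
  exact univ.filter (fun j => |lam j - z| < 1 / ((r : ℝ) + 1) ^ 5)

/-- Multiplicity of a value. -/
noncomputable def mult {V : Type} [Fintype V] (lam : V → ℝ) (x : ℝ) : ℕ := by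
  classical
  exact (univ.filter (fun j => lam j = x)).card

/-- The nonexceptional indices. -/
noncomputable def nex {V : Type} [Fintype V] (lam : V → ℝ) : Finset V := by
  classical
  exact univ.filter (fun j => |lam j| ≤ 4)

/-- Representation of the rows of powers of `E` by a symmetric integer polynomial matrix. -/
structure PolyRep {V : Type} [Fintype V] [DecidableEq V] (G : SimpleGraph V)
    [DecidableRel G.Adj] (E : Matrix V V ℤ) (D C b r : ℕ) (ε : ℝ)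
    (P : Matrix V V ℤ[X]) (Typ : Finset V) : Prop where
  symm : P.IsSymm
  deg : ∀ u v, (P u v).natDegree ≤ D
  row : ∀ x : ℝ, |x| ≤ 5 → ∀ u, ∑ v, |ev (P u v) x| ≤ C
  nonneg : ∀ u v x y, 0 ≤ (aeval (G.adjMatrix ℤ) (P u v)) x y
  typ : ((Typᶜ).card : ℝ) * (r + 1) ≤ ε * Fintype.card V
  rep : ∀ v ∈ Typ, ∀ j ≤ b, ∀ w,
    (E ^ j) w v = ∑ m, (aeval (G.adjMatrix ℤ) ((P ^ j) m v)) w m
  far : ∀ v ∈ Typ, ∀ j ≤ b, ∀ m, m ≠ v → (P ^ j) m v ≠ 0 → r ≤ 4 * G.dist v m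

/-- All the information used in the final arithmetic argument. -/
structure Model {V : Type} [Fintype V] [DecidableEq V] (A E : Matrix V V ℤ) (Wp : ℤ[X])
    (P : Matrix V V ℤ[X]) (O : Matrix V V ℝ) (lam mu : V → ℝ) (i0 : V)
    (D C b r : ℕ) (ε : ℝ) : Prop where
  spec : Spec A E Wp D O lam mu i0
  Psymm : P.IsSymm
  Pdeg : ∀ u v, (P u v).natDegree ≤ D
  Prow : ∀ x : ℝ, |x| ≤ 5 → ∀ u, ∑ v, |ev (P u v) x| ≤ C
  exc : (((nex lam)ᶜ).card : ℝ) * (r + 1) ≤ ε * Fintype.card V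
  sep : ∀ z : ℝ, |z| ≤ 4 → |ev Wp z| ≤ D → ∀ j ∈ cl r lam z,
    |lam j| ≤ 4 ∧ |lam j - z| * 2 ^ r ≤ |mu j + ev Wp z|
  quad : ∀ z : ℝ, |z| ≤ 4 → |ev Wp z| ≤ D → ∀ j ≤ b,
    |∑ i ∈ cl r lam z, mu i ^ j - wt z / (r + 1) * ((evM P z) ^ j).trace|
      ≤ ε * Fintype.card V / (r + 1)
  key : (1 / 20 : ℝ) * (Fintype.card V : ℝ) ^ 2 / (r + 1) ≤ ∑ i ∈ nex lam, (mult lam (lam i) : ℝ)
  zeros : ∃ Z : Finset ℝ, ((r : ℝ) + 1) / 1000 ≤ Z.card ∧
    (∀ z ∈ Z, |z| ≤ 1 / 20 ∧ ev Wp z = 0) ∧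
    (∀ z ∈ Z, ∀ z' ∈ Z, z ≠ z' → 2 / ((r : ℝ) + 1) ^ 5 ≤ |z - z'|)

end Pool.Agent.H18.Cage
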