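import Pool.Agent.H18.Cage.FinDefs

/-! Module EVMAT. -/

set_option autoImplicit false

namespace Pool.Agent.H18.Cage

open Polynomial Matrix Finset

section

variable {V : Type} [Fintype V] [DecidableEq V]

/-- `toR` as an algebra homomorphism. -/
noncomputable def toRHom (V : Type) [Fintype V] [DecidableEq V] :
    Matrix V V ℤ →ₐ[ℤ] Matrix V V ℝ := (Algebra.ofId ℤ ℝ).mapMatrix

lemma toRHom_apply (M : Matrix V V ℤ) : toRHom V M = toR M := by
  ext i j
  simp [toRHom, toR]

lemma toR_mul' (M N : Matrix V V ℤ) : toR (M * N) = toR M * toR N := by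
  rw [← toRHom_apply, ← toRHom_apply, ← toRHom_apply, map_mul]

lemma toR_pow' (M : Matrix V V ℤ) (n : ℕ) : toR (M ^ n) = toR M ^ n := by
  rw [← toRHom_apply, ← toRHom_apply, map_pow]

lemma toR_aeval' (M : Matrix V V ℤ) (p : ℤ[X]) : toR (aeval M p) = aeval (toR M) p := by
  rw [← toRHom_apply, ← toRHom_apply, Polynomial.aeval_algHom_apply]

lemma toR_sum' {ι : Type} (s : Finset ι) (f : ι → Matrix V V ℤ) :
    toR (∑ i ∈ s, f i) = ∑ i ∈ s, toR (f i) := by
  simp_rw [← toRHom_apply]
  rw [map_sum]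

lemma evm_conj_pow (O : Matrix V V ℝ) (d : V → ℝ) (hO : O * Oᵀ = 1) (hO' : Oᵀ * O = 1) (n : ℕ) :
    (O * diagonal d * Oᵀ) ^ n = O * diagonal (fun i => d i ^ n) * Oᵀ := by
  induction n with
  | zero => simp [hO]
  | succ n ih =>
    rw [pow_succ, ih]
    calc O * diagonal (fun i => d i ^ n) * Oᵀ * (O * diagonal d * Oᵀ)
        = O * diagonal (fun i => d i ^ n) * (Oᵀ * O) * diagonal d * Oᵀ := by
          simp only [Matrix.mul_assoc]
      _ = O * (diagonal (fun i => d i ^ n) * diagonal d) * Oᵀ := by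
          rw [hO', Matrix.mul_one, Matrix.mul_assoc O]
      _ = _ := by
          rw [Matrix.diagonal_mul_diagonal]
          simp_rw [← pow_succ]

lemma conj_aeval (O : Matrix V V ℝ) (d : V → ℝ) (hO : O * Oᵀ = 1) (hO' : Oᵀ * O = 1)
    (p : ℤ[X]) :
    aeval (O * diagonal d * Oᵀ) p = O * diagonal (fun i => ev p (d i)) * Oᵀ := by
  induction p using Polynomial.induction_on' with
  | add p q hp hq =>
    rw [map_add, hp, hq, ← Matrix.add_mul, ← Matrix.mul_add, Matrix.diagonal_add]
    simp [ev]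
  | monomial n a =>
    rw [Polynomial.aeval_monomial, evm_conj_pow O d hO hO']
    have h1 : (algebraMap ℤ (Matrix V V ℝ)) a = (a : ℝ) • (1 : Matrix V V ℝ) := by
      rw [Algebra.algebraMap_eq_smul_one]
      ext i j
      simp [Matrix.smul_apply]
    rw [h1, Matrix.smul_mul, Matrix.one_mul]
    have h2 : (fun i => ev (monomial n a) (d i)) = fun i => (a : ℝ) * d i ^ n := by
      funext i
      simp [ev, Polynomial.aeval_monomial]
    rw [h2]
    have h3 : diagonal (fun i => (a : ℝ) * d i ^ n) = (a : ℝ) • diagonal (fun i => d i ^ n) := by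
      rw [← Matrix.diagonal_smul]
      rfl
    rw [h3, Matrix.mul_smul, Matrix.smul_mul]

/-- MODULE EVMAT. -/
theorem toR_evMat {V : Type} [Fintype V] [DecidableEq V] (Q : ℤ[X][X]) (A E : Matrix V V ℤ)
    (O : Matrix V V ℝ) (lam mu : V → ℝ) (hO : O * Oᵀ = 1) (hO' : Oᵀ * O = 1)
    (hA : toR A = O * diagonal lam * Oᵀ) (hE : toR E = O * diagonal mu * Oᵀ) :
    toR (evMat Q A E) = O * diagonal (fun i => ev2 Q (lam i) (mu i)) * Oᵀ := by
  have h2 : (fun i => ev2 Q (lam i) (mu i)) =
      fun i => ∑ j ∈ range (Q.natDegree + 1), ev (Q.coeff j) (lam i) * mu i ^ j := by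
    funext i
    rw [ev2, Polynomial.eval_map, Polynomial.eval₂_eq_sum_range]
    rfl
  rw [evMat, toR_sum', h2]
  have h3 : ∀ j, toR (aeval A (Q.coeff j) * E ^ j) =
      O * diagonal (fun i => ev (Q.coeff j) (lam i) * mu i ^ j) * Oᵀ := by
    intro j
    rw [toR_mul', toR_aeval', toR_pow', hA, hE, conj_aeval O lam hO hO', evm_conj_pow O mu hO hO']
    calc O * diagonal (fun i => ev (Q.coeff j) (lam i)) * Oᵀ *
          (O * diagonal (fun i => mu i ^ j) * Oᵀ)
        = O * diagonal (fun i => ev (Q.coeff j) (lam i)) * (Oᵀ * O) *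
            diagonal (fun i => mu i ^ j) * Oᵀ := by
          simp only [Matrix.mul_assoc]
      _ = O * (diagonal (fun i => ev (Q.coeff j) (lam i)) * diagonal (fun i => mu i ^ j)) *
            Oᵀ := by
          rw [hO', Matrix.mul_one, Matrix.mul_assoc O]
      _ = _ := by
          rw [Matrix.diagonal_mul_diagonal]
  simp_rw [h3]
  rw [← Finset.sum_mul, ← Finset.mul_sum]
  congr 2
  ext i j
  by_cases h : i = j
  · subst h
    simp [Matrix.sum_apply]
  · simp [Matrix.sum_apply, h]

end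

end Pool.Agent.H18.Cage
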