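import Pool.Agent.H18.Cage.Poly

/-! Definitions for the arithmetic modules. -/

set_option autoImplicit false

namespace Pool.Agent.H18.Cage

open Polynomial Matrix Finset

/-- `x` and `y` satisfy the same integer polynomial equations. -/
def Conj (x y : ℝ) : Prop := ∀ h : ℤ[X], ev h x = 0 ↔ ev h y = 0

open scoped Classical in
/-- The values of `lam` conjugate to `x`. -/
noncomputable def orb {V : Type} [Fintype V] (lam : V → ℝ) (x : ℝ) : Finset ℝ :=
  (univ.image lam).filter (fun y => Conj x y)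

/-- Multiset of eigenvalues of the polynomial matrix at `x`. -/
noncomputable def eigs {V : Type} [Fintype V] [DecidableEq V] (P : Matrix V V ℤ[X]) (x : ℝ) :
    Multiset ℝ := (evM P x).charpoly.roots

/-- The matrix `B ⊗ 1 - 1 ⊗ B`. -/
noncomputable def kronDiff {V : Type} [Fintype V] [DecidableEq V] (P : Matrix V V ℤ[X]) :
    Matrix (V × V) (V × V) ℤ[X] :=
  kroneckerMap (· * ·) P 1 - kroneckerMap (· * ·) 1 P

/-- Real evaluation of a bivariate integer polynomial (inner variable `x`, outer variable `y`). -/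
noncomputable def ev2 (Q : ℤ[X][X]) (x y : ℝ) : ℝ :=
  (Q.map (aeval x : ℤ[X] →ₐ[ℤ] ℝ).toRingHom).eval y

/-- A factor of the characteristic polynomial with large multiplicity. -/
structure GenQ {V : Type} [Fintype V] [DecidableEq V] (P : Matrix V V ℤ[X])
    (Q P1 : ℤ[X][X]) (M : ℕ) (x0 : ℝ) : Prop where
  monic : Q.Monic
  pos : 0 < Q.natDegree
  fac : P.charpoly = Q ^ M * P1
  simple : ∀ y : ℝ, ev2 Q x0 y = 0 → ev2 (derivative Q) x0 y ≠ 0 ∧ ev2 P1 x0 y ≠ 0

/-- The integer matrix `Q (A, E)`. -/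
noncomputable def evMat {V : Type} [Fintype V] [DecidableEq V] (Q : ℤ[X][X])
    (A E : Matrix V V ℤ) : Matrix V V ℤ :=
  ∑ j ∈ range (Q.natDegree + 1), aeval A (Q.coeff j) * E ^ j

end Pool.Agent.H18.Cage
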