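import Pool.Agent.H18.Cage.FinalC
import Pool.Agent.H18.Cage.Conj34

/-! Module FINAL-A. -/

set_option autoImplicit false

namespace Pool.Agent.H18.Cage

open Polynomial Matrix Finset

theorem wt_bounds {x : ℝ} (hx : |x| ≤ 4) : 0 ≤ wt x ∧ wt x ≤ 8 / 5 := by
  have h1 : x ^ 2 ≤ 16 := by
    have := sq_le_sq' (by linarith [neg_abs_le x, abs_nonneg x]) (le_trans (le_abs_self x) hx)
    linarith
  have h0 := sq_nonneg x
  unfold wt
  constructor
  · apply div_nonneg <;> linarith
  · rw [div_le_div_iff₀ (by linarith) (by norm_num)]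
    nlinarith

/-- MODULE FINAL-A. Many eigenvalues are heavy and appear in the polynomial matrix with large
multiplicity. -/
theorem exists_heavy (D C : ℕ) : ∃ (b : ℕ) (ε : ℝ) (r0 : ℕ), 0 < ε ∧
    ∀ (V : Type) [Fintype V] [DecidableEq V] (A E : Matrix V V ℤ) (Wp : ℤ[X])
      (P : Matrix V V ℤ[X]) (O : Matrix V V ℝ) (lam mu : V → ℝ) (i0 : V) (b' r : ℕ) (ε' : ℝ),
      r0 ≤ r → b ≤ b' → ε' ≤ ε → Model A E Wp P O lam mu i0 D C b' r ε' →
      ∃ L : Finset ℝ, ((r : ℝ) + 1) / 100 ≤ L.card ∧
        ∀ x ∈ L, (Fintype.card V : ℝ) / 100 ≤ (eigs P x).count (- ev Wp x) := by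
  classical
  set K : ℝ := (C : ℝ) + D + 1 with hK
  have hC0 : (0:ℝ) ≤ C := Nat.cast_nonneg C
  have hD0 : (0:ℝ) ≤ D := Nat.cast_nonneg D
  have hK1 : 1 ≤ K := by rw [hK]; linarith
  have hlog2K : 0 ≤ Real.log (2 * K) := Real.log_nonneg (by linarith)
  set M : ℝ := 1000 * Real.log (2 * K) + 1000 with hM
  have hM1 : 1000 ≤ M := by rw [hM]; linarith
  set ε0 : ℝ := Real.exp (-M) with hε0
  have hε0pos : 0 < ε0 := Real.exp_pos _
  have hε0le : ε0 ≤ 1 / 1000 := by
    rw [hε0, Real.exp_neg, ← one_div]
    apply one_div_le_one_div_of_le (by norm_num)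
    have := Real.add_one_le_exp M
    linarith
  have hε0log : Real.log (1 / ε0) = M := by
    rw [hε0, one_div, Real.log_inv, Real.log_exp, neg_neg]
  obtain ⟨b, ε1, r0, hε1, hmu⟩ := mult_upper D C ε0 hε0pos
  refine ⟨b, min ε1 (1 / 100), r0, lt_min hε1 (by norm_num), ?_⟩
  intro V _ _ A E Wp P O lam mu i0 b' r ε' hr hb hε' hmod
  have hmu' := (hmu V A E Wp P O lam mu i0 b' r ε' hr hb (hε'.trans (min_le_left _ _)) hmod).2
  have hε'2 : ε' ≤ 1 / 100 := hε'.trans (min_le_right _ _)
  have hcardpos : 0 < Fintype.card V := Fintype.card_pos_iff.2 ⟨i0⟩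
  set n : ℝ := (Fintype.card V : ℝ) with hn
  have hn0 : 0 < n := by rw [hn]; exact_mod_cast hcardpos
  set d : ℝ := (r:ℝ) + 1 with hd
  have hdpos : 0 < d := by rw [hd]; positivity
  have hspec := hmod.spec
  have hmemNE : ∀ i, i ∈ nex lam ↔ |lam i| ≤ 4 := by
    intro i
    simp [nex]
  have hexc := hmod.exc
  have hkey := hmod.key
  rw [← hn, ← hd] at hkey
  have hexc' : (((nex lam)ᶜ).card : ℝ) ≤ 1 / 100 * n / d := by
    rw [le_div_iff₀ hdpos]
    refine hexc.trans ?_
    exact mul_le_mul_of_nonneg_right hε'2 hn0.le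
  have hW : ∀ i, i ∈ nex lam → |ev Wp (lam i)| ≤ D := by
    intro i hi
    have hne : i ≠ i0 := by
      rintro rfl
      have := (hmemNE i).1 hi
      rw [hspec.lam0] at this
      norm_num at this
    have h1 := hspec.mu_le i
    rw [hspec.mu_eq i hne, abs_neg] at h1
    exact h1
  have hcl : ∀ i ∈ nex lam, (mult lam (lam i) : ℝ) ≤ 161 / 100 * n / d := by
    intro i hi
    have h1 := hmod.quad (lam i) ((hmemNE i).1 hi) (hW i hi) 0 (Nat.zero_le _)
    simp only [pow_zero, Finset.sum_const, nsmul_eq_mul, mul_one, Matrix.trace_one] at h1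
    rw [← hn, ← hd] at h1
    have h2 := (abs_le.1 h1).2
    have h3 := (wt_bounds ((hmemNE i).1 hi)).2
    have h4 : (mult lam (lam i) : ℝ) ≤ (cl r lam (lam i)).card := by
      have : mult lam (lam i) ≤ (cl r lam (lam i)).card := by
        unfold mult cl
        apply Finset.card_le_card
        intro j hj
        have hj' := (Finset.mem_filter.1 hj).2
        refine Finset.mem_filter.2 ⟨Finset.mem_univ _, ?_⟩
        rw [hj', sub_self, abs_zero]
        positivity
      exact_mod_cast this
    have h5 : wt (lam i) / d * n ≤ 8 / 5 / d * n := by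
      apply mul_le_mul_of_nonneg_right _ hn0.le
      apply div_le_div_of_nonneg_right h3 hdpos.le
    have h6 : ε' * n / d ≤ 1 / 100 * n / d := by
      apply div_le_div_of_nonneg_right _ hdpos.le
      exact mul_le_mul_of_nonneg_right hε'2 hn0.le
    have h7 : 161 / 100 * n / d = 8 / 5 / d * n + 1 / 100 * n / d := by ring
    rw [h7]
    linarith
  set H : Finset V := (nex lam).filter (fun i => 1 / 50 * n / d ≤ mult lam (lam i)) with hH
  refine ⟨H.image lam, ?_, ?_⟩
  · -- counting
    have h1 : ∑ i ∈ nex lam, (mult lam (lam i) : ℝ) ≤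
        ∑ i ∈ H, (mult lam (lam i) : ℝ) + 1 / 50 * (n ^ 2 / d) := by
      rw [← Finset.sum_filter_add_sum_filter_not (nex lam)
        (fun i => 1 / 50 * n / d ≤ (mult lam (lam i) : ℝ))]
      have h2 : ∑ i ∈ (nex lam).filter (fun i => ¬ (1 / 50 * n / d ≤ (mult lam (lam i) : ℝ))),
          (mult lam (lam i) : ℝ) ≤ n * (1 / 50 * n / d) := by
        calc _ ≤ ∑ i ∈ (nex lam).filter (fun i => ¬ (1 / 50 * n / d ≤ (mult lam (lam i) : ℝ))),
              (1 / 50 * n / d) := by
              apply Finset.sum_le_sum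
              intro i hi
              have := (Finset.mem_filter.1 hi).2
              push Not at this
              exact this.le
          _ = (((nex lam).filter (fun i => ¬ (1 / 50 * n / d ≤
                (mult lam (lam i) : ℝ)))).card : ℝ) * (1 / 50 * n / d) := by
              rw [Finset.sum_const, nsmul_eq_mul]
          _ ≤ n * (1 / 50 * n / d) := by
              apply mul_le_mul_of_nonneg_right _ (by positivity)
              rw [hn]
              exact_mod_cast Finset.card_le_univ _
      have h3 : n * (1 / 50 * n / d) = 1 / 50 * (n ^ 2 / d) := by ring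
      rw [h3] at h2
      linarith
    have h2 : ∑ i ∈ H, (mult lam (lam i) : ℝ) ≤ (H.image lam).card * (161 / 100 * n / d) ^ 2 := by
      rw [Finset.sum_comp (fun x => (mult lam x : ℝ)) lam, ← nsmul_eq_mul, ← Finset.sum_const]
      apply Finset.sum_le_sum
      intro x hx
      obtain ⟨i, hi, rfl⟩ := Finset.mem_image.1 hx
      have hi' := Finset.mem_filter.1 hi
      rw [nsmul_eq_mul, sq]
      have h3 : ((H.filter (fun a => lam a = lam i)).card : ℝ) ≤ mult lam (lam i) := by
        have : (H.filter (fun a => lam a = lam i)).card ≤ mult lam (lam i) := by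
          unfold mult
          apply Finset.card_le_card
          intro j hj
          exact Finset.mem_filter.2 ⟨Finset.mem_univ _, (Finset.mem_filter.1 hj).2⟩
        exact_mod_cast this
      have h4 := hcl i hi'.1
      exact mul_le_mul (h3.trans h4) h4 (Nat.cast_nonneg _) (by positivity)
    have h3 : 3 / 100 * (n ^ 2 / d) ≤ (H.image lam).card * (161 / 100 * n / d) ^ 2 := by
      have : 1 / 20 * n ^ 2 / d = 1 / 20 * (n ^ 2 / d) := by ring
      rw [this] at hkey
      linarith
    have h4 : ((H.image lam).card : ℝ) * (161 / 100 * n / d) ^ 2 =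
        ((H.image lam).card * (161 / 100) ^ 2 / d) * (n ^ 2 / d) := by
      field_simp
    rw [h4] at h3
    have h5 : 3 / 100 ≤ ((H.image lam).card : ℝ) * (161 / 100) ^ 2 / d :=
      le_of_mul_le_mul_right h3 (by positivity)
    rw [le_div_iff₀ hdpos] at h5
    linarith
  · intro x hx
    obtain ⟨i, hi, rfl⟩ := Finset.mem_image.1 hx
    have hi' := Finset.mem_filter.1 hi
    have horb : ∀ y ∈ orb lam (lam i), ∃ j ∈ nex lam, lam j = y ∧ Conj (lam i) y := by
      intro y hy
      have hy' := Finset.mem_filter.1 hy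
      obtain ⟨j, _, rfl⟩ := Finset.mem_image.1 hy'.1
      refine ⟨j, ?_, rfl, hy'.2⟩
      by_contra hj
      have h1 : mult lam (lam j) ≤ ((nex lam)ᶜ).card := by
        unfold mult
        apply Finset.card_le_card
        intro l hl
        have hl' := (Finset.mem_filter.1 hl).2
        rw [Finset.mem_compl, hmemNE, hl', ← hmemNE]
        exact hj
      have h2 : (mult lam (lam j) : ℝ) ≤ 1 / 100 * n / d := by
        refine le_trans ?_ hexc'
        exact_mod_cast h1
      rw [← conj_mult A O lam hspec.O1 hspec.hA _ _ hy'.2] at h2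
      have h3 := hi'.2
      have h4 : 0 < n / d := by positivity
      have h5 : 1 / 50 * n / d = 1 / 50 * (n / d) := by ring
      have h6 : 1 / 100 * n / d = 1 / 100 * (n / d) := by ring
      rw [h5] at h3
      rw [h6] at h2
      linarith
    have hself : lam i ∈ orb lam (lam i) :=
      Finset.mem_filter.2 ⟨Finset.mem_image_of_mem _ (Finset.mem_univ _), fun h => Iff.rfl⟩
    have hrow : ∀ y ∈ orb lam (lam i), ∀ u, ∑ v, |ev (P u v) y| ≤ K := by
      intro y hy u
      obtain ⟨j, hj, rfl, _⟩ := horb y hy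
      refine (hmod.Prow (lam j) (hspec.lam_le j) u).trans ?_
      rw [hK]
      linarith
    have hWK : ∀ y ∈ orb lam (lam i), |ev Wp y| ≤ K := by
      intro y hy
      obtain ⟨j, hj, rfl, _⟩ := horb y hy
      refine (hW j hj).trans ?_
      rw [hK]
      linarith
    have havg := near_avg A O lam hspec.O1 hspec.hA P hmod.Psymm Wp K hK1 i hrow hWK ε0 hε0pos
      (by linarith)
    rw [hε0log] at havg
    obtain ⟨y, hy, hyn⟩ : ∃ y ∈ orb lam (lam i),
        (((eigs P y).filter (fun w => w ≠ - ev Wp y ∧ |w + ev Wp y| ≤ ε0)).card : ℝ) * M ≤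
          n * Real.log (2 * K) := by
      by_contra hcon
      push Not at hcon
      rw [Finset.sum_mul] at havg
      have h1 : ∑ y ∈ orb lam (lam i), n * Real.log (2 * K) <
          ∑ y ∈ orb lam (lam i), (((eigs P y).filter
            (fun w => w ≠ - ev Wp y ∧ |w + ev Wp y| ≤ ε0)).card : ℝ) * M :=
        Finset.sum_lt_sum_of_nonempty ⟨_, hself⟩ hcon
      rw [Finset.sum_const, nsmul_eq_mul] at h1
      linarith
    obtain ⟨j, hj, hjy, hconj⟩ := horb y hy
    subst hjy
    have hnear : (((eigs P (lam j)).filter (fun w => w ≠ - ev Wp (lam j) ∧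
        |w + ev Wp (lam j)| ≤ ε0)).card : ℝ) ≤ n / 1000 := by
      have hMpos : 0 < M := by linarith
      have h1 : n * Real.log (2 * K) ≤ n / 1000 * M := by
        rw [hM]
        nlinarith
      exact le_of_mul_le_mul_right (hyn.trans h1) hMpos
    have hcount := conj_count P Wp (lam i) (lam j) hconj
    have hsplit : (((eigs P (lam j)).filter (fun w => |w + ev Wp (lam j)| ≤ ε0)).card : ℝ) =
        ((eigs P (lam j)).count (- ev Wp (lam j)) : ℝ) +
        (((eigs P (lam j)).filter (fun w => w ≠ - ev Wp (lam j) ∧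
          |w + ev Wp (lam j)| ≤ ε0)).card : ℝ) := by
      have h1 : (eigs P (lam j)).filter (fun w => |w + ev Wp (lam j)| ≤ ε0) =
          (eigs P (lam j)).filter (fun w => w = - ev Wp (lam j)) +
          (eigs P (lam j)).filter (fun w => w ≠ - ev Wp (lam j) ∧
            |w + ev Wp (lam j)| ≤ ε0) := by
        rw [← Multiset.filter_add_not (fun w => w = - ev Wp (lam j))
          ((eigs P (lam j)).filter (fun w => |w + ev Wp (lam j)| ≤ ε0)),
          Multiset.filter_filter, Multiset.filter_filter]
        congr 1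
        apply Multiset.filter_congr
        intro w _
        constructor
        · rintro ⟨h2, _⟩
          exact h2
        · intro h2
          refine ⟨h2, ?_⟩
          rw [h2, neg_add_cancel, abs_zero]
          exact hε0pos.le
      rw [h1, Multiset.card_add, Nat.cast_add]
      congr 2
      rw [Multiset.count_eq_card_filter_eq]
      congr 1
      apply Multiset.filter_congr
      intro w _
      exact eq_comm
    have hup := hmu' j hj
    rw [hsplit, ← hcount] at hup
    rw [← conj_mult A O lam hspec.O1 hspec.hA _ _ hconj] at hup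
    have hheavy := hi'.2
    have hwt := wt_bounds ((hmemNE j).1 hj)
    set cnt : ℝ := ((eigs P (lam i)).count (- ev Wp (lam i)) : ℝ) with hcnt
    have hcnt0 : 0 ≤ cnt := Nat.cast_nonneg _
    have h1 : wt (lam j) / d * (cnt + (((eigs P (lam j)).filter (fun w => w ≠ - ev Wp (lam j) ∧
          |w + ev Wp (lam j)| ≤ ε0)).card : ℝ)) ≤ 8 / 5 / d * (cnt + n / 1000) := by
      apply mul_le_mul
      · exact div_le_div_of_nonneg_right hwt.2 hdpos.le
      · linarith
      · positivity
      · positivity
    have h2 : ε0 * n / d ≤ 1 / 1000 * n / d := by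
      apply div_le_div_of_nonneg_right _ hdpos.le
      exact mul_le_mul_of_nonneg_right hε0le hn0.le
    have h3 : 1 / 50 * n / d ≤ 8 / 5 / d * (cnt + n / 1000) + 1 / 1000 * n / d := by linarith
    have h4 : 8 / 5 / d * (cnt + n / 1000) + 1 / 1000 * n / d =
        (8 / 5 * (cnt + n / 1000) + 1 / 1000 * n) / d := by ring
    rw [h4, div_le_div_iff_of_pos_right hdpos] at h3
    linarith

end Pool.Agent.H18.Cage
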