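import Pool.Agent.H18.Cage.EigM

/-! Module RANK-2. -/

set_option autoImplicit false

namespace Pool.Agent.H18.Cage

open Polynomial Matrix Finset

/-- orthogonal diagonalization of the evaluated matrix, with its spectrum -/
theorem exists_diag_evM {V : Type} [Fintype V] [DecidableEq V] (P : Matrix V V ℤ[X])
    (hP : P.IsSymm) (x : ℝ) :
    ∃ (O : Matrix V V ℝ) (w : V → ℝ), O * Oᵀ = 1 ∧ Oᵀ * O = 1 ∧
      evM P x = O * diagonal w * Oᵀ ∧ eigs P x = Multiset.map w Finset.univ.val := by
  have hA : (evM P x).IsHermitian := by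
    unfold Matrix.IsHermitian
    ext i j
    rw [Matrix.conjTranspose_apply]
    simp only [evM, Matrix.map_apply, star_trivial]
    rw [hP.apply]
  refine ⟨(hA.eigenvectorUnitary : Matrix V V ℝ), hA.eigenvalues, ?_, ?_, ?_, ?_⟩
  · have := Unitary.coe_mul_star_self hA.eigenvectorUnitary
    rw [Unitary.coe_star, Matrix.star_eq_conjTranspose, Matrix.conjTranspose_eq_transpose_of_trivial] at this
    exact this
  · have := Unitary.coe_star_mul_self hA.eigenvectorUnitary
    rw [Matrix.star_eq_conjTranspose, Matrix.conjTranspose_eq_transpose_of_trivial] at this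
    exact this
  · have := hA.spectral_theorem
    rw [Unitary.conjStarAlgAut_apply, Matrix.star_eq_conjTranspose,
      Matrix.conjTranspose_eq_transpose_of_trivial] at this
    exact this
  · exact hA.roots_charpoly_eq_eigenvalues

theorem sum_count_sq {V : Type} [Fintype V] [DecidableEq V] (w : V → ℝ) :
    ∑ y ∈ (Multiset.map w Finset.univ.val).toFinset,
      ((Multiset.map w Finset.univ.val).count y : ℤ) ^ 2 =
      (univ.filter (fun ij : V × V => w ij.1 = w ij.2)).card := by
  classical
  have hc : ∀ y, (Multiset.map w Finset.univ.val).count y =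
      (univ.filter (fun i => w i = y)).card := by
    intro y
    rw [Multiset.count_map]
    rw [Finset.card_def, Finset.filter_val]
    congr 1
    apply Multiset.filter_congr
    intro i _
    exact eq_comm
  have ht : (Multiset.map w Finset.univ.val).toFinset = univ.image w := by
    ext y
    simp
  rw [ht]
  simp only [hc]
  have h1 : (univ.filter (fun ij : V × V => w ij.1 = w ij.2)) =
      (univ.image w).biUnion (fun y => (univ.filter (fun i => w i = y)) ×ˢ
        (univ.filter (fun i => w i = y))) := by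
    ext ⟨i, j⟩
    simp only [mem_filter, mem_univ, true_and, mem_biUnion, mem_image, mem_product]
    constructor
    · intro h
      exact ⟨w i, ⟨i, rfl⟩, rfl, h.symm⟩
    · rintro ⟨y, _, h1, h2⟩
      rw [h1, h2]
  rw [h1, card_biUnion]
  · push_cast
    refine Finset.sum_congr rfl fun y _ => ?_
    rw [card_product]
    push_cast
    ring
  · intro y _ y' _ hyy'
    rw [Function.onFun, Finset.disjoint_left]
    rintro ⟨i, j⟩ h1 h2
    simp only [mem_product, mem_filter, mem_univ, true_and] at h1 h2
    exact hyy' (h1.1.symm.trans h2.1)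

/-- MODULE RANK-2. -/
theorem corank_kronDiff {V : Type} [Fintype V] [DecidableEq V] (P : Matrix V V ℤ[X])
    (hP : P.IsSymm) (x : ℝ) :
    ((evM (kronDiff P) x).rank : ℤ) = (Fintype.card V : ℤ) ^ 2 -
      ∑ y ∈ (eigs P x).toFinset, ((eigs P x).count y : ℤ) ^ 2 := by
  classical
  obtain ⟨O, w, hO, hO', hA, hE⟩ := exists_diag_evM P hP x
  have h1 : evM (kronDiff P) x = kroneckerMap (· * ·) (evM P x) 1 -
      kroneckerMap (· * ·) 1 (evM P x) := by
    ext ⟨i, j⟩ ⟨i', j'⟩
    simp only [evM, kronDiff, Matrix.map_apply, Matrix.sub_apply, kroneckerMap_apply, ev,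
      Matrix.one_apply]
    rw [map_sub, map_mul, map_mul]
    congr 2
    · split_ifs <;> simp
    · split_ifs <;> simp
  have h2 : evM (kronDiff P) x = kroneckerMap (· * ·) O O *
      diagonal (fun ij : V × V => w ij.1 - w ij.2) * kroneckerMap (· * ·) Oᵀ Oᵀ := by
    have h3 : (diagonal (fun ij : V × V => w ij.1 - w ij.2) : Matrix (V × V) (V × V) ℝ) =
        kroneckerMap (· * ·) (diagonal w) 1 - kroneckerMap (· * ·) 1 (diagonal w) := by
      have e1 := Matrix.diagonal_kronecker_diagonal w (fun _ : V => (1 : ℝ))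
      have e2 := Matrix.diagonal_kronecker_diagonal (fun _ : V => (1 : ℝ)) w
      rw [Matrix.diagonal_one] at e1 e2
      rw [e1, e2, Matrix.diagonal_sub]
      congr 1
      ext ij
      simp
    rw [h1, h3, Matrix.mul_sub, Matrix.sub_mul]
    congr 1
    · rw [← Matrix.mul_kronecker_mul, ← Matrix.mul_kronecker_mul, ← hA, Matrix.mul_one, hO]
    · rw [← Matrix.mul_kronecker_mul, ← Matrix.mul_kronecker_mul, ← hA, Matrix.mul_one, hO]
  have hu : kroneckerMap (· * ·) O O * kroneckerMap (· * ·) Oᵀ Oᵀ = 1 := by
    rw [← Matrix.mul_kronecker_mul, hO, Matrix.one_kronecker_one]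
  have hd1 : IsUnit (kroneckerMap (· * ·) O O).det := by
    have := congrArg Matrix.det hu
    rw [Matrix.det_mul, Matrix.det_one] at this
    exact IsUnit.of_mul_eq_one _ this
  have hd2 : IsUnit (kroneckerMap (· * ·) Oᵀ Oᵀ).det := by
    have := congrArg Matrix.det hu
    rw [Matrix.det_mul, Matrix.det_one, mul_comm] at this
    exact IsUnit.of_mul_eq_one _ this
  rw [h2, Matrix.rank_mul_eq_left_of_isUnit_det _ _ hd2,
    Matrix.rank_mul_eq_right_of_isUnit_det _ _ hd1, Matrix.rank_diagonal, hE, sum_count_sq]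
  have h4 : Fintype.card {ij : V × V // w ij.1 - w ij.2 ≠ 0} =
      (univ.filter (fun ij : V × V => ¬ (w ij.1 = w ij.2))).card := by
    rw [Fintype.card_subtype]
    congr 1
    ext ij
    simp [sub_eq_zero]
  rw [h4]
  have h5 := Finset.card_filter_add_card_filter_not (s := (univ : Finset (V × V)))
    (fun ij : V × V => w ij.1 = w ij.2)
  rw [Finset.card_univ, Fintype.card_prod] at h5
  have h6 : ((univ.filter (fun ij : V × V => w ij.1 = w ij.2)).card : ℤ) +
      ((univ.filter (fun ij : V × V => ¬ (w ij.1 = w ij.2))).card : ℤ) =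
      (Fintype.card V : ℤ) * Fintype.card V := by
    exact_mod_cast h5
  linarith [h6, sq (Fintype.card V : ℤ)]

end Pool.Agent.H18.Cage
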