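import Pool.Agent.H18.Cage.Rank1
import Pool.Agent.H18.Cage.Rank2

/-! Module FINAL-B. -/

set_option autoImplicit false

namespace Pool.Agent.H18.Cage

open Polynomial Matrix Finset

lemma natDegree_kronDiff {V : Type} [Fintype V] [DecidableEq V] (P : Matrix V V ℤ[X]) (D : ℕ)
    (hP : ∀ u v, (P u v).natDegree ≤ D) (i j : V × V) : (kronDiff P i j).natDegree ≤ D := by
  unfold kronDiff
  rw [Matrix.sub_apply]
  have h1 : (kroneckerMap (· * ·) P (1 : Matrix V V ℤ[X]) i j).natDegree ≤ D := by
    rw [Matrix.kroneckerMap_apply]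
    by_cases h : i.2 = j.2
    · rw [h, Matrix.one_apply_eq, mul_one]
      exact hP _ _
    · rw [Matrix.one_apply_ne h, mul_zero]
      simp
  have h2 : (kroneckerMap (· * ·) (1 : Matrix V V ℤ[X]) P i j).natDegree ≤ D := by
    rw [Matrix.kroneckerMap_apply]
    by_cases h : i.1 = j.1
    · rw [h, Matrix.one_apply_eq, one_mul]
      exact hP _ _
    · rw [Matrix.one_apply_ne h, zero_mul]
      simp
  exact (Polynomial.natDegree_sub_le _ _).trans (max_le h1 h2)

/-- sum of squares of the multiplicities -/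
noncomputable def sqs {V : Type} [Fintype V] [DecidableEq V] (P : Matrix V V ℤ[X]) (x : ℝ) : ℝ :=
  ∑ y ∈ (eigs P x).toFinset, ((eigs P x).count y : ℝ) ^ 2

lemma rank_kron {V : Type} [Fintype V] [DecidableEq V] (P : Matrix V V ℤ[X])
    (hP : P.IsSymm) (x : ℝ) :
    ((((kronDiff P).map (fun p => p.map (Int.castRingHom ℝ))).map
      (fun p => p.eval x)).rank : ℝ) = (Fintype.card V : ℝ) ^ 2 - sqs P x := by
  have h1 : ((kronDiff P).map (fun p => p.map (Int.castRingHom ℝ))).map (fun p => p.eval x) =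
      evM (kronDiff P) x := by
    ext i j
    simp only [Matrix.map_apply, evM, ev, Polynomial.eval_map, Polynomial.aeval_def]
    rfl
  rw [h1]
  have h2 := corank_kronDiff P hP x
  have h3 : (((evM (kronDiff P) x).rank : ℤ) : ℝ) = ((((Fintype.card V : ℤ) ^ 2 -
      ∑ y ∈ (eigs P x).toFinset, ((eigs P x).count y : ℤ) ^ 2) : ℤ) : ℝ) := by rw [h2]
  push_cast at h3
  rw [h3, sqs]

/-- MODULE FINAL-B. Generic multiplicity. -/
theorem generic_mult (D : ℕ) : ∃ r0 : ℕ,
    ∀ (V : Type) [Fintype V] [DecidableEq V] (P : Matrix V V ℤ[X]) (Wp : ℤ[X]) (r : ℕ)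
      (L : Finset ℝ), r0 ≤ r → P.IsSymm → (∀ u v, (P u v).natDegree ≤ D) →
      ((r : ℝ) + 1) / 100 ≤ L.card → 0 < Fintype.card V →
      (∀ x ∈ L, (Fintype.card V : ℝ) / 100 ≤ (eigs P x).count (- ev Wp x)) →
      ∀ x0 : ℝ, ∃ y0 ∈ eigs P x0, Fintype.card V ≤ 20000 * (eigs P x0).count y0 := by
  refine ⟨2000000 * D, ?_⟩
  intro V _ _ P Wp r L hr hPs hPd hL hV hcount x0
  set n : ℝ := (Fintype.card V : ℝ) with hn
  have hn0 : 0 < n := by rw [hn]; exact_mod_cast hV
  have hsum := sum_corank_le ((kronDiff P).map (fun p => p.map (Int.castRingHom ℝ))) D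
    (fun i j => by
      rw [Matrix.map_apply]
      exact (Polynomial.natDegree_map_le).trans (natDegree_kronDiff P D hPd i j)) x0 L
  simp_rw [rank_kron P hPs] at hsum
  have hcardVV : (Fintype.card (V × V) : ℝ) = n ^ 2 := by
    rw [Fintype.card_prod]
    push_cast
    ring
  rw [hcardVV] at hsum
  -- lower bound for `sqs` on `L`
  have hlow : ∀ x ∈ L, (n / 100) ^ 2 ≤ sqs P x := by
    intro x hx
    have h1 := hcount x hx
    have hpos : (0 : ℝ) < (eigs P x).count (- ev Wp x) := lt_of_lt_of_le (by positivity) h1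
    have hmem : - ev Wp x ∈ (eigs P x).toFinset := by
      rw [Multiset.mem_toFinset, ← Multiset.count_pos]
      exact_mod_cast hpos
    calc (n / 100) ^ 2 ≤ ((eigs P x).count (- ev Wp x) : ℝ) ^ 2 := by
          apply pow_le_pow_left₀ (by positivity) h1
      _ ≤ sqs P x := Finset.single_le_sum (f := fun y => ((eigs P x).count y : ℝ) ^ 2)
          (fun y _ => sq_nonneg _) hmem
  have hs0 : n ^ 2 / 20000 ≤ sqs P x0 := by
    by_contra hcon
    push Not at hcon
    have h1 : (L.card : ℝ) * (n ^ 2 / 20000) ≤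
        ∑ x ∈ L, (n ^ 2 - sqs P x0 - (n ^ 2 - sqs P x)) := by
      rw [← nsmul_eq_mul]
      apply Finset.card_nsmul_le_sum
      intro x hx
      have := hlow x hx
      nlinarith
    have h2 : (L.card : ℝ) * (n ^ 2 / 20000) ≤ D * n ^ 2 := h1.trans hsum
    have h3 : (L.card : ℝ) ≤ 20000 * D := by
      have hn2 : 0 < n ^ 2 := by positivity
      by_contra hlt
      push Not at hlt
      nlinarith
    have h4 : ((2000000 * D : ℕ) : ℝ) ≤ r := by exact_mod_cast hr
    push_cast at h4
    linarith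
  -- the largest multiplicity
  have hcard := card_eigs P hPs x0
  have hne : (eigs P x0).toFinset.Nonempty := by
    rw [Finset.nonempty_iff_ne_empty]
    intro h0
    rw [Multiset.toFinset_eq_empty] at h0
    rw [h0, Multiset.card_zero] at hcard
    omega
  obtain ⟨y0, hy0, hmax⟩ := Finset.exists_max_image (eigs P x0).toFinset
    (fun y => (eigs P x0).count y) hne
  refine ⟨y0, Multiset.mem_toFinset.mp hy0, ?_⟩
  have h5 : sqs P x0 ≤ (eigs P x0).count y0 * n := by
    calc sqs P x0 ≤ ∑ y ∈ (eigs P x0).toFinset,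
          ((eigs P x0).count y0 : ℝ) * ((eigs P x0).count y : ℝ) := by
          apply Finset.sum_le_sum
          intro y hy
          rw [sq]
          apply mul_le_mul_of_nonneg_right _ (Nat.cast_nonneg _)
          exact_mod_cast hmax y hy
      _ = (eigs P x0).count y0 * n := by
          rw [← Finset.mul_sum]
          congr 1
          rw [hn, ← hcard]
          exact_mod_cast Multiset.toFinset_sum_count_eq (eigs P x0)
  have h6 : n ≤ 20000 * (eigs P x0).count y0 := by
    have h7 : n ^ 2 / 20000 ≤ (eigs P x0).count y0 * n := hs0.trans h5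
    have h8 : n * n ≤ 20000 * (eigs P x0).count y0 * n := by nlinarith
    exact le_of_mul_le_mul_right h8 hn0
  rw [hn] at h6
  exact_mod_cast h6

end Pool.Agent.H18.Cage
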