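import Pool.Agent.H18.Cage.EigM

/-! Module FINAL-C. -/

set_option autoImplicit false

namespace Pool.Agent.H18.Cage

open Polynomial Matrix Finset

/-- Moment comparison for powers of a quadratic polynomial. -/
theorem moment_quad {V : Type} [Fintype V] (I : Finset V) (m e : V → ℝ) (c δ : ℝ) (b : ℕ)
    (a0 a1 a2 : ℝ) (ha : |a0| + |a1| + |a2| ≤ 2)
    (hq : ∀ j ≤ b, |∑ i ∈ I, m i ^ j - c * ∑ v, e v ^ j| ≤ δ) (hδ : 0 ≤ δ) :
    ∀ (L j : ℕ), j + 2 * L ≤ b →
      |∑ i ∈ I, m i ^ j * (a0 + a1 * m i + a2 * m i ^ 2) ^ L -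
        c * ∑ v, e v ^ j * (a0 + a1 * e v + a2 * e v ^ 2) ^ L| ≤ 2 ^ L * δ := by
  intro L
  induction L with
  | zero =>
    intro j hj
    simpa using hq j (by omega)
  | succ L ih =>
    intro j hj
    have h0 := ih j (by omega)
    have h1 := ih (j + 1) (by omega)
    have h2 := ih (j + 2) (by omega)
    set x0 := ∑ i ∈ I, m i ^ j * (a0 + a1 * m i + a2 * m i ^ 2) ^ L -
        c * ∑ v, e v ^ j * (a0 + a1 * e v + a2 * e v ^ 2) ^ L with hx0
    set x1 := ∑ i ∈ I, m i ^ (j + 1) * (a0 + a1 * m i + a2 * m i ^ 2) ^ L -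
        c * ∑ v, e v ^ (j + 1) * (a0 + a1 * e v + a2 * e v ^ 2) ^ L with hx1
    set x2 := ∑ i ∈ I, m i ^ (j + 2) * (a0 + a1 * m i + a2 * m i ^ 2) ^ L -
        c * ∑ v, e v ^ (j + 2) * (a0 + a1 * e v + a2 * e v ^ 2) ^ L with hx2
    have e1 : ∀ (s : Finset V) (f : V → ℝ),
        ∑ i ∈ s, f i ^ j * (a0 + a1 * f i + a2 * f i ^ 2) ^ (L + 1) =
        a0 * ∑ i ∈ s, f i ^ j * (a0 + a1 * f i + a2 * f i ^ 2) ^ L +
        a1 * ∑ i ∈ s, f i ^ (j + 1) * (a0 + a1 * f i + a2 * f i ^ 2) ^ L +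
        a2 * ∑ i ∈ s, f i ^ (j + 2) * (a0 + a1 * f i + a2 * f i ^ 2) ^ L := by
      intro s f
      rw [Finset.mul_sum, Finset.mul_sum, Finset.mul_sum, ← Finset.sum_add_distrib,
        ← Finset.sum_add_distrib]
      apply Finset.sum_congr rfl
      intro i _
      ring
    have e2 : ∑ i ∈ I, m i ^ j * (a0 + a1 * m i + a2 * m i ^ 2) ^ (L + 1) -
        c * ∑ v, e v ^ j * (a0 + a1 * e v + a2 * e v ^ 2) ^ (L + 1) =
        a0 * x0 + a1 * x1 + a2 * x2 := by
      rw [e1, e1, hx0, hx1, hx2]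
      ring
    rw [e2]
    have hnn : 0 ≤ 2 ^ L * δ := by positivity
    calc |a0 * x0 + a1 * x1 + a2 * x2| ≤ |a0 * x0 + a1 * x1| + |a2 * x2| := abs_add_le _ _
      _ ≤ |a0 * x0| + |a1 * x1| + |a2 * x2| := by
          have := abs_add_le (a0 * x0) (a1 * x1)
          linarith
      _ = |a0| * |x0| + |a1| * |x1| + |a2| * |x2| := by rw [abs_mul, abs_mul, abs_mul]
      _ ≤ |a0| * (2 ^ L * δ) + |a1| * (2 ^ L * δ) + |a2| * (2 ^ L * δ) := by
          have p0 := mul_le_mul_of_nonneg_left h0 (abs_nonneg a0)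
          have p1 := mul_le_mul_of_nonneg_left h1 (abs_nonneg a1)
          have p2 := mul_le_mul_of_nonneg_left h2 (abs_nonneg a2)
          linarith
      _ = (|a0| + |a1| + |a2|) * (2 ^ L * δ) := by ring
      _ ≤ 2 * (2 ^ L * δ) := mul_le_mul_of_nonneg_right ha hnn
      _ = 2 ^ (L + 1) * δ := by rw [pow_succ]; ring

theorem wt_nonneg {z : ℝ} (hz : |z| ≤ 4) : 0 ≤ wt z := by
  have h1 := abs_le.mp hz
  have h2 : z ^ 2 ≤ 16 := by nlinarith
  rw [wt]
  apply div_nonneg <;> nlinarith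

theorem wt_le {z : ℝ} (hz : |z| ≤ 4) : wt z ≤ 8 / 5 := by
  have h1 := abs_le.mp hz
  have h2 : z ^ 2 ≤ 16 := by nlinarith
  have h3 : 0 ≤ z ^ 2 := sq_nonneg z
  rw [wt, div_le_iff₀ (by nlinarith)]
  nlinarith

/-- MODULE FINAL-C. The upper bound for multiplicities of heavy eigenvalues in terms of the
polynomial matrix (for all conjugates). -/
theorem mult_upper (D C : ℕ) (ε0 : ℝ) (hε0 : 0 < ε0) : ∃ (b : ℕ) (ε : ℝ) (r0 : ℕ), 0 < ε ∧
    ∀ (V : Type) [Fintype V] [DecidableEq V] (A E : Matrix V V ℤ) (Wp : ℤ[X])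
      (P : Matrix V V ℤ[X]) (O : Matrix V V ℝ) (lam mu : V → ℝ) (i0 : V) (b' r : ℕ) (ε' : ℝ),
      r0 ≤ r → b ≤ b' → ε' ≤ ε → Model A E Wp P O lam mu i0 D C b' r ε' →
      (∀ z : ℝ, |z| ≤ 4 → |ev Wp z| ≤ D → ∀ y : ℝ, |y| ≤ C + D →
        (((cl r lam z).filter (fun j => |mu j - y| ≤ ε0)).card : ℝ) ≥
          wt z / (r + 1) * (eigs P z).count y - ε0 * Fintype.card V / (r + 1)) ∧
      (∀ i ∈ nex lam, (mult lam (lam i) : ℝ) ≤ wt (lam i) / (r + 1) *
        (((eigs P (lam i)).filter (fun w => |w + ev Wp (lam i)| ≤ ε0)).card)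
          + ε0 * Fintype.card V / (r + 1)) := by
  set K : ℝ := C + D + 1 with hK
  have hK1 : 1 ≤ K := by
    have : (0 : ℝ) ≤ C := Nat.cast_nonneg C
    have : (0 : ℝ) ≤ D := Nat.cast_nonneg D
    rw [hK]; linarith
  have hK0 : 0 < K := by linarith
  set ρ : ℝ := max (1 - ε0 ^ 2 / (4 * K ^ 2)) 0 with hρ
  have hρ1 : ρ < 1 := by
    rw [hρ]
    apply max_lt _ one_pos
    have : 0 < ε0 ^ 2 / (4 * K ^ 2) := by positivity
    linarith
  have hρ0 : 0 ≤ ρ := le_max_right _ _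
  obtain ⟨L, hL⟩ := exists_pow_lt_of_lt_one (show (0 : ℝ) < ε0 / 4 by linarith) hρ1
  refine ⟨2 * L, min (2 / 5) (ε0 / (4 * 2 ^ L)), 0, by positivity, ?_⟩
  intro V _ _ A E Wp P O lam mu i0 b' r ε' _ hb hε' hM
  have hε1 : ε' ≤ 2 / 5 := hε'.trans (min_le_left _ _)
  have hε2 : 2 ^ L * ε' ≤ ε0 / 4 := by
    have h1 : ε' ≤ ε0 / (4 * 2 ^ L) := hε'.trans (min_le_right _ _)
    calc 2 ^ L * ε' ≤ 2 ^ L * (ε0 / (4 * 2 ^ L)) := by
          apply mul_le_mul_of_nonneg_left h1 (by positivity)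
      _ = ε0 / 4 := by field_simp
  have hR : (0 : ℝ) < (r : ℝ) + 1 := by positivity
  set n : ℝ := (Fintype.card V : ℝ) with hn
  have hn0 : 0 ≤ n := Nat.cast_nonneg _
  have hnR : 0 ≤ n / (r + 1) := by positivity
  -- the test function
  have gdef : ∀ y w : ℝ, (1 - y ^ 2 / (4 * K ^ 2)) + (2 * y / (4 * K ^ 2)) * w +
      (-(1 / (4 * K ^ 2))) * w ^ 2 = 1 - (w - y) ^ 2 / (4 * K ^ 2) := by
    intro y w
    field_simp
    ring
  have g0 : ∀ y w : ℝ, |y| ≤ K → |w| ≤ K → 0 ≤ 1 - (w - y) ^ 2 / (4 * K ^ 2) := by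
    intro y w hy hw
    have h1 : (w - y) ^ 2 ≤ 4 * K ^ 2 := by
      have h2 : |w - y| ≤ 2 * K := by
        have := abs_sub w y
        linarith
      have h3 := pow_le_pow_left₀ (abs_nonneg _) h2 2
      rw [sq_abs] at h3
      linarith
    have h2 : (w - y) ^ 2 / (4 * K ^ 2) ≤ 1 := by
      rw [div_le_one (by positivity)]
      exact h1
    linarith
  have g1 : ∀ y w : ℝ, 1 - (w - y) ^ 2 / (4 * K ^ 2) ≤ 1 := by
    intro y w
    have : 0 ≤ (w - y) ^ 2 / (4 * K ^ 2) := by positivity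
    linarith
  have gsmall : ∀ y w : ℝ, |y| ≤ K → |w| ≤ K → ¬ |w - y| ≤ ε0 →
      (1 - (w - y) ^ 2 / (4 * K ^ 2)) ^ L ≤ ε0 / 4 := by
    intro y w hy hw hwy
    push Not at hwy
    have h1 : 1 - (w - y) ^ 2 / (4 * K ^ 2) ≤ ρ := by
      refine le_trans ?_ (le_max_left _ _)
      have h2 := pow_le_pow_left₀ hε0.le hwy.le 2
      rw [sq_abs] at h2
      have h3 : ε0 ^ 2 / (4 * K ^ 2) ≤ (w - y) ^ 2 / (4 * K ^ 2) := by
        apply div_le_div_of_nonneg_right h2 (by positivity)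
      linarith
    exact (pow_le_pow_left₀ (g0 y w hy hw) h1 L).trans hL.le
  have hcoef : ∀ y : ℝ, |y| ≤ K → |1 - y ^ 2 / (4 * K ^ 2)| + |2 * y / (4 * K ^ 2)| +
      |-(1 / (4 * K ^ 2))| ≤ 2 := by
    intro y hy
    have hy2 : y ^ 2 ≤ K ^ 2 := by
      have := pow_le_pow_left₀ (abs_nonneg _) hy 2
      rwa [sq_abs] at this
    have hKK : 1 ≤ K ^ 2 := by nlinarith
    have h1 : |1 - y ^ 2 / (4 * K ^ 2)| ≤ 1 := by
      rw [abs_le]
      have h2 : y ^ 2 / (4 * K ^ 2) ≤ 1 := by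
        rw [div_le_one (by positivity)]
        nlinarith
      have h3 : 0 ≤ y ^ 2 / (4 * K ^ 2) := by positivity
      constructor <;> linarith
    have h2 : |2 * y / (4 * K ^ 2)| ≤ 1 / 2 := by
      rw [abs_div, abs_mul, abs_of_pos (show (0 : ℝ) < 2 by norm_num),
        abs_of_pos (show 0 < 4 * K ^ 2 by positivity), div_le_iff₀ (by positivity)]
      nlinarith
    have h3 : |-(1 / (4 * K ^ 2))| ≤ 1 / 4 := by
      rw [abs_neg, abs_of_nonneg (by positivity), div_le_iff₀ (by positivity)]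
      nlinarith
    linarith
  -- eigenvalues of the polynomial matrix
  have hCK : (C : ℝ) ≤ K := by
    have : (0 : ℝ) ≤ D := Nat.cast_nonneg D
    rw [hK]; linarith
  have hDK : (D : ℝ) ≤ K := by
    have : (0 : ℝ) ≤ C := Nat.cast_nonneg C
    rw [hK]; linarith
  have hmuK : ∀ j, |mu j| ≤ K := fun j => (hM.spec.mu_le j).trans hDK
  have main : ∀ z : ℝ, |z| ≤ 4 → |ev Wp z| ≤ D → ∀ y : ℝ, |y| ≤ K →
      |∑ i ∈ cl r lam z, (1 - (mu i - y) ^ 2 / (4 * K ^ 2)) ^ L -
        wt z / (r + 1) * ∑ v, (1 - ((evM_isHermitian P hM.Psymm z).eigenvalues v - y) ^ 2 /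
          (4 * K ^ 2)) ^ L| ≤ ε0 / 4 * n / (r + 1) := by
    intro z hz hWz y hy
    have htr : ∀ j, ((evM P z) ^ j).trace =
        ∑ v, (evM_isHermitian P hM.Psymm z).eigenvalues v ^ j := by
      intro j
      rw [trace_pow_eigs P hM.Psymm, eigs_eq P hM.Psymm z, Multiset.map_map]
      rfl
    have hε'0 : 0 ≤ ε' * n / (r + 1) :=
      (abs_nonneg _).trans (hM.quad z hz hWz 0 (Nat.zero_le _))
    have h1 := moment_quad (cl r lam z) mu (evM_isHermitian P hM.Psymm z).eigenvalues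
      (wt z / (r + 1)) (ε' * n / (r + 1)) b' (1 - y ^ 2 / (4 * K ^ 2)) (2 * y / (4 * K ^ 2))
      (-(1 / (4 * K ^ 2))) (hcoef y hy)
      (by
        intro j hj
        rw [← htr]
        exact hM.quad z hz hWz j hj) hε'0 L 0 (by omega)
    simp only [pow_zero, one_mul, gdef] at h1
    refine h1.trans ?_
    calc 2 ^ L * (ε' * n / (r + 1)) = (2 ^ L * ε') * (n / (r + 1)) := by ring
      _ ≤ ε0 / 4 * (n / (r + 1)) := mul_le_mul_of_nonneg_right hε2 hnR
      _ = ε0 / 4 * n / (r + 1) := by ring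
  have hclcard : ∀ z : ℝ, |z| ≤ 4 → |ev Wp z| ≤ D →
      ((cl r lam z).card : ℝ) ≤ 2 * n / (r + 1) := by
    intro z hz hWz
    have h1 := hM.quad z hz hWz 0 (Nat.zero_le _)
    simp only [pow_zero, Finset.sum_const, nsmul_eq_mul, mul_one, Matrix.trace_one] at h1
    have h2 := (abs_le.mp h1).2
    have h3 := wt_le hz
    have h4 : wt z / (r + 1) * n ≤ 8 / 5 * (n / (r + 1)) := by
      calc wt z / (r + 1) * n = wt z * (n / (r + 1)) := by ring
        _ ≤ 8 / 5 * (n / (r + 1)) := mul_le_mul_of_nonneg_right h3 hnR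
    have h5 : ε' * n / (r + 1) ≤ 2 / 5 * (n / (r + 1)) := by
      calc ε' * n / (r + 1) = ε' * (n / (r + 1)) := by ring
        _ ≤ 2 / 5 * (n / (r + 1)) := mul_le_mul_of_nonneg_right hε1 hnR
    have h6 : 2 * n / (r + 1) = 8 / 5 * (n / (r + 1)) + 2 / 5 * (n / (r + 1)) := by ring
    rw [h6]
    linarith
  have hevK : ∀ z : ℝ, |z| ≤ 4 → ∀ v,
      |(evM_isHermitian P hM.Psymm z).eigenvalues v| ≤ K := by
    intro z hz v
    refine le_trans ?_ hCK
    apply abs_eigs_le P hM.Psymm z C (fun u => hM.Prow z (hz.trans (by norm_num)) u)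
    rw [eigs_eq P hM.Psymm z]
    exact Multiset.mem_map_of_mem _ (Finset.mem_univ v)
  -- upper bound for sums of the test function
  have upper : ∀ (s : Finset V) (f : V → ℝ) (y : ℝ), (∀ v, |f v| ≤ K) → |y| ≤ K →
      ∑ v ∈ s, (1 - (f v - y) ^ 2 / (4 * K ^ 2)) ^ L ≤
        ((s.filter (fun v => |f v - y| ≤ ε0)).card : ℝ) + ε0 / 4 * s.card := by
    intro s f y hf hy
    have h1 : ∀ v ∈ s, (1 - (f v - y) ^ 2 / (4 * K ^ 2)) ^ L ≤
        (if |f v - y| ≤ ε0 then 1 else 0) + ε0 / 4 := by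
      intro v _
      split_ifs with hc
      · have := pow_le_one₀ (g0 y (f v) hy (hf v)) (g1 y (f v)) (n := L)
        linarith
      · have := gsmall y (f v) hy (hf v) hc
        linarith
    refine (Finset.sum_le_sum h1).trans ?_
    have h2 : ∑ v ∈ s, ((if |f v - y| ≤ ε0 then 1 else 0) + ε0 / 4) =
        ((s.filter (fun v => |f v - y| ≤ ε0)).card : ℝ) + ε0 / 4 * s.card := by
      rw [Finset.sum_add_distrib, Finset.sum_boole, Finset.sum_const, nsmul_eq_mul]
      ring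
    exact h2.le
  -- lower bound for sums of the test function
  have lower : ∀ (s : Finset V) (f : V → ℝ) (y : ℝ), (∀ v, |f v| ≤ K) → |y| ≤ K →
      ((s.filter (fun v => f v = y)).card : ℝ) ≤
        ∑ v ∈ s, (1 - (f v - y) ^ 2 / (4 * K ^ 2)) ^ L := by
    intro s f y hf hy
    rw [← Finset.sum_boole]
    apply Finset.sum_le_sum
    intro v _
    split_ifs with hc
    · rw [hc]
      simp
    · exact pow_nonneg (g0 y (f v) hy (hf v)) L
  constructor
  · intro z hz hWz y hy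
    have hyK : |y| ≤ K := by rw [hK]; linarith
    have h1 := (abs_le.mp (main z hz hWz y hyK)).1
    have h2 := upper (cl r lam z) mu y hmuK hyK
    have h3 := lower univ (evM_isHermitian P hM.Psymm z).eigenvalues y (hevK z hz) hyK
    have hcount : ((eigs P z).count y : ℝ) =
        ((univ.filter (fun v => (evM_isHermitian P hM.Psymm z).eigenvalues v = y)).card : ℝ) := by
      rw [eigs_eq P hM.Psymm z, Multiset.count_map]
      norm_cast
      simp only [Finset.card_def, Finset.filter_val, eq_comm (a := y)]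
    rw [hcount]
    have h4 := hclcard z hz hWz
    have h5 : wt z / (r + 1) *
        ((univ.filter (fun v => (evM_isHermitian P hM.Psymm z).eigenvalues v = y)).card : ℝ) ≤
        wt z / (r + 1) * ∑ v, (1 - ((evM_isHermitian P hM.Psymm z).eigenvalues v - y) ^ 2 /
          (4 * K ^ 2)) ^ L := by
      apply mul_le_mul_of_nonneg_left h3
      exact div_nonneg (wt_nonneg hz) hR.le
    have h6 : ε0 / 4 * ((cl r lam z).card : ℝ) ≤ ε0 / 4 * (2 * n / (r + 1)) :=
      mul_le_mul_of_nonneg_left h4 (by linarith)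
    have h7 : ε0 * n / (r + 1) = ε0 / 4 * (2 * n / (r + 1)) + ε0 / 4 * n / (r + 1) +
        ε0 / 4 * (n / (r + 1)) := by ring
    have h8 : 0 ≤ ε0 / 4 * (n / (r + 1)) := by positivity
    rw [h7]
    linarith
  · intro i hi
    have hi4 : |lam i| ≤ 4 := by
      rw [nex, Finset.mem_filter] at hi
      exact hi.2
    have hne : ∀ j, lam j = lam i → j ≠ i0 := by
      intro j hj hcon
      rw [← hj, hcon, hM.spec.lam0] at hi4
      norm_num at hi4
    have hmu : ∀ j, lam j = lam i → mu j = - ev Wp (lam i) := by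
      intro j hj
      rw [hM.spec.mu_eq j (hne j hj), hj]
    have hWz : |ev Wp (lam i)| ≤ D := by
      have := hM.spec.mu_le i
      rwa [hmu i rfl, abs_neg] at this
    set y := - ev Wp (lam i) with hy
    have hyK : |y| ≤ K := by
      rw [hy, abs_neg]
      exact hWz.trans hDK
    have h1 := (abs_le.mp (main (lam i) hi4 hWz y hyK)).2
    have h2 := lower (cl r lam (lam i)) mu y hmuK hyK
    have h3 := upper univ (evM_isHermitian P hM.Psymm (lam i)).eigenvalues y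
      (hevK (lam i) hi4) hyK
    have hfilter : (((eigs P (lam i)).filter (fun w => |w + ev Wp (lam i)| ≤ ε0)).card : ℝ) =
        ((univ.filter (fun v =>
          |(evM_isHermitian P hM.Psymm (lam i)).eigenvalues v - y| ≤ ε0)).card : ℝ) := by
      rw [eigs_eq P hM.Psymm (lam i), Multiset.filter_map, Multiset.card_map, hy]
      simp only [sub_neg_eq_add]
      rfl
    rw [hfilter]
    have hmult : (mult lam (lam i) : ℝ) ≤
        (((cl r lam (lam i)).filter (fun v => mu v = y)).card : ℝ) := by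
      rw [mult]
      have hsub : (univ.filter (fun j => lam j = lam i)) ⊆
          (cl r lam (lam i)).filter (fun v => mu v = y) := by
        intro j hj
        have hj' : lam j = lam i := (Finset.mem_filter.mp hj).2
        rw [Finset.mem_filter, cl, Finset.mem_filter]
        refine ⟨⟨mem_univ _, ?_⟩, hmu j hj'⟩
        rw [hj', sub_self, abs_zero]
        positivity
      exact_mod_cast Finset.card_le_card hsub
    rw [Finset.card_univ] at h3
    have h4 : wt (lam i) / (r + 1) *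
        ∑ v, (1 - ((evM_isHermitian P hM.Psymm (lam i)).eigenvalues v - y) ^ 2 /
          (4 * K ^ 2)) ^ L ≤
        wt (lam i) / (r + 1) * (((univ.filter (fun v =>
          |(evM_isHermitian P hM.Psymm (lam i)).eigenvalues v - y| ≤ ε0)).card : ℝ) +
            ε0 / 4 * n) := by
      apply mul_le_mul_of_nonneg_left h3
      exact div_nonneg (wt_nonneg hi4) hR.le
    have h5 : wt (lam i) / (r + 1) * (ε0 / 4 * n) ≤ 8 / 5 * (ε0 / 4 * (n / (r + 1))) := by
      calc wt (lam i) / (r + 1) * (ε0 / 4 * n) = wt (lam i) * (ε0 / 4 * (n / (r + 1))) := by ring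
        _ ≤ 8 / 5 * (ε0 / 4 * (n / (r + 1))) :=
          mul_le_mul_of_nonneg_right (wt_le hi4) (by positivity)
    have h6 : ε0 * n / (r + 1) = 8 / 5 * (ε0 / 4 * (n / (r + 1))) + ε0 / 4 * n / (r + 1) +
        7 / 5 * (ε0 / 4 * (n / (r + 1))) := by ring
    have h7 : 0 ≤ 7 / 5 * (ε0 / 4 * (n / (r + 1))) := by positivity
    rw [mul_add] at h4
    rw [h6]
    linarith

end Pool.Agent.H18.Cage
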