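import Pool.Agent.H18.Cage.FinalD3
import Pool.Agent.H18.Cage.Conj34

/-! Auxiliary file for FINAL-D: the norm argument. -/

set_option autoImplicit false

namespace Pool.Agent.H18.Cage

open Polynomial Matrix Finset

theorem fd_wt_le (z : ℝ) (hz : |z| ≤ 4) : wt z ≤ 8 / 5 := by
  have h := abs_le.mp hz
  unfold wt
  have h2 : z ^ 2 ≤ 16 := by nlinarith
  rw [div_le_iff₀ (by nlinarith)]
  nlinarith [sq_nonneg z]

theorem fd_wt_nonneg (z : ℝ) (hz : |z| ≤ 4) : 0 ≤ wt z := by
  have h := abs_le.mp hz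
  unfold wt
  have h2 : z ^ 2 ≤ 16 := by nlinarith
  apply div_nonneg <;> nlinarith

theorem wt_diff (z x : ℝ) (hz : |z| ≤ 1 / 20) (hx : |x| ≤ 4) :
    9 * x ^ 2 / 250 - 1 / 10000 ≤ wt z - wt x := by
  have h := abs_le.mp hz
  have h' := abs_le.mp hx
  have h1 : z ^ 2 ≤ 1 / 400 := by nlinarith
  have h2 : x ^ 2 ≤ 16 := by nlinarith
  have hz0 := sq_nonneg z
  have hx0 := sq_nonneg x
  have e1 : wt z = 8 / 5 - 9 * z ^ 2 / (10 * (25 - z ^ 2)) := by
    unfold wt
    have : (25 - z ^ 2) ≠ 0 := by nlinarith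
    field_simp
    ring
  have e2 : wt x = 8 / 5 - 9 * x ^ 2 / (10 * (25 - x ^ 2)) := by
    unfold wt
    have : (25 - x ^ 2) ≠ 0 := by nlinarith
    field_simp
    ring
  have h3 : 9 * z ^ 2 / (10 * (25 - z ^ 2)) ≤ 1 / 10000 := by
    rw [div_le_iff₀ (by nlinarith)]
    nlinarith
  have h4 : 9 * x ^ 2 / 250 ≤ 9 * x ^ 2 / (10 * (25 - x ^ 2)) := by
    apply div_le_div_of_nonneg_left _ _ _ <;> nlinarith
  rw [e1, e2]
  linarith

open scoped Classical in
theorem norm_contra {V : Type} [Fintype V] [DecidableEq V] (A E : Matrix V V ℤ) (Wp : ℤ[X])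
    (P : Matrix V V ℤ[X]) (O : Matrix V V ℝ) (lam mu : V → ℝ) (i0 : V)
    (D C b r : ℕ) (ε : ℝ) (hMod : Model A E Wp P O lam mu i0 D C b r ε)
    (M : ℕ) (i : V) (z : ℝ) (hz : |z| ≤ 1 / 20) (hne : lam i ≠ 0)
    (hMn : Fintype.card V ≤ 20000 * M)
    (e4 e5 η : ℝ) (he4 : e4 ≤ 1 / 2000000000) (he5 : e5 ≤ 1 / 2000000000)
    (he50 : 0 < e5) (hη : η ≤ 1 / 2000000000) (hε : ε ≤ 1 / 40000)
    (hlog : 9000000 * Real.log (2 * (C + D + 1)) ≤ Real.log (1 / e5))
    (hcnt : ((eigs P (lam i)).count (- ev Wp (lam i)) : ℝ) ≤ M + η * Fintype.card V)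
    (hmult : (wt z * M - e4 * Fintype.card V) / (r + 1) ≤ mult lam (lam i))
    (hpart : ∀ i ∈ nex lam, (mult lam (lam i) : ℝ) ≤ wt (lam i) / (r + 1) *
        (((eigs P (lam i)).filter (fun w => |w + ev Wp (lam i)| ≤ e5)).card)
          + e5 * Fintype.card V / (r + 1)) : False := by
  set n : ℝ := (Fintype.card V : ℝ) with hn
  have hd : (0 : ℝ) < (r : ℝ) + 1 := by positivity
  have hnpos : 0 < n := by
    have : 0 < Fintype.card V := Fintype.card_pos_iff.mpr ⟨i0⟩
    rw [hn]; exact_mod_cast this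
  have hMn' : n ≤ 20000 * M := by rw [hn]; exact_mod_cast hMn
  have hwtz := wt_lower z hz
  have hO := hMod.spec.O1
  have hA := hMod.spec.hA
  set m : ℝ := (mult lam (lam i) : ℝ) with hm
  have hm1 : wt z * M - e4 * n ≤ m * (r + 1) := by
    rwa [div_le_iff₀ hd] at hmult
  -- conjugates are not exceptional
  have horb : ∀ y ∈ orb lam (lam i), (mult lam y : ℝ) = m ∧ Conj (lam i) y ∧
      ∃ k, lam k = y ∧ k ∈ nex lam := by
    intro y hy
    obtain ⟨hy1, hy2⟩ := mem_filter.mp hy
    obtain ⟨k, _, hk⟩ := mem_image.mp hy1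
    have hmy : (mult lam y : ℝ) = m := by
      rw [hm, conj_mult A O lam hO hA _ _ hy2]
    refine ⟨hmy, hy2, k, hk, ?_⟩
    by_contra hcon
    rw [mem_nex, not_le] at hcon
    have h1 : mult lam y ≤ ((nex lam)ᶜ).card := by
      unfold mult
      apply card_le_card
      intro j hj
      simp only [mem_filter, mem_univ, true_and] at hj
      rw [mem_compl, mem_nex, not_le, hj, ← hk]
      exact hcon
    have h2 : (mult lam y : ℝ) ≤ (((nex lam)ᶜ).card : ℝ) := by exact_mod_cast h1
    have h3 := hMod.exc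
    rw [hmy] at h2
    have h4 : m * (r + 1) ≤ (((nex lam)ᶜ).card : ℝ) * (r + 1) := by gcongr
    have h5 : m * (r + 1) ≤ ε * n := h4.trans h3
    have hMpos : (0 : ℝ) < M := by linarith
    nlinarith
  have hK2 : (1 : ℝ) ≤ (C : ℝ) + D + 1 := by
    have h1 : (0 : ℝ) ≤ C := by positivity
    have h2 : (0 : ℝ) ≤ D := by positivity
    linarith
  have hmuW : ∀ k, k ∈ nex lam → mu k = - ev Wp (lam k) := by
    intro k hk
    apply hMod.spec.mu_eq
    intro he
    have := hMod.spec.lam0
    rw [← he] at this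
    rw [mem_nex, this] at hk
    norm_num at hk
  have he51 : e5 < 1 := lt_of_le_of_lt he5 (by norm_num)
  have hnear := near_avg A O lam hO hA P hMod.Psymm Wp (C + D + 1) hK2 i
    (by
      intro y hy u
      obtain ⟨_, _, k, hk, hkn⟩ := horb y hy
      have h4 : |y| ≤ 5 := by
        rw [← hk]; exact hMod.spec.lam_le k
      have := hMod.Prow y h4 u
      have h2 : (0 : ℝ) ≤ D := by positivity
      linarith)
    (by
      intro y hy
      obtain ⟨_, _, k, hk, hkn⟩ := horb y hy
      rw [← hk]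
      have h1 := hMod.spec.mu_le k
      rw [hmuW k hkn, abs_neg] at h1
      have h2 : (0 : ℝ) ≤ C := by positivity
      linarith) e5 he50 he51
  set near : ℝ → ℝ := fun y =>
    (((eigs P y).filter (fun w => w ≠ - ev Wp y ∧ |w + ev Wp y| ≤ e5)).card : ℝ) with hneard
  have hnear0 : ∀ y, 0 ≤ near y := fun y => by simp only [hneard]; positivity
  have hnearsum : ∑ y ∈ orb lam (lam i), near y ≤ (orb lam (lam i)).card * (n / 9000000) := by
    have hlpos : 0 < Real.log (2 * ((C : ℝ) + D + 1)) := Real.log_pos (by linarith)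
    have h1 : (∑ y ∈ orb lam (lam i), near y) * (9000000 * Real.log (2 * (C + D + 1))) ≤
        (orb lam (lam i)).card * (n * Real.log (2 * (C + D + 1))) := by
      refine le_trans ?_ hnear
      exact mul_le_mul_of_nonneg_left hlog (sum_nonneg (fun y _ => hnear0 y))
    have h2 : (∑ y ∈ orb lam (lam i), near y) * 9000000 ≤ (orb lam (lam i)).card * n := by
      have h3 : ((∑ y ∈ orb lam (lam i), near y) * 9000000) * Real.log (2 * (C + D + 1)) ≤
          ((orb lam (lam i)).card * n) * Real.log (2 * (C + D + 1)) := by linarith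
      exact le_of_mul_le_mul_right h3 hlpos
    have h4 : (∑ y ∈ orb lam (lam i), near y) ≤ (orb lam (lam i)).card * n / 9000000 := by
      rw [le_div_iff₀ (by norm_num)]; exact h2
    calc _ ≤ _ := h4
      _ = _ := by ring
  -- pointwise bound
  have hpt : ∀ y ∈ orb lam (lam i), y ^ 2 * n ≤ 1 / 200 * n + 900000 * near y := by
    intro y hy
    obtain ⟨hmy, hconj, k, hk, hkn⟩ := horb y hy
    have hy4 : |y| ≤ 4 := by rw [← hk]; exact mem_nex.mp hkn
    have h1 := hpart k hkn
    rw [hk, hmy] at h1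
    have h2 : (((eigs P y).filter (fun w => |w + ev Wp y| ≤ e5)).card : ℝ) ≤
        (eigs P y).count (- ev Wp y) + near y := by
      have h3 : (eigs P y).filter (fun w => |w + ev Wp y| ≤ e5) ≤
          (eigs P y).filter (fun w => - ev Wp y = w) +
          (eigs P y).filter (fun w => w ≠ - ev Wp y ∧ |w + ev Wp y| ≤ e5) := by
        rw [Multiset.le_iff_count]
        intro w
        rw [Multiset.count_add, Multiset.count_filter, Multiset.count_filter,
          Multiset.count_filter]
        by_cases ha : w = - ev Wp y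
        · have hb : |w + ev Wp y| ≤ e5 := by rw [ha]; simp; linarith
          simp [ha]
          split_ifs <;> simp
        · have hc : ¬ (- ev Wp y = w) := fun h => ha h.symm
          by_cases hb : |w + ev Wp y| ≤ e5
          · simp [ha, hb]
          · simp [hb]
      have h4 := Multiset.card_le_card h3
      rw [Multiset.card_add] at h4
      have h5 : ((eigs P y).filter (fun w => - ev Wp y = w)).card =
          (eigs P y).count (- ev Wp y) := by
        rw [Multiset.count_eq_card_filter_eq]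
      rw [h5] at h4
      simp only [hneard]
      exact_mod_cast h4
    have hcc := conj_count P Wp (lam i) y hconj
    have h6 : ((eigs P y).count (- ev Wp y) : ℝ) ≤ M + η * n := by
      rw [← hcc]; exact hcnt
    have hw0 := fd_wt_nonneg y hy4
    have hw1 := fd_wt_le y hy4
    have h7 : m * (r + 1) ≤ wt y * (M + η * n + near y) + e5 * n := by
      have h8 : m ≤ wt y / (r + 1) * (M + η * n + near y) + e5 * n / (r + 1) := by
        refine h1.trans ?_
        have h9 : 0 ≤ wt y / (r + 1) := by positivity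
        have h10 := h2.trans (add_le_add_left h6 (near y))
        gcongr
      calc m * (r + 1) ≤ (wt y / (r + 1) * (M + η * n + near y) + e5 * n / (r + 1)) * (r + 1) := by
            gcongr
        _ = _ := by field_simp
    have hnn := hnear0 y
    have h8 : wt y * (M + η * n + near y) ≤ wt y * M + 8 / 5 * (1 / 2000000000 * n + near y) := by
      have h9 : η * n ≤ 1 / 2000000000 * n := by gcongr
      have h10 : wt y * (η * n + near y) ≤ wt y * (1 / 2000000000 * n + near y) := by gcongr
      have h11 : wt y * (1 / 2000000000 * n + near y) ≤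
          8 / 5 * (1 / 2000000000 * n + near y) := by gcongr
      linarith
    have h9 : e4 * n ≤ 1 / 2000000000 * n := by gcongr
    have h10 : e5 * n ≤ 1 / 2000000000 * n := by gcongr
    have h11 : (wt z - wt y) * M ≤ 4 / 2000000000 * n + 8 / 5 * near y := by
      linarith
    have h12 : (wt z - wt y) * n ≤ 20000 * (4 / 2000000000 * n + 8 / 5 * near y) := by
      by_cases hs : 0 ≤ wt z - wt y
      · calc (wt z - wt y) * n ≤ (wt z - wt y) * (20000 * M) := by gcongr
          _ = 20000 * ((wt z - wt y) * M) := by ring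
          _ ≤ _ := by gcongr
      · have h13 : (wt z - wt y) * n ≤ 0 := by nlinarith
        have h14 : 0 ≤ 20000 * (4 / 2000000000 * n + 8 / 5 * near y) := by positivity
        linarith
    have h15 := wt_diff z y hz hy4
    have h16 : (9 * y ^ 2 / 250 - 1 / 10000) * n ≤
        20000 * (4 / 2000000000 * n + 8 / 5 * near y) :=
      le_trans (mul_le_mul_of_nonneg_right h15 hnpos.le) h12
    have h17 : (9 * y ^ 2 / 250 - 1 / 10000) * n = 9 / 250 * (y ^ 2 * n) - 1 / 10000 * n := by
      ring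
    rw [h17] at h16
    linarith
  set c : ℝ := ((orb lam (lam i)).card : ℝ) with hc
  have himem : lam i ∈ orb lam (lam i) := by
    refine mem_filter.mpr ⟨mem_image.mpr ⟨i, mem_univ _, rfl⟩, fun h => Iff.rfl⟩
  have hcpos : 0 < c := by
    rw [hc]
    exact_mod_cast card_pos.mpr ⟨_, himem⟩
  have hsum : ∑ y ∈ orb lam (lam i), y ^ 2 ≤ 1 / 2 * c := by
    have h1 : (∑ y ∈ orb lam (lam i), y ^ 2) * n ≤
        ∑ y ∈ orb lam (lam i), (1 / 200 * n + 900000 * near y) := by
      rw [sum_mul]
      exact sum_le_sum hpt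
    rw [sum_add_distrib, sum_const, nsmul_eq_mul, ← mul_sum] at h1
    have h2 : (∑ y ∈ orb lam (lam i), y ^ 2) * n ≤ (1 / 2 * c) * n := by
      nlinarith
    exact le_of_mul_le_mul_right h2 hnpos
  have hprod := one_le_prod_orb A O lam hO hA i X (by simpa using hne)
  simp only [ev_X] at hprod
  have h1 : (1 : ℝ) ≤ ∏ y ∈ orb lam (lam i), y ^ 2 := by
    have : (∏ y ∈ orb lam (lam i), y ^ 2) = (∏ y ∈ orb lam (lam i), |y|) ^ 2 := by
      rw [← prod_pow]
      apply prod_congr rfl
      intro y _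
      rw [sq_abs]
    rw [this]
    exact one_le_pow₀ hprod
  have h2 : ∏ y ∈ orb lam (lam i), y ^ 2 ≤ ∏ y ∈ orb lam (lam i), Real.exp (y ^ 2 - 1) := by
    apply prod_le_prod
    · intro y _; positivity
    · intro y _
      have := Real.add_one_le_exp (y ^ 2 - 1)
      linarith
  rw [← Real.exp_sum] at h2
  have h3 : ∑ y ∈ orb lam (lam i), (y ^ 2 - 1) < 0 := by
    rw [sum_sub_distrib, sum_const, nsmul_eq_mul]
    have : (∑ y ∈ orb lam (lam i), y ^ 2) ≤ 1 / 2 * c := hsum
    linarith
  have h4 : Real.exp (∑ y ∈ orb lam (lam i), (y ^ 2 - 1)) < 1 := by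
    rwa [Real.exp_lt_one_iff]
  linarith

end Pool.Agent.H18.Cage
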