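import Pool.Agent.H18.Cage.EigM

/-! Module GENQ-1. -/

set_option autoImplicit false

namespace Pool.Agent.H18.Cage

open Polynomial Matrix Finset

/-- MODULE GENQ-1. -/
theorem exists_genQ {V : Type} [Fintype V] [DecidableEq V] (P : Matrix V V ℤ[X])
    (x0 : ℝ) (hx0 : Transcendental ℤ x0) (y0 : ℝ) (hy0 : y0 ∈ eigs P x0) :
    ∃ (Q P1 : ℤ[X][X]), GenQ P Q P1 ((eigs P x0).count y0) x0 := by
  classical
  let φ : ℤ[X] →+* ℝ := (aeval x0 : ℤ[X] →ₐ[ℤ] ℝ).toRingHom
  have hφ : Function.Injective φ := transcendental_iff_injective.mp hx0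
  let _ : Algebra ℤ[X] ℝ := φ.toAlgebra
  have : Module.IsTorsionFree ℤ[X] ℝ := by
    have : FaithfulSMul ℤ[X] ℝ := (faithfulSMul_iff_algebraMap_injective ℤ[X] ℝ).mpr hφ
    infer_instance
  have hev : ∀ (p : ℤ[X][X]) (y : ℝ), ev2 p x0 y = aeval y p := by
    intro p y
    rw [Polynomial.aeval_def, Polynomial.eval₂_eq_eval_map]
    rfl
  have hch : (P.charpoly).map φ = (evM P x0).charpoly := by
    rw [← Matrix.charpoly_map]
    rfl
  have hroot : aeval y0 P.charpoly = 0 := by
    rw [← hev]
    unfold ev2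
    rw [hch]
    exact (Polynomial.mem_roots'.mp hy0).2
  have hint : IsIntegral ℤ[X] y0 := by
    refine ⟨P.charpoly, Matrix.charpoly_monic P, ?_⟩
    rw [← Polynomial.aeval_def]
    exact hroot
  set Q : ℤ[X][X] := minpoly ℤ[X] y0 with hQ
  have hQm : Q.Monic := minpoly.monic hint
  have hQpos : 0 < Q.natDegree := minpoly.natDegree_pos hint
  have hQirr : Irreducible Q := minpoly.irreducible hint
  have hdvd : ∀ (y : ℝ), ev2 Q x0 y = 0 → ∀ p : ℤ[X][X], ev2 p x0 y = 0 → Q ∣ p := by
    intro y hy p hp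
    rw [hev] at hy hp
    have hyint : IsIntegral ℤ[X] y := ⟨Q, hQm, by rw [← Polynomial.aeval_def]; exact hy⟩
    have h1 : minpoly ℤ[X] y ∣ Q := minpoly.isIntegrallyClosed_dvd hyint hy
    have h2 : minpoly ℤ[X] y ∣ p := minpoly.isIntegrallyClosed_dvd hyint hp
    have h3 : Associated (minpoly ℤ[X] y) Q :=
      (minpoly.irreducible hyint).associated_of_dvd hQirr h1
    have h4 : minpoly ℤ[X] y = Q :=
      Polynomial.eq_of_monic_of_associated (minpoly.monic hyint) hQm h3
    rw [← h4]
    exact h2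
  have hder : derivative Q ≠ 0 := by
    intro h
    have := Polynomial.derivative_eq_zero.mp h
    omega
  have hnd : ¬ Q ∣ derivative Q := by
    intro h
    have h1 := Polynomial.natDegree_le_of_dvd h hder
    have h2 := Polynomial.natDegree_derivative_lt (p := Q) (by omega)
    omega
  have hfin : FiniteMultiplicity Q P.charpoly :=
    FiniteMultiplicity.of_not_isUnit hQirr.not_isUnit (Matrix.charpoly_monic P).ne_zero
  obtain ⟨P1, hP1, hP1'⟩ := hfin.exists_eq_pow_mul_and_not_dvd
  set m := multiplicity Q P.charpoly with hm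
  have hQ0 : ev2 Q x0 y0 = 0 := by
    rw [hev]
    exact minpoly.aeval _ _
  have hsimple : ∀ y : ℝ, ev2 Q x0 y = 0 →
      ev2 (derivative Q) x0 y ≠ 0 ∧ ev2 P1 x0 y ≠ 0 := by
    intro y hy
    exact ⟨fun h => hnd (hdvd y hy _ h), fun h => hP1' (hdvd y hy _ h)⟩
  have hcount : (eigs P x0).count y0 = m := by
    unfold eigs
    rw [← hch, hP1]
    have hne : (Q ^ m * P1).map φ ≠ 0 := by
      rw [← hP1]
      exact ((Matrix.charpoly_monic P).map φ).ne_zero
    rw [Polynomial.map_mul, Polynomial.map_pow] at hne ⊢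
    rw [Polynomial.roots_mul hne, Polynomial.roots_pow, Multiset.count_add, Multiset.count_nsmul,
      Polynomial.count_roots, Polynomial.count_roots]
    · have h1 : rootMultiplicity y0 (P1.map φ) = 0 := by
        apply Polynomial.rootMultiplicity_eq_zero
        exact (hsimple y0 hQ0).2
      have h2 : rootMultiplicity y0 (Q.map φ) = 1 := by
        have h3 : (Q.map φ) ≠ 0 := (hQm.map φ).ne_zero
        have h4 : 0 < rootMultiplicity y0 (Q.map φ) :=
          (Polynomial.rootMultiplicity_pos h3).mpr hQ0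
        have h5 : ¬ 1 < rootMultiplicity y0 (Q.map φ) := by
          intro h
          rw [Polynomial.one_lt_rootMultiplicity_iff_isRoot h3] at h
          apply (hsimple y0 hQ0).1
          unfold ev2
          rw [← Polynomial.derivative_map]
          exact h.2
        omega
      rw [h1, h2]
      omega
  rw [hcount]
  exact ⟨Q, P1, hQm, hQpos, hP1, hsimple⟩

end Pool.Agent.H18.Cage
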