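import Pool.Agent.H18.Cage.FinDefs

/-! Module RANK-1. -/

set_option autoImplicit false

namespace Pool.Agent.H18.Cage

open Polynomial Matrix Finset

/-- If the columns in `Z` are divisible by `q` then `q ^ #Z` divides the determinant. -/
theorem pow_dvd_det_of_cols {ι R : Type} [Fintype ι] [DecidableEq ι] [CommRing R]
    (N : Matrix ι ι R) (q : R) (Z : Finset ι) (h : ∀ i, ∀ j ∈ Z, q ∣ N i j) :
    q ^ Z.card ∣ N.det := by
  classical
  have h' : ∀ i j, ∃ m, N i j = m * (if j ∈ Z then q else 1) := by
    intro i j
    by_cases hj : j ∈ Z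
    · obtain ⟨m, hm⟩ := h i j hj
      exact ⟨m, by rw [if_pos hj, hm, mul_comm]⟩
    · exact ⟨N i j, by rw [if_neg hj, mul_one]⟩
  choose N' hN' using h'
  have hN : N = Matrix.of N' * Matrix.diagonal (fun j => if j ∈ Z then q else 1) := by
    ext i j
    rw [Matrix.mul_diagonal, Matrix.of_apply]
    exact hN' i j
  rw [hN, Matrix.det_mul, Matrix.det_diagonal]
  have : ∏ j, (if j ∈ Z then q else 1) = q ^ Z.card := by
    rw [Finset.prod_ite_mem, Finset.univ_inter, Finset.prod_const]
  rw [this]
  exact dvd_mul_left _ _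

/-- The determinant of a polynomial matrix vanishes at `x` to the order of the corank. -/
theorem pow_dvd_det_of_rank {ι : Type} [Fintype ι] [DecidableEq ι] (N : Matrix ι ι ℝ[X])
    (x : ℝ) :
    (X - C x) ^ (Fintype.card ι - (N.map (fun p => p.eval x)).rank) ∣ N.det := by
  set A : Matrix ι ι ℝ := N.map (fun p => p.eval x) with hA
  obtain ⟨V, U, e, hV, hU, hVU⟩ := Matrix.exists_rank_normal_form A
  set Z : Finset ι := univ.filter (fun j => ∃ l, e j = Sum.inr l) with hZdef
  have hZ : Z.card = Fintype.card ι - A.rank := by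
    have h1 : Z = (univ : Finset (Fin (Fintype.card ι - A.rank))).map
        ⟨fun l => e.symm (Sum.inr l), e.symm.injective.comp Sum.inr_injective⟩ := by
      ext j
      simp only [hZdef, mem_filter, mem_univ, true_and, mem_map, Function.Embedding.coeFn_mk]
      constructor
      · rintro ⟨l, hl⟩
        exact ⟨l, by rw [← hl, e.symm_apply_apply]⟩
      · rintro ⟨l, hl⟩
        exact ⟨l, by rw [← hl, e.apply_symm_apply]⟩
    rw [h1, card_map, card_univ, Fintype.card_fin]
  have hdvd : (X - C x) ^ Z.card ∣ (V.map C * N * U.map C).det := by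
    apply pow_dvd_det_of_cols
    intro i j hj
    rw [Polynomial.dvd_iff_isRoot]
    obtain ⟨l, hl⟩ := (Finset.mem_filter.mp hj).2
    have h2 : (V.map C * N * U.map C).map (fun p => p.eval x) = V * A * U := by
      have h3 : ∀ M1 M2 : Matrix ι ι ℝ[X], (M1 * M2).map (fun p => p.eval x) =
          M1.map (fun p => p.eval x) * M2.map (fun p => p.eval x) := by
        intro M1 M2
        exact Matrix.map_mul (f := Polynomial.evalRingHom x)
      rw [h3, h3]
      congr 2
      · ext a b
        simp
      · ext a b
        simp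
    have h4 := congrFun (congrFun h2 i) j
    rw [hVU] at h4
    change Polynomial.eval x ((V.map C * N * U.map C) i j) = 0
    rw [Matrix.map_apply] at h4
    rw [h4, Matrix.submatrix_apply, hl]
    rcases e i with a | a <;> simp
  rw [Matrix.det_mul, Matrix.det_mul, hZ] at hdvd
  have hV' : IsUnit (V.map C : Matrix ι ι ℝ[X]).det := by
    have : (V.map C : Matrix ι ι ℝ[X]).det = C V.det := by
      rw [RingHom.map_det]
      rfl
    rw [this]
    exact ((Matrix.isUnit_iff_isUnit_det _).mp hV).map C
  have hU' : IsUnit (U.map C : Matrix ι ι ℝ[X]).det := by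
    have : (U.map C : Matrix ι ι ℝ[X]).det = C U.det := by
      rw [RingHom.map_det]
      rfl
    rw [this]
    exact ((Matrix.isUnit_iff_isUnit_det _).mp hU).map C
  rw [IsUnit.dvd_mul_right hU', IsUnit.dvd_mul_left hV'] at hdvd
  exact hdvd

/-- MODULE RANK-1. Sum of the rank drops of a polynomial matrix. -/
theorem sum_corank_le {ι : Type} [Fintype ι] [DecidableEq ι] (B : Matrix ι ι ℝ[X]) (t : ℕ)
    (hB : ∀ i j, (B i j).natDegree ≤ t) (x0 : ℝ) (L : Finset ℝ) :
    ∑ x ∈ L, (((B.map (fun p => p.eval x0)).rank : ℝ) - ((B.map (fun p => p.eval x)).rank : ℝ))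
      ≤ t * Fintype.card ι := by
  set R := (B.map (fun p => p.eval x0)).rank with hR
  obtain ⟨V, U, e, hV, hU, hVU⟩ := Matrix.exists_rank_normal_form (B.map (fun p => p.eval x0))
  set S : Matrix (Fin R) ι ℝ := V.submatrix (fun l => e.symm (Sum.inl l)) id with hS
  set T : Matrix ι (Fin R) ℝ := U.submatrix id (fun l => e.symm (Sum.inl l)) with hT
  set N : Matrix (Fin R) (Fin R) ℝ[X] := S.map C * B * T.map C with hN
  have hev : ∀ x, N.map (fun p => p.eval x) = S * (B.map (fun p => p.eval x)) * T := by
    intro x
    have h3 : ∀ {a b c : Type} [Fintype b] (M1 : Matrix a b ℝ[X]) (M2 : Matrix b c ℝ[X]),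
        (M1 * M2).map (fun p => p.eval x) =
        M1.map (fun p => p.eval x) * M2.map (fun p => p.eval x) := by
      intro a b c _ M1 M2
      exact Matrix.map_mul (f := Polynomial.evalRingHom x)
    rw [hN, h3, h3]
    congr 2
    · ext a b
      simp
    · ext a b
      simp
  have hx0 : N.map (fun p => p.eval x0) = 1 := by
    rw [hev]
    have h1 : S * (B.map (fun p => p.eval x0)) * T =
        (V * (B.map (fun p => p.eval x0)) * U).submatrix (fun l => e.symm (Sum.inl l))
          (fun l => e.symm (Sum.inl l)) := by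
      rw [hS, hT]
      ext a b
      simp [Matrix.mul_apply]
    rw [h1, hVU]
    ext a b
    simp [Matrix.one_apply]
  have hdet : N.det ≠ 0 := by
    intro h0
    have h1 : (N.map (fun p => p.eval x0)).det = N.det.eval x0 := by
      have := RingHom.map_det (Polynomial.evalRingHom x0) N
      exact this.symm
    rw [hx0, h0, Matrix.det_one, Polynomial.eval_zero] at h1
    exact one_ne_zero h1
  have hdeg : N.det.natDegree ≤ t * R := by
    have hNd : ∀ i j, (N i j).natDegree ≤ t := by
      intro i j
      rw [hN]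
      simp only [Matrix.mul_apply, Matrix.map_apply]
      refine Polynomial.natDegree_sum_le_of_forall_le _ _ fun a _ => ?_
      refine (Polynomial.natDegree_mul_C_le _ _).trans ?_
      refine Polynomial.natDegree_sum_le_of_forall_le _ _ fun b _ => ?_
      exact (Polynomial.natDegree_C_mul_le _ _).trans (hB _ _)
    rw [Matrix.det_apply]
    refine Polynomial.natDegree_sum_le_of_forall_le _ _ fun σ _ => ?_
    refine (Polynomial.natDegree_smul_le _ _).trans ?_
    refine (Polynomial.natDegree_prod_le _ _).trans ?_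
    refine (Finset.sum_le_sum (fun i _ => hNd _ _)).trans ?_
    simp [mul_comm]
  have hx : ∀ x ∈ L, ((R : ℝ) - ((B.map (fun p => p.eval x)).rank : ℝ)) ≤
      (N.det.roots.count x : ℝ) := by
    intro x _
    have h1 := pow_dvd_det_of_rank N x
    rw [Fintype.card_fin] at h1
    have h2 : (N.map (fun p => p.eval x)).rank ≤ (B.map (fun p => p.eval x)).rank := by
      rw [hev]
      exact (Matrix.rank_mul_le_left _ _).trans (Matrix.rank_mul_le_right _ _)
    rw [Polynomial.count_roots]
    have h3 : R - (N.map (fun p => p.eval x)).rank ≤ rootMultiplicity x N.det :=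
      (Polynomial.le_rootMultiplicity_iff hdet).mpr h1
    have h4 : R ≤ rootMultiplicity x N.det + (B.map (fun p => p.eval x)).rank := by omega
    have h5 : (R : ℝ) ≤ rootMultiplicity x N.det + (B.map (fun p => p.eval x)).rank := by
      exact_mod_cast h4
    linarith
  have hsum : ∑ x ∈ L, N.det.roots.count x ≤ Multiset.card N.det.roots := by
    rw [← Multiset.toFinset_sum_count_eq N.det.roots]
    calc ∑ x ∈ L, N.det.roots.count x
        ≤ ∑ x ∈ L ∪ N.det.roots.toFinset, N.det.roots.count x :=
          Finset.sum_le_sum_of_subset Finset.subset_union_left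
      _ = ∑ x ∈ N.det.roots.toFinset, N.det.roots.count x := by
          symm
          apply Finset.sum_subset Finset.subset_union_right
          intro y _ hy
          rw [Multiset.mem_toFinset] at hy
          exact Multiset.count_eq_zero_of_notMem hy
  have hRn : R ≤ Fintype.card ι := Matrix.rank_le_card_width _
  calc ∑ x ∈ L, ((R : ℝ) - ((B.map (fun p => p.eval x)).rank : ℝ))
      ≤ ∑ x ∈ L, (N.det.roots.count x : ℝ) := Finset.sum_le_sum hx
    _ = ((∑ x ∈ L, N.det.roots.count x : ℕ) : ℝ) := by push_cast; rfl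
    _ ≤ (Multiset.card N.det.roots : ℝ) := by exact_mod_cast hsum
    _ ≤ (N.det.natDegree : ℝ) := by exact_mod_cast Polynomial.card_roots' _
    _ ≤ ((t * R : ℕ) : ℝ) := by exact_mod_cast hdeg
    _ ≤ ((t * Fintype.card ι : ℕ) : ℝ) := by
        exact_mod_cast Nat.mul_le_mul_left t hRn
    _ = t * Fintype.card ι := by push_cast; rfl

end Pool.Agent.H18.Cage
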