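import Pool.Agent.H18.Cage.GenQ2
import Pool.Agent.H18.Cage.Rank1

/-! Module GENQ-3. -/

set_option autoImplicit false

namespace Pool.Agent.H18.Cage

open Polynomial Matrix Finset

namespace GQ3

/-- The evaluation homomorphism. -/
noncomputable def phi (x : ℝ) : ℤ[X] →+* ℝ := (aeval x : ℤ[X] →ₐ[ℤ] ℝ).toRingHom

theorem phi_apply (x : ℝ) (p : ℤ[X]) : phi x p = ev p x := rfl

theorem evM_eq {V : Type} (P : Matrix V V ℤ[X]) (x : ℝ) : evM P x = P.map (phi x) := rfl

theorem ev2_eq (Q : ℤ[X][X]) (x y : ℝ) : ev2 Q x y = (Q.map (phi x)).eval y := rfl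

theorem charpoly_evM {V : Type} [Fintype V] [DecidableEq V] (P : Matrix V V ℤ[X]) (x : ℝ) :
    (evM P x).charpoly = P.charpoly.map (phi x) := by
  rw [evM_eq, Matrix.charpoly_map]

theorem herm {V : Type} (P : Matrix V V ℤ[X]) (hP : P.IsSymm) (x : ℝ) :
    (evM P x).IsHermitian := by
  ext i j
  have := hP.apply i j
  simp [evM, this]

theorem aeval_diagonal {V : Type} [Fintype V] [DecidableEq V] (d : V → ℝ) (q : ℝ[X]) :
    aeval (diagonal d) q = diagonal (fun i => q.eval (d i)) := by
  have h1 : (diagonal d : Matrix V V ℝ) = Matrix.diagonalAlgHom ℝ d := rfl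
  rw [h1, aeval_algHom_apply, aeval_pi_apply]
  simp

theorem aeval_herm {V : Type} [Fintype V] [DecidableEq V] (B : Matrix V V ℝ)
    (hB : B.IsHermitian) (q : ℝ[X]) :
    (aeval B q).rank + (B.charpoly.roots.filter (fun w => q.eval w = 0)).card
      = Fintype.card V := by
  have h1 : aeval B q = Unitary.conjStarAlgAut ℝ _ hB.eigenvectorUnitary
      (diagonal (fun i => q.eval (hB.eigenvalues i))) := by
    rw [← aeval_diagonal]
    conv_lhs => rw [hB.spectral_theorem]
    have h2 := aeval_algHom_apply (R := ℝ)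
      ((Unitary.conjStarAlgAut ℝ (Matrix V V ℝ) hB.eigenvectorUnitary).toAlgEquiv.toAlgHom)
      (diagonal hB.eigenvalues) q
    exact h2
  have h3 : (aeval B q).rank = (diagonal (fun i => q.eval (hB.eigenvalues i))).rank := by
    rw [h1, Unitary.conjStarAlgAut_apply, ← Unitary.coe_star]
    simp [-isUnit_iff_ne_zero, -Unitary.coe_star]
  rw [h3, Matrix.rank_diagonal, hB.roots_charpoly_eq_eigenvalues]
  rw [Multiset.filter_map, Multiset.card_map]
  have h4 : (Multiset.filter ((fun w => eval w q = 0) ∘ RCLike.ofReal ∘ hB.eigenvalues)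
      (univ : Finset V).val).card = Fintype.card {i // ¬ (q.eval (hB.eigenvalues i) ≠ 0)} := by
    rw [Fintype.card_subtype]
    simp only [ne_eq, not_not]
    rfl
  rw [h4]
  have := Fintype.card_subtype_compl (fun i => q.eval (hB.eigenvalues i) ≠ 0)
  have h5 := Fintype.card_subtype_le (fun i => q.eval (hB.eigenvalues i) ≠ 0)
  omega

theorem map_aeval_phi {V : Type} [Fintype V] [DecidableEq V] (P : Matrix V V ℤ[X]) (Q : ℤ[X][X])
    (x : ℝ) : (aeval P Q : Matrix V V ℤ[X]).map (phi x) = aeval (evM P x) (Q.map (phi x)) := by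
  have h1 : (aeval P Q : Matrix V V ℤ[X]).map (phi x) = (phi x).mapMatrix (aeval P Q) := rfl
  rw [h1, aeval_def, aeval_def, hom_eval₂, eval₂_map]
  congr 1
  ext p i j
  all_goals
    simp [Matrix.algebraMap_matrix_apply, apply_ite (phi x)]

theorem natDegree_pow_apply {V : Type} [Fintype V] [DecidableEq V] (P : Matrix V V ℤ[X]) (D : ℕ)
    (h : ∀ u v, (P u v).natDegree ≤ D) (j : ℕ) : ∀ u v, ((P ^ j) u v).natDegree ≤ j * D := by
  induction j with
  | zero =>
    intro u v
    rw [pow_zero, Matrix.one_apply]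
    split_ifs <;> simp
  | succ j ih =>
    intro u v
    rw [pow_succ, Matrix.mul_apply]
    refine natDegree_sum_le_of_forall_le _ _ fun i _ => ?_
    refine natDegree_mul_le.trans ?_
    have := ih u i
    have := h i v
    nlinarith

theorem natDegree_aeval_apply {V : Type} [Fintype V] [DecidableEq V] (P : Matrix V V ℤ[X])
    (D N : ℕ) (h : ∀ u v, (P u v).natDegree ≤ D) (Q : ℤ[X][X]) (hQ : Q.natDegree ≤ N)
    (hc : ∀ j, (Q.coeff j).natDegree ≤ D * N) (u v : V) :
    ((aeval P Q : Matrix V V ℤ[X]) u v).natDegree ≤ 2 * D * N := by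
  rw [aeval_eq_sum_range, Matrix.sum_apply]
  refine natDegree_sum_le_of_forall_le _ _ fun i hi => ?_
  rw [Matrix.smul_apply, smul_eq_mul]
  refine natDegree_mul_le.trans ?_
  have h1 := natDegree_pow_apply P D h i u v
  have h2 := hc i
  have h3 : i ≤ N := by
    have := mem_range.mp hi
    omega
  have h4 : i * D ≤ N * D := Nat.mul_le_mul_right _ h3
  nlinarith

/-- The version of `sum_corank_le` for integer polynomial matrices. -/
theorem sum_corank_int {ι : Type} [Fintype ι] [DecidableEq ι] (B : Matrix ι ι ℤ[X]) (t : ℕ)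
    (hB : ∀ i j, (B i j).natDegree ≤ t) (x0 : ℝ) (L : Finset ℝ) :
    ∑ x ∈ L, (((B.map (phi x0)).rank : ℝ) - ((B.map (phi x)).rank : ℝ))
      ≤ t * Fintype.card ι := by
  have h := sum_corank_le (B.map (Polynomial.map (Int.castRingHom ℝ))) t
    (fun i j => by rw [Matrix.map_apply]; exact natDegree_map_le.trans (hB i j)) x0 L
  have h1 : ∀ x : ℝ, (B.map (Polynomial.map (Int.castRingHom ℝ))).map (fun p => p.eval x)
      = B.map (phi x) := by
    intro x
    ext i j
    simp only [Matrix.map_apply, phi_apply, ev, eval_map]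
    rw [aeval_def]
    rfl
  simp only [h1] at h
  exact h

/-- Common roots. -/
theorem res_eq_zero {Q : ℤ[X][X]} (m : ℕ) (hm : Q.natDegree ≤ m) (hm0 : m ≠ 0) (x y : ℝ)
    (h1 : ev2 Q x y = 0) (h2 : ev2 (derivative Q) x y = 0) :
    ((sylvester Q (derivative Q) m m).map (phi x)).det = 0 := by
  have h3 : ((sylvester Q (derivative Q) m m).map (phi x)).det
      = resultant (Q.map (phi x)) ((derivative Q).map (phi x)) m m := by
    rw [resultant, sylvester_map_map]
    rfl
  rw [h3]
  obtain ⟨p, q, -, -, h⟩ := exists_mul_add_mul_eq_C_resultant (m := m) (n := m)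
    (Q.map (phi x)) ((derivative Q).map (phi x)) (natDegree_map_le.trans hm)
    (natDegree_map_le.trans ((natDegree_derivative_le Q).trans (by omega))) (Or.inl hm0)
  have h4 := congrArg (eval y) h
  rw [eval_add, eval_mul, eval_mul, eval_C] at h4
  rw [ev2_eq] at h1 h2
  rw [h1, h2] at h4
  simpa using h4.symm

theorem res_ne_zero {Q : ℤ[X][X]} (hQ : Q.Monic) (x : ℝ)
    (hs : (Q.map (phi x)).Splits)
    (h : ∀ y, ev2 Q x y = 0 → ev2 (derivative Q) x y ≠ 0) :
    ((sylvester Q (derivative Q) Q.natDegree Q.natDegree).map (phi x)).det ≠ 0 := by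
  have h3 : ((sylvester Q (derivative Q) Q.natDegree Q.natDegree).map (phi x)).det
      = resultant (Q.map (phi x)) ((derivative Q).map (phi x)) Q.natDegree Q.natDegree := by
    rw [resultant, sylvester_map_map]
    rfl
  have hmon : (Q.map (phi x)).Monic := hQ.map _
  have hd : (Q.map (phi x)).natDegree = Q.natDegree := hQ.natDegree_map _
  have h4 := resultant_eq_prod_eval (Q.map (phi x)) ((derivative Q).map (phi x)) Q.natDegree
    (natDegree_map_le.trans ((natDegree_derivative_le Q).trans (by omega))) hs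
  rw [hd] at h4
  rw [h3, h4, hmon.leadingCoeff, one_pow, one_mul]
  intro h5
  rw [Multiset.prod_eq_zero_iff, Multiset.mem_map] at h5
  obtain ⟨y, hy, hy0⟩ := h5
  have hy1 : ev2 Q x y = 0 := by
    rw [ev2_eq]
    exact (mem_roots'.mp hy).2
  exact h y hy1 (by rw [ev2_eq]; exact hy0)

theorem rank_lt_of_det {ι : Type} [Fintype ι] [DecidableEq ι] (B : Matrix ι ι ℝ)
    (h : B.det = 0) : B.rank + 1 ≤ Fintype.card ι := by
  obtain ⟨v, hv, hBv⟩ := Matrix.exists_mulVec_eq_zero_iff.mpr h
  have h1 := LinearMap.finrank_range_add_finrank_ker B.mulVecLin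
  rw [Module.finrank_fintype_fun_eq_card] at h1
  have h2 : 0 < Module.finrank ℝ (LinearMap.ker B.mulVecLin) := by
    rw [Module.finrank_pos_iff_exists_ne_zero]
    refine ⟨⟨v, by simpa using hBv⟩, ?_⟩
    intro h0
    exact hv (congrArg Subtype.val h0)
  have h3 : B.rank = Module.finrank ℝ (LinearMap.range B.mulVecLin) := rfl
  omega

/-- The rank drop of `Q (x, P x)`. -/
theorem rank_add {V : Type} [Fintype V] [DecidableEq V] (P : Matrix V V ℤ[X]) (hP : P.IsSymm)
    (Q P1 : ℤ[X][X]) (M : ℕ) (hM : 0 < M) (hmon : Q.Monic) (hfac : P.charpoly = Q ^ M * P1)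
    (x : ℝ) :
    (Q.map (phi x)).Splits ∧
    eigs P x = M • (Q.map (phi x)).roots + (P1.map (phi x)).roots ∧
    ((aeval P Q : Matrix V V ℤ[X]).map (phi x)).rank + (M * Q.natDegree +
      ((P1.map (phi x)).roots.filter (fun w => (Q.map (phi x)).eval w = 0)).card)
      = Fintype.card V := by
  have hB := herm P hP x
  have hc : (evM P x).charpoly = (Q.map (phi x)) ^ M * P1.map (phi x) := by
    rw [charpoly_evM, hfac, Polynomial.map_mul, Polynomial.map_pow]
  have hne : (evM P x).charpoly ≠ 0 := (Matrix.charpoly_monic _).ne_zero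
  have hs : (Q.map (phi x)).Splits := by
    refine hB.splits_charpoly.of_dvd hne ?_
    rw [hc]
    exact (dvd_pow_self _ hM.ne').trans (dvd_mul_right _ _)
  have he : eigs P x = M • (Q.map (phi x)).roots + (P1.map (phi x)).roots := by
    rw [eigs, hc, roots_mul (by rw [← hc]; exact hne), roots_pow]
  refine ⟨hs, he, ?_⟩
  have h1 := aeval_herm (evM P x) hB (Q.map (phi x))
  rw [← map_aeval_phi] at h1
  have h2 : (evM P x).charpoly.roots = M • (Q.map (phi x)).roots + (P1.map (phi x)).roots := he
  rw [h2, Multiset.filter_add, Multiset.card_add, Multiset.filter_nsmul, Multiset.card_nsmul]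
    at h1
  have h3 : (Q.map (phi x)).roots.filter (fun w => (Q.map (phi x)).eval w = 0)
      = (Q.map (phi x)).roots := by
    rw [Multiset.filter_eq_self]
    intro w hw
    exact (mem_roots'.mp hw).2
  have h4 : (Q.map (phi x)).roots.card = Q.natDegree := by
    rw [← hs.natDegree_eq_card_roots, hmon.natDegree_map]
  rw [h3, h4] at h1
  exact h1

end GQ3

open GQ3

open scoped Classical in
/-- MODULE GENQ-3. For all but boundedly many `x` no root of `Q (x, .)` is multiple and the
cofactor `P1 (x, .)` has small multiplicity at each of them. -/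
theorem genQ_exceptional (D C N : ℕ) (η : ℝ) (hη : 0 < η) : ∃ K : ℕ,
    ∀ (V : Type) [Fintype V] [DecidableEq V] (P : Matrix V V ℤ[X]) (Q P1 : ℤ[X][X]) (M : ℕ)
      (x0 : ℝ), P.IsSymm → (∀ u v, (P u v).natDegree ≤ D) →
      (∀ x : ℝ, |x| ≤ 5 → ∀ u, ∑ v, |ev (P u v) x| ≤ C) →
      Fintype.card V ≤ N * M → 0 < Fintype.card V → GenQ P Q P1 M x0 →
      ∀ L : Finset ℝ,
        (∀ x ∈ L, ∃ y : ℝ, ev2 Q x y = 0 ∧ (ev2 (derivative Q) x y = 0 ∨
          (M : ℝ) + η * Fintype.card V < (eigs P x).count y)) → L.card ≤ K := by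
  obtain ⟨_, -, hK⟩ := genQ_bounds D C N
  refine ⟨⌈(2 * D * N : ℝ) / η⌉₊ + D * N * (N + N), ?_⟩
  intro V _ _ P Q P1 M x0 hP hdeg hrow hNM hV hG L hL
  obtain ⟨hQN, hQc, -, -⟩ := hK V P Q P1 M x0 hP hdeg hrow hNM hV hG
  have hM : 0 < M := by
    rcases Nat.eq_zero_or_pos M with h | h
    · rw [h] at hNM; omega
    · exact h
  set m := Q.natDegree with hm
  have hm0 : 0 < m := hG.pos
  -- the matrices
  set S : Matrix (Fin (m + m)) (Fin (m + m)) ℤ[X] := sylvester Q (derivative Q) m m with hS
  set T : Matrix V V ℤ[X] := aeval P Q with hT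
  have hSdeg : ∀ i j, (S i j).natDegree ≤ D * N := by
    intro i j
    have hd : ∀ k, ((derivative Q).coeff k).natDegree ≤ D * N := by
      intro k
      rw [coeff_derivative]
      refine natDegree_mul_le.trans ?_
      have h1 := hQc (k + 1)
      have h2 : ((k : ℤ[X]) + 1).natDegree ≤ 0 := by
        have : ((k : ℤ[X]) + 1) = ((k + 1 : ℕ) : ℤ[X]) := by push_cast; ring
        rw [this, natDegree_natCast]
      omega
    rw [hS, sylvester, Matrix.of_apply]
    induction j using Fin.addCases with
    | left j =>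
      simp only [Fin.addCases_left]
      split_ifs
      · exact hd _
      · simp
    | right j =>
      simp only [Fin.addCases_right]
      split_ifs
      · exact hQc _
      · simp
  have hTdeg := natDegree_aeval_apply P D N hdeg Q hQN hQc
  have h0 := rank_add P hP Q P1 M hM hG.monic hG.fac x0
  -- rank at x0
  have hdet0 : (S.map (phi x0)).det ≠ 0 :=
    res_ne_zero hG.monic x0 h0.1 (fun y hy => (hG.simple y hy).1)
  have hrS0 : (S.map (phi x0)).rank = m + m := by
    rw [Matrix.rank_of_det_ne_zero hdet0, Fintype.card_fin]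
  have hrT0 : (T.map (phi x0)).rank + M * m = Fintype.card V := by
    have h1 := h0.2.2
    have h2 : (P1.map (phi x0)).roots.filter (fun w => (Q.map (phi x0)).eval w = 0) = 0 := by
      rw [Multiset.filter_eq_nil]
      intro w hw hw0
      exact (hG.simple w hw0).2 (mem_roots'.mp hw).2
    rw [h2, Multiset.card_zero] at h1
    omega
  -- split L
  set L1 := L.filter (fun x => (S.map (phi x)).det = 0) with hL1
  set L2 := L.filter (fun x => ¬ (S.map (phi x)).det = 0) with hL2
  have hcard : L.card = L1.card + L2.card := (Finset.card_filter_add_card_filter_not _).symm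
  have hc1 : L1.card ≤ D * N * (N + N) := by
    have h1 := sum_corank_int S (D * N) hSdeg x0 L1
    have h2 : ∑ x ∈ L1, (1 : ℝ) ≤
        ∑ x ∈ L1, (((S.map (phi x0)).rank : ℝ) - ((S.map (phi x)).rank : ℝ)) := by
      refine sum_le_sum fun x hx => ?_
      have h3 := rank_lt_of_det _ (mem_filter.mp hx).2
      rw [Fintype.card_fin] at h3
      rw [hrS0]
      have h4 : (((S.map (phi x)).rank : ℝ)) + 1 ≤ ((m + m : ℕ) : ℝ) := by exact_mod_cast h3
      linarith
    rw [sum_const, nsmul_eq_mul, mul_one] at h2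
    rw [Fintype.card_fin] at h1
    have h5 : (L1.card : ℝ) ≤ ((D * N * (m + m) : ℕ) : ℝ) := by
      push_cast at h1 ⊢
      linarith
    have h6 : L1.card ≤ D * N * (m + m) := by exact_mod_cast h5
    refine h6.trans ?_
    exact Nat.mul_le_mul_left _ (by omega)
  have hc2 : (L2.card : ℝ) ≤ (2 * D * N : ℝ) / η := by
    have h1 := sum_corank_int T (2 * D * N) hTdeg x0 L2
    have h2 : ∑ x ∈ L2, (η * Fintype.card V) ≤
        ∑ x ∈ L2, (((T.map (phi x0)).rank : ℝ) - ((T.map (phi x)).rank : ℝ)) := by
      refine sum_le_sum fun x hx => ?_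
      obtain ⟨hxL, hdet⟩ := mem_filter.mp hx
      obtain ⟨y, hy0, hy⟩ := hL x hxL
      have hy1 : ev2 (derivative Q) x y ≠ 0 := by
        intro h3
        exact hdet (res_eq_zero m le_rfl hm0.ne' x y hy0 h3)
      have hy2 : (M : ℝ) + η * Fintype.card V < (eigs P x).count y := by
        rcases hy with h | h
        · exact absurd h hy1
        · exact h
      obtain ⟨hs, he, hr⟩ := rank_add P hP Q P1 M hM hG.monic hG.fac x
      rw [← hT, ← hm] at hr
      rw [he, Multiset.count_add, Multiset.count_nsmul] at hy2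
      have hcnt : (Q.map (phi x)).roots.count y ≤ 1 := by
        rw [count_roots]
        by_contra hlt
        have h4 := (one_lt_rootMultiplicity_iff_isRoot
          (hG.monic.map (phi x)).ne_zero (t := y)).mp (by omega)
        apply hy1
        rw [ev2_eq, ← derivative_map]
        exact h4.2
      have hcnt2 : (P1.map (phi x)).roots.count y ≤
          ((P1.map (phi x)).roots.filter (fun w => (Q.map (phi x)).eval w = 0)).card := by
        have h5 : (P1.map (phi x)).roots.count y = ((P1.map (phi x)).roots.filter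
            (fun w => (Q.map (phi x)).eval w = 0)).count y := by
          rw [Multiset.count_filter_of_pos]
          exact hy0
        rw [h5]
        exact Multiset.count_le_card _ _
      have hc' : M * (Q.map (phi x)).roots.count y ≤ M * 1 := Nat.mul_le_mul_left _ hcnt
      have h6 : (T.map (phi x)).rank + (P1.map (phi x)).roots.count y ≤
          (T.map (phi x0)).rank := by omega
      have h7 : ((T.map (phi x)).rank : ℝ) + ((P1.map (phi x)).roots.count y : ℝ) ≤
          ((T.map (phi x0)).rank : ℝ) := by exact_mod_cast h6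
      have h8 : ((M * (Q.map (phi x)).roots.count y + (P1.map (phi x)).roots.count y : ℕ) : ℝ)
          ≤ (M : ℝ) + (P1.map (phi x)).roots.count y := by
        have : M * (Q.map (phi x)).roots.count y + (P1.map (phi x)).roots.count y ≤
          M + (P1.map (phi x)).roots.count y := by omega
        exact_mod_cast this
      linarith
    rw [sum_const, nsmul_eq_mul] at h2
    have hV' : (0 : ℝ) < Fintype.card V := by exact_mod_cast hV
    have h3 : (L2.card : ℝ) * η * Fintype.card V ≤ (2 * D * N : ℝ) * Fintype.card V := by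
      push_cast at h1
      linarith
    have h4 := le_of_mul_le_mul_right h3 hV'
    rw [le_div_iff₀ hη]
    exact h4
  have hc3 : L2.card ≤ ⌈(2 * D * N : ℝ) / η⌉₊ := by
    have := hc2.trans (Nat.le_ceil _)
    exact_mod_cast this
  omega

end Pool.Agent.H18.Cage
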