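import Pool.Agent.H18.Cage.FinDefs

/-! Modules INT-1 and INT-2. -/

set_option autoImplicit false

namespace Pool.Agent.H18.Cage

open Polynomial Matrix Finset

theorem charpoly_toR_conj {ι : Type} [Fintype ι] [DecidableEq ι] (M : Matrix ι ι ℤ)
    (O : Matrix ι ι ℝ) (nu : ι → ℝ) (hO : O * Oᵀ = 1) (hM : toR M = O * diagonal nu * Oᵀ) :
    M.charpoly.map (Int.castRingHom ℝ) = ∏ i, (X - C (nu i)) := by
  rw [← Matrix.charpoly_map]
  have h1 : (Int.castRingHom ℝ).mapMatrix M = toR M := rfl
  have h2 : M.map (Int.castRingHom ℝ) = toR M := rfl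
  rw [h2, hM, mul_assoc, Matrix.charpoly_mul_comm, mul_assoc, mul_eq_one_comm.1 hO, mul_one,
    Matrix.charpoly_diagonal]

open scoped Classical in
/-- MODULE INT-1. The product of the nonzero eigenvalues of an integer symmetric matrix has
absolute value at least one. -/
theorem one_le_prod_eig {ι : Type} [Fintype ι] [DecidableEq ι] (M : Matrix ι ι ℤ)
    (O : Matrix ι ι ℝ) (nu : ι → ℝ) (hO : O * Oᵀ = 1) (hM : toR M = O * diagonal nu * Oᵀ) :
    1 ≤ ∏ i ∈ univ.filter (fun i => nu i ≠ 0), |nu i| := by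
  have hch := charpoly_toR_conj M O nu hO hM
  set a := (univ.filter (fun i => ¬ nu i ≠ 0)).card with ha
  set g : ℝ[X] := ∏ i ∈ univ.filter (fun i => nu i ≠ 0), (X - C (nu i)) with hg
  have hfac : (∏ i, (X - C (nu i)) : ℝ[X]) = g * X ^ a := by
    rw [← Finset.prod_filter_mul_prod_filter_not univ (fun i => nu i ≠ 0)]
    congr 1
    rw [ha, ← Finset.prod_const]
    apply Finset.prod_congr rfl
    intro i hi
    have : nu i = 0 := by
      have := (Finset.mem_filter.1 hi).2
      push Not at this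
      exact this
    rw [this, C_0, sub_zero]
  have hcoef : ((M.charpoly.coeff a : ℤ) : ℝ) = ∏ i ∈ univ.filter (fun i => nu i ≠ 0), (- nu i) := by
    have h1 : (M.charpoly.map (Int.castRingHom ℝ)).coeff a = (g * X ^ a).coeff a := by
      rw [hch, hfac]
    rw [Polynomial.coeff_map] at h1
    have h2 : (g * X ^ a).coeff a = g.coeff 0 := by
      have := Polynomial.coeff_mul_X_pow g a 0
      rwa [zero_add] at this
    rw [h2, Polynomial.coeff_zero_eq_eval_zero, hg, Polynomial.eval_prod] at h1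
    simp only [eval_sub, eval_X, eval_C, zero_sub] at h1
    exact h1
  have hne : (M.charpoly.coeff a : ℤ) ≠ 0 := by
    intro h0
    rw [h0] at hcoef
    have h1 : (∏ i ∈ univ.filter (fun i => nu i ≠ 0), (- nu i)) ≠ 0 := by
      rw [Finset.prod_ne_zero_iff]
      intro i hi
      exact neg_ne_zero.2 (Finset.mem_filter.1 hi).2
    exact h1 (by rw [← hcoef]; simp)
  have h1 : (1 : ℤ) ≤ |M.charpoly.coeff a| := Int.one_le_abs hne
  have h2 : (1 : ℝ) ≤ |((M.charpoly.coeff a : ℤ) : ℝ)| := by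
    exact_mod_cast h1
  rw [hcoef, Finset.abs_prod] at h2
  simpa only [abs_neg] using h2

open scoped Classical in
/-- MODULE INT-2. Few small nonzero eigenvalues. -/
theorem luck_bound {ι : Type} [Fintype ι] [DecidableEq ι] (M : Matrix ι ι ℤ)
    (O : Matrix ι ι ℝ) (nu : ι → ℝ) (hO : O * Oᵀ = 1) (hM : toR M = O * diagonal nu * Oᵀ)
    (K ε : ℝ) (hK : 1 ≤ K) (hnu : ∀ i, |nu i| ≤ K) (hε : 0 < ε) (hε1 : ε < 1) :
    ((univ.filter (fun i => nu i ≠ 0 ∧ |nu i| ≤ ε)).card : ℝ) * Real.log (1 / ε) ≤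
      Fintype.card ι * Real.log K := by
  have h1 := one_le_prod_eig M O nu hO hM
  have h2 : 0 ≤ Real.log (∏ i ∈ univ.filter (fun i => nu i ≠ 0), |nu i|) := Real.log_nonneg h1
  rw [Real.log_prod (fun i hi => (abs_pos.2 (Finset.mem_filter.1 hi).2).ne')] at h2
  have h3 : ∑ i ∈ univ.filter (fun i => nu i ≠ 0), Real.log |nu i| ≤
      ∑ i ∈ univ.filter (fun i => nu i ≠ 0),
        (Real.log K + (if |nu i| ≤ ε then Real.log ε else 0)) := by
    apply Finset.sum_le_sum
    intro i hi
    have hne := (Finset.mem_filter.1 hi).2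
    have hpos := abs_pos.2 hne
    have hK0 : 0 ≤ Real.log K := Real.log_nonneg hK
    split_ifs with h
    · have := Real.log_le_log hpos h
      linarith
    · have := Real.log_le_log hpos (hnu i)
      linarith
  rw [Finset.sum_add_distrib, ← Finset.sum_filter, Finset.filter_filter] at h3
  simp only [Finset.sum_const, nsmul_eq_mul] at h3
  have h4 : ((univ.filter (fun i => nu i ≠ 0)).card : ℝ) ≤ Fintype.card ι := by
    exact_mod_cast Finset.card_le_univ _
  have h5 := mul_le_mul_of_nonneg_right h4 (Real.log_nonneg hK)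
  rw [one_div, Real.log_inv]
  nlinarith

end Pool.Agent.H18.Cage
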