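import Pool.Agent.H18.Cage.FinalA
import Pool.Agent.H18.Cage.FinalB
import Pool.Agent.H18.Cage.GenQ1
import Pool.Agent.H18.Cage.GenQ3
import Pool.Agent.H18.Cage.EvMat
import Pool.Agent.H18.Cage.IntM
import Pool.Agent.H18.Cage.FinalD4

/-! Module FINAL-D: the final contradiction. -/

set_option autoImplicit false

namespace Pool.Agent.H18.Cage

open Polynomial Matrix Finset

theorem large_r (κ e : ℝ) (hκ : 1 ≤ κ) (he : 0 < e) (K' D : ℕ) : ∃ r0 : ℕ, ∀ r : ℕ, r0 ≤ r →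
    κ * (1 / ((r : ℝ) + 1) ^ 5) ≤ e / 2 ∧ 1 / 2 ^ r ≤ e / (4 * κ) ∧
    2 * (((r : ℝ) + 1) / 4000) + (K' + 1) < ((r : ℝ) + 1) / 1000 ∧
    2 * (D : ℝ) / 2 ^ r < 1 / ((r : ℝ) + 1) ^ 5 := by
  have ht := tendsto_pow_const_div_const_pow_of_one_lt 5 (r := (2 : ℝ)) (by norm_num)
  have ht2 := ht.comp (Filter.tendsto_add_atTop_nat 1)
  have hpos : (0 : ℝ) < 1 / (4 * (D : ℝ) + 1) := by positivity
  have hev := ht2.eventually (gt_mem_nhds hpos)
  obtain ⟨r1, hr1⟩ := Filter.eventually_atTop.mp hev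
  refine ⟨r1 + ⌈4 * κ / e⌉₊ + 2000 * (K' + 2), fun r hr => ?_⟩
  have h1 : 4 * κ / e ≤ r := by
    have h2 : (⌈4 * κ / e⌉₊ : ℝ) ≤ r := by exact_mod_cast (by omega : ⌈4 * κ / e⌉₊ ≤ r)
    exact (Nat.le_ceil _).trans h2
  have hr0 : (0 : ℝ) ≤ r := by positivity
  refine ⟨?_, ?_, ?_, ?_⟩
  · have h5 : (r : ℝ) + 1 ≤ ((r : ℝ) + 1) ^ 5 := by
      calc (r : ℝ) + 1 = ((r : ℝ) + 1) ^ 1 := by ring
        _ ≤ ((r : ℝ) + 1) ^ 5 := pow_le_pow_right₀ (by linarith) (by norm_num)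
    rw [mul_one_div, div_le_iff₀ (by positivity)]
    have h6 : 2 * κ ≤ e * ((r : ℝ) + 1) := by
      rw [div_le_iff₀ he] at h1
      nlinarith
    nlinarith
  · have h5 : (r : ℝ) ≤ 2 ^ r := by exact_mod_cast (Nat.lt_two_pow_self (n := r)).le
    have hκ0 : 0 < κ := by linarith
    rw [div_le_div_iff₀ (by positivity) (by positivity), one_mul]
    rw [div_le_iff₀ he] at h1
    nlinarith
  · have h5' : 2000 * (K' + 2) ≤ r := (Nat.le_add_left _ _).trans hr
    have h5 : ((2000 * (K' + 2) : ℕ) : ℝ) ≤ r := Nat.cast_le.mpr h5'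
    rw [Nat.cast_mul, Nat.cast_add] at h5
    norm_num at h5
    linarith
  · have h5 := hr1 r (by omega)
    simp only [Function.comp] at h5
    rw [div_lt_div_iff₀ (by positivity) (by positivity)] at h5 ⊢
    push_cast at h5
    have h6 : (2 : ℝ) ^ (r + 1) = 2 * 2 ^ r := by ring
    rw [h6] at h5
    have h7 : (0 : ℝ) < ((r : ℝ) + 1) ^ 5 := by positivity
    nlinarith

open scoped Classical in
theorem final_arith (D C : ℕ) : ∃ (b : ℕ) (ε : ℝ) (r0 : ℕ), 0 < ε ∧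
    ∀ (V : Type) [Fintype V] [DecidableEq V] (A E : Matrix V V ℤ) (Wp : ℤ[X])
      (P : Matrix V V ℤ[X]) (O : Matrix V V ℝ) (lam mu : V → ℝ) (i0 : V) (r : ℕ),
      r0 ≤ r → ¬ Model A E Wp P O lam mu i0 D C b r ε := by
  obtain ⟨K, hK1, hK⟩ := genQ_bounds D C 20000
  obtain ⟨K', hK'⟩ := genQ_exceptional D C 20000 (1 / 2000000000) (by norm_num)
  set Y : ℝ := (C : ℝ) + D + 1 with hY
  have hY1 : 1 ≤ Y := by
    have h1 : (0 : ℝ) ≤ C := by positivity
    have h2 : (0 : ℝ) ≤ D := by positivity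
    linarith
  have hDY : (D : ℝ) ≤ Y := by
    have h1 : (0 : ℝ) ≤ C := by positivity
    linarith
  have hκ1 := one_le_K1 20000 K Y hK1 hY1
  set κ := K1 20000 K Y with hκ
  set τ : ℝ := 1 / 32000000000000 with hτ
  have hτ0 : 0 < τ := by norm_num [hτ]
  have hlκ : 0 ≤ Real.log κ := Real.log_nonneg hκ1
  set e : ℝ := Real.exp (-(Real.log κ / τ + 1)) with he
  have he0 : 0 < e := Real.exp_pos _
  have he1 : e < 1 := by
    rw [he, Real.exp_lt_one_iff]
    have : 0 ≤ Real.log κ / τ := by positivity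
    linarith
  have hle : Real.log (1 / e) = Real.log κ / τ + 1 := by
    rw [one_div, Real.log_inv, he, Real.log_exp]; ring
  set e0 : ℝ := min (1 / 4000000000) (e / (8 * κ)) with he0d
  have hκ0 : 0 < κ := by linarith
  have he00 : 0 < e0 := lt_min (by norm_num) (by positivity)
  have he0a : e0 ≤ 1 / 4000000000 := min_le_left _ _
  have he0b : e0 ≤ e / (8 * κ) := min_le_right _ _
  set e5 : ℝ := Real.exp (-(9000000 * Real.log (2 * Y) + 2000000000)) with he5d
  have hl2 : 0 ≤ Real.log (2 * Y) := Real.log_nonneg (by linarith)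
  have he50 : 0 < e5 := Real.exp_pos _
  have he5a : e5 ≤ 1 / 2000000000 := by
    rw [he5d, Real.exp_neg, one_div]
    apply inv_anti₀ (by norm_num)
    have := Real.add_one_le_exp (9000000 * Real.log (2 * Y) + 2000000000)
    linarith
  have he5l : 9000000 * Real.log (2 * Y) ≤ Real.log (1 / e5) := by
    rw [one_div, Real.log_inv, he5d, Real.log_exp]; linarith
  obtain ⟨b1, ε1, r1, hε1, h1⟩ := mult_upper D C e0 he00
  obtain ⟨b2, ε2, r2, hε2, h2⟩ := mult_upper D C e5 he50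
  obtain ⟨b3, ε3, r3, hε3, h3⟩ := exists_heavy D C
  obtain ⟨r4, h4⟩ := generic_mult D
  obtain ⟨r5, h5⟩ := large_r κ e hκ1 he0 K' D
  refine ⟨b1 + b2 + b3, min (min ε1 ε2) (min ε3 (1 / 40000)), r1 + r2 + r3 + r4 + r5,
    lt_min (lt_min hε1 hε2) (lt_min hε3 (by norm_num)), ?_⟩
  intro V _ _ A E Wp P O lam mu i0 r hr hMod
  set b := b1 + b2 + b3
  set ε := min (min ε1 ε2) (min ε3 (1 / 40000)) with hεd
  have hεa : ε ≤ ε1 := (min_le_left _ _).trans (min_le_left _ _)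
  have hεb : ε ≤ ε2 := (min_le_left _ _).trans (min_le_right _ _)
  have hεc : ε ≤ ε3 := (min_le_right _ _).trans (min_le_left _ _)
  have hεe : ε ≤ 1 / 40000 := (min_le_right _ _).trans (min_le_right _ _)
  have h1' := h1 V A E Wp P O lam mu i0 b r ε (by omega) (by omega) hεa hMod
  have h2' := h2 V A E Wp P O lam mu i0 b r ε (by omega) (by omega) hεb hMod
  obtain ⟨L, hLc, hL⟩ := h3 V A E Wp P O lam mu i0 b r ε (by omega) (by omega) hεc hMod
  have hcard : 0 < Fintype.card V := Fintype.card_pos_iff.mpr ⟨i0⟩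
  set x0 : ℝ := liouvilleNumber 2 with hx0
  have htr : Transcendental ℤ x0 := transcendental_liouvilleNumber (m := 2) le_rfl
  obtain ⟨y0, hy0, hy0c⟩ := h4 V P Wp r L (by omega) hMod.Psymm hMod.Pdeg hLc hcard hL x0
  obtain ⟨Q, P1, hQ⟩ := exists_genQ P x0 htr y0 hy0
  set M := (eigs P x0).count y0 with hMd
  have hM0 : 0 < M := by omega
  obtain ⟨hQ1, hQ2, hQ3, hQ4⟩ := hK V P Q P1 M x0 hMod.Psymm hMod.Pdeg hMod.Prow hy0c hcard hQ
  have hQB : QB Q 20000 K := ⟨hQ1, hQ3, hQ4⟩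
  have hexc := hK' V P Q P1 M x0 hMod.Psymm hMod.Pdeg hMod.Prow hy0c hcard hQ
  obtain ⟨c2, c4, c5, c6⟩ := h5 r (by omega)
  have hsm : ∀ R : ℤ[X][X], (∀ x y : ℝ, |x| ≤ 5 → |y| ≤ Y → |ev2 R x y| ≤ κ) →
      ((univ.filter (fun i => ev2 R (lam i) (mu i) ≠ 0 ∧
        |ev2 R (lam i) (mu i)| ≤ e)).card : ℝ) ≤ τ * Fintype.card V := by
    intro R hR
    have h6 := luck_bound (evMat R A E) O (fun i => ev2 R (lam i) (mu i)) hMod.spec.O1
      (toR_evMat R A E O lam mu hMod.spec.O1 hMod.spec.O2 hMod.spec.hA hMod.spec.hE) κ e hκ1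
      (fun i => hR _ _ (hMod.spec.lam_le i) ((hMod.spec.mu_le i).trans hDY)) he0 he1
    rw [hle] at h6
    set S : ℝ := ((univ.filter (fun i => ev2 R (lam i) (mu i) ≠ 0 ∧
        |ev2 R (lam i) (mu i)| ≤ e)).card : ℝ) with hS
    have hS0 : 0 ≤ S := by positivity
    have h7 : S * (Real.log κ / τ + 1) ≤ (τ * Fintype.card V) * (Real.log κ / τ + 1) := by
      calc S * (Real.log κ / τ + 1) ≤ Fintype.card V * Real.log κ := h6
        _ = (τ * Fintype.card V) * (Real.log κ / τ) := by field_simp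
        _ ≤ _ := by
          apply mul_le_mul_of_nonneg_left _ (by positivity)
          linarith
    refine le_of_mul_le_mul_right h7 ?_
    have : 0 ≤ Real.log κ / τ := by positivity
    linarith
  have hnM : (Fintype.card V : ℝ) ≤ 20000 * M := by exact_mod_cast hy0c
  have hnpos : (0 : ℝ) < Fintype.card V := by exact_mod_cast hcard
  have hMpos : (0 : ℝ) < M := by exact_mod_cast hM0
  obtain ⟨i, hi, z, hz, hne, hcnt, hmult⟩ := find_lambda A E Wp P O lam mu i0 D C b r ε hMod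
    Q P1 M x0 hQ hM0 20000 K hK1 hQB (1 / 2000000000) K' hexc e0 e e τ he0 hτ0 h1'.1
    (by
      calc κ * e0 ≤ κ * (e / (8 * κ)) := by gcongr
        _ = e / 8 := by field_simp
        _ ≤ e / 2 := by linarith)
    c2
    (by
      calc 2 * e0 ≤ 2 * (e / (8 * κ)) := by gcongr
        _ = e / (4 * κ) := by field_simp; ring)
    c4
    (hsm Q (fun x y hx hy => ev2_bound Q 20000 K Y (by linarith) hY1 hQB x y hx hy))
    (hsm (derivative Q)
      (fun x y hx hy => ev2_deriv_bound Q 20000 K Y (by linarith) hY1 hQB x y hx hy))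
    c5 c6
    (by
      have h8 : e0 + 8000 * τ ≤ 1 / 2000000000 := by
        rw [hτ]; norm_num; linarith
      calc (e0 + 8000 * τ) * Fintype.card V ≤ 1 / 2000000000 * Fintype.card V := by gcongr
        _ ≤ 1 / 2000000000 * (20000 * M) := by gcongr
        _ < M := by linarith)
  exact norm_contra A E Wp P O lam mu i0 D C b r ε hMod M i z hz hne hy0c (e0 + 8000 * τ) e5
    (1 / 2000000000) (by rw [hτ]; norm_num; linarith) he5a he50 le_rfl hεe he5l hcnt hmult h2'.2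

end Pool.Agent.H18.Cage
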