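import Pool.Agent.H18.Cage.FinDefs

/-! Auxiliary file for FINAL-D: elementary estimates for bivariate polynomials. -/

set_option autoImplicit false

namespace Pool.Agent.H18.Cage

open Polynomial Matrix Finset

/-- Bounds for the coefficients of a bivariate polynomial. -/
structure QB (Q : ℤ[X][X]) (N : ℕ) (K : ℝ) : Prop where
  deg : Q.natDegree ≤ N
  bd : ∀ j, ∀ x : ℝ, |x| ≤ 5 → |ev (Q.coeff j) x| ≤ K
  lip : ∀ j, ∀ x x' : ℝ, |x| ≤ 5 → |x'| ≤ 5 →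
        |ev (Q.coeff j) x - ev (Q.coeff j) x'| ≤ K * |x - x'|

theorem ev2_eq_sum (Q : ℤ[X][X]) (N : ℕ) (hN : Q.natDegree ≤ N) (x y : ℝ) :
    ev2 Q x y = ∑ j ∈ range (N + 1), ev (Q.coeff j) x * y ^ j := by
  unfold ev2
  rw [eval_eq_sum_range' (n := N + 1)]
  · apply sum_congr rfl
    intro j _
    rw [coeff_map]
    rfl
  · exact lt_of_le_of_lt (natDegree_map_le) (by omega)

theorem ev2_deriv_eq_sum (Q : ℤ[X][X]) (N : ℕ) (hN : Q.natDegree ≤ N) (x y : ℝ) :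
    ev2 (derivative Q) x y = ∑ j ∈ range (N + 1), ev (Q.coeff j) x * (j * y ^ (j - 1)) := by
  have h1 : ev2 (derivative Q) x y =
      (derivative (Q.map (aeval x : ℤ[X] →ₐ[ℤ] ℝ).toRingHom)).eval y := by
    unfold ev2
    rw [derivative_map]
  rw [h1, derivative_eval, sum_over_range' (n := N + 1)]
  · apply sum_congr rfl
    intro j _
    rw [coeff_map]
    simp only [ev]
    have : (aeval x : ℤ[X] →ₐ[ℤ] ℝ).toRingHom (Q.coeff j) = aeval x (Q.coeff j) := rfl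
    rw [this]; ring
  · intro n; simp
  · exact lt_of_le_of_lt (natDegree_map_le) (by omega)

theorem pow_le_Y (Y : ℝ) (hY : 1 ≤ Y) (N j : ℕ) (hj : j ≤ N) : Y ^ j ≤ Y ^ N :=
  pow_le_pow_right₀ hY hj

theorem abs_pow_le_Y (Y y : ℝ) (hY : 1 ≤ Y) (hy : |y| ≤ Y) (N j : ℕ) (hj : j ≤ N) :
    |y ^ j| ≤ Y ^ N := by
  rw [abs_pow]
  exact (pow_le_pow_left₀ (abs_nonneg _) hy j).trans (pow_le_Y Y hY N j hj)

/-- The universal constant. -/
noncomputable def K1 (N : ℕ) (K Y : ℝ) : ℝ := K * ((N : ℝ) + 1) ^ 3 * Y ^ N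

theorem sum_bound (N : ℕ) (K Y : ℝ) (hK : 0 ≤ K) (hY : 1 ≤ Y) (e : ℕ) (he : e ≤ 2)
    (a : ℕ → ℝ) (c : ℝ) (hc : 0 ≤ c)
    (ha : ∀ j ≤ N, |a j| ≤ K * (((j : ℝ) + 1) ^ e * Y ^ N) * c) :
    |∑ j ∈ range (N + 1), a j| ≤ K1 N K Y * c := by
  calc |∑ j ∈ range (N + 1), a j| ≤ ∑ j ∈ range (N + 1), |a j| := abs_sum_le_sum_abs _ _
    _ ≤ ∑ j ∈ range (N + 1), K * (((N : ℝ) + 1) ^ 2 * Y ^ N) * c := by
        apply sum_le_sum
        intro j hj
        have hj' : j ≤ N := by have := mem_range.mp hj; omega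
        refine (ha j hj').trans ?_
        have hYN : 0 ≤ Y ^ N := by positivity
        have h1 : ((j : ℝ) + 1) ^ e ≤ ((N : ℝ) + 1) ^ 2 := by
          have hjN : (j : ℝ) ≤ N := by exact_mod_cast hj'
          calc ((j : ℝ) + 1) ^ e ≤ ((N : ℝ) + 1) ^ e := by gcongr
            _ ≤ ((N : ℝ) + 1) ^ 2 := by
              apply pow_le_pow_right₀ _ he
              have : (0 : ℝ) ≤ N := by positivity
              linarith
        gcongr
    _ = K1 N K Y * c := by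
        rw [sum_const, card_range, K1]
        simp only [nsmul_eq_mul]
        push_cast
        ring

theorem ev2_bound (Q : ℤ[X][X]) (N : ℕ) (K Y : ℝ) (hK : 0 ≤ K) (hY : 1 ≤ Y) (h : QB Q N K)
    (x y : ℝ) (hx : |x| ≤ 5) (hy : |y| ≤ Y) : |ev2 Q x y| ≤ K1 N K Y := by
  rw [ev2_eq_sum Q N h.deg]
  have := sum_bound N K Y hK hY 0 (by norm_num) (fun j => ev (Q.coeff j) x * y ^ j) 1 (by norm_num)
    (fun j hj => by
      simp only [pow_zero, one_mul, mul_one]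
      rw [abs_mul]
      exact mul_le_mul (h.bd j x hx) (abs_pow_le_Y Y y hY hy N j hj) (abs_nonneg _) hK)
  simpa using this

theorem ev2_deriv_bound (Q : ℤ[X][X]) (N : ℕ) (K Y : ℝ) (hK : 0 ≤ K) (hY : 1 ≤ Y) (h : QB Q N K)
    (x y : ℝ) (hx : |x| ≤ 5) (hy : |y| ≤ Y) : |ev2 (derivative Q) x y| ≤ K1 N K Y := by
  rw [ev2_deriv_eq_sum Q N h.deg]
  have := sum_bound N K Y hK hY 1 (by norm_num)
    (fun j => ev (Q.coeff j) x * (j * y ^ (j - 1))) 1 (by norm_num)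
    (fun j hj => by
      simp only [pow_one, mul_one]
      rw [abs_mul, abs_mul]
      have h1 := abs_pow_le_Y Y y hY hy N (j - 1) (by omega)
      have h2 : |(j : ℝ)| ≤ (j : ℝ) + 1 := by rw [Nat.abs_cast]; linarith
      exact mul_le_mul (h.bd j x hx) (mul_le_mul h2 h1 (abs_nonneg _) (by positivity))
        (by positivity) hK)
  simpa using this

theorem ev2_lip_x (Q : ℤ[X][X]) (N : ℕ) (K Y : ℝ) (hK : 0 ≤ K) (hY : 1 ≤ Y) (h : QB Q N K)
    (x x' y : ℝ) (hx : |x| ≤ 5) (hx' : |x'| ≤ 5) (hy : |y| ≤ Y) :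
    |ev2 Q x y - ev2 Q x' y| ≤ K1 N K Y * |x - x'| := by
  rw [ev2_eq_sum Q N h.deg, ev2_eq_sum Q N h.deg, ← sum_sub_distrib]
  exact sum_bound N K Y hK hY 0 (by norm_num)
    (fun j => ev (Q.coeff j) x * y ^ j - ev (Q.coeff j) x' * y ^ j) _ (abs_nonneg _)
    (fun j hj => by
      simp only [pow_zero, one_mul]
      rw [← sub_mul, abs_mul]
      calc |ev (Q.coeff j) x - ev (Q.coeff j) x'| * |y ^ j| ≤ (K * |x - x'|) * Y ^ N :=
            mul_le_mul (h.lip j x x' hx hx') (abs_pow_le_Y Y y hY hy N j hj) (abs_nonneg _)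
              (by positivity)
        _ = K * Y ^ N * |x - x'| := by ring)

theorem ev2_lip_y (Q : ℤ[X][X]) (N : ℕ) (K Y : ℝ) (hK : 0 ≤ K) (hY : 1 ≤ Y) (h : QB Q N K)
    (x y y' : ℝ) (hx : |x| ≤ 5) (hy : |y| ≤ Y) (hy' : |y'| ≤ Y) :
    |ev2 Q x y - ev2 Q x y'| ≤ K1 N K Y * |y - y'| := by
  rw [ev2_eq_sum Q N h.deg, ev2_eq_sum Q N h.deg, ← sum_sub_distrib]
  refine sum_bound N K Y hK hY 1 (by norm_num) _ _ (abs_nonneg _) (fun j hj => ?_)
  have e1 : ev (Q.coeff j) x * y ^ j - ev (Q.coeff j) x * y' ^ j =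
      ev (Q.coeff j) x * (y ^ j - y' ^ j) := by ring
  rw [e1, abs_mul, pow_one]
  have h1 : |y ^ j - y' ^ j| ≤ ((j : ℝ) + 1) * Y ^ j * |y - y'| := by
    clear e1 hj
    induction j with
    | zero => simp
    | succ j ih =>
      have e2 : y ^ (j + 1) - y' ^ (j + 1) = y * (y ^ j - y' ^ j) + y' ^ j * (y - y') := by ring
      rw [e2]
      have h3 : |y * (y ^ j - y' ^ j)| ≤ Y * (((j : ℝ) + 1) * Y ^ j * |y - y'|) := by
        rw [abs_mul]
        exact mul_le_mul hy ih (abs_nonneg _) (by linarith)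
      have h4 : |y' ^ j * (y - y')| ≤ Y ^ (j + 1) * |y - y'| := by
        rw [abs_mul]
        have := abs_pow_le_Y Y y' hY hy' (j + 1) j (by omega)
        gcongr
      calc _ ≤ _ := abs_add_le _ _
        _ ≤ _ := add_le_add h3 h4
        _ = (((j + 1 : ℕ) : ℝ) + 1) * Y ^ (j + 1) * |y - y'| := by push_cast; ring
  have h2 := pow_le_Y Y hY N j hj
  calc |ev (Q.coeff j) x| * |y ^ j - y' ^ j|
      ≤ K * (((j : ℝ) + 1) * Y ^ j * |y - y'|) :=
        mul_le_mul (h.bd j x hx) h1 (abs_nonneg _) hK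
    _ ≤ K * (((j : ℝ) + 1) * Y ^ N * |y - y'|) := by gcongr
    _ = K * (((j : ℝ) + 1) * Y ^ N) * |y - y'| := by ring

theorem taylor_pow (Y y y' : ℝ) (hY : 1 ≤ Y) (hy : |y| ≤ Y) (hy' : |y'| ≤ Y) (j : ℕ) :
    |y' ^ j - y ^ j - j * y ^ (j - 1) * (y' - y)| ≤ (j : ℝ) ^ 2 * Y ^ j * (y' - y) ^ 2 := by
  induction j with
  | zero => simp
  | succ j ih =>
    have key : y' ^ (j + 1) - y ^ (j + 1) - ((j + 1 : ℕ) : ℝ) * y ^ (j + 1 - 1) * (y' - y) =
        y' * (y' ^ j - y ^ j - j * y ^ (j - 1) * (y' - y)) + j * y ^ (j - 1) * (y' - y) ^ 2 := by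
      cases j with
      | zero => simp
      | succ k =>
        simp only [Nat.add_sub_cancel]
        push_cast
        ring
    rw [key]
    have h1 : |y' * (y' ^ j - y ^ j - j * y ^ (j - 1) * (y' - y))| ≤
        Y * ((j : ℝ) ^ 2 * Y ^ j * (y' - y) ^ 2) := by
      rw [abs_mul]
      exact mul_le_mul hy' ih (abs_nonneg _) (by linarith)
    have h2 : |(j : ℝ) * y ^ (j - 1) * (y' - y) ^ 2| ≤ j * Y ^ (j + 1) * (y' - y) ^ 2 := by
      rw [abs_mul, abs_mul, Nat.abs_cast, abs_of_nonneg (sq_nonneg (y' - y))]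
      have := abs_pow_le_Y Y y hY hy (j + 1) (j - 1) (by omega)
      gcongr
    calc _ ≤ _ := abs_add_le _ _
      _ ≤ Y * ((j : ℝ) ^ 2 * Y ^ j * (y' - y) ^ 2) + j * Y ^ (j + 1) * (y' - y) ^ 2 :=
          add_le_add h1 h2
      _ = ((j : ℝ) ^ 2 + j) * Y ^ (j + 1) * (y' - y) ^ 2 := by ring
      _ ≤ ((j + 1 : ℕ) : ℝ) ^ 2 * Y ^ (j + 1) * (y' - y) ^ 2 := by
          have h3 : (0 : ℝ) ≤ Y ^ (j + 1) * (y' - y) ^ 2 := by positivity
          have h4 : ((j : ℝ) ^ 2 + j) ≤ ((j + 1 : ℕ) : ℝ) ^ 2 := by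
            push_cast
            have : (0 : ℝ) ≤ j := by positivity
            nlinarith
          rw [mul_assoc, mul_assoc]
          exact mul_le_mul_of_nonneg_right h4 h3

theorem ev2_taylor (Q : ℤ[X][X]) (N : ℕ) (K Y : ℝ) (hK : 0 ≤ K) (hY : 1 ≤ Y) (h : QB Q N K)
    (x y y' : ℝ) (hx : |x| ≤ 5) (hy : |y| ≤ Y) (hy' : |y'| ≤ Y) :
    |ev2 Q x y' - ev2 Q x y - ev2 (derivative Q) x y * (y' - y)| ≤ K1 N K Y * (y' - y) ^ 2 := by
  rw [ev2_eq_sum Q N h.deg, ev2_eq_sum Q N h.deg, ev2_deriv_eq_sum Q N h.deg, sum_mul,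
    ← sum_sub_distrib, ← sum_sub_distrib]
  refine sum_bound N K Y hK hY 2 le_rfl _ _ (sq_nonneg _) (fun j hj => ?_)
  have e1 : ev (Q.coeff j) x * y' ^ j - ev (Q.coeff j) x * y ^ j -
      ev (Q.coeff j) x * (j * y ^ (j - 1)) * (y' - y) =
      ev (Q.coeff j) x * (y' ^ j - y ^ j - j * y ^ (j - 1) * (y' - y)) := by ring
  rw [e1, abs_mul]
  have h1 := taylor_pow Y y y' hY hy hy' j
  have h2 := pow_le_Y Y hY N j hj
  calc |ev (Q.coeff j) x| * |y' ^ j - y ^ j - j * y ^ (j - 1) * (y' - y)|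
      ≤ K * ((j : ℝ) ^ 2 * Y ^ j * (y' - y) ^ 2) :=
        mul_le_mul (h.bd j x hx) h1 (abs_nonneg _) hK
    _ ≤ K * (((j : ℝ) + 1) ^ 2 * Y ^ N * (y' - y) ^ 2) := by
        gcongr
        linarith
    _ = K * (((j : ℝ) + 1) ^ 2 * Y ^ N) * (y' - y) ^ 2 := by ring

theorem one_le_K1 (N : ℕ) (K Y : ℝ) (hK : 1 ≤ K) (hY : 1 ≤ Y) : 1 ≤ K1 N K Y := by
  unfold K1
  have h1 : (1 : ℝ) ≤ ((N : ℝ) + 1) ^ 3 := one_le_pow₀ (by
    have : (0 : ℝ) ≤ N := by positivity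
    linarith)
  have h2 : (1 : ℝ) ≤ Y ^ N := one_le_pow₀ hY
  calc (1 : ℝ) = 1 * 1 * 1 := by ring
    _ ≤ K * ((N : ℝ) + 1) ^ 3 * Y ^ N := by gcongr

/-- Local uniqueness of the root. -/
theorem local_unique (Q : ℤ[X][X]) (N : ℕ) (K Y : ℝ) (hK : 1 ≤ K) (hY : 1 ≤ Y) (h : QB Q N K)
    (x x' y y' : ℝ) (hx : |x| ≤ 5) (hx' : |x'| ≤ 5) (hy : |y| ≤ Y) (hy' : |y'| ≤ Y)
    (h0 : ev2 Q x y = 0) (h0' : ev2 Q x' y' = 0) (e3 t : ℝ) (he3 : 0 < e3)
    (hd : e3 < |ev2 (derivative Q) x y|)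
    (hxx : |x - x'| ≤ t * |y' - y|) (hyy : |y' - y| ≤ e3 / (4 * K1 N K Y))
    (ht2 : t ≤ e3 / (4 * K1 N K Y)) : x = x' ∧ y = y' := by
  have hK1 := one_le_K1 N K Y hK hY
  have hK0 : (0 : ℝ) ≤ K := by linarith
  set κ := K1 N K Y with hκ
  have hκ0 : 0 < κ := by linarith
  by_cases hyy0 : y' - y = 0
  · constructor
    · rw [hyy0, abs_zero, mul_zero] at hxx
      have := abs_nonpos_iff.mp hxx
      linarith
    · linarith
  · exfalso
    have hpos : 0 < |y' - y| := abs_pos.mpr hyy0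
    have h1 := ev2_lip_x Q N K Y hK0 hY h x x' y' hx hx' hy'
    have h2 := ev2_taylor Q N K Y hK0 hY h x y y' hx hy hy'
    rw [h0'] at h1
    rw [h0] at h2
    have h3 : |ev2 (derivative Q) x y| * |y' - y| ≤ κ * |x - x'| + κ * (y' - y) ^ 2 := by
      rw [← abs_mul]
      calc |ev2 (derivative Q) x y * (y' - y)|
          = |(ev2 Q x y' - 0) - (ev2 Q x y' - 0 - ev2 (derivative Q) x y * (y' - y))| := by
            congr 1; ring
        _ ≤ |ev2 Q x y' - 0| + |ev2 Q x y' - 0 - ev2 (derivative Q) x y * (y' - y)| :=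
            abs_sub _ _
        _ ≤ _ := add_le_add h1 h2
    have h4 : κ * |x - x'| ≤ κ * (t * |y' - y|) := by gcongr
    have h5 : κ * (t * |y' - y|) ≤ e3 / 4 * |y' - y| := by
      have : κ * t ≤ e3 / 4 := by
        calc κ * t ≤ κ * (e3 / (4 * κ)) := by gcongr
          _ = e3 / 4 := by field_simp
      calc κ * (t * |y' - y|) = (κ * t) * |y' - y| := by ring
        _ ≤ _ := by gcongr
    have h6 : κ * (y' - y) ^ 2 ≤ e3 / 4 * |y' - y| := by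
      have e : (y' - y) ^ 2 = |y' - y| * |y' - y| := by rw [← sq, sq_abs]
      rw [e]
      have : κ * |y' - y| ≤ e3 / 4 := by
        calc κ * |y' - y| ≤ κ * (e3 / (4 * κ)) := by gcongr
          _ = e3 / 4 := by field_simp
      calc κ * (|y' - y| * |y' - y|) = (κ * |y' - y|) * |y' - y| := by ring
        _ ≤ _ := by gcongr
    have h7 : e3 * |y' - y| < |ev2 (derivative Q) x y| * |y' - y| := by gcongr
    nlinarith

end Pool.Agent.H18.Cage
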