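import Pool.Agent.H18.Cage.EigM
import Pool.Agent.H18.Cage.FinalD1

/-! Auxiliary file for FINAL-D: roots of the generic factor, choice of the zero. -/

set_option autoImplicit false

namespace Pool.Agent.H18.Cage

open Polynomial Matrix Finset

/-- The evaluation homomorphism. -/
noncomputable def evHom (x : ℝ) : ℤ[X] →+* ℝ := (aeval x : ℤ[X] →ₐ[ℤ] ℝ).toRingHom

theorem charpoly_evM {V : Type} [Fintype V] [DecidableEq V] (P : Matrix V V ℤ[X]) (x : ℝ) :
    (evM P x).charpoly = P.charpoly.map (evHom x) := by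
  rw [← Matrix.charpoly_map]
  rfl

theorem ev2_eq (Q : ℤ[X][X]) (x y : ℝ) : ev2 Q x y = (Q.map (evHom x)).eval y := rfl

theorem exists_root {V : Type} [Fintype V] [DecidableEq V] (P : Matrix V V ℤ[X])
    (hP : P.IsSymm) (Q P1 : ℤ[X][X]) (M : ℕ) (x0 : ℝ) (hQ : GenQ P Q P1 M x0) (hM : 0 < M)
    (z : ℝ) : ∃ y, ev2 Q z y = 0 := by
  have hc : (evM P z).charpoly = (Q.map (evHom z)) ^ M * P1.map (evHom z) := by
    rw [charpoly_evM, hQ.fac]
    simp [Polynomial.map_mul, Polynomial.map_pow]
  have hs : (evM P z).charpoly.Splits := by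
    rw [splits_iff_card_roots, Matrix.charpoly_natDegree_eq_dim]
    exact card_eigs P hP z
  have hne : (evM P z).charpoly ≠ 0 := (Matrix.charpoly_monic _).ne_zero
  have hdvd : Q.map (evHom z) ∣ (evM P z).charpoly := by
    rw [hc]
    exact (dvd_pow_self _ hM.ne').mul_right _
  have hs' := hs.of_dvd hne hdvd
  have hmon : (Q.map (evHom z)).Monic := hQ.monic.map _
  have hdeg : (Q.map (evHom z)).degree ≠ 0 := by
    rw [hQ.monic.degree_map]
    intro h0
    have h1 : Q.natDegree = 0 := natDegree_eq_zero_iff_degree_le_zero.mpr h0.le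
    have := hQ.pos
    omega
  exact hs'.exists_eval_eq_zero hdeg

theorem le_count {V : Type} [Fintype V] [DecidableEq V] (P : Matrix V V ℤ[X])
    (Q P1 : ℤ[X][X]) (M : ℕ) (x0 : ℝ) (hQ : GenQ P Q P1 M x0)
    (z y : ℝ) (h : ev2 Q z y = 0) : M ≤ (eigs P z).count y := by
  have hc : (evM P z).charpoly = (Q.map (evHom z)) ^ M * P1.map (evHom z) := by
    rw [charpoly_evM, hQ.fac]
    simp [Polynomial.map_mul, Polynomial.map_pow]
  have hne : (evM P z).charpoly ≠ 0 := (Matrix.charpoly_monic _).ne_zero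
  unfold eigs
  rw [count_roots, le_rootMultiplicity_iff hne, hc]
  have h1 : (X - Polynomial.C y) ∣ Q.map (evHom z) := by
    rw [dvd_iff_isRoot]
    exact h
  exact (pow_dvd_pow_of_dvd h1 M).mul_right _

open scoped Classical in
/-- Pigeonhole for disjoint clusters. -/
theorem card_bad {V : Type} [Fintype V] (Z : Finset ℝ) (f : ℝ → Finset V) (Sm : Finset V)
    (hdis : ∀ z ∈ Z, ∀ z' ∈ Z, z ≠ z' → Disjoint (f z) (f z')) (T : ℝ) :
    ((Z.filter (fun z => T < ((f z).filter (fun j => j ∈ Sm)).card)).card : ℝ) * T ≤ Sm.card := by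
  have h1 : ∑ z ∈ Z, ((f z).filter (fun j => j ∈ Sm)).card ≤ Sm.card := by
    rw [← card_biUnion]
    · apply card_le_card
      intro j hj
      simp only [mem_biUnion, mem_filter] at hj
      obtain ⟨z, _, _, h⟩ := hj
      exact h
    · intro z hz z' hz' hne
      exact (hdis z hz z' hz' hne).mono (filter_subset _ _) (filter_subset _ _)
  calc ((Z.filter (fun z => T < ((f z).filter (fun j => j ∈ Sm)).card)).card : ℝ) * T
      = ∑ z ∈ Z.filter (fun z => T < ((f z).filter (fun j => j ∈ Sm)).card), T := by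
        rw [sum_const, nsmul_eq_mul]
    _ ≤ ∑ z ∈ Z.filter (fun z => T < ((f z).filter (fun j => j ∈ Sm)).card),
          (((f z).filter (fun j => j ∈ Sm)).card : ℝ) := by
        apply sum_le_sum
        intro z hz
        exact (mem_filter.mp hz).2.le
    _ ≤ ∑ z ∈ Z, (((f z).filter (fun j => j ∈ Sm)).card : ℝ) := by
        apply sum_le_sum_of_subset_of_nonneg (filter_subset _ _)
        intros; positivity
    _ ≤ Sm.card := by exact_mod_cast h1

open scoped Classical in
/-- Few clusters contain a point of a set all of whose finite subsets are small. -/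
theorem card_bad2 (Z : Finset ℝ) (δ : ℝ)
    (hsep : ∀ z ∈ Z, ∀ z' ∈ Z, z ≠ z' → 2 * δ ≤ |z - z'|) (Exc : ℝ → Prop) (K : ℕ)
    (hExc : ∀ L : Finset ℝ, (∀ x ∈ L, Exc x) → L.card ≤ K) :
    (Z.filter (fun z => ∃ x, |x - z| < δ ∧ Exc x)).card ≤ K := by
  choose! g hg using (fun (z : ℝ) (h : ∃ x, |x - z| < δ ∧ Exc x) => h)
  set Z' := Z.filter (fun z => ∃ x, |x - z| < δ ∧ Exc x) with hZ'
  have hinj : Set.InjOn g Z' := by
    intro z hz z' hz' he
    by_contra hne
    have hz1 := mem_filter.mp (Finset.mem_coe.mp hz)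
    have hz2 := mem_filter.mp (Finset.mem_coe.mp hz')
    have h1 := (hg z hz1.2).1
    have h2 := (hg z' hz2.2).1
    have h3 := hsep z hz1.1 z' hz2.1 hne
    rw [← he] at h2
    have h4 : |z - z'| ≤ |g z - z| + |g z - z'| := by
      calc |z - z'| = |(g z - z') - (g z - z)| := by congr 1; ring
        _ ≤ |g z - z'| + |g z - z| := abs_sub _ _
        _ = _ := by ring
    linarith
  have h2 := hExc (Z'.image g) (by
    intro x hx
    obtain ⟨z, hz, rfl⟩ := mem_image.mp hx
    exact (hg z (mem_filter.mp hz).2).2)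
  rwa [card_image_of_injOn hinj] at h2

end Pool.Agent.H18.Cage
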