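import Pool.Agent.H18.Cage.FinalD2

/-! Auxiliary file for FINAL-D: the central eigenvalue. -/

set_option autoImplicit false

namespace Pool.Agent.H18.Cage

open Polynomial Matrix Finset

theorem mem_cl {V : Type} [Fintype V] {r : ℕ} {lam : V → ℝ} {z : ℝ} {j : V} :
    j ∈ cl r lam z ↔ |lam j - z| < 1 / ((r : ℝ) + 1) ^ 5 := by
  simp [cl]

theorem mem_nex {V : Type} [Fintype V] {lam : V → ℝ} {j : V} :
    j ∈ nex lam ↔ |lam j| ≤ 4 := by
  simp [nex]

theorem wt_lower (z : ℝ) (hz : |z| ≤ 1 / 20) : 3 / 2 ≤ wt z := by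
  have h := abs_le.mp hz
  unfold wt
  have h2 : z ^ 2 ≤ 1 / 400 := by nlinarith
  rw [le_div_iff₀ (by nlinarith)]
  nlinarith

open scoped Classical in
theorem find_lambda {V : Type} [Fintype V] [DecidableEq V] (A E : Matrix V V ℤ) (Wp : ℤ[X])
    (P : Matrix V V ℤ[X]) (O : Matrix V V ℝ) (lam mu : V → ℝ) (i0 : V)
    (D C b r : ℕ) (ε : ℝ) (hMod : Model A E Wp P O lam mu i0 D C b r ε)
    (Q P1 : ℤ[X][X]) (M : ℕ) (x0 : ℝ) (hQ : GenQ P Q P1 M x0) (hM0 : 0 < M)
    (N : ℕ) (K : ℝ) (hK : 1 ≤ K) (hQB : QB Q N K) (η : ℝ) (K' : ℕ)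
    (hexc : ∀ L : Finset ℝ,
        (∀ x ∈ L, ∃ y : ℝ, ev2 Q x y = 0 ∧ (ev2 (derivative Q) x y = 0 ∨
          (M : ℝ) + η * Fintype.card V < (eigs P x).count y)) → L.card ≤ K')
    (e0 e2 e3 τ : ℝ) (he3 : 0 < e3) (hτ : 0 < τ)
    (hpart : ∀ z : ℝ, |z| ≤ 4 → |ev Wp z| ≤ D → ∀ y : ℝ, |y| ≤ C + D →
        (((cl r lam z).filter (fun j => |mu j - y| ≤ e0)).card : ℝ) ≥
          wt z / (r + 1) * (eigs P z).count y - e0 * Fintype.card V / (r + 1))
    (c1 : K1 N K (C + D + 1) * e0 ≤ e2 / 2)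
    (c2 : K1 N K (C + D + 1) * (1 / ((r : ℝ) + 1) ^ 5) ≤ e2 / 2)
    (c3 : 2 * e0 ≤ e3 / (4 * K1 N K (C + D + 1)))
    (c4 : 1 / 2 ^ r ≤ e3 / (4 * K1 N K (C + D + 1)))
    (hs2 : ((univ.filter (fun i => ev2 Q (lam i) (mu i) ≠ 0 ∧
      |ev2 Q (lam i) (mu i)| ≤ e2)).card : ℝ) ≤ τ * Fintype.card V)
    (hs3 : ((univ.filter (fun i => ev2 (derivative Q) (lam i) (mu i) ≠ 0 ∧
      |ev2 (derivative Q) (lam i) (mu i)| ≤ e3)).card : ℝ) ≤ τ * Fintype.card V)
    (c5 : 2 * (((r : ℝ) + 1) / 4000) + (K' + 1) < ((r : ℝ) + 1) / 1000)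
    (c6 : 2 * (D : ℝ) / 2 ^ r < 1 / ((r : ℝ) + 1) ^ 5)
    (c7 : (e0 + 8000 * τ) * Fintype.card V < M) :
    ∃ i ∈ nex lam, ∃ z : ℝ, |z| ≤ 1 / 20 ∧ lam i ≠ 0 ∧
      ((eigs P (lam i)).count (- ev Wp (lam i)) : ℝ) ≤ M + η * Fintype.card V ∧
      (wt z * M - (e0 + 8000 * τ) * Fintype.card V) / (r + 1) ≤ mult lam (lam i) := by
  set n : ℝ := (Fintype.card V : ℝ) with hn
  set δ : ℝ := 1 / ((r : ℝ) + 1) ^ 5 with hδ
  set Y : ℝ := C + D + 1 with hY
  have hY1 : 1 ≤ Y := by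
    have h1 : (0 : ℝ) ≤ C := by positivity
    have h2 : (0 : ℝ) ≤ D := by positivity
    linarith
  have hDY : (D : ℝ) ≤ Y := by
    have h1 : (0 : ℝ) ≤ C := by positivity
    linarith
  have hCY : (C : ℝ) ≤ Y := by
    have h1 : (0 : ℝ) ≤ D := by positivity
    linarith
  have hκ1 := one_le_K1 N K Y hK hY1
  set κ := K1 N K Y with hκ
  have hd : (0 : ℝ) < (r : ℝ) + 1 := by positivity
  have hnpos : 0 < n := by
    have : 0 < Fintype.card V := Fintype.card_pos_iff.mpr ⟨i0⟩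
    rw [hn]; exact_mod_cast this
  set Sm2 := univ.filter (fun i => ev2 Q (lam i) (mu i) ≠ 0 ∧ |ev2 Q (lam i) (mu i)| ≤ e2)
    with hSm2
  set Sm3 := univ.filter (fun i => ev2 (derivative Q) (lam i) (mu i) ≠ 0 ∧
    |ev2 (derivative Q) (lam i) (mu i)| ≤ e3) with hSm3
  obtain ⟨Z, hZc, hZ, hZs⟩ := hMod.zeros
  have hZs' : ∀ z ∈ Z, ∀ z' ∈ Z, z ≠ z' → 2 * δ ≤ |z - z'| := by
    intro z hz z' hz' hne
    have := hZs z hz z' hz' hne
    have e : 2 * δ = 2 / ((r : ℝ) + 1) ^ 5 := by rw [hδ]; ring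
    rw [e]; exact this
  have hdis : ∀ z ∈ Z, ∀ z' ∈ Z, z ≠ z' → Disjoint (cl r lam z) (cl r lam z') := by
    intro z hz z' hz' hne
    rw [Finset.disjoint_left]
    intro j hj hj'
    have h1 := mem_cl.mp hj
    have h2 := mem_cl.mp hj'
    have h3 := hZs' z hz z' hz' hne
    have h4 : |z - z'| ≤ |lam j - z'| + |lam j - z| := by
      calc |z - z'| = |(lam j - z') - (lam j - z)| := by congr 1; ring
        _ ≤ _ := abs_sub _ _
    linarith
  set T : ℝ := 4000 * τ * n / (r + 1) with hT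
  have hTpos : 0 < T := by positivity
  have hbad : ∀ Sm : Finset V, (Sm.card : ℝ) ≤ τ * n →
      ((Z.filter (fun z => T < ((cl r lam z).filter (fun j => j ∈ Sm)).card)).card : ℝ) ≤
        ((r : ℝ) + 1) / 4000 := by
    intro Sm hSm
    have h1 : ((Z.filter (fun z => T <
        ((cl r lam z).filter (fun j => j ∈ Sm)).card)).card : ℝ) * T ≤ Sm.card := by
      convert card_bad Z (cl r lam) Sm hdis T
    have h2 := h1.trans hSm
    rw [← le_div_iff₀ hTpos] at h2
    refine h2.trans (le_of_eq ?_)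
    rw [hT]
    field_simp
  set B2 := Z.filter (fun z => T < ((cl r lam z).filter (fun j => j ∈ Sm2)).card) with hB2
  set B3 := Z.filter (fun z => T < ((cl r lam z).filter (fun j => j ∈ Sm3)).card) with hB3
  have hB2c := hbad Sm2 hs2
  have hB3c := hbad Sm3 hs3
  set Exc : ℝ → Prop := fun x => ∃ y : ℝ, ev2 Q x y = 0 ∧ (ev2 (derivative Q) x y = 0 ∨
          (M : ℝ) + η * n < (eigs P x).count y) with hExcd
  have hexc' : ∀ L : Finset ℝ, (∀ x ∈ L, x = 0 ∨ Exc x) → L.card ≤ K' + 1 := by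
    intro L hL
    have h1 := hexc (L.erase 0) (by
      intro x hx
      rcases hL x (mem_of_mem_erase hx) with h | h
      · exact absurd h (ne_of_mem_erase hx)
      · exact h)
    have h2 := Finset.pred_card_le_card_erase (s := L) (a := (0 : ℝ))
    omega
  set BE := Z.filter (fun z => ∃ x, |x - z| < δ ∧ (x = 0 ∨ Exc x)) with hBE
  have hBEc : BE.card ≤ K' + 1 := card_bad2 Z δ hZs' _ _ hexc'
  have hcard : (B2 ∪ B3 ∪ BE).card < Z.card := by
    have h1 : ((B2 ∪ B3 ∪ BE).card : ℝ) < Z.card := by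
      have h2 : (B2 ∪ B3 ∪ BE).card ≤ B2.card + B3.card + BE.card :=
        (card_union_le _ _).trans (Nat.add_le_add_right (card_union_le _ _) _)
      have h3 : ((B2 ∪ B3 ∪ BE).card : ℝ) ≤ B2.card + B3.card + BE.card := by exact_mod_cast h2
      have h4 : (BE.card : ℝ) ≤ K' + 1 := by exact_mod_cast hBEc
      linarith
    exact_mod_cast h1
  obtain ⟨z, hzZ, hzB⟩ := exists_mem_notMem_of_card_lt_card hcard
  simp only [mem_union, not_or] at hzB
  obtain ⟨⟨hz2, hz3⟩, hzE⟩ := hzB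
  have hz20 := (hZ z hzZ).1
  have hWz := (hZ z hzZ).2
  have hz4 : |z| ≤ 4 := hz20.trans (by norm_num)
  have hz5 : |z| ≤ 5 := hz20.trans (by norm_num)
  have hz2' : (((cl r lam z).filter (fun j => j ∈ Sm2)).card : ℝ) ≤ T := by
    by_contra hcon
    exact hz2 (mem_filter.mpr ⟨hzZ, not_le.mp hcon⟩)
  have hz3' : (((cl r lam z).filter (fun j => j ∈ Sm3)).card : ℝ) ≤ T := by
    by_contra hcon
    exact hz3 (mem_filter.mpr ⟨hzZ, not_le.mp hcon⟩)
  have hzE' : ∀ x, |x - z| < δ → x ≠ 0 ∧ ¬ Exc x := by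
    intro x hx
    constructor
    · intro h0
      exact hzE (mem_filter.mpr ⟨hzZ, x, hx, Or.inl h0⟩)
    · intro h0
      exact hzE (mem_filter.mpr ⟨hzZ, x, hx, Or.inr h0⟩)
  have hWzD : |ev Wp z| ≤ D := by rw [hWz, abs_zero]; positivity
  obtain ⟨y, hy⟩ := exists_root P hMod.Psymm Q P1 M x0 hQ hM0 z
  have hcy := le_count P Q P1 M x0 hQ z y hy
  have hymem : y ∈ eigs P z := Multiset.count_pos.mp (by omega)
  have hyC : |y| ≤ C := abs_eigs_le P hMod.Psymm z C (hMod.Prow z hz5) y hymem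
  have hyCD : |y| ≤ C + D := by
    have : (0 : ℝ) ≤ D := by positivity
    linarith
  have hp := hpart z hz4 hWzD y hyCD
  set S0 := (cl r lam z).filter (fun j => |mu j - y| ≤ e0) with hS0
  set S := S0.filter (fun j => j ∉ Sm2 ∧ j ∉ Sm3) with hS
  have hwt := wt_lower z hz20
  have hScard : (wt z * M - (e0 + 8000 * τ) * n) / (r + 1) ≤ S.card := by
    have h1 : S0 ⊆ S ∪ (cl r lam z).filter (fun j => j ∈ Sm2) ∪
        (cl r lam z).filter (fun j => j ∈ Sm3) := by
      intro j hj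
      have hj' := mem_filter.mp hj
      simp only [mem_union, mem_filter, hS]
      by_cases h2 : j ∈ Sm2
      · left; right; exact ⟨hj'.1, h2⟩
      · by_cases h3 : j ∈ Sm3
        · right; exact ⟨hj'.1, h3⟩
        · left; left; exact ⟨hj, h2, h3⟩
    have h2 : S0.card ≤ S.card + ((cl r lam z).filter (fun j => j ∈ Sm2)).card +
        ((cl r lam z).filter (fun j => j ∈ Sm3)).card :=
      (card_le_card h1).trans
        ((card_union_le _ _).trans (Nat.add_le_add_right (card_union_le _ _) _))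
    have h3 : (S0.card : ℝ) ≤ S.card + ((cl r lam z).filter (fun j => j ∈ Sm2)).card +
        ((cl r lam z).filter (fun j => j ∈ Sm3)).card := by exact_mod_cast h2
    have h4 : wt z / (r + 1) * M ≤ wt z / (r + 1) * (eigs P z).count y := by
      have : (M : ℝ) ≤ (eigs P z).count y := by exact_mod_cast hcy
      gcongr
    have h5 : (wt z * M - (e0 + 8000 * τ) * n) / (r + 1) =
        wt z / (r + 1) * M - e0 * n / (r + 1) - T - T := by
      rw [hT]; field_simp; ring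
    rw [h5]
    linarith
  have hSpos : 0 < S.card := by
    have h1 : 0 < (wt z * M - (e0 + 8000 * τ) * n) / (r + 1) := by
      apply div_pos _ hd
      have : (M : ℝ) ≤ wt z * M := by
        have hM' : (0 : ℝ) < M := by exact_mod_cast hM0
        nlinarith
      linarith
    have h2 : (0 : ℝ) < S.card := lt_of_lt_of_le h1 hScard
    exact_mod_cast h2
  -- facts about the members of `S`
  have hfact : ∀ j ∈ S, j ∈ cl r lam z ∧ |mu j - y| ≤ e0 ∧ ev2 Q (lam j) (mu j) = 0 ∧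
      e3 < |ev2 (derivative Q) (lam j) (mu j)| := by
    intro j hj
    obtain ⟨hj0, hjn2, hjn3⟩ := mem_filter.mp hj
    obtain ⟨hjc, hje⟩ := mem_filter.mp hj0
    have hjd := mem_cl.mp hjc
    have hlj : |lam j| ≤ 5 := hMod.spec.lam_le j
    have hmj : |mu j| ≤ Y := (hMod.spec.mu_le j).trans hDY
    have hQ0 : |ev2 Q (lam j) (mu j)| ≤ e2 := by
      have h1 := ev2_lip_x Q N K Y (by linarith) hY1 hQB (lam j) z (mu j) hlj hz5 hmj
      have h2 : |ev2 Q z (mu j) - ev2 Q z y| ≤ κ * |mu j - y| := by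
        -- Lipschitz in the second variable
        have := ev2_lip_y Q N K Y (by linarith) hY1 hQB z (mu j) y hz5 hmj (hyC.trans hCY)
        exact this
      rw [hy, sub_zero] at h2
      calc |ev2 Q (lam j) (mu j)|
          = |(ev2 Q (lam j) (mu j) - ev2 Q z (mu j)) + ev2 Q z (mu j)| := by congr 1; ring
        _ ≤ |ev2 Q (lam j) (mu j) - ev2 Q z (mu j)| + |ev2 Q z (mu j)| := abs_add_le _ _
        _ ≤ κ * |lam j - z| + κ * |mu j - y| := add_le_add h1 h2
        _ ≤ κ * δ + κ * e0 := by gcongr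
        _ ≤ e2 := by linarith
    have hQz : ev2 Q (lam j) (mu j) = 0 := by
      by_contra hne
      exact hjn2 (mem_filter.mpr ⟨mem_univ _, hne, hQ0⟩)
    refine ⟨hjc, hje, hQz, ?_⟩
    by_contra hcon
    have hcon' := not_lt.mp hcon
    by_cases hd0 : ev2 (derivative Q) (lam j) (mu j) = 0
    · exact (hzE' (lam j) hjd).2 ⟨mu j, hQz, Or.inl hd0⟩
    · exact hjn3 (mem_filter.mpr ⟨mem_univ _, hd0, hcon'⟩)
  have hsepz : ∀ j ∈ S, |lam j| ≤ 4 ∧ |lam j - z| ≤ D / 2 ^ r ∧ mu j = - ev Wp (lam j) := by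
    intro j hj
    have h1 := hMod.sep z hz4 hWzD j (hfact j hj).1
    rw [hWz, add_zero] at h1
    refine ⟨h1.1, ?_, ?_⟩
    · rw [le_div_iff₀ (by positivity)]
      exact h1.2.trans (hMod.spec.mu_le j)
    · apply hMod.spec.mu_eq
      intro he
      have := hMod.spec.lam0
      rw [← he] at this
      rw [this] at h1
      have h5 := h1.1
      norm_num at h5
  obtain ⟨i, hi⟩ := card_pos.mp hSpos
  have hall : ∀ j ∈ S, lam j = lam i := by
    intro j hj
    obtain ⟨hjc, hje, hjQ, hjd⟩ := hfact j hj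
    obtain ⟨hic, hie, hiQ, hid⟩ := hfact i hi
    obtain ⟨hj4, hjz, hjmu⟩ := hsepz j hj
    obtain ⟨hi4, hiz, himu⟩ := hsepz i hi
    have hWi : |ev Wp (lam i)| ≤ D := by
      have := hMod.spec.mu_le i
      rw [himu, abs_neg] at this
      exact this
    have hclose : j ∈ cl r lam (lam i) := by
      rw [mem_cl]
      calc |lam j - lam i| = |(lam j - z) - (lam i - z)| := by congr 1; ring
        _ ≤ |lam j - z| + |lam i - z| := abs_sub _ _
        _ ≤ D / 2 ^ r + D / 2 ^ r := add_le_add hjz hiz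
        _ = 2 * (D : ℝ) / 2 ^ r := by ring
        _ < _ := c6
    have hs := (hMod.sep (lam i) hi4 hWi j hclose).2
    have hs' : |lam i - lam j| ≤ 1 / 2 ^ r * |mu j - mu i| := by
      rw [abs_sub_comm]
      have e : mu j + ev Wp (lam i) = mu j - mu i := by rw [himu]; ring
      rw [e] at hs
      rw [one_div, inv_mul_eq_div, le_div_iff₀ (by positivity)]
      exact hs
    have hmm : |mu j - mu i| ≤ e3 / (4 * κ) := by
      calc |mu j - mu i| = |(mu j - y) - (mu i - y)| := by congr 1; ring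
        _ ≤ |mu j - y| + |mu i - y| := abs_sub _ _
        _ ≤ 2 * e0 := by linarith
        _ ≤ _ := c3
    have := local_unique Q N K Y hK hY1 hQB (lam i) (lam j) (mu i) (mu j) (hMod.spec.lam_le i)
      (hMod.spec.lam_le j) ((hMod.spec.mu_le i).trans hDY) ((hMod.spec.mu_le j).trans hDY)
      hiQ hjQ e3 (1 / 2 ^ r) he3 hid hs' hmm c4
    exact this.1.symm
  refine ⟨i, mem_nex.mpr (hsepz i hi).1, z, hz20, ?_, ?_, ?_⟩
  · exact (hzE' (lam i) (mem_cl.mp (hfact i hi).1)).1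
  · by_contra hcon
    have hcon' := not_le.mp hcon
    apply (hzE' (lam i) (mem_cl.mp (hfact i hi).1)).2
    refine ⟨- ev Wp (lam i), ?_, Or.inr hcon'⟩
    rw [← (hsepz i hi).2.2]
    exact (hfact i hi).2.2.1
  · refine hScard.trans ?_
    have : S.card ≤ mult lam (lam i) := by
      unfold mult
      apply card_le_card
      intro j hj
      simp only [mem_filter, mem_univ, true_and]
      exact hall j hj
    exact_mod_cast this

end Pool.Agent.H18.Cage
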