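import Pool.Agent.H18.Cage.EigM

/-! Module GENQ-2. -/

set_option autoImplicit false

namespace Pool.Agent.H18.Cage

open Polynomial Matrix Finset

namespace GenQ2Aux

/-- Degree of a determinant of polynomials. -/
theorem natDegree_det_le {R : Type} [CommRing R] {n : Type} [Fintype n] [DecidableEq n]
    (M : Matrix n n R[X]) (d : ℕ) (h : ∀ i j, (M i j).natDegree ≤ d) :
    M.det.natDegree ≤ d * Fintype.card n := by
  rw [Matrix.det_apply]
  apply natDegree_sum_le_of_forall_le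
  intro σ _
  refine (natDegree_smul_le _ _).trans ?_
  refine (natDegree_prod_le _ _).trans ?_
  refine (Finset.sum_le_sum (fun i _ => h (σ i) i)).trans ?_
  rw [Finset.sum_const, smul_eq_mul, mul_comm]
  rfl

theorem coeff_coeff_swap (F : ℤ[X][X]) (i j : ℕ) :
    ((Bivariate.swap F).coeff i).coeff j = (F.coeff j).coeff i := by
  induction F using Polynomial.induction_on' with
  | add p q hp hq => simp only [map_add, coeff_add, hp, hq]
  | monomial n f =>
    rw [Bivariate.swap_monomial, coeff_mul_C, coeff_map, coeff_monomial, coeff_C_mul, coeff_X_pow]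
    by_cases h : j = n
    · simp [h]
    · rw [if_neg h, if_neg (Ne.symm h)]
      simp

theorem natDegree_swap_le_iff (F : ℤ[X][X]) (d : ℕ) :
    (Bivariate.swap F).natDegree ≤ d ↔ ∀ j, (F.coeff j).natDegree ≤ d := by
  constructor
  · intro h j
    rw [natDegree_le_iff_coeff_eq_zero]
    intro i hi
    rw [← coeff_coeff_swap, coeff_eq_zero_of_natDegree_lt (lt_of_le_of_lt h hi), coeff_zero]
  · intro h
    rw [natDegree_le_iff_coeff_eq_zero]
    intro i hi
    ext j
    rw [coeff_coeff_swap, coeff_eq_zero_of_natDegree_lt (lt_of_le_of_lt (h j) hi), coeff_zero]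

theorem natDegree_swap_charpoly_le {V : Type} [Fintype V] [DecidableEq V] (P : Matrix V V ℤ[X])
    (D : ℕ) (hD : ∀ u v, (P u v).natDegree ≤ D) :
    (Bivariate.swap P.charpoly).natDegree ≤ D * Fintype.card V := by
  have h1 : Bivariate.swap P.charpoly
      = ((Bivariate.swap (R := ℤ)).toRingEquiv.toRingHom.mapMatrix P.charmatrix).det := by
    rw [← RingHom.map_det]
    rfl
  rw [h1]
  apply natDegree_det_le
  intro i j
  show (Bivariate.swap (P.charmatrix i j)).natDegree ≤ D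
  rw [Matrix.charmatrix_apply, map_sub, Bivariate.swap_C]
  refine (natDegree_sub_le _ _).trans (max_le ?_ ((natDegree_map_le).trans (hD i j)))
  rw [Matrix.diagonal_apply]
  split_ifs
  · rw [Bivariate.swap_Y, natDegree_C]
    exact Nat.zero_le _
  · rw [map_zero, natDegree_zero]
    exact Nat.zero_le _

/-- A polynomial is Lipschitz on `[-5, 5]`. -/
theorem exists_lip (q : ℝ[X]) : ∃ L : ℝ, 0 ≤ L ∧ ∀ x x' : ℝ, |x| ≤ 5 → |x'| ≤ 5 →
    |q.eval x - q.eval x'| ≤ L * |x - x'| := by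
  have hc : IsCompact (Set.Icc (-5 : ℝ) 5) := isCompact_Icc
  obtain ⟨L, hL⟩ := hc.exists_bound_of_continuousOn (f := fun x => q.derivative.eval x)
    (q.derivative.continuous.continuousOn)
  refine ⟨max L 0, le_max_right _ _, ?_⟩
  intro x x' hx hx'
  have hx1 : x ∈ Set.Icc (-5 : ℝ) 5 := abs_le.1 hx
  have hx2 : x' ∈ Set.Icc (-5 : ℝ) 5 := abs_le.1 hx'
  have h := (convex_Icc (-5 : ℝ) 5).norm_image_sub_le_of_norm_hasDerivWithin_le
    (f := fun x => q.eval x) (f' := fun x => q.derivative.eval x) (C := L)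
    (fun y _ => (q.hasDerivAt y).hasDerivWithinAt) (fun y hy => hL y hy) hx2 hx1
  rw [Real.norm_eq_abs, Real.norm_eq_abs] at h
  exact h.trans (mul_le_mul_of_nonneg_right (le_max_left _ _) (abs_nonneg _))

/-- Uniform Lipschitz constant for bounded polynomials of bounded degree. -/
theorem exists_lip_unif (d : ℕ) (K0 : ℝ) (hK0 : 0 ≤ K0) : ∃ K : ℝ, 0 ≤ K ∧ ∀ p : ℝ[X],
    p.natDegree ≤ d → (∀ x : ℝ, |x| ≤ 5 → |p.eval x| ≤ K0) → ∀ x x' : ℝ, |x| ≤ 5 → |x'| ≤ 5 →
      |p.eval x - p.eval x'| ≤ K * |x - x'| := by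
  classical
  let v : ℕ → ℝ := fun i => 5 * (i / ((d : ℝ) + 1))
  have hd : (0 : ℝ) < (d : ℝ) + 1 := by positivity
  have hv5 : ∀ i ∈ range (d + 1), |v i| ≤ 5 := by
    intro i hi
    have hi' : (i : ℝ) ≤ (d : ℝ) + 1 := by
      have := (Finset.mem_range.1 hi).le
      exact_mod_cast this
    have h1 : (0 : ℝ) ≤ v i := by positivity
    rw [abs_of_nonneg h1]
    have h2 : (i : ℝ) / ((d : ℝ) + 1) ≤ 1 := (div_le_one hd).2 hi'
    show 5 * ((i : ℝ) / ((d : ℝ) + 1)) ≤ 5
    linarith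
  have hinj : Set.InjOn v (range (d + 1) : Finset ℕ) := by
    intro i _ j _ hij
    have h1 : (i : ℝ) / ((d : ℝ) + 1) = j / ((d : ℝ) + 1) := by
      have : 5 * ((i : ℝ) / ((d : ℝ) + 1)) = 5 * (j / ((d : ℝ) + 1)) := hij
      linarith
    rw [div_left_inj' hd.ne'] at h1
    exact_mod_cast h1
  choose L hL0 hL using fun i => exists_lip (Lagrange.basis (range (d + 1)) v i)
  refine ⟨K0 * ∑ i ∈ range (d + 1), L i,
    mul_nonneg hK0 (Finset.sum_nonneg (fun i _ => hL0 i)), ?_⟩
  intro p hp hb x x' hx hx'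
  have hdeg : p.degree < (range (d + 1)).card := by
    rw [Finset.card_range]
    refine lt_of_le_of_lt degree_le_natDegree ?_
    exact_mod_cast Nat.lt_succ_of_le hp
  have hpe := Lagrange.eq_interpolate (f := p) hinj hdeg
  have hev : ∀ t : ℝ, p.eval t = ∑ i ∈ range (d + 1),
      p.eval (v i) * (Lagrange.basis (range (d + 1)) v i).eval t := by
    intro t
    conv_lhs => rw [hpe]
    rw [Lagrange.interpolate_apply, eval_finsetSum]
    apply Finset.sum_congr rfl
    intro i _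
    rw [eval_mul, eval_C]
  rw [hev x, hev x', ← Finset.sum_sub_distrib, Finset.mul_sum, Finset.sum_mul]
  refine (Finset.abs_sum_le_sum_abs _ _).trans (Finset.sum_le_sum ?_)
  intro i hi
  rw [← mul_sub, abs_mul, mul_assoc]
  exact mul_le_mul (hb _ (hv5 i hi)) (hL i x x' hx hx') (abs_nonneg _) hK0

end GenQ2Aux

open GenQ2Aux in
/-- MODULE GENQ-2. Uniform bounds for the factor. -/
theorem genQ_bounds (D C N : ℕ) : ∃ K : ℝ, 1 ≤ K ∧
    ∀ (V : Type) [Fintype V] [DecidableEq V] (P : Matrix V V ℤ[X]) (Q P1 : ℤ[X][X]) (M : ℕ)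
      (x0 : ℝ), P.IsSymm → (∀ u v, (P u v).natDegree ≤ D) →
      (∀ x : ℝ, |x| ≤ 5 → ∀ u, ∑ v, |ev (P u v) x| ≤ C) →
      Fintype.card V ≤ N * M → 0 < Fintype.card V → GenQ P Q P1 M x0 →
      Q.natDegree ≤ N ∧ (∀ j, (Q.coeff j).natDegree ≤ D * N) ∧
      (∀ j, ∀ x : ℝ, |x| ≤ 5 → |ev (Q.coeff j) x| ≤ K) ∧
      (∀ j, ∀ x x' : ℝ, |x| ≤ 5 → |x'| ≤ 5 →
        |ev (Q.coeff j) x - ev (Q.coeff j) x'| ≤ K * |x - x'|) := by
  set K0 : ℝ := ((C : ℝ) + 1) ^ N * 2 ^ N with hK0
  have hC1 : (1 : ℝ) ≤ (C : ℝ) + 1 := by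
    have : (0 : ℝ) ≤ (C : ℝ) := Nat.cast_nonneg _
    linarith
  have hK01 : (1 : ℝ) ≤ K0 := by
    rw [hK0]
    have h1 : (1 : ℝ) ≤ ((C : ℝ) + 1) ^ N := one_le_pow₀ hC1
    have h2 : (1 : ℝ) ≤ 2 ^ N := one_le_pow₀ (by norm_num)
    nlinarith
  obtain ⟨K1, hK1, hlip⟩ := exists_lip_unif (D * N) K0 (by linarith)
  refine ⟨K0 + K1, by linarith, ?_⟩
  intro V _ _ P Q P1 M x0 hP hD hrow hN hV hG
  have hM : 0 < M := by
    rcases Nat.eq_zero_or_pos M with h | h
    · subst h; omega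
    · exact h
  have hcp : P.charpoly ≠ 0 := (P.charpoly_monic).ne_zero
  have hP1 : P1 ≠ 0 := by
    rintro rfl
    rw [hG.fac, mul_zero] at hcp
    exact hcp rfl
  have hQM : (Q ^ M).Monic := hG.monic.pow M
  have hdeg : Fintype.card V = M * Q.natDegree + P1.natDegree := by
    have h1 : P.charpoly.natDegree = Fintype.card V := P.charpoly_natDegree_eq_dim
    rw [← h1, hG.fac, hQM.natDegree_mul' hP1, hG.monic.natDegree_pow]
  have hQN : Q.natDegree ≤ N := by
    have h1 : M * Q.natDegree ≤ M * N := by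
      calc M * Q.natDegree ≤ Fintype.card V := by omega
        _ ≤ N * M := hN
        _ = M * N := mul_comm _ _
    exact Nat.le_of_mul_le_mul_left h1 hM
  have hQx : ∀ j, (Q.coeff j).natDegree ≤ D * N := by
    rw [← natDegree_swap_le_iff]
    have h1 : Bivariate.swap P.charpoly = (Bivariate.swap Q) ^ M * Bivariate.swap P1 := by
      rw [hG.fac, map_mul, map_pow]
    have hQ0 : Bivariate.swap Q ≠ 0 := by
      intro h
      exact hG.monic.ne_zero ((map_eq_zero_iff _ (Bivariate.swap (R := ℤ)).injective).1 h)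
    have hP10 : Bivariate.swap P1 ≠ 0 := by
      intro h
      exact hP1 ((map_eq_zero_iff _ (Bivariate.swap (R := ℤ)).injective).1 h)
    have h2 := natDegree_swap_charpoly_le P D hD
    rw [h1, natDegree_mul (pow_ne_zero _ hQ0) hP10, natDegree_pow] at h2
    have h3 : M * (Bivariate.swap Q).natDegree ≤ M * (D * N) := by
      calc M * (Bivariate.swap Q).natDegree ≤ D * Fintype.card V := by omega
        _ ≤ D * (N * M) := Nat.mul_le_mul_left _ hN
        _ = M * (D * N) := by ring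
    exact Nat.le_of_mul_le_mul_left h3 hM
  have hbound : ∀ j, ∀ x : ℝ, |x| ≤ 5 → |ev (Q.coeff j) x| ≤ K0 := by
    intro j x hx
    set φ : ℤ[X] →+* ℝ := (aeval x : ℤ[X] →ₐ[ℤ] ℝ).toRingHom with hφ
    have hcp2 : (evM P x).charpoly = (Q.map φ) ^ M * P1.map φ := by
      have h1 : (evM P x).charpoly = P.charpoly.map φ := by
        rw [← Matrix.charpoly_map]
        rfl
      rw [h1, hG.fac, Polynomial.map_mul, Polynomial.map_pow]
    have hcard := card_eigs P hP x
    have hsplit : ((evM P x).charpoly).Splits := by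
      rw [splits_iff_card_roots]
      rw [(evM P x).charpoly_natDegree_eq_dim]
      exact hcard
    have hcp0 : (evM P x).charpoly ≠ 0 := ((evM P x).charpoly_monic).ne_zero
    have hdvd : Q.map φ ∣ (evM P x).charpoly := by
      rw [hcp2]
      exact Dvd.dvd.mul_right (dvd_pow_self _ hM.ne') _
    have hQs : (Q.map φ).Splits := hsplit.of_dvd hcp0 hdvd
    have hroots : ∀ z ∈ (Q.map φ).roots, ‖z‖ ≤ (C : ℝ) := by
      intro z hz
      have h1 : z ∈ eigs P x := Multiset.mem_of_le (roots.le_of_dvd hcp0 hdvd) hz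
      rw [Real.norm_eq_abs]
      exact abs_eigs_le P hP x C (hrow x hx) z h1
    have hmon : (Q.map φ).Monic := hG.monic.map φ
    have h := coeff_le_of_roots_le (p := Q.map φ) (f := RingHom.id ℝ) (B := (C : ℝ)) j hmon
      (by rw [Polynomial.map_id]; exact hQs) (by rw [Polynomial.map_id]; exact hroots)
    rw [Polynomial.map_id, coeff_map, Real.norm_eq_abs] at h
    refine (show |ev (Q.coeff j) x| ≤ _ from h).trans ?_
    have hn : (Q.map φ).natDegree ≤ N := (natDegree_map_le).trans hQN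
    have h1 : (C : ℝ) ^ ((Q.map φ).natDegree - j) ≤ ((C : ℝ) + 1) ^ N := by
      calc (C : ℝ) ^ ((Q.map φ).natDegree - j) ≤ ((C : ℝ) + 1) ^ ((Q.map φ).natDegree - j) := by
            gcongr
            linarith
        _ ≤ ((C : ℝ) + 1) ^ N := pow_le_pow_right₀ hC1 (by omega)
    have h2 : (((Q.map φ).natDegree.choose j : ℕ) : ℝ) ≤ 2 ^ N := by
      have h3 : (Q.map φ).natDegree.choose j ≤ 2 ^ N :=
        (Nat.choose_le_two_pow _ _).trans (Nat.pow_le_pow_right (by norm_num) hn)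
      exact_mod_cast h3
    exact mul_le_mul h1 h2 (Nat.cast_nonneg _) (by positivity)
  refine ⟨hQN, hQx, fun j x hx => (hbound j x hx).trans (by linarith), ?_⟩
  intro j x x' hx hx'
  have hevq : ∀ t : ℝ, ev (Q.coeff j) t = ((Q.coeff j).map (algebraMap ℤ ℝ)).eval t := by
    intro t
    rw [eval_map_algebraMap]
    rfl
  have h := hlip ((Q.coeff j).map (algebraMap ℤ ℝ)) ((natDegree_map_le).trans (hQx j))
    (fun t ht => by rw [← hevq]; exact hbound j t ht) x x' hx hx'
  rw [← hevq, ← hevq] at h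
  exact h.trans (mul_le_mul_of_nonneg_right (by linarith) (abs_nonneg _))

end Pool.Agent.H18.Cage
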