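import Pool.Agent.H18.Cage.Poly

/-! Geometry of locally tree-like graphs. -/

set_option autoImplicit false

namespace Pool.Agent.H18.Cage

open Polynomial Matrix Finset

variable {V : Type} [Fintype V] [DecidableEq V] {G : SimpleGraph V} [DecidableRel G.Adj] {r : ℕ}

/-- The distance-`t` matrix. -/
noncomputable def Dm (G : SimpleGraph V) (t : ℕ) : Matrix V V ℤ :=
  Matrix.of (fun u v => if G.dist u v = t then 1 else 0)

namespace TreeLike

theorem tri (h : TreeLike G r) (a b c : V) : G.dist a c ≤ G.dist a b + G.dist b c :=
  h.conn.dist_triangle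

theorem adj_le (h : TreeLike G r) {u w w' : V} (hadj : G.Adj w w') :
    G.dist u w' ≤ G.dist u w + 1 ∧ G.dist u w ≤ G.dist u w' + 1 := by
  have h1 : G.dist w w' = 1 := SimpleGraph.dist_eq_one_iff_adj.mpr hadj
  have h2 : G.dist w' w = 1 := SimpleGraph.dist_eq_one_iff_adj.mpr hadj.symm
  have h3 := h.tri u w w'
  have h4 := h.tri u w' w
  omega

theorem dist_zero (h : TreeLike G r) {a b : V} : G.dist a b = 0 ↔ a = b :=
  h.conn.dist_eq_zero_iff

theorem dist_pos (h : TreeLike G r) {a b : V} (hab : a ≠ b) : 0 < G.dist a b := by
  rcases Nat.eq_zero_or_pos (G.dist a b) with h0 | h0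
  · exact absurd (h.dist_zero.mp h0) hab
  · exact h0

theorem exists_closer (h : TreeLike G r) {u w : V} (huw : u ≠ w) :
    ∃ w', G.Adj w w' ∧ G.dist u w' + 1 = G.dist u w := by
  obtain ⟨p, hp⟩ := h.conn.exists_walk_length_eq_dist w u
  cases p with
  | nil => exact absurd rfl huw
  | cons hadj p' =>
    rename_i w'
    refine ⟨w', hadj, ?_⟩
    have h1 : G.dist w' u ≤ p'.length := SimpleGraph.dist_le p'
    rw [SimpleGraph.Walk.length_cons, G.dist_comm (u := w)] at hp
    rw [G.dist_comm (u := w')] at h1
    have := (h.adj_le (u := u) hadj)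
    omega

/-- Along an edge in the tree range the distance changes by exactly one. -/
theorem dist_adj (h : TreeLike G r) {u w w' : V} (hle : G.dist u w ≤ r) (hadj : G.Adj w w') :
    G.dist u w' + 1 = G.dist u w ∨ G.dist u w' = G.dist u w + 1 := by
  have h1 := h.adj_le (u := u) hadj
  by_cases huw : u = w
  · subst huw
    right
    rw [SimpleGraph.dist_self, SimpleGraph.dist_eq_one_iff_adj.mpr hadj]
  · obtain ⟨c, hc, hd⟩ := h.exists_closer huw
    by_cases heq : G.dist u w' = G.dist u w
    · have := h.tree u w c w' hle hc hadj (by omega) (by omega)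
      subst this
      omega
    · omega

/-- Uniqueness of the closer neighbour. -/
theorem closer_unique (h : TreeLike G r) {u w w1 w2 : V} (hle : G.dist u w ≤ r)
    (h1 : G.Adj w w1) (h2 : G.Adj w w2) (hd1 : G.dist u w1 ≤ G.dist u w)
    (hd2 : G.dist u w2 ≤ G.dist u w) : w1 = w2 := h.tree u w w1 w2 hle h1 h2 hd1 hd2

/-- Gluing two geodesics along an edge. -/
theorem concat (h : TreeLike G r) {a c c' e : V} (hadj : G.Adj c c')
    (h1 : G.dist a c' = G.dist a c + 1) (h2 : G.dist c e = G.dist c' e + 1)
    (hr : G.dist a c + G.dist c' e ≤ r) :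
    G.dist a e = G.dist a c + 1 + G.dist c' e := by
  obtain ⟨j, hj⟩ : ∃ j, G.dist c' e = j := ⟨_, rfl⟩
  induction j generalizing c c' with
  | zero =>
    have : c' = e := h.dist_zero.mp hj
    subst this
    omega
  | succ j ih =>
    have hne : e ≠ c' := by
      rintro rfl
      rw [SimpleGraph.dist_self] at hj
      omega
    obtain ⟨c'', hc, hd⟩ := h.exists_closer hne
    rw [G.dist_comm (u := e), G.dist_comm (u := e)] at hd
    have h3 : G.dist a c'' = G.dist a c' + 1 := by
      rcases h.dist_adj (u := a) (by omega) hc with h3 | h3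
      · have := h.tree a c' c c'' (by omega) hadj.symm hc (by omega) (by omega)
        subst this
        omega
      · exact h3
    have := ih hc h3 (by omega) (by omega) (by omega)
    omega

/-- Median (tripod) of three points, seen from `a`. -/
theorem median (h : TreeLike G r) {a b c : V} (hr : G.dist a b + G.dist a c ≤ r) :
    ∃ m, G.dist a m + G.dist m b = G.dist a b ∧ G.dist a m + G.dist m c = G.dist a c ∧
      G.dist b m + G.dist m c = G.dist b c := by
  obtain ⟨j, hj⟩ : ∃ j, G.dist a b = j := ⟨_, rfl⟩
  induction j generalizing a with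
  | zero =>
    have : a = b := h.dist_zero.mp hj
    subst this
    exact ⟨a, by simp, by simp, by simp⟩
  | succ j ih =>
    by_cases hac : a = c
    · subst hac
      exact ⟨a, by simp, by simp, by simp⟩
    have hab : b ≠ a := by
      rintro rfl
      rw [SimpleGraph.dist_self] at hj
      omega
    obtain ⟨b1, hb1, hbd⟩ := h.exists_closer hab
    obtain ⟨c1, hc1, hcd⟩ := h.exists_closer (Ne.symm hac)
    rw [G.dist_comm (u := b), G.dist_comm (u := b)] at hbd
    rw [G.dist_comm (u := c), G.dist_comm (u := c)] at hcd
    by_cases hbc : b1 = c1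
    · subst hbc
      obtain ⟨m, hm1, hm2, hm3⟩ := ih (a := b1) (by omega) (by omega)
      have h4 : G.dist a m = G.dist b1 m + 1 := by
        have h5 := h.tri a m b
        have h6 := h.tri a b1 m
        rw [SimpleGraph.dist_eq_one_iff_adj.mpr hb1] at h6
        omega
      exact ⟨m, by omega, by omega, hm3⟩
    · refine ⟨a, by simp, by simp, ?_⟩
      have hba : G.dist b a = G.dist a b := G.dist_comm
      have hb1a : G.dist b b1 = G.dist b1 b := G.dist_comm
      have h3 : G.dist b c1 = G.dist b a + 1 := by
        rcases h.dist_adj (u := b) (w := a) (by omega) hc1 with h3 | h3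
        · have := h.tree b a b1 c1 (by omega) hb1 hc1 (by omega) (by omega)
          exact absurd this hbc
        · exact h3
      have := h.concat hc1 h3 (e := c) (by omega) (by omega)
      omega

/-- Four point condition. -/
theorem four_point (h : TreeLike G r) {a b c e : V}
    (hr1 : G.dist a c + G.dist c e ≤ r) (hr2 : G.dist b c + G.dist c e ≤ r) :
    G.dist a b + G.dist c e ≤ max (G.dist a c + G.dist b e) (G.dist a e + G.dist b c) := by
  obtain ⟨j, hj⟩ : ∃ j, G.dist c e = j := ⟨_, rfl⟩
  induction j generalizing c with
  | zero =>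
    have : c = e := h.dist_zero.mp hj
    subst this
    have h1 := h.tri a c b
    rw [G.dist_comm (u := c) (v := b)] at h1
    simp only [SimpleGraph.dist_self]
    omega
  | succ j ih =>
    have hne : e ≠ c := by
      rintro rfl
      rw [SimpleGraph.dist_self] at hj
      omega
    obtain ⟨c', hc, hd⟩ := h.exists_closer hne
    rw [G.dist_comm (u := e), G.dist_comm (u := e)] at hd
    have h1 := h.tri a c b
    rw [G.dist_comm (u := c) (v := b)] at h1
    rcases h.dist_adj (u := a) (w := c) (by omega) hc with h3 | h3
    · rcases h.dist_adj (u := b) (w := c) (by omega) hc with h4 | h4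
      · have := ih (c := c') (by omega) (by omega) (by omega)
        omega
      · have := h.concat hc h4 (e := e) (by omega) (by omega)
        omega
    · have := h.concat hc h3 (e := e) (by omega) (by omega)
      omega

/-- Parity. -/
theorem parity (h : TreeLike G r) {a b c : V} (hr : G.dist a b + G.dist b c ≤ r) :
    Even (G.dist a b + G.dist b c + G.dist a c) := by
  obtain ⟨j, hj⟩ : ∃ j, G.dist b c = j := ⟨_, rfl⟩
  induction j generalizing c with
  | zero =>
    have : b = c := h.dist_zero.mp hj
    subst this
    simp
  | succ j ih =>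
    have hne : b ≠ c := by
      rintro rfl
      rw [SimpleGraph.dist_self] at hj
      omega
    obtain ⟨c', hc, hd⟩ := h.exists_closer hne
    have h1 := ih (c := c') (by omega) (by omega)
    have h2 := h.tri a b c'
    have h3 := h.dist_adj (u := a) (w := c') (w' := c) (by omega) hc.symm
    rw [Nat.even_iff] at h1 ⊢
    omega

theorem exists_between {a b : V} (h : TreeLike G r) (j : ℕ) (hj : j ≤ G.dist a b) :
    ∃ p, G.dist a p = j ∧ G.dist p b = G.dist a b - j := by
  induction j with
  | zero => exact ⟨a, by simp, by simp⟩
  | succ j ih =>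
    obtain ⟨p, hp1, hp2⟩ := ih (by omega)
    have hne : b ≠ p := by
      rintro rfl
      rw [SimpleGraph.dist_self] at hp2
      omega
    obtain ⟨p', hc, hd⟩ := h.exists_closer hne
    rw [G.dist_comm (u := b), G.dist_comm (u := b)] at hd
    have h1 := h.adj_le (u := a) hc
    have h2 := h.tri a p' b
    exact ⟨p', by omega, by omega⟩

theorem between_unique (h : TreeLike G r) {a b p q : V} (hr : G.dist a b ≤ r)
    (hp : G.dist a p + G.dist p b = G.dist a b) (hq : G.dist a q + G.dist q b = G.dist a b)
    (hpq : G.dist a p = G.dist a q) : p = q := by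
  obtain ⟨j, hj⟩ : ∃ j, G.dist p b = j := ⟨_, rfl⟩
  induction j generalizing p q with
  | zero =>
    have h1 : p = b := h.dist_zero.mp hj
    have h2 : q = b := h.dist_zero.mp (by omega)
    rw [h1, h2]
  | succ j ih =>
    have hne : b ≠ p := by
      rintro rfl
      rw [SimpleGraph.dist_self] at hj
      omega
    have hne' : b ≠ q := by
      rintro rfl
      rw [SimpleGraph.dist_self] at hq
      omega
    obtain ⟨p', hc, hd⟩ := h.exists_closer hne
    obtain ⟨q', hc', hd'⟩ := h.exists_closer hne'
    rw [G.dist_comm (u := b), G.dist_comm (u := b)] at hd hd'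
    have h1 := h.adj_le (u := a) hc
    have h2 := h.tri a p' b
    have h1' := h.adj_le (u := a) hc'
    have h2' := h.tri a q' b
    have := ih (p := p') (q := q') (by omega) (by omega) (by omega) (by omega)
    subst this
    exact h.tree a p' p q (by omega) hc.symm hc'.symm (by omega) (by omega)

/-- Two points on the geodesic from `u` to `w`. -/
theorem between_between (h : TreeLike G r) {u w m v : V} (hr : G.dist u w ≤ r)
    (hm : G.dist u m + G.dist m w = G.dist u w) (hv : G.dist u v + G.dist v w = G.dist u w)
    (hle : G.dist u m ≤ G.dist u v) : G.dist u m + G.dist m v = G.dist u v := by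
  obtain ⟨p, hp1, hp2⟩ := h.exists_between (a := u) (b := v) (G.dist u m) hle
  have h1 := h.tri p v w
  have h2 := h.tri u p w
  have : p = m := h.between_unique hr (p := p) (q := m) (by omega) hm (by omega)
  subst this
  omega

/-- The set of neighbours which are not further away has at most one element. -/
theorem card_near_le (h : TreeLike G r) {a b : V} (ha : G.dist a b ≤ r) :
    ((G.neighborFinset b).filter (fun c => G.dist a c ≤ G.dist a b)).card ≤ 1 := by
  rw [Finset.card_le_one]
  intro x hx y hy
  simp only [Finset.mem_filter, SimpleGraph.mem_neighborFinset] at hx hy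
  exact h.tree a b x y ha hx.1 hy.1 hx.2 hy.2

theorem card_nbr (h : TreeLike G r) (b : V) : (G.neighborFinset b).card = 5 := by
  rw [SimpleGraph.card_neighborFinset_eq_degree]
  exact h.deg b

/-- Extend away from up to three points simultaneously. -/
theorem extend_three (h : TreeLike G r) {a a' a'' b : V} (ha : G.dist a b ≤ r)
    (ha' : G.dist a' b ≤ r) (ha'' : G.dist a'' b ≤ r) :
    ∃ c, G.Adj b c ∧ G.dist a c = G.dist a b + 1 ∧ G.dist a' c = G.dist a' b + 1 ∧
      G.dist a'' c = G.dist a'' b + 1 := by
  set N := G.neighborFinset b with hN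
  set B := (N.filter (fun c => G.dist a c ≤ G.dist a b)) ∪
    ((N.filter (fun c => G.dist a' c ≤ G.dist a' b)) ∪
    (N.filter (fun c => G.dist a'' c ≤ G.dist a'' b))) with hB
  have h1 : B.card ≤ 3 := by
    refine (Finset.card_union_le _ _).trans ?_
    have h2 := Finset.card_union_le (N.filter (fun c => G.dist a' c ≤ G.dist a' b))
      (N.filter (fun c => G.dist a'' c ≤ G.dist a'' b))
    have h3 := h.card_near_le ha
    have h4 := h.card_near_le ha'
    have h5 := h.card_near_le ha''
    rw [← hN] at h3 h4 h5
    omega
  have h2 : N.card = 5 := h.card_nbr b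
  obtain ⟨c, hcN, hcB⟩ : ∃ c ∈ N, c ∉ B := by
    by_contra hcon
    push Not at hcon
    have := Finset.card_le_card (show N ⊆ B from hcon)
    omega
  have hadj : G.Adj b c := by simpa [hN] using hcN
  simp only [hB, Finset.mem_union, Finset.mem_filter, hcN, true_and, not_or, not_le] at hcB
  have e1 := h.adj_le (u := a) hadj
  have e2 := h.adj_le (u := a') hadj
  have e3 := h.adj_le (u := a'') hadj
  exact ⟨c, hadj, by omega, by omega, by omega⟩

/-- Extend a geodesic. -/
theorem extend (h : TreeLike G r) {a b : V} (L : ℕ) (hr : G.dist a b + L ≤ r + 1) :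
    ∃ c, G.dist b c = L ∧ G.dist a c = G.dist a b + L := by
  induction L with
  | zero => exact ⟨b, by simp, by simp⟩
  | succ L ih =>
    obtain ⟨c, hc1, hc2⟩ := ih (by omega)
    obtain ⟨c', hadj, h1, -, -⟩ := h.extend_three (a := a) (a' := a) (a'' := a) (b := c)
      (by omega) (by omega) (by omega)
    have h2 := h.adj_le (u := b) hadj
    have h3 := h.tri a b c'
    exact ⟨c', by omega, by omega⟩

/-- The number of neighbours further away. -/
theorem card_children (h : TreeLike G r) {a c : V} (hac : a ≠ c) (hr : G.dist a c ≤ r) :
    ((G.neighborFinset c).filter (fun c' => G.dist a c' = G.dist a c + 1)).card = 4 := by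
  obtain ⟨p, hp, hd⟩ := h.exists_closer hac
  have : (G.neighborFinset c).filter (fun c' => G.dist a c' = G.dist a c + 1) =
      (G.neighborFinset c).erase p := by
    ext x
    simp only [Finset.mem_filter, SimpleGraph.mem_neighborFinset, Finset.mem_erase]
    constructor
    · rintro ⟨h1, h2⟩
      refine ⟨?_, h1⟩
      rintro rfl
      omega
    · rintro ⟨h1, h2⟩
      refine ⟨h2, ?_⟩
      rcases h.dist_adj hr h2 with h3 | h3
      · exact absurd (h.tree a c x p hr h2 hp (by omega) (by omega)) h1
      · exact h3
  rw [this, Finset.card_erase_of_mem (by simpa using hp), h.card_nbr]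

theorem card_closer (h : TreeLike G r) {a c : V} (hac : a ≠ c) (hr : G.dist a c ≤ r) :
    ((G.neighborFinset c).filter (fun c' => G.dist a c' + 1 = G.dist a c)).card = 1 := by
  obtain ⟨p, hp, hd⟩ := h.exists_closer hac
  rw [Finset.card_eq_one]
  refine ⟨p, ?_⟩
  ext x
  simp only [Finset.mem_filter, SimpleGraph.mem_neighborFinset, Finset.mem_singleton]
  constructor
  · rintro ⟨h1, h2⟩
    exact h.tree a c x p hr h1 hp (by omega) (by omega)
  · rintro rfl
    exact ⟨hp, hd⟩

theorem card_self (h : TreeLike G r) (a : V) :
    ((G.neighborFinset a).filter (fun c' => G.dist a c' = G.dist a a + 1)).card = 5 := by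
  rw [← h.card_nbr a]
  congr 1
  rw [Finset.filter_eq_self]
  intro x hx
  rw [SimpleGraph.mem_neighborFinset] at hx
  rw [SimpleGraph.dist_self, SimpleGraph.dist_eq_one_iff_adj.mpr hx]

/-- The number of extensions. -/
theorem card_extend (h : TreeLike G r) {a b : V} (hab : a ≠ b) (L : ℕ)
    (hr : G.dist a b + L ≤ r) :
    (univ.filter (fun c => G.dist b c = L ∧ G.dist a c = G.dist a b + L)).card = 4 ^ L := by
  induction L with
  | zero =>
    rw [pow_zero, Finset.card_eq_one]
    refine ⟨b, ?_⟩
    ext x
    simp only [Finset.mem_filter, Finset.mem_univ, true_and, Finset.mem_singleton, add_zero]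
    constructor
    · rintro ⟨h1, -⟩
      exact (h.dist_zero.mp h1).symm
    · rintro rfl
      simp
  | succ L ih =>
    have hcov : univ.filter (fun c => G.dist b c = L + 1 ∧ G.dist a c = G.dist a b + (L + 1)) =
        (univ.filter (fun c => G.dist b c = L ∧ G.dist a c = G.dist a b + L)).biUnion
          (fun c => (G.neighborFinset c).filter (fun c' => G.dist a c' = G.dist a c + 1)) := by
      ext x
      simp only [Finset.mem_filter, Finset.mem_univ, true_and, Finset.mem_biUnion,
        SimpleGraph.mem_neighborFinset]
      constructor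
      · rintro ⟨h1, h2⟩
        have hbx : b ≠ x := by
          rintro rfl
          rw [SimpleGraph.dist_self] at h1
          omega
        obtain ⟨p, hp, hd⟩ := h.exists_closer hbx
        have h3 := h.tri a b p
        have h4 := h.adj_le (u := a) hp
        exact ⟨p, ⟨by omega, by omega⟩, hp.symm, by omega⟩
      · rintro ⟨c, ⟨h1, h2⟩, h3, h4⟩
        have h5 := h.adj_le (u := b) h3
        have h6 := h.tri a b x
        exact ⟨by omega, by omega⟩
    rw [hcov, Finset.card_biUnion]
    · rw [Finset.sum_congr rfl (g := fun _ => 4), Finset.sum_const, smul_eq_mul, ih (by omega),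
        pow_succ]
      intro c hc
      simp only [Finset.mem_filter, Finset.mem_univ, true_and] at hc
      have hac : a ≠ c := by
        rintro rfl
        have := h.dist_pos hab
        rw [SimpleGraph.dist_self] at hc
        omega
      exact h.card_children hac (by omega)
    · intro x hx y hy hxy
      rw [Function.onFun, Finset.disjoint_left]
      intro z hz1 hz2
      simp only [Finset.coe_filter, Finset.mem_univ, true_and, Set.mem_ofPred_eq,
        Finset.mem_filter] at hx hy
      simp only [Finset.mem_filter, SimpleGraph.mem_neighborFinset] at hz1 hz2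
      exact hxy (h.tree a z x y (by omega) hz1.1.symm hz2.1.symm (by omega) (by omega))

theorem sphere_cover (h : TreeLike G r) (a : V) (t : ℕ) :
    univ.filter (fun c => G.dist a c = t + 2) =
        (univ.filter (fun c => G.dist a c = t + 1)).biUnion
          (fun c => (G.neighborFinset c).filter (fun c' => G.dist a c' = G.dist a c + 1)) := by
  ext x
  simp only [Finset.mem_filter, Finset.mem_univ, true_and, Finset.mem_biUnion,
    SimpleGraph.mem_neighborFinset]
  constructor
  · intro h1
    have hbx : a ≠ x := by
      rintro rfl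
      rw [SimpleGraph.dist_self] at h1
      omega
    obtain ⟨p, hp, hd⟩ := h.exists_closer hbx
    exact ⟨p, by omega, hp.symm, by omega⟩
  · rintro ⟨c, h1, h3, h4⟩
    omega

theorem sphere_one (h : TreeLike G r) (a : V) :
    (univ.filter (fun c => G.dist a c = 0 + 1)).card = 5 := by
  rw [← h.card_nbr a]
  congr 1
  ext x
  simp only [Finset.mem_filter, Finset.mem_univ, true_and, SimpleGraph.mem_neighborFinset,
    zero_add, SimpleGraph.dist_eq_one_iff_adj]

theorem card_sphere (h : TreeLike G r) (a : V) (t : ℕ) (ht : t + 1 ≤ r) :
    (univ.filter (fun c => G.dist a c = t + 1)).card = 5 * 4 ^ t := by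
  induction t with
  | zero => simpa using h.sphere_one a
  | succ t ih =>
    rw [show t + 1 + 1 = t + 2 from rfl, h.sphere_cover a t, Finset.card_biUnion]
    · rw [Finset.sum_congr rfl (g := fun _ => 4), Finset.sum_const, smul_eq_mul, ih (by omega),
        pow_succ]
      · ring
      · intro c hc
        simp only [Finset.mem_filter, Finset.mem_univ, true_and] at hc
        have hac : a ≠ c := by
          rintro rfl
          rw [SimpleGraph.dist_self] at hc
          omega
        exact h.card_children hac (by omega)
    · intro x hx y hy hxy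
      rw [Function.onFun, Finset.disjoint_left]
      intro z hz1 hz2
      simp only [Finset.coe_filter, Finset.mem_univ, true_and, Set.mem_ofPred_eq,
        Finset.mem_filter] at hx hy
      simp only [Finset.mem_filter, SimpleGraph.mem_neighborFinset] at hz1 hz2
      exact hxy (h.tree a z x y (by omega) hz1.1.symm hz2.1.symm (by omega) (by omega))

theorem card_children_le (h : TreeLike G r) {a c : V} (hac : a ≠ c) :
    ((G.neighborFinset c).filter (fun c' => G.dist a c' = G.dist a c + 1)).card ≤ 4 := by
  obtain ⟨p, hp, hd⟩ := h.exists_closer hac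
  have : (G.neighborFinset c).filter (fun c' => G.dist a c' = G.dist a c + 1) ⊆
      (G.neighborFinset c).erase p := by
    intro x
    simp only [Finset.mem_filter, SimpleGraph.mem_neighborFinset, Finset.mem_erase]
    rintro ⟨h1, h2⟩
    refine ⟨?_, h1⟩
    rintro rfl
    omega
  refine (Finset.card_le_card this).trans ?_
  rw [Finset.card_erase_of_mem (by simpa using hp), h.card_nbr]

theorem card_sphere_le (h : TreeLike G r) (a : V) (t : ℕ) :
    (univ.filter (fun c => G.dist a c = t + 1)).card ≤ 5 * 4 ^ t := by
  induction t with
  | zero => simpa using (h.sphere_one a).le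
  | succ t ih =>
    rw [show t + 1 + 1 = t + 2 from rfl, h.sphere_cover a t]
    refine (Finset.card_biUnion_le_card_mul _ _ 4 ?_).trans ?_
    · intro c hc
      simp only [Finset.mem_filter, Finset.mem_univ, true_and] at hc
      have hac : a ≠ c := by
        rintro rfl
        rw [SimpleGraph.dist_self] at hc
        omega
      exact h.card_children_le hac
    · rw [pow_succ]
      nlinarith

theorem Dm_apply (t : ℕ) (u v : V) : Dm G t u v = if G.dist u v = t then 1 else 0 := rfl

theorem Dm_mul_adj (u v : V) (t : ℕ) :
    (Dm G t * G.adjMatrix ℤ) u v =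
      (((G.neighborFinset v).filter (fun w => G.dist u w = t)).card : ℤ) := by
  rw [SimpleGraph.mul_adjMatrix_apply]
  simp only [Dm_apply]
  rw [Finset.sum_boole]

theorem Dm_zero (h : TreeLike G r) : Dm G 0 = 1 := by
  ext u v
  rw [Dm_apply, Matrix.one_apply]
  simp only [h.dist_zero]

theorem Dm_one : Dm G 1 = G.adjMatrix ℤ := by
  ext u v
  rw [Dm_apply, SimpleGraph.adjMatrix_apply]
  simp only [SimpleGraph.dist_eq_one_iff_adj]

theorem Dm_rec (h : TreeLike G r) (t : ℕ) (ht : t + 2 ≤ r) :
    Dm G (t + 1) * G.adjMatrix ℤ = Dm G (t + 2) + (if t = 0 then (5 : ℤ) else 4) • Dm G t := by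
  ext u v
  rw [Dm_mul_adj, Matrix.add_apply, Matrix.smul_apply, Dm_apply, Dm_apply, smul_eq_mul]
  by_cases hd : G.dist u v ≤ r
  · by_cases h1 : G.dist u v = t + 2
    · have huv : u ≠ v := by
        rintro rfl
        rw [SimpleGraph.dist_self] at h1
        omega
      have := h.card_closer huv hd
      rw [if_pos h1, if_neg (show ¬ G.dist u v = t by omega)]
      have h2 : (G.neighborFinset v).filter (fun w => G.dist u w = t + 1) =
          (G.neighborFinset v).filter (fun w => G.dist u w + 1 = G.dist u v) := by
        apply Finset.filter_congr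
        intro x _
        rw [h1]
        omega
      rw [h2, this]
      simp
    · by_cases h2 : G.dist u v = t
      · rw [if_neg h1, if_pos h2]
        have h3 : (G.neighborFinset v).filter (fun w => G.dist u w = t + 1) =
            (G.neighborFinset v).filter (fun w => G.dist u w = G.dist u v + 1) := by
          rw [h2]
        rw [h3]
        by_cases h4 : t = 0
        · have huv : u = v := h.dist_zero.mp (by omega)
          subst huv
          rw [h.card_self, if_pos h4]
          norm_num
        · have huv : u ≠ v := by
            rintro rfl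
            rw [SimpleGraph.dist_self] at h2
            omega
          rw [h.card_children huv hd, if_neg h4]
          norm_num
      · rw [if_neg h1, if_neg h2]
        have : (G.neighborFinset v).filter (fun w => G.dist u w = t + 1) = ∅ := by
          rw [Finset.filter_eq_empty_iff]
          intro x hx h3
          rw [SimpleGraph.mem_neighborFinset] at hx
          have := h.dist_adj hd hx
          omega
        rw [this]
        simp
  · rw [if_neg (show ¬ G.dist u v = t + 2 by omega), if_neg (show ¬ G.dist u v = t by omega)]
    have : (G.neighborFinset v).filter (fun w => G.dist u w = t + 1) = ∅ := by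
      rw [Finset.filter_eq_empty_iff]
      intro x hx h3
      rw [SimpleGraph.mem_neighborFinset] at hx
      have := h.adj_le (u := u) hx
      omega
    rw [this]
    simp

/-- `F t` of the adjacency matrix is the distance matrix. -/
theorem aeval_F (h : TreeLike G r) (t : ℕ) (ht : t ≤ r) :
    aeval (G.adjMatrix ℤ) (F t) = Dm G t := by
  induction t using Nat.strong_induction_on with
  | _ t ih =>
    match t, ih, ht with
    | 0, _, _ => simp [F, h.Dm_zero]
    | 1, _, _ => simp [F, Dm_one]
    | 2, _, ht =>
      have h1 := h.Dm_rec 0 (by omega)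
      rw [if_pos rfl, h.Dm_zero, Algebra.smul_def, map_ofNat, mul_one, zero_add, zero_add,
        Dm_one] at h1
      have h2 : F 2 = X ^ 2 - 5 := rfl
      rw [h2, map_sub, map_pow, aeval_X, map_ofNat, pow_two, h1]
      abel
    | t + 3, ih, ht =>
      have h1 := h.Dm_rec (t + 1) (by omega)
      rw [if_neg (by omega), Algebra.smul_def, map_ofNat] at h1
      have h2 : F (t + 3) = F (t + 2) * X - 4 * F (t + 1) := by
        rw [F]
        ring
      rw [h2, map_sub, map_mul, map_mul, ih (t + 2) (by omega) (by omega),
        ih (t + 1) (by omega) (by omega), aeval_X, map_ofNat, h1]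
      abel

/-- The commutation relation for functions of distance. -/
theorem Dm_comm (h : TreeLike G r) (t : ℕ) (ht : t ≤ r) (x y : V) :
    ∑ x' ∈ G.neighborFinset x, Dm G t x' y = ∑ y' ∈ G.neighborFinset y, Dm G t x y' := by
  have h1 : G.adjMatrix ℤ * Dm G t = Dm G t * G.adjMatrix ℤ := by
    rw [← h.aeval_F t ht]
    have : aeval (G.adjMatrix ℤ) (X * F t) = aeval (G.adjMatrix ℤ) (F t * X) := by
      rw [mul_comm]
    simpa using this
  have h2 := congrFun (congrFun h1 x) y
  rwa [SimpleGraph.adjMatrix_mul_apply, SimpleGraph.mul_adjMatrix_apply] at h2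

end TreeLike

end Pool.Agent.H18.Cage
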