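import Pool.Agent.H18.Cage.Geo

/-! Module GIRTH-1: tree-likeness from the absence of short cycles. -/

set_option autoImplicit false

namespace Pool.Agent.H18.Cage

open Polynomial Matrix Finset

/-- Two different paths with the same ends produce a short cycle. -/
theorem exists_cycle_of_paths {V : Type} [DecidableEq V] (G : SimpleGraph V)
    {a b : V} (p q : G.Walk a b) (hp : p.IsPath) (hq : q.IsPath) (hne : p ≠ q) :
    ∃ (v : V) (c : G.Walk v v), c.IsCycle ∧ c.length ≤ p.length + q.length := by
  classical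
  set H : SimpleGraph V := SimpleGraph.fromEdgeSet {e | e ∈ p.edges ∨ e ∈ q.edges} with hH
  have hHedge : ∀ e, e ∈ H.edgeSet ↔ (e ∈ p.edges ∨ e ∈ q.edges) := by
    intro e
    rw [hH, SimpleGraph.edgeSet_fromEdgeSet]
    constructor
    · intro h
      exact h.1
    · intro h
      refine ⟨h, ?_⟩
      have he : e ∈ G.edgeSet := by
        rcases h with h | h
        · exact p.edges_subset_edgeSet h
        · exact q.edges_subset_edgeSet h
      exact G.not_isDiag_of_mem_edgeSet he
  have hHG : H ≤ G := by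
    rw [← SimpleGraph.edgeSet_subset_edgeSet]
    intro e he
    rcases (hHedge e).mp he with h | h
    · exact p.edges_subset_edgeSet h
    · exact q.edges_subset_edgeSet h
  have hp' : ∀ e ∈ p.edges, e ∈ H.edgeSet := fun e he => (hHedge e).mpr (Or.inl he)
  have hq' : ∀ e ∈ q.edges, e ∈ H.edgeSet := fun e he => (hHedge e).mpr (Or.inr he)
  have hnac : ¬ H.IsAcyclic := by
    intro hac
    have := hac.path_unique ⟨p.transfer H hp', hp.transfer hp'⟩ ⟨q.transfer H hq', hq.transfer hq'⟩
    have h1 : p.transfer H hp' = q.transfer H hq' := congrArg Subtype.val this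
    apply hne
    apply SimpleGraph.Walk.ext_support
    rw [← p.support_transfer hp', ← q.support_transfer hq', h1]
  rw [SimpleGraph.IsAcyclic] at hnac
  push Not at hnac
  obtain ⟨v, c, hc⟩ := hnac
  refine ⟨v, c.mapLe hHG, hc.mapLe hHG, ?_⟩
  rw [SimpleGraph.Walk.length_mapLe]
  have h1 : c.length = c.edges.toFinset.card := by
    rw [List.toFinset_card_of_nodup hc.isTrail.edges_nodup, SimpleGraph.Walk.length_edges]
  rw [h1]
  have h2 : c.edges.toFinset ⊆ p.edges.toFinset ∪ q.edges.toFinset := by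
    intro e he
    rw [List.mem_toFinset] at he
    rw [Finset.mem_union, List.mem_toFinset, List.mem_toFinset]
    exact (hHedge e).mp (c.edges_subset_edgeSet he)
  refine (Finset.card_le_card h2).trans ((Finset.card_union_le _ _).trans ?_)
  refine Nat.add_le_add ?_ ?_
  · rw [← SimpleGraph.Walk.length_edges]; exact List.toFinset_card_le _
  · rw [← SimpleGraph.Walk.length_edges]; exact List.toFinset_card_le _

theorem exists_path_through {V : Type} [DecidableEq V] (G : SimpleGraph V)
    (hconn : G.Connected) {u w w1 : V} (h1 : G.Adj w w1) (hd1 : G.dist u w1 ≤ G.dist u w) :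
    ∃ P : G.Walk u w, P.IsPath ∧ P.length = G.dist u w1 + 1 ∧ P.penultimate = w1 := by
  obtain ⟨p, hp⟩ := hconn.exists_walk_length_eq_dist u w1
  have hpp : p.IsPath := SimpleGraph.Walk.isPath_of_length_eq_dist p hp
  have hw : w ∉ p.support := by
    intro hw
    have h2 := congrArg SimpleGraph.Walk.length (p.take_spec hw)
    rw [SimpleGraph.Walk.length_append] at h2
    have h3 : G.dist u w ≤ (p.takeUntil w hw).length := SimpleGraph.dist_le _
    have h4 : G.dist w w1 ≤ (p.dropUntil w hw).length := SimpleGraph.dist_le _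
    have h5 : G.dist w w1 = 1 := SimpleGraph.dist_eq_one_iff_adj.mpr h1
    omega
  refine ⟨p.concat h1.symm, hpp.concat hw h1.symm, ?_, ?_⟩
  · rw [SimpleGraph.Walk.length_concat, hp]
  · simp

theorem short_cycle {V : Type} [DecidableEq V] (G : SimpleGraph V)
    (hconn : G.Connected) {u w w1 w2 : V} (h1 : G.Adj w w1) (h2 : G.Adj w w2)
    (hd1 : G.dist u w1 ≤ G.dist u w) (hd2 : G.dist u w2 ≤ G.dist u w) (hne : w1 ≠ w2) :
    ∃ (v : V) (c : G.Walk v v), c.IsCycle ∧ (c.length ≤ 2 * G.dist u w + 1) ∧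
      (G.dist u w1 < G.dist u w → G.dist u w2 < G.dist u w → c.length ≤ 2 * G.dist u w) := by
  obtain ⟨P1, hP1, hl1, hpen1⟩ := exists_path_through G hconn h1 hd1
  obtain ⟨P2, hP2, hl2, hpen2⟩ := exists_path_through G hconn h2 hd2
  obtain ⟨Q, hQ⟩ := hconn.exists_walk_length_eq_dist u w
  have hQp : Q.IsPath := SimpleGraph.Walk.isPath_of_length_eq_dist Q hQ
  rcases hd1.lt_or_eq with hd1 | hd1
  · rcases hd2.lt_or_eq with hd2 | hd2
    · have hPP : P1 ≠ P2 := by
        rintro rfl
        exact hne (hpen1.symm.trans hpen2)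
      obtain ⟨v, c, hc, hcl⟩ := exists_cycle_of_paths G P1 P2 hP1 hP2 hPP
      exact ⟨v, c, hc, by omega, fun _ _ => by omega⟩
    · have hPP : P2 ≠ Q := by
        rintro rfl
        omega
      obtain ⟨v, c, hc, hcl⟩ := exists_cycle_of_paths G P2 Q hP2 hQp hPP
      exact ⟨v, c, hc, by omega, fun _ h => by omega⟩
  · have hPP : P1 ≠ Q := by
      rintro rfl
      omega
    obtain ⟨v, c, hc, hcl⟩ := exists_cycle_of_paths G P1 Q hP1 hQp hPP
    exact ⟨v, c, hc, by omega, fun h _ => by omega⟩

/-- Graphs without short cycles are locally tree-like. -/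
theorem treeLike_of_cycles {V : Type} [Fintype V] [DecidableEq V] (G : SimpleGraph V)
    [DecidableRel G.Adj] (r : ℕ) (hconn : G.Connected) (hreg : G.IsRegularOfDegree 5)
    (hcyc : ∀ (v : V) (c : G.Walk v v), c.IsCycle → 2 * r + 2 ≤ c.length) :
    TreeLike G r := by
  refine ⟨hconn, hreg, ?_⟩
  intro u w w1 w2 hd h1 h2 hd1 hd2
  by_contra hne
  obtain ⟨v, c, hc, hcl, -⟩ := short_cycle G hconn h1 h2 hd1 hd2 hne
  have := hcyc v c hc
  omega

/-- With girth at least `2r+3` the closer neighbour is also unique at distance `r+1`. -/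
theorem closer_unique_odd {V : Type} [Fintype V] [DecidableEq V] (G : SimpleGraph V)
    [DecidableRel G.Adj] (r : ℕ) (hconn : G.Connected)
    (hcyc : ∀ (v : V) (c : G.Walk v v), c.IsCycle → 2 * r + 3 ≤ c.length)
    (u w w1 w2 : V) (hd : G.dist u w = r + 1) (h1 : G.Adj w w1) (h2 : G.Adj w w2)
    (hd1 : G.dist u w1 = r) (hd2 : G.dist u w2 = r) : w1 = w2 := by
  by_contra hne
  obtain ⟨v, c, hc, -, hcl⟩ := short_cycle G hconn (u := u) h1 h2 (by omega) (by omega) hne
  have h3 := hcl (by omega) (by omega)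
  have := hcyc v c hc
  omega

end Pool.Agent.H18.Cage
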