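import Pool.Agent.H18.Cage.Girth1

/-! Module GIRTH-2: the relation for the excess matrix in connected graphs. -/

set_option autoImplicit false

namespace Pool.Agent.H18.Cage

open Polynomial Matrix Finset

section

variable {V : Type} [Fintype V] [DecidableEq V] {G : SimpleGraph V} [DecidableRel G.Adj] {r : ℕ}

theorem adj_mul_Dm (u v : V) (t : ℕ) :
    (G.adjMatrix ℤ * Dm G t) u v =
      (((G.neighborFinset u).filter (fun w => G.dist v w = t)).card : ℤ) := by
  rw [SimpleGraph.adjMatrix_mul_apply]
  simp only [TreeLike.Dm_apply]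
  rw [Finset.sum_boole]
  congr 2
  apply Finset.filter_congr
  intro w _
  rw [SimpleGraph.dist_comm]

/-- Number of neighbours of `u` on the sphere of radius `r` around `v`, in the tree range. -/
theorem card_nbr_sphere (h : TreeLike G r) (u v : V) (hd : G.dist v u ≤ r) :
    ((G.neighborFinset u).filter (fun w => G.dist v w = r)).card =
      if G.dist v u + 1 = r then (if r = 1 then 5 else 4) else 0 := by
  by_cases h1 : G.dist v u + 1 = r
  · rw [if_pos h1]
    have h3 : (G.neighborFinset u).filter (fun w => G.dist v w = r) =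
        (G.neighborFinset u).filter (fun w => G.dist v w = G.dist v u + 1) := by
      rw [h1]
    rw [h3]
    by_cases h4 : r = 1
    · have huv : v = u := h.dist_zero.mp (by omega)
      subst huv
      rw [h.card_self, if_pos h4]
    · have huv : v ≠ u := by
        rintro rfl
        rw [SimpleGraph.dist_self] at h1
        omega
      rw [h.card_children huv hd, if_neg h4]
  · rw [if_neg h1, Finset.card_eq_zero, Finset.filter_eq_empty_iff]
    intro x hx h3
    rw [SimpleGraph.mem_neighborFinset] at hx
    have := h.dist_adj hd hx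
    omega

/-- The first polynomial beyond the tree range. -/
theorem aeval_F_succ_apply (h : TreeLike G r) (u v : V) :
    (aeval (G.adjMatrix ℤ) (F (r + 1))) u v =
      if G.dist v u ≤ r then (0 : ℤ) else
        (((G.neighborFinset u).filter (fun w => G.dist v w ≤ r)).card : ℤ) := by
  have key : (aeval (G.adjMatrix ℤ) (F (r + 1))) u v =
      (((G.neighborFinset u).filter (fun w => G.dist v w = r)).card : ℤ) -
        if G.dist v u + 1 = r then (if r = 1 then 5 else 4) else 0 := by
    match r, h with
    | 0, h =>
      rw [if_neg (by omega), sub_zero, ← adj_mul_Dm, h.Dm_zero, mul_one]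
      simp [F]
    | 1, h =>
      have h2 : F (1 + 1) = X * X - 5 * 1 := by
        show (X ^ 2 - 5 : ℤ[X]) = _
        ring
      rw [h2, map_sub, map_mul, map_mul, aeval_X, map_ofNat, map_one, ← adj_mul_Dm,
        TreeLike.Dm_one, Matrix.sub_apply]
      congr 1
      rw [mul_one, if_pos rfl]
      have h3 : ((5 : Matrix V V ℤ)) u v = if u = v then 5 else 0 := by
        rw [← Matrix.diagonal_ofNat, Matrix.diagonal_apply]
      rw [h3]
      by_cases huv : u = v
      · subst huv
        rw [if_pos rfl, SimpleGraph.dist_self]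
        simp
      · rw [if_neg huv, if_neg]
        have := h.dist_pos (Ne.symm huv)
        omega
    | r + 2, h =>
      have h2 : F (r + 2 + 1) = X * F (r + 2) - 4 * F (r + 1) := by
        rw [F]
      have h4 : (4 : Matrix V V ℤ) = (4 : ℤ) • (1 : Matrix V V ℤ) := by
        rw [Algebra.smul_def, map_ofNat, mul_one]
      rw [h2, map_sub, map_mul, map_mul, h.aeval_F _ le_rfl, h.aeval_F _ (by omega), aeval_X,
        map_ofNat, Matrix.sub_apply, adj_mul_Dm, h4, Matrix.smul_mul, one_mul, Matrix.smul_apply,
        TreeLike.Dm_apply, smul_eq_mul, SimpleGraph.dist_comm (u := u)]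
      congr 1
      by_cases h5 : G.dist v u = r + 1
      · rw [if_pos h5, if_pos (by omega), if_neg (by omega)]
        norm_num
      · rw [if_neg h5, if_neg (by omega)]
        norm_num
  rw [key]
  by_cases hd : G.dist v u ≤ r
  · rw [if_pos hd, card_nbr_sphere h u v hd]
    split_ifs <;> simp
  · rw [if_neg hd, if_neg (by omega), sub_zero]
    congr 2
    apply Finset.filter_congr
    intro w hw
    rw [SimpleGraph.mem_neighborFinset] at hw
    have := h.adj_le (u := v) hw
    omega

theorem aeval_Gp_apply (h : TreeLike G r) (u v : V) :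
    (aeval (G.adjMatrix ℤ) (Gp r)) u v = if G.dist v u ≤ r then (1 : ℤ) else 0 := by
  rw [Gp, map_sum, Matrix.sum_apply,
    Finset.sum_congr rfl (g := fun t => if t = G.dist v u then (1 : ℤ) else 0)]
  · rw [Finset.sum_ite_eq']
    simp only [Finset.mem_range, Nat.lt_succ_iff]
  · intro t ht
    rw [Finset.mem_range] at ht
    rw [h.aeval_F t (by omega), TreeLike.Dm_apply, SimpleGraph.dist_comm]
    simp only [eq_comm]

theorem Gp_succ' (n : ℕ) : Gp (n + 1) = Gp n + F (n + 1) := by
  simp only [Gp]
  rw [sum_range_succ _ (n + 1)]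

end

/-- Odd girth. -/
theorem rel_odd {V : Type} [Fintype V] [DecidableEq V] (G : SimpleGraph V)
    [DecidableRel G.Adj] (r : ℕ) (hconn : G.Connected) (hreg : G.IsRegularOfDegree 5)
    (hcyc : ∀ (v : V) (c : G.Walk v v), c.IsCycle → 2 * r + 3 ≤ c.length) :
    aeval (G.adjMatrix ℤ) (W 0 r) +
      Matrix.of (fun u v => if G.dist u v ≤ r + 1 then (0 : ℤ) else 1) =
      Matrix.of (fun _ _ => (1 : ℤ)) := by
  have h : TreeLike G r := treeLike_of_cycles G r hconn hreg
    (fun v c hc => (by have := hcyc v c hc; omega))
  ext u v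
  rw [Matrix.add_apply, Matrix.of_apply, Matrix.of_apply, W, C_0, zero_mul, add_zero, Gp_succ',
    map_add, Matrix.add_apply, aeval_Gp_apply h, aeval_F_succ_apply h,
    SimpleGraph.dist_comm (u := u)]
  by_cases hd : G.dist v u ≤ r
  · rw [if_pos hd, if_pos hd, if_pos (by omega)]
    norm_num
  · rw [if_neg hd, if_neg hd]
    by_cases hd1 : G.dist v u = r + 1
    · rw [if_pos (by omega)]
      have hvu : v ≠ u := by
        rintro rfl
        rw [SimpleGraph.dist_self] at hd1
        omega
      obtain ⟨p, hp, hpd⟩ := h.exists_closer hvu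
      have : (G.neighborFinset u).filter (fun w => G.dist v w ≤ r) = {p} := by
        ext x
        rw [Finset.mem_filter, SimpleGraph.mem_neighborFinset, Finset.mem_singleton]
        constructor
        · rintro ⟨h1, h2⟩
          have := h.adj_le (u := v) h1
          exact closer_unique_odd G r hconn hcyc v u x p hd1 h1 hp (by omega) (by omega)
        · rintro rfl
          exact ⟨hp, by omega⟩
      rw [this, Finset.card_singleton]
      norm_num
    · rw [if_neg (by omega)]
      have : (G.neighborFinset u).filter (fun w => G.dist v w ≤ r) = ∅ := by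
        rw [Finset.filter_eq_empty_iff]
        intro x hx h2
        rw [SimpleGraph.mem_neighborFinset] at hx
        have := h.adj_le (u := v) hx
        omega
      rw [this, Finset.card_empty]
      norm_num

/-- Even girth. -/
theorem rel_even {V : Type} [Fintype V] [DecidableEq V] (G : SimpleGraph V)
    [DecidableRel G.Adj] (r : ℕ) (hconn : G.Connected) (hreg : G.IsRegularOfDegree 5)
    (hcyc : ∀ (v : V) (c : G.Walk v v), c.IsCycle → 2 * r + 2 ≤ c.length) :
    aeval (G.adjMatrix ℤ) (W 4 r) +
      Matrix.of (fun u v => if G.dist u v ≤ r then (0 : ℤ) else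
        ∑ w ∈ G.neighborFinset u, if G.dist w v ≤ r then (0 : ℤ) else 1) =
      (5 : ℤ) • Matrix.of (fun _ _ => (1 : ℤ)) := by
  have h : TreeLike G r := treeLike_of_cycles G r hconn hreg hcyc
  ext u v
  have h4 : (C (4 : ℤ) : ℤ[X]) = 4 := by simp
  have hW : W 4 r = F (r + 1) + 5 * Gp r := by
    rw [W, Gp_succ', h4]
    ring
  have h5 : (5 : Matrix V V ℤ) = (5 : ℤ) • (1 : Matrix V V ℤ) := by
    rw [Algebra.smul_def, map_ofNat, mul_one]
  rw [Matrix.add_apply, Matrix.of_apply, Matrix.smul_apply, Matrix.of_apply, hW,
    map_add, map_mul, map_ofNat, h5, Matrix.smul_mul, one_mul, Matrix.add_apply,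
    Matrix.smul_apply, aeval_Gp_apply h, aeval_F_succ_apply h,
    SimpleGraph.dist_comm (u := u)]
  by_cases hd : G.dist v u ≤ r
  · rw [if_pos hd, if_pos hd, if_pos hd]
    norm_num
  · rw [if_neg hd, if_neg hd, if_neg hd]
    have h6 : ∑ w ∈ G.neighborFinset u, (if G.dist w v ≤ r then (0 : ℤ) else 1) =
        5 - (((G.neighborFinset u).filter (fun w => G.dist v w ≤ r)).card : ℤ) := by
      have h7 : ∀ w ∈ G.neighborFinset u, (if G.dist w v ≤ r then (0 : ℤ) else 1) =
          1 - (if G.dist v w ≤ r then (1 : ℤ) else 0) := by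
        intro w _
        rw [SimpleGraph.dist_comm]
        split_ifs <;> simp
      rw [Finset.sum_congr rfl h7, Finset.sum_sub_distrib, Finset.sum_const, h.card_nbr,
        Finset.sum_boole]
      norm_num
    rw [h6]
    norm_num

end Pool.Agent.H18.Cage
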