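import Pool.Agent.H18.Cage.Girth2

/-! Module GIRTH-3: graphs of bounded excess give a `Setup`. -/

set_option autoImplicit false

namespace Pool.Agent.H18.Cage

open Polynomial Matrix Finset

section

variable {V : Type} [Fintype V] [DecidableEq V] {G : SimpleGraph V} [DecidableRel G.Adj] {r : ℕ}

theorem aeval_mulVec_one (hreg : G.IsRegularOfDegree 5) (p : ℤ[X]) :
    (aeval (G.adjMatrix ℤ) p) *ᵥ (fun _ => (1 : ℤ)) = fun _ => p.eval 5 := by
  have hA : (G.adjMatrix ℤ) *ᵥ (fun _ => (1 : ℤ)) = (5 : ℤ) • (fun _ => (1 : ℤ)) := by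
    ext v
    have := SimpleGraph.adjMatrix_mulVec_const_apply_of_regular (α := ℤ) (a := 1) hreg (v := v)
    simpa [Function.const] using this
  induction p using Polynomial.induction_on with
  | C a =>
    ext v
    rw [aeval_C, eval_C, Algebra.algebraMap_eq_smul_one, Matrix.smul_mulVec, Matrix.one_mulVec]
    simp
  | add p q hp hq =>
    ext v
    rw [map_add, Matrix.add_mulVec, hp, hq, eval_add]
    simp
  | monomial n a ih =>
    rw [pow_succ, ← mul_assoc, map_mul, aeval_X, ← Matrix.mulVec_mulVec, hA, Matrix.mulVec_smul, ih]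
    ext v
    simp only [eval_mul, eval_C, eval_pow, eval_X, Pi.smul_apply, smul_eq_mul]
    ring

theorem sum_aeval (hreg : G.IsRegularOfDegree 5) (p : ℤ[X]) (u : V) :
    ∑ v, (aeval (G.adjMatrix ℤ) p) u v = p.eval 5 := by
  have := congrFun (aeval_mulVec_one hreg p) u
  simpa [Matrix.mulVec, dotProduct] using this

theorem aeval_symm (p : ℤ[X]) : ((aeval (G.adjMatrix ℤ) p))ᵀ = aeval (G.adjMatrix ℤ) p := by
  induction p using Polynomial.induction_on with
  | C a =>
    rw [aeval_C, Algebra.algebraMap_eq_smul_one, Matrix.transpose_smul, Matrix.transpose_one]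
  | add p q hp hq =>
    rw [map_add, Matrix.transpose_add, hp, hq]
  | monomial n a ih =>
    have h1 : C a * X ^ (n + 1) = X * (C a * X ^ n) := by ring
    have h2 : C a * X ^ (n + 1) = (C a * X ^ n) * X := by ring
    have h3 : aeval (G.adjMatrix ℤ) (C a * X ^ (n + 1)) =
        G.adjMatrix ℤ * aeval (G.adjMatrix ℤ) (C a * X ^ n) := by
      rw [h1, map_mul, aeval_X]
    have h4 : aeval (G.adjMatrix ℤ) (C a * X ^ (n + 1)) =
        aeval (G.adjMatrix ℤ) (C a * X ^ n) * G.adjMatrix ℤ := by
      rw [h2, map_mul _ (C a * X ^ n), aeval_X]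
    rw [h4]
    conv_rhs => rw [← h4, h3]
    rw [Matrix.transpose_mul, ih, SimpleGraph.transpose_adjMatrix]

end

theorem eval_W_five (s : ℤ) (r : ℕ) :
    (W s r).eval 5 = (1 + 5 * ∑ i ∈ range (r + 1), (4 : ℤ) ^ i)
      + s * (1 + 5 * ∑ i ∈ range r, (4 : ℤ) ^ i) := by
  have h1 := ev_W_five s r
  have h2 : ev (W s r) 5 = (((W s r).eval 5 : ℤ) : ℝ) := by
    rw [ev]
    have := Polynomial.aeval_algebraMap_apply_eq_algebraMap_eval (A := ℝ) (5 : ℤ) (W s r)
    simpa using this
  rw [h2] at h1
  exact_mod_cast h1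

/-- The part of the `Setup` available without the bound on the number of vertices. -/
structure PreSetup {V : Type} [Fintype V] [DecidableEq V] (G : SimpleGraph V)
    [DecidableRel G.Adj] (s : ℤ) (r : ℕ) (E : Matrix V V ℤ) : Prop where
  tl : TreeLike G r
  nonneg : ∀ u v, 0 ≤ E u v
  symm : E.IsSymm
  far : ∀ u v, G.dist u v ≤ r → E u v = 0
  rel : aeval (G.adjMatrix ℤ) (W s r) + E = (1 + s) • Matrix.of (fun _ _ => (1 : ℤ))

theorem pre_row {V : Type} [Fintype V] [DecidableEq V] {G : SimpleGraph V}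
    [DecidableRel G.Adj] {s : ℤ} {r : ℕ} {E : Matrix V V ℤ} (h : PreSetup G s r E) (u : V) :
    ∑ v, E u v = (1 + s) * Fintype.card V - (W s r).eval 5 := by
  have h1 := sum_aeval h.tl.deg (W s r) u
  have h2 : ∑ v, (aeval (G.adjMatrix ℤ) (W s r) + E) u v = (1 + s) * Fintype.card V := by
    rw [h.rel]
    simp [Finset.sum_const, mul_comm]
  simp only [Matrix.add_apply, Finset.sum_add_distrib] at h2
  linarith

theorem pre_card {V : Type} [Fintype V] [DecidableEq V] {G : SimpleGraph V}
    [DecidableRel G.Adj] {s : ℤ} {r : ℕ} {E : Matrix V V ℤ} (h : PreSetup G s r E) :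
    (W s r).eval 5 ≤ (1 + s) * Fintype.card V := by
  obtain ⟨u⟩ := h.tl.conn.nonempty
  have h1 := pre_row h u
  have h2 : 0 ≤ ∑ v, E u v := Finset.sum_nonneg (fun v _ => h.nonneg u v)
  linarith

theorem pre_odd {V : Type} [Fintype V] [DecidableEq V] (G : SimpleGraph V)
    [DecidableRel G.Adj] (r : ℕ) (hconn : G.Connected) (hreg : G.IsRegularOfDegree 5)
    (hcyc : ∀ (v : V) (c : G.Walk v v), c.IsCycle → 2 * r + 3 ≤ c.length) :
    ∃ E : Matrix V V ℤ, PreSetup G 0 r E := by
  refine ⟨Matrix.of (fun u v => if G.dist u v ≤ r + 1 then (0 : ℤ) else 1), ?_, ?_, ?_, ?_, ?_⟩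
  · exact treeLike_of_cycles G r hconn hreg (fun v c hc => (by have := hcyc v c hc; omega))
  · intro u v
    rw [Matrix.of_apply]
    split_ifs <;> norm_num
  · ext u v
    rw [Matrix.transpose_apply, Matrix.of_apply, Matrix.of_apply, SimpleGraph.dist_comm]
  · intro u v h
    rw [Matrix.of_apply, if_pos (by omega)]
  · rw [rel_odd G r hconn hreg hcyc]
    simp

theorem pre_even {V : Type} [Fintype V] [DecidableEq V] (G : SimpleGraph V)
    [DecidableRel G.Adj] (r : ℕ) (hconn : G.Connected) (hreg : G.IsRegularOfDegree 5)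
    (hcyc : ∀ (v : V) (c : G.Walk v v), c.IsCycle → 2 * r + 2 ≤ c.length) :
    ∃ E : Matrix V V ℤ, PreSetup G 4 r E := by
  have hrel := rel_even G r hconn hreg hcyc
  refine ⟨Matrix.of (fun u v => if G.dist u v ≤ r then (0 : ℤ) else
        ∑ w ∈ G.neighborFinset u, if G.dist w v ≤ r then (0 : ℤ) else 1), ?_, ?_, ?_, ?_, ?_⟩
  · exact treeLike_of_cycles G r hconn hreg hcyc
  · intro u v
    rw [Matrix.of_apply]
    split_ifs
    · exact le_rfl
    · apply Finset.sum_nonneg
      intro w _
      split_ifs <;> norm_num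
  · have h1 := eq_sub_of_add_eq' hrel
    rw [h1, Matrix.IsSymm, Matrix.transpose_sub, aeval_symm, Matrix.transpose_smul]
    congr 1
  · intro u v h
    rw [Matrix.of_apply, if_pos h]
  · rw [hrel]
    norm_num

/-- Reduction to connected graphs. -/
theorem setup_gen (s : ℤ) (hs : s = 0 ∨ s = 4) (g : ℕ → ℕ) (hg : ∀ r, 0 < g r)
    (hpre : ∀ {V : Type} [Fintype V] [DecidableEq V] (G : SimpleGraph V)
      [DecidableRel G.Adj] (r : ℕ) (_ : G.Connected) (_ : G.IsRegularOfDegree 5)
      (_ : ∀ (v : V) (c : G.Walk v v), c.IsCycle → g r ≤ c.length),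
      ∃ E : Matrix V V ℤ, PreSetup G s r E)
    (M : ℕ → ℕ) (hM : ∀ r, (W s r).eval 5 = (1 + s) * M r) (hMr : ∀ r, r ≤ M r) (c : ℕ) :
    ∃ r0 : ℕ, ∀ (n r : ℕ) (G : SimpleGraph (Fin n)) [DecidableRel G.Adj],
    r0 ≤ r → G.IsRegularOfDegree 5 → G.girth = g r →
    n ≤ M r + c →
    ∃ E : Matrix (Fin n) (Fin n) ℤ, Setup G s r (5 * c) E := by
  classical
  refine ⟨c + 1, ?_⟩
  intro n r G _ hr hreg hgirth hn
  have hs1 : 0 < 1 + s := by rcases hs with h | h <;> rw [h] <;> norm_num
  have hcyc : ∀ (v : Fin n) (w : G.Walk v v), w.IsCycle → g r ≤ w.length := by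
    intro v w hw
    rw [← hgirth]
    exact SimpleGraph.girth_le_length hw
  -- lower bound for components
  have hcomp : ∀ K : G.ConnectedComponent, M r ≤ (Finset.univ.filter (fun v => v ∈ K.supp)).card := by
    intro K
    have hconn : K.toSimpleGraph.Connected := K.connected_toSimpleGraph
    have hinj : Function.Injective K.toSimpleGraph_hom := by
      intro x y hxy
      exact Subtype.ext hxy
    have hcycK : ∀ (v : K) (w : K.toSimpleGraph.Walk v v), w.IsCycle → g r ≤ w.length := by
      intro v w hw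
      have := hcyc _ (w.map K.toSimpleGraph_hom) (hw.map hinj)
      rwa [SimpleGraph.Walk.length_map] at this
    have hregK : K.toSimpleGraph.IsRegularOfDegree 5 := by
      intro v
      rw [← hreg v.1, ← SimpleGraph.card_neighborFinset_eq_degree,
        ← SimpleGraph.card_neighborFinset_eq_degree]
      refine Finset.card_bij (fun a _ => a.1) ?_ ?_ ?_
      · intro a ha
        rw [SimpleGraph.mem_neighborFinset] at ha ⊢
        exact K.toSimpleGraph_hom.map_adj ha
      · intro a _ b _ hab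
        exact Subtype.ext hab
      · intro b hb
        rw [SimpleGraph.mem_neighborFinset] at hb
        have hbK : b ∈ K := by
          have h1 : (v.1 : Fin n) ∈ K.supp := v.2
          exact (K.mem_supp_congr_adj hb).mp h1
        refine ⟨⟨b, hbK⟩, ?_, rfl⟩
        rw [SimpleGraph.mem_neighborFinset]
        exact hb
    obtain ⟨E, hE⟩ := hpre K.toSimpleGraph r hconn hregK hcycK
    have h1 := pre_card hE
    rw [hM] at h1
    have h2 : (M r : ℤ) ≤ Fintype.card K := le_of_mul_le_mul_left h1 hs1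
    have h3 : Fintype.card K = (Finset.univ.filter (fun v => v ∈ K.supp)).card := by
      rw [← Fintype.card_coe]
      apply Fintype.card_congr
      exact {
        toFun := fun x => ⟨x.1, by
          rw [Finset.mem_filter]
          exact ⟨Finset.mem_univ _, x.2⟩⟩
        invFun := fun x => ⟨x.1, (Finset.mem_filter.mp x.2).2⟩
        left_inv := fun x => rfl
        right_inv := fun x => rfl }
    rw [← h3]
    exact_mod_cast h2
  have hnpos : 0 < n := by
    rcases Nat.eq_zero_or_pos n with h0 | h0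
    · exfalso
      subst h0
      have h1 : G.girth = 0 := by
        rw [SimpleGraph.girth_eq_zero]
        intro v
        exact v.elim0
      have := hg r
      omega
    · exact h0
  have hconn : G.Connected := by
    have hne : Nonempty (Fin n) := ⟨⟨0, hnpos⟩⟩
    rw [SimpleGraph.connected_iff]
    refine ⟨?_, hne⟩
    intro u v
    by_contra huv
    have hK : G.connectedComponentMk u ≠ G.connectedComponentMk v := by
      intro h
      exact huv (SimpleGraph.ConnectedComponent.exact h)
    have h1 := hcomp (G.connectedComponentMk u)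
    have h2 := hcomp (G.connectedComponentMk v)
    have h3 : Disjoint (Finset.univ.filter (fun w => w ∈ (G.connectedComponentMk u).supp))
        (Finset.univ.filter (fun w => w ∈ (G.connectedComponentMk v).supp)) := by
      rw [Finset.disjoint_left]
      intro w hw1 hw2
      simp only [Finset.mem_filter, Finset.mem_univ, true_and,
        SimpleGraph.ConnectedComponent.mem_supp_iff] at hw1 hw2
      exact hK (hw1.symm.trans hw2)
    have h4 := Finset.card_le_univ ((Finset.univ.filter
      (fun w => w ∈ (G.connectedComponentMk u).supp)) ∪ (Finset.univ.filter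
      (fun w => w ∈ (G.connectedComponentMk v).supp)))
    rw [Finset.card_union_of_disjoint h3, Fintype.card_fin] at h4
    have := hMr r
    omega
  obtain ⟨E, hE⟩ := hpre G r hconn hreg hcyc
  refine ⟨E, hE.tl, hs, hE.nonneg, hE.symm, ?_, hE.far, hE.rel⟩
  intro u
  rw [pre_row hE u, hM, ← mul_sub, Fintype.card_fin]
  have h1 : (n : ℤ) - M r ≤ c := by
    have : (n : ℤ) ≤ M r + c := by exact_mod_cast hn
    linarith
  have h2 : 1 + s ≤ 5 := by rcases hs with h | h <;> rw [h] <;> norm_num
  push_cast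
  have h3 : (0 : ℤ) ≤ c := by positivity
  nlinarith

theorem setup_odd (c : ℕ) : ∃ r0 : ℕ, ∀ (n r : ℕ) (G : SimpleGraph (Fin n)) [DecidableRel G.Adj],
    r0 ≤ r → G.IsRegularOfDegree 5 → G.girth = 2 * r + 3 →
    n ≤ 1 + 5 * ∑ i ∈ range (r + 1), 4 ^ i + c →
    ∃ E : Matrix (Fin n) (Fin n) ℤ, Setup G 0 r (5 * c) E := by
  refine setup_gen 0 (Or.inl rfl) (fun r => 2 * r + 3) (fun r => by omega) pre_odd
    (fun r => 1 + 5 * ∑ i ∈ range (r + 1), 4 ^ i) ?_ ?_ c
  · intro r
    rw [eval_W_five]
    push_cast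
    ring
  · intro r
    have : ∀ r : ℕ, r ≤ ∑ i ∈ range (r + 1), 4 ^ i := by
      intro r
      induction r with
      | zero => simp
      | succ r ih =>
        rw [Finset.sum_range_succ]
        have : 1 ≤ 4 ^ (r + 1) := Nat.one_le_pow _ _ (by norm_num)
        omega
    have := this r
    show r ≤ 1 + 5 * ∑ i ∈ range (r + 1), 4 ^ i
    omega

theorem setup_even (c : ℕ) : ∃ r0 : ℕ, ∀ (n r : ℕ) (G : SimpleGraph (Fin n)) [DecidableRel G.Adj],
    r0 ≤ r → G.IsRegularOfDegree 5 → G.girth = 2 * r + 2 →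
    n ≤ 2 * ∑ i ∈ range (r + 1), 4 ^ i + c →
    ∃ E : Matrix (Fin n) (Fin n) ℤ, Setup G 4 r (5 * c) E := by
  refine setup_gen 4 (Or.inr rfl) (fun r => 2 * r + 2) (fun r => by omega) pre_even
    (fun r => 2 * ∑ i ∈ range (r + 1), 4 ^ i) ?_ ?_ c
  · intro r
    rw [eval_W_five]
    push_cast
    have h1 : ∀ r : ℕ, ∑ i ∈ range (r + 1), (4 : ℤ) ^ i = 1 + 4 * ∑ i ∈ range r, (4 : ℤ) ^ i := by
      intro r
      induction r with
      | zero => simp
      | succ r ih =>
        have h5 := Finset.sum_range_succ (fun i => (4 : ℤ) ^ i) (r + 1)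
        have h6 := Finset.sum_range_succ (fun i => (4 : ℤ) ^ i) r
        have h7 : (4 : ℤ) ^ (r + 1) = 4 * 4 ^ r := by ring
        linarith
    rw [h1]
    ring
  · intro r
    have : ∀ r : ℕ, r ≤ ∑ i ∈ range (r + 1), 4 ^ i := by
      intro r
      induction r with
      | zero => simp
      | succ r ih =>
        rw [Finset.sum_range_succ]
        have : 1 ≤ 4 ^ (r + 1) := Nat.one_le_pow _ _ (by norm_num)
        omega
    have := this r
    show r ≤ 2 * ∑ i ∈ range (r + 1), 4 ^ i
    omega

end Pool.Agent.H18.Cage
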