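import Pool.Agent.H18.Cage.Geo

/-! Module GROWTH. -/

set_option autoImplicit false

namespace Pool.Agent.H18.Cage

open Polynomial Matrix Finset

section GrowthAux

variable {V : Type} [Fintype V] [DecidableEq V] {G : SimpleGraph V} [DecidableRel G.Adj] {r : ℕ}

theorem aeval_commute (A M : Matrix V V ℤ) (h : A * M = M * A) (p : ℤ[X]) :
    aeval A p * M = M * aeval A p := by
  induction p using Polynomial.induction_on' with
  | add p q hp hq => simp [add_mul, mul_add, hp, hq]
  | monomial n a =>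
    rw [aeval_monomial, mul_assoc, (Commute.pow_left (show Commute A M from h) n).eq, ← mul_assoc,
      ← mul_assoc, Algebra.commutes]

/-- Pairs at distance `t` in the support of `M`. -/
noncomputable def Npair (G : SimpleGraph V) (M : Matrix V V ℤ) (t : ℕ) : Finset (V × V) :=
  univ.filter (fun p => G.dist p.1 p.2 = t ∧ M p.1 p.2 ≠ 0)

omit [DecidableEq V] in
theorem card_supp_le {D : ℕ} {M : Matrix V V ℤ} (hM : ∀ u v, 0 ≤ M u v)
    (hrow : ∀ u, ∑ v, M u v ≤ (D : ℤ)) (u : V) :
    (univ.filter (fun v => M u v ≠ 0)).card ≤ D := by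
  have h1 : ((univ.filter (fun v => M u v ≠ 0)).card : ℤ) ≤ D := by
    calc ((univ.filter (fun v => M u v ≠ 0)).card : ℤ)
        = ∑ v ∈ univ.filter (fun v => M u v ≠ 0), (1 : ℤ) := by simp
      _ ≤ ∑ v ∈ univ.filter (fun v => M u v ≠ 0), M u v := by
          refine Finset.sum_le_sum (fun v hv => ?_)
          have h2 := (Finset.mem_filter.mp hv).2
          have h3 := hM u v
          omega
      _ ≤ ∑ v, M u v :=
          Finset.sum_le_sum_of_subset_of_nonneg (Finset.filter_subset _ _) (fun v _ _ => hM u v)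
      _ ≤ D := hrow u
  exact_mod_cast h1

/-- One pair produces many pairs further away. -/
theorem exists_partner (h : TreeLike G r) {M : Matrix V V ℤ} (hM : ∀ u v, 0 ≤ M u v)
    (hc : G.adjMatrix ℤ * M = M * G.adjMatrix ℤ) {L : ℕ} (hL : L ≤ r) {u v w : V}
    (huv : M u v ≠ 0) (hvw : G.dist v w = L) : ∃ u', G.dist u u' = L ∧ M u' w ≠ 0 := by
  have h1 : Dm G L * M = M * Dm G L := by
    rw [← h.aeval_F L hL]
    exact aeval_commute _ _ hc _
  have h2 : (Dm G L * M) u w ≠ 0 := by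
    rw [h1, Matrix.mul_apply]
    have h3 : M u v * Dm G L v w ≤ ∑ j, M u j * Dm G L j w := by
      refine Finset.single_le_sum (f := fun j => M u j * Dm G L j w) (fun j _ => ?_)
        (Finset.mem_univ v)
      refine mul_nonneg (hM u j) ?_
      rw [TreeLike.Dm_apply]
      split_ifs <;> norm_num
    rw [TreeLike.Dm_apply, if_pos hvw, mul_one] at h3
    have h4 := hM u v
    omega
  rw [Matrix.mul_apply] at h2
  obtain ⟨u', -, hu'⟩ := Finset.exists_ne_zero_of_sum_ne_zero h2
  refine ⟨u', ?_, right_ne_zero_of_mul hu'⟩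
  by_contra hne
  apply hu'
  rw [TreeLike.Dm_apply, if_neg hne, zero_mul]

/-- The good relation. -/
def GoodT (G : SimpleGraph V) (M : Matrix V V ℤ) (i0 L t : ℕ) (v w : V) : Prop :=
  ∃ u', ∃ i < i0, G.dist u' w = t + 2 * L - 2 * i ∧ G.dist u' v = t + L - 2 * i ∧
    G.dist v w = L ∧ M u' w ≠ 0

open scoped Classical in
theorem card_good (h : TreeLike G r) {D : ℕ} {M : Matrix V V ℤ} (hM : ∀ u v, 0 ≤ M u v)
    (hc : G.adjMatrix ℤ * M = M * G.adjMatrix ℤ) (hrow : ∀ u, ∑ v, M u v ≤ (D : ℤ))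
    {t : ℕ} (ht : D + 1 ≤ t) (htr : t + 2 * (2 * (D + 1)) ≤ r) {u v : V}
    (huv : G.dist u v = t) (hMuv : M u v ≠ 0) :
    4 ^ (2 * (D + 1)) ≤ 2 * (univ.filter (fun w => GoodT G M (D + 1) (2 * (D + 1)) t v w)).card := by
  set L := 2 * (D + 1) with hL
  have hne : u ≠ v := by
    rintro rfl
    rw [SimpleGraph.dist_self] at huv
    omega
  have hW := h.card_extend hne L (by omega)
  obtain ⟨p, hp1, hp2⟩ := h.exists_between (a := u) (b := v) (D + 1) (by omega)
  set B : Finset V := (univ.filter (fun u' => G.dist p u' = D + 1)).biUnion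
    (fun u' => univ.filter (fun w => M u' w ≠ 0)) with hB
  have hBcard : B.card ≤ 5 * 4 ^ D * D := by
    refine (Finset.card_biUnion_le_card_mul _ _ D (fun u' _ => card_supp_le hM hrow u')).trans ?_
    exact Nat.mul_le_mul_right _ (h.card_sphere_le p D)
  have hsub : univ.filter (fun c => G.dist v c = L ∧ G.dist u c = G.dist u v + L) ⊆
      (univ.filter (fun w => GoodT G M (D + 1) L t v w)) ∪ B := by
    intro w hw
    simp only [Finset.mem_filter, Finset.mem_univ, true_and] at hw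
    obtain ⟨hw1, hw2⟩ := hw
    obtain ⟨u', hu1, hu2⟩ := exists_partner h hM hc (L := L) (by omega) hMuv hw1
    obtain ⟨m, hm1, hm2, hm3⟩ := h.median (a := u) (b := u') (c := w) (by omega)
    have hwv := h.tri u v w
    by_cases hi : D + 1 ≤ G.dist u m
    · rw [Finset.mem_union]
      right
      simp only [hB, Finset.mem_biUnion, Finset.mem_filter, Finset.mem_univ, true_and]
      refine ⟨u', ?_, hu2⟩
      have e1 := h.tri u p w
      have e2 := h.tri p v w
      have e3 := h.between_between (u := u) (w := w) (m := p) (v := m) (by omega) (by omega)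
        hm2 (by omega)
      have e4 := h.tri p m u'
      have e5 := h.tri u p u'
      omega
    · rw [Finset.mem_union]
      left
      simp only [Finset.mem_filter, Finset.mem_univ, true_and]
      have e3 := h.between_between (u := u) (w := w) (m := m) (v := v) (by omega) hm2 (by omega)
        (by omega)
      have e4 := h.tri u' m v
      have e5 := h.tri u' v w
      have e6 : G.dist m u' = G.dist u' m := G.dist_comm
      exact ⟨u', G.dist u m, by omega, by omega, by omega, hw1, hu2⟩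
  have h1 := Finset.card_le_card hsub
  have h2 := Finset.card_union_le (univ.filter (fun w => GoodT G M (D + 1) L t v w)) B
  have h3 : 2 * (5 * 4 ^ D * D) ≤ 4 ^ L := by
    have h4 : D ≤ 4 ^ D := (Nat.lt_pow_self (by norm_num)).le
    have h5 : 4 ^ L = 16 * (4 ^ D * 4 ^ D) := by
      rw [hL, pow_mul, pow_succ, ← mul_pow]
      norm_num
      ring
    rw [h5]
    nlinarith [Nat.mul_le_mul_left (4 ^ D) h4]
  rw [hW] at h1
  omega

open scoped Classical in
/-- The basic recursive inequality. -/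
theorem growth_rec (h : TreeLike G r) {D : ℕ} {M : Matrix V V ℤ} (hM : ∀ u v, 0 ≤ M u v)
    (hs : M.IsSymm) (hc : G.adjMatrix ℤ * M = M * G.adjMatrix ℤ)
    (hrow : ∀ u, ∑ v, M u v ≤ (D : ℤ)) {t : ℕ} (ht : D + 1 ≤ t)
    (htr : t + 2 * (2 * (D + 1)) ≤ r) :
    4 ^ (2 * (D + 1)) * (Npair G M t).card ≤
      2 * ∑ i ∈ range (D + 1), (Npair G M (t + 2 * (2 * (D + 1)) - 2 * i)).card * D := by
  set L := 2 * (D + 1) with hL
  set T : Finset (Σ _ : V × V, V) := (Npair G M t).sigma
    (fun p => univ.filter (fun w => GoodT G M (D + 1) L t p.2 w)) with hT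
  have h1 : 4 ^ L * (Npair G M t).card ≤ 2 * T.card := by
    rw [hT, Finset.card_sigma, Finset.mul_sum, mul_comm, ← smul_eq_mul, ← Finset.sum_const]
    refine Finset.sum_le_sum (fun p hp => ?_)
    simp only [Npair, Finset.mem_filter, Finset.mem_univ, true_and] at hp
    exact card_good h hM hc hrow ht htr hp.1 hp.2
  set S : ℕ → V × V → Finset (Σ _ : V × V, V) := fun i q =>
    (univ.filter (fun p : V × V => M p.1 p.2 ≠ 0 ∧ G.dist q.1 p.2 = t + L - 2 * i ∧
      G.dist p.2 q.2 = L)).image (fun p => ⟨p, q.2⟩) with hS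
  have h2 : T ⊆ (range (D + 1)).biUnion (fun i =>
      (Npair G M (t + 2 * L - 2 * i)).biUnion (fun q => S i q)) := by
    rintro ⟨p, w⟩ hpw
    rw [hT, Finset.mem_sigma] at hpw
    obtain ⟨hp, hw⟩ := hpw
    simp only [Npair, Finset.mem_filter, Finset.mem_univ, true_and] at hp
    obtain ⟨hp1, hp2⟩ := hp
    have hw' : GoodT G M (D + 1) L t p.2 w := (Finset.mem_filter.mp hw).2
    obtain ⟨u', i, hi, k1, k2, k3, k4⟩ := hw'
    simp only [Finset.mem_biUnion, Finset.mem_range]
    refine ⟨i, hi, (u', w), ?_, ?_⟩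
    · simp only [Npair, Finset.mem_filter, Finset.mem_univ, true_and]
      exact ⟨k1, k4⟩
    · simp only [hS, Finset.mem_image, Finset.mem_filter, Finset.mem_univ, true_and]
      exact ⟨p, ⟨hp2, k2, k3⟩, rfl⟩
  have h3 : T.card ≤ ∑ i ∈ range (D + 1), (Npair G M (t + 2 * L - 2 * i)).card * D := by
    refine (Finset.card_le_card h2).trans ((Finset.card_biUnion_le).trans ?_)
    refine Finset.sum_le_sum (fun i hi => ?_)
    rw [Finset.mem_range] at hi
    refine Finset.card_biUnion_le_card_mul _ _ D (fun q hq => ?_)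
    simp only [Npair, Finset.mem_filter, Finset.mem_univ, true_and] at hq
    refine Finset.card_image_le.trans ?_
    set Q := univ.filter (fun p : V × V => M p.1 p.2 ≠ 0 ∧ G.dist q.1 p.2 = t + L - 2 * i ∧
      G.dist p.2 q.2 = L) with hQ
    rcases Q.eq_empty_or_nonempty with h0 | ⟨p0, hp0⟩
    · rw [h0]
      simp
    · simp only [hQ, Finset.mem_filter, Finset.mem_univ, true_and] at hp0
      have h5 : ∀ p ∈ Q, p.2 = p0.2 := by
        intro p hp
        simp only [hQ, Finset.mem_filter, Finset.mem_univ, true_and] at hp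
        exact h.between_unique (a := q.1) (b := q.2) (by omega) (by omega) (by omega) (by omega)
      have h6 : Q.card ≤ (univ.filter (fun x => M p0.2 x ≠ 0)).card := by
        refine Finset.card_le_card_of_injOn Prod.fst ?_ ?_
        · intro p hp
          have hp2 := h5 p hp
          simp only [hQ, Finset.coe_filter, Finset.mem_univ, true_and, Set.mem_ofPred_eq] at hp
          simp only [Finset.coe_filter, Finset.mem_univ, true_and, Set.mem_ofPred_eq]
          rw [← hp2, hs.apply]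
          exact hp.1
        · intro p hp p' hp' heq
          exact Prod.ext heq ((h5 p hp).trans (h5 p' hp').symm)
      exact h6.trans (card_supp_le hM hrow _)
  omega

omit [DecidableRel G.Adj] in
theorem card_Npair_le {D : ℕ} {M : Matrix V V ℤ} (hM : ∀ u v, 0 ≤ M u v)
    (hrow : ∀ u, ∑ v, M u v ≤ (D : ℤ)) (t : ℕ) :
    (Npair G M t).card ≤ Fintype.card V * D := by
  have h1 : Npair G M t ⊆ (univ : Finset V).biUnion (fun u =>
      (univ.filter (fun v => M u v ≠ 0)).image (fun v => (u, v))) := by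
    intro p hp
    simp only [Npair, Finset.mem_filter, Finset.mem_univ, true_and] at hp
    simp only [Finset.mem_biUnion, Finset.mem_univ, true_and, Finset.mem_image,
      Finset.mem_filter]
    exact ⟨p.1, p.2, hp.2, rfl⟩
  refine (Finset.card_le_card h1).trans ?_
  refine (Finset.card_biUnion_le_card_mul _ _ D (fun u _ => ?_)).trans ?_
  · exact Finset.card_image_le.trans (card_supp_le hM hrow u)
  · rw [Finset.card_univ]

theorem growth_iter (h : TreeLike G r) {D : ℕ} {M : Matrix V V ℤ} (hM : ∀ u v, 0 ≤ M u v)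
    (hs : M.IsSymm) (hc : G.adjMatrix ℤ * M = M * G.adjMatrix ℤ)
    (hrow : ∀ u, ∑ v, M u v ≤ (D : ℤ)) (j : ℕ) :
    ∀ t, D + 1 ≤ t → t + 4 * (D + 1) * j ≤ r →
      2 ^ j * (Npair G M t).card ≤ Fintype.card V * D := by
  induction j with
  | zero =>
    intro t _ _
    simpa using card_Npair_le (G := G) hM hrow t
  | succ j ih =>
    intro t ht htr
    have e1 : 4 * (D + 1) * (j + 1) = 4 * (D + 1) * j + 4 * (D + 1) := by ring
    have h1 := growth_rec h hM hs hc hrow ht (by omega)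
    have h2 : ∀ i ∈ range (D + 1),
        2 ^ j * ((Npair G M (t + 2 * (2 * (D + 1)) - 2 * i)).card * D) ≤
          Fintype.card V * D * D := by
      intro i hi
      rw [Finset.mem_range] at hi
      have := ih (t + 2 * (2 * (D + 1)) - 2 * i) (by omega) (by omega)
      rw [← mul_assoc]
      exact Nat.mul_le_mul_right _ this
    have h3 := Finset.sum_le_sum h2
    rw [Finset.sum_const, Finset.card_range, smul_eq_mul, ← Finset.mul_sum] at h3
    have h4 : 4 * ((D + 1) * D) ≤ 4 ^ (2 * (D + 1)) := by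
      have h5 : D ≤ 4 ^ D := (Nat.lt_pow_self (by norm_num)).le
      have h5' : D + 1 ≤ 4 ^ D := Nat.lt_pow_self (by norm_num)
      have h6 : 4 ^ (2 * (D + 1)) = 16 * (4 ^ D * 4 ^ D) := by
        rw [pow_mul, pow_succ, ← mul_pow]
        norm_num
        ring
      rw [h6]
      nlinarith [Nat.mul_le_mul h5' h5]
    have h7 : 4 ^ (2 * (D + 1)) * (2 ^ (j + 1) * (Npair G M t).card) ≤
        4 ^ (2 * (D + 1)) * (Fintype.card V * D) := by
      set s := ∑ i ∈ range (D + 1), (Npair G M (t + 2 * (2 * (D + 1)) - 2 * i)).card * D with hsdef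
      calc 4 ^ (2 * (D + 1)) * (2 ^ (j + 1) * (Npair G M t).card)
          = 2 * (2 ^ j * (4 ^ (2 * (D + 1)) * (Npair G M t).card)) := by ring
        _ ≤ 2 * (2 ^ j * (2 * s)) :=
            Nat.mul_le_mul_left _ (Nat.mul_le_mul_left _ h1)
        _ = 4 * (2 ^ j * s) := by ring
        _ ≤ 4 * ((D + 1) * (Fintype.card V * D * D)) := Nat.mul_le_mul_left _ h3
        _ = 4 * ((D + 1) * D) * (Fintype.card V * D) := by ring
        _ ≤ 4 ^ (2 * (D + 1)) * (Fintype.card V * D) := Nat.mul_le_mul_right _ h4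
    exact Nat.le_of_mul_le_mul_left h7 (by positivity)

theorem growth_arith (D K : ℕ) (ε : ℝ) (hε : 0 < ε) (hK : 0 < K) : ∃ r0 : ℕ, ∀ r, r0 ≤ r →
    (D : ℝ) * ((r : ℝ) + 1) ^ 2 ≤ ε * 2 ^ (r / K) := by
  have h1 := tendsto_pow_const_div_const_pow_of_one_lt 2 (show (1 : ℝ) < 2 by norm_num)
  have h2 : 0 < ε / (2 * (D * (K : ℝ) ^ 2 + 1)) := by positivity
  obtain ⟨j0, hj0⟩ := Filter.eventually_atTop.mp (h1.eventually (gt_mem_nhds h2))
  refine ⟨K * j0, fun r hr => ?_⟩
  set j := r / K with hj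
  have hj1 : j0 ≤ j := by
    rw [hj, Nat.le_div_iff_mul_le hK, mul_comm]
    exact hr
  have h3 := hj0 (j + 1) (by omega)
  rw [div_lt_iff₀ (by positivity)] at h3
  have h4 : r + 1 ≤ K * (j + 1) := by
    have := Nat.lt_mul_div_succ r hK
    exact this
  have h5 : (r : ℝ) + 1 ≤ K * ((j : ℝ) + 1) := by exact_mod_cast h4
  have h6 : ((r : ℝ) + 1) ^ 2 ≤ (K * ((j : ℝ) + 1)) ^ 2 := by gcongr
  have h7 : (D : ℝ) * ((r : ℝ) + 1) ^ 2 ≤ (D * (K : ℝ) ^ 2 + 1) * ((j : ℝ) + 1) ^ 2 := by
    calc (D : ℝ) * ((r : ℝ) + 1) ^ 2 ≤ D * (K * ((j : ℝ) + 1)) ^ 2 := by gcongr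
      _ = (D * (K : ℝ) ^ 2) * ((j : ℝ) + 1) ^ 2 := by ring
      _ ≤ (D * (K : ℝ) ^ 2 + 1) * ((j : ℝ) + 1) ^ 2 := by gcongr; linarith
  refine h7.trans ?_
  push_cast at h3
  rw [pow_succ 2 j] at h3
  have h8 : (0 : ℝ) < D * (K : ℝ) ^ 2 + 1 := by positivity
  have h9 : (D * (K : ℝ) ^ 2 + 1) * ((j : ℝ) + 1) ^ 2 ≤
      (D * (K : ℝ) ^ 2 + 1) * (ε / (2 * (D * (K : ℝ) ^ 2 + 1)) * (2 ^ j * 2)) :=
    mul_le_mul_of_nonneg_left h3.le h8.le
  refine h9.trans (le_of_eq ?_)
  field_simp

end GrowthAux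

open scoped Classical in
/-- MODULE GROWTH. Entries at intermediate distance are exponentially rare. -/
theorem growth (D : ℕ) (ε : ℝ) (hε : 0 < ε) : ∃ r0 : ℕ,
    ∀ (V : Type) [Fintype V] [DecidableEq V] (G : SimpleGraph V) [DecidableRel G.Adj]
      (r : ℕ) (M : Matrix V V ℤ), r0 ≤ r → TreeLike G r → (∀ u v, 0 ≤ M u v) → M.IsSymm →
      G.adjMatrix ℤ * M = M * G.adjMatrix ℤ → (∀ u, ∑ v, M u v ≤ (D : ℤ)) →
      ((univ.filter (fun u => ∃ w, D + 1 ≤ G.dist u w ∧ 2 * G.dist u w ≤ r ∧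
        M u w ≠ 0)).card : ℝ) * (r + 1) ≤ ε * Fintype.card V := by
  obtain ⟨r0, hr0⟩ := growth_arith D (8 * (D + 1)) ε hε (by positivity)
  refine ⟨r0, ?_⟩
  intro V _ _ G _ r M hr h hM hs hc hrow
  set j := r / (8 * (D + 1)) with hj
  have hj8 : 8 * (D + 1) * j ≤ r := Nat.mul_div_le r _
  have e1 : 8 * (D + 1) * j = 2 * (4 * (D + 1) * j) := by ring
  set Uset := univ.filter (fun u => ∃ w, D + 1 ≤ G.dist u w ∧ 2 * G.dist u w ≤ r ∧ M u w ≠ 0)
    with hU
  have h1 : Uset ⊆ ((range (r + 1)).filter (fun t => D + 1 ≤ t ∧ 2 * t ≤ r)).biUnion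
      (fun t => (Npair G M t).image Prod.fst) := by
    intro u hu
    simp only [hU, Finset.mem_filter, Finset.mem_univ, true_and] at hu
    obtain ⟨w, hw1, hw2, hw3⟩ := hu
    simp only [Finset.mem_biUnion, Finset.mem_filter, Finset.mem_range, Finset.mem_image]
    refine ⟨G.dist u w, ⟨by omega, hw1, hw2⟩, (u, w), ?_, rfl⟩
    simp only [Npair, Finset.mem_filter, Finset.mem_univ, true_and]
    exact hw3
  have h2 : 2 ^ j * Uset.card ≤ (r + 1) * (Fintype.card V * D) := by
    have h3 := (Finset.card_le_card h1).trans Finset.card_biUnion_le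
    refine (Nat.mul_le_mul_left _ h3).trans ?_
    rw [Finset.mul_sum]
    have h4 : ∀ t ∈ (range (r + 1)).filter (fun t => D + 1 ≤ t ∧ 2 * t ≤ r),
        2 ^ j * ((Npair G M t).image Prod.fst).card ≤ Fintype.card V * D := by
      intro t ht
      simp only [Finset.mem_filter, Finset.mem_range] at ht
      refine (Nat.mul_le_mul_left _ Finset.card_image_le).trans ?_
      exact growth_iter h hM hs hc hrow j t ht.2.1 (by omega)
    refine (Finset.sum_le_sum h4).trans ?_
    rw [Finset.sum_const, smul_eq_mul]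
    refine Nat.mul_le_mul_right _ ?_
    refine (Finset.card_filter_le _ _).trans ?_
    rw [Finset.card_range]
  have h3 : (2 : ℝ) ^ j * Uset.card ≤ ((r : ℝ) + 1) * (Fintype.card V * D) := by
    exact_mod_cast h2
  have h4 := hr0 r hr
  have h5 : (0 : ℝ) < 2 ^ j := by positivity
  have h6 : (2 : ℝ) ^ j * (Uset.card * (r + 1)) ≤ 2 ^ j * (ε * Fintype.card V) := by
    calc (2 : ℝ) ^ j * (Uset.card * (r + 1)) = (2 ^ j * Uset.card) * (r + 1) := by ring
      _ ≤ (((r : ℝ) + 1) * (Fintype.card V * D)) * (r + 1) := by gcongr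
      _ = (D * ((r : ℝ) + 1) ^ 2) * Fintype.card V := by ring
      _ ≤ (ε * 2 ^ j) * Fintype.card V := by gcongr
      _ = 2 ^ j * (ε * Fintype.card V) := by ring
  exact le_of_mul_le_mul_left h6 h5

end Pool.Agent.H18.Cage
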