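import Pool.Agent.H18.Cage.Poly

/-! Module KERNEL: size and variation of the divided difference kernel. -/

set_option autoImplicit false

namespace Pool.Agent.H18.Cage

open Polynomial Matrix Finset

/-- Divided difference of `U n`. -/
noncomputable def Ud (n : ℕ) (x z : ℝ) : ℝ := ∑ i ∈ range n, ev (U i) x * ev (U (n - 1 - i)) z

theorem Ud_rec (n : ℕ) (x z : ℝ) :
    Ud (n + 2) x z = ev (U (n + 1)) x + z * Ud (n + 1) x z - 4 * Ud n x z := by
  simp only [Ud]
  rw [sum_range_succ, sum_range_succ, sum_range_succ]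
  have e1 : n + 2 - 1 - (n + 1) = 0 := by omega
  have e2 : n + 2 - 1 - n = 1 := by omega
  have e3 : n + 1 - 1 - n = 0 := by omega
  rw [e1, e2, e3, ev_U_zero, ev_U_one]
  have e5 : ∑ t ∈ range n, ev (U t) x * ev (U (n + 2 - 1 - t)) z =
      z * ∑ t ∈ range n, ev (U t) x * ev (U (n + 1 - 1 - t)) z
        - 4 * ∑ t ∈ range n, ev (U t) x * ev (U (n - 1 - t)) z := by
    rw [mul_sum, mul_sum, ← sum_sub_distrib]
    apply sum_congr rfl
    intro t ht
    have ht' : t < n := mem_range.mp ht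
    obtain ⟨m, hm⟩ : ∃ m, n - 1 - t = m := ⟨_, rfl⟩
    have a1 : n + 2 - 1 - t = m + 2 := by omega
    have a2 : n + 1 - 1 - t = m + 1 := by omega
    rw [a1, a2, hm, ev_U_succ]
    ring
  rw [e5]
  ring

theorem Ud_mul (n : ℕ) (x z : ℝ) : (x - z) * Ud n x z = ev (U n) x - ev (U n) z := by
  induction n using Nat.twoStepInduction with
  | zero => simp [Ud]
  | one => simp [Ud]
  | more n ih1 ih2 =>
    rw [Ud_rec, ev_U_succ, ev_U_succ]
    linear_combination z * ih2 - 4 * ih1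

theorem abs_Ud_le (n : ℕ) (x z : ℝ) (hx : |x| ≤ 4) (hz : |z| ≤ 4) :
    |Ud n x z| ≤ (n : ℝ) ^ 3 * 2 ^ n := by
  have h1 : |Ud n x z| ≤ ∑ i ∈ range n, (n : ℝ) ^ 2 * 2 ^ n := by
    refine (Finset.abs_sum_le_sum_abs _ _).trans (Finset.sum_le_sum (fun i hi => ?_))
    rw [mem_range] at hi
    rw [abs_mul]
    have h2 := abs_ev_U_le i x hx
    have h3 := abs_ev_U_le (n - 1 - i) z hz
    have h4 : ((i : ℝ) + 1) ≤ n := by exact_mod_cast hi
    have h5 : (((n - 1 - i : ℕ) : ℝ) + 1) ≤ n := by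
      have : n - 1 - i + 1 ≤ n := by omega
      exact_mod_cast this
    have h6 : (2 : ℝ) ^ i * 2 ^ (n - 1 - i) ≤ 2 ^ n := by
      rw [← pow_add]
      exact pow_le_pow_right₀ (by norm_num) (by omega)
    calc |ev (U i) x| * |ev (U (n - 1 - i)) z|
        ≤ ((i + 1) * 2 ^ i) * ((((n - 1 - i : ℕ) : ℝ) + 1) * 2 ^ (n - 1 - i)) := by gcongr
      _ = ((i + 1) * (((n - 1 - i : ℕ) : ℝ) + 1)) * (2 ^ i * 2 ^ (n - 1 - i)) := by ring
      _ ≤ ((n : ℝ) * n) * 2 ^ n := by gcongr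
      _ = (n : ℝ) ^ 2 * 2 ^ n := by ring
  refine h1.trans (le_of_eq ?_)
  rw [sum_const, card_range, nsmul_eq_mul]
  ring

theorem abs_U_sub_le (n : ℕ) (x z : ℝ) (hx : |x| ≤ 4) (hz : |z| ≤ 4) :
    |ev (U n) x - ev (U n) z| ≤ (n : ℝ) ^ 3 * 2 ^ n * |x - z| := by
  rw [← Ud_mul, abs_mul, mul_comm]
  exact mul_le_mul_of_nonneg_right (abs_Ud_le n x z hx hz) (abs_nonneg _)

theorem abs_F_sub_le (n : ℕ) (x z : ℝ) (hx : |x| ≤ 4) (hz : |z| ≤ 4) :
    |ev (F n) x - ev (F n) z| ≤ 2 * (n : ℝ) ^ 3 * 2 ^ n * |x - z| := by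
  match n with
  | 0 => simp
  | 1 =>
    simp only [ev_F_one, Nat.cast_one, one_pow, mul_one, pow_one]
    have := abs_nonneg (x - z)
    linarith
  | n + 2 =>
    rw [F_eq, ev_sub, ev_sub]
    have h1 := abs_U_sub_le (n + 2) x z hx hz
    have h2 := abs_U_sub_le n x z hx hz
    have h3 : (n : ℝ) ^ 3 * 2 ^ n * |x - z| ≤
        ((n + 2 : ℕ) : ℝ) ^ 3 * 2 ^ (n + 2) * |x - z| := by
      gcongr
      · omega
      · norm_num
      · omega
    calc |ev (U (n + 2)) x - ev (U n) x - (ev (U (n + 2)) z - ev (U n) z)|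
        = |(ev (U (n + 2)) x - ev (U (n + 2)) z) - (ev (U n) x - ev (U n) z)| := by
          congr 1; ring
      _ ≤ |ev (U (n + 2)) x - ev (U (n + 2)) z| + |ev (U n) x - ev (U n) z| := abs_sub _ _
      _ ≤ ((n + 2 : ℕ) : ℝ) ^ 3 * 2 ^ (n + 2) * |x - z| +
          ((n + 2 : ℕ) : ℝ) ^ 3 * 2 ^ (n + 2) * |x - z| := by linarith
      _ = _ := by ring

/-- Lipschitz bound of the kernel in the first variable. -/
theorem Kr_lip (s : ℤ) (hs : s = 0 ∨ s = 4) (r : ℕ) (x z : ℝ) (hx : |x| ≤ 4) (hz : |z| ≤ 4) :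
    |Kr s r x z - Kr s r z z| ≤ 24 * ((r : ℝ) + 1) ^ 5 * 2 ^ r * |x - z| := by
  have h1 : Kr s r x z - Kr s r z z =
      ∑ t ∈ range (r + 1), (ev (F t) x - ev (F t) z) * ev (kap s r t) z := by
    simp only [Kr]
    rw [← sum_sub_distrib]
    exact sum_congr rfl (fun t _ => by ring)
  rw [h1]
  have h2 : |∑ t ∈ range (r + 1), (ev (F t) x - ev (F t) z) * ev (kap s r t) z| ≤
      ∑ t ∈ range (r + 1), 12 * ((r : ℝ) + 1) ^ 4 * 2 ^ r * |x - z| := by
    refine (Finset.abs_sum_le_sum_abs _ _).trans (Finset.sum_le_sum (fun t ht => ?_))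
    rw [mem_range] at ht
    rw [abs_mul]
    have h3 := abs_F_sub_le t x z hx hz
    have h4 := abs_ev_kap_le s hs r t (by omega) z hz
    have h5 : (t : ℝ) ≤ (r : ℝ) + 1 := by exact_mod_cast ht.le
    have h6 : (2 : ℝ) ^ t * 2 ^ (r - t) = 2 ^ r := by
      rw [← pow_add]
      congr 1
      omega
    calc |ev (F t) x - ev (F t) z| * |ev (kap s r t) z|
        ≤ (2 * (t : ℝ) ^ 3 * 2 ^ t * |x - z|) * (6 * (r + 1) * 2 ^ (r - t)) := by gcongr
      _ = 12 * ((t : ℝ) ^ 3 * (r + 1)) * (2 ^ t * 2 ^ (r - t)) * |x - z| := by ring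
      _ ≤ 12 * (((r : ℝ) + 1) ^ 3 * (r + 1)) * (2 ^ t * 2 ^ (r - t)) * |x - z| := by gcongr
      _ = 12 * ((r : ℝ) + 1) ^ 4 * 2 ^ r * |x - z| := by rw [h6]; ring
  refine h2.trans ?_
  rw [sum_const, card_range, nsmul_eq_mul]
  push_cast
  have h7 : 0 ≤ ((r : ℝ) + 1) ^ 5 * 2 ^ r * |x - z| := by positivity
  nlinarith

/-- The quadratic identity of consecutive `U`. -/
theorem U_quad (n : ℕ) (z : ℝ) :
    ev (U (n + 1)) z ^ 2 - z * ev (U (n + 1)) z * ev (U n) z + 4 * ev (U n) z ^ 2 =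
      4 ^ (n + 1) := by
  induction n with
  | zero => simp; ring
  | succ n ih =>
    rw [show n + 1 + 1 = n + 2 from rfl, ev_U_succ, pow_succ (4 : ℝ) (n + 1), ← ih]
    ring

theorem ev_Gp_zero (z : ℝ) : ev (Gp 0) z = 1 := by simp [Gp_zero]

theorem Kd_diag (n : ℕ) (z : ℝ) :
    (16 - z ^ 2) * Kd (n + 1) z z =
      -(ev (U (n + 1)) z + ev (U n) z) * (n + 1) * (z + 2) +
        ev (U n) z * (2 * (n + 1) * (5 + z) + 8 + z) := by
  induction n using Nat.twoStepInduction with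
  | zero =>
    have : Kd 1 z z = 1 := by simp [Kd, ev_S_one]
    rw [zero_add, this]
    simp
    ring
  | one =>
    have h0 : Kd 0 z z = 0 := by simp [Kd]
    have h1 : Kd 1 z z = 1 := by simp [Kd, ev_S_one]
    rw [show (1 : ℕ) + 1 = 0 + 2 from rfl, Kd_rec, zero_add, h1, h0, Gp_succ, ev_U_succ]
    simp
    ring
  | more n ih1 ih2 =>
    rw [show n + 2 + 1 = (n + 1) + 2 from rfl, Kd_rec, Gp_succ, ev_add]
    have e1 := ev_U_succ n z
    have e2 := ev_U_succ (n + 1) z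
    rw [show n + 1 + 1 = n + 2 from rfl, show n + 1 + 2 = n + 3 from rfl] at *
    rw [e1] at e2
    rw [e2, e1]
    rw [e1] at ih2
    push_cast at ih2 ⊢
    linear_combination z * ih2 - 4 * ih1

theorem two_pow_ge (d : ℕ) (hd : 4 ≤ d) : 4 * d ≤ 2 ^ d := by
  induction d, hd using Nat.le_induction with
  | base => norm_num
  | succ d hd ih => rw [pow_succ]; omega

theorem W_zero_eq (r : ℕ) (z : ℝ) : ev (W 0 r) z = ev (U (r + 1)) z + ev (U r) z := by
  simp [W, Gp_succ]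

theorem W_four_eq (r : ℕ) (z : ℝ) : ev (W 4 r) z = (z + 5) * ev (U r) z := by
  cases r with
  | zero => simp [W, Gp_succ, Gp_zero]; ring
  | succ r =>
    have h := ev_U_succ r z
    rw [W, Gp_succ, Gp_succ]
    simp only [ev_add, ev_mul, ev_C]
    rw [show r + 1 + 1 = r + 2 from rfl, h]
    push_cast
    ring

theorem kernel_big (D r : ℕ) (hr : 1200 * (D + 1) ≤ r) :
    (27 : ℝ) * (D + 1) ^ 2 ≤ 4 ^ (r + 1) := by
  have h1 : 4 * (r + 1) ≤ 2 ^ (r + 1) := two_pow_ge (r + 1) (by omega)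
  have h2 : (D + 1) * 27 ≤ 2 ^ (r + 1) := by omega
  have h3 : (27 * (D + 1) ^ 2 : ℕ) ≤ 4 ^ (r + 1) := by
    have h4 : 4 ^ (r + 1) = 2 ^ (r + 1) * 2 ^ (r + 1) := by rw [← mul_pow]; norm_num
    rw [h4]
    calc 27 * (D + 1) ^ 2 = ((D + 1) * 27) * (D + 1) := by ring
      _ ≤ 2 ^ (r + 1) * 2 ^ (r + 1) := Nat.mul_le_mul h2 (by omega)
  exact_mod_cast h3

/-- The common parametrization of both parities. -/
theorem kernel_u (D : ℝ) (hD : 0 ≤ D) (s : ℤ) (r : ℕ) (z : ℝ) (hs : s = 0 ∨ s = 4)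
    (hr : 1 ≤ r) (hbig : (27 : ℝ) * (D + 1) ^ 2 ≤ 4 ^ (r + 1)) (hz : |z| ≤ 4)
    (hW : |ev (W s r) z| ≤ D) :
    ∃ u : ℝ, (2 : ℝ) ^ (r + 1) / 4 ≤ |u| ∧
      |(5 - z) * ev (kap s r 0) z - 5 * u| ≤ 60 * (D + 1) ∧
      |(16 - z ^ 2) * Kr s r z z - 2 * (r + 1) * (5 + z) * u| ≤ 60 * (D + 1) * (|u| + (r + 1)) := by
  obtain ⟨hz1, hz2⟩ := abs_le.mp hz
  have hsq : ∀ u : ℝ, (4 : ℝ) ^ (r + 1) ≤ 16 * u ^ 2 → (2 : ℝ) ^ (r + 1) / 4 ≤ |u| := by
    intro u hu
    have h1 : ((2 : ℝ) ^ (r + 1) / 4) ^ 2 ≤ |u| ^ 2 := by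
      rw [sq_abs, div_pow, ← pow_mul, mul_comm (r + 1) 2, pow_mul]
      norm_num
      linarith
    exact le_of_sq_le_sq h1 (abs_nonneg u)
  rcases hs with rfl | rfl
  · rw [W_zero_eq] at hW
    obtain ⟨hW1, hW2⟩ := abs_le.mp hW
    set u := ev (U r) z with hu
    set y := ev (U (r + 1)) z + u with hy
    refine ⟨u, hsq u ?_, ?_, ?_⟩
    · have h1 := U_quad r z
      rw [← hu] at h1
      have h2 : ev (U (r + 1)) z = y - u := by rw [hy]; ring
      rw [h2] at h1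
      have h3 : u ^ 2 * (5 + z) - y * u * (2 + z) + y ^ 2 = 4 ^ (r + 1) := by
        rw [← h1]; ring
      have h4 : y * u * (2 + z) ≥ -(6 * D * |u|) := by
        have : |y * u * (2 + z)| ≤ D * |u| * 6 := by
          rw [abs_mul, abs_mul]
          gcongr
          exact abs_le.mpr ⟨by linarith, by linarith⟩
        have := (abs_le.mp this).1
        linarith
      have h5 : y ^ 2 ≤ D ^ 2 := by
        rw [← sq_abs y]
        gcongr
      have h6 : 6 * D * |u| ≤ u ^ 2 + 9 * D ^ 2 := by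
        rw [← sq_abs u]
        nlinarith [sq_nonneg (|u| - 3 * D)]
      have h7 : u ^ 2 * (5 + z) ≤ u ^ 2 * 9 := by gcongr; linarith
      nlinarith
    · have h1 : (5 - z) * ev (kap 0 r 0) z = 1 + 4 * u - ev (U (r + 1)) z := by
        have h2 := congrArg (fun p => ev p z) (S_closed r)
        simp only [ev_sub, ev_mul, ev_add, ev_X, ev_one, ev_four, ev_five] at h2
        rw [kap]
        simpa using h2
      rw [h1, show 1 + 4 * u - ev (U (r + 1)) z - 5 * u = 1 - y by rw [hy]; ring]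
      exact abs_le.mpr ⟨by linarith, by linarith⟩
    · have h1 : (16 - z ^ 2) * Kr 0 r z z - 2 * (r + 1) * (5 + z) * u =
          -(y * ((r + 1) * (z + 2))) + u * (8 + z) := by
        rw [Kr_eq_Kd]
        have h2 := Kd_diag r z
        push_cast
        rw [hy]
        linear_combination h2
      rw [h1]
      have hr0 : (0 : ℝ) ≤ r := Nat.cast_nonneg r
      have h3 : |y * ((r + 1) * (z + 2))| ≤ D * ((r + 1) * 6) := by
        rw [abs_mul, abs_mul, abs_of_nonneg (show (0 : ℝ) ≤ (r : ℝ) + 1 by linarith)]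
        gcongr
        exact abs_le.mpr ⟨by linarith, by linarith⟩
      have h4 : |u * (8 + z)| ≤ |u| * 12 := by
        rw [abs_mul]
        gcongr
        exact abs_le.mpr ⟨by linarith, by linarith⟩
      have h5 := abs_add_le (-(y * ((r + 1) * (z + 2)))) (u * (8 + z))
      rw [abs_neg] at h5
      have h6 := abs_nonneg u
      nlinarith [mul_nonneg hD h6, mul_nonneg hD hr0]
  · rw [W_four_eq, abs_mul] at hW
    obtain ⟨m, rfl⟩ : ∃ m, r = m + 1 := ⟨r - 1, by omega⟩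
    set a := ev (U (m + 1)) z with ha
    set b := ev (U m) z with hb
    have haD : |a| ≤ D := by
      have h1 : 1 ≤ |z + 5| := by rw [abs_of_nonneg (by linarith)]; linarith
      have h2 := abs_nonneg a
      nlinarith
    obtain ⟨ha1, ha2⟩ := abs_le.mp haD
    have hU2 : ev (U (m + 1 + 1)) z = z * a - 4 * b := by
      rw [show m + 1 + 1 = m + 2 from rfl, ev_U_succ]
    refine ⟨4 * b, hsq (4 * b) ?_, ?_, ?_⟩
    · have h1 := U_quad m z
      rw [← ha, ← hb] at h1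
      have h3 : (4 : ℝ) ^ (m + 1 + 1) = 4 * a ^ 2 - z * a * (4 * b) + (4 * b) ^ 2 := by
        rw [pow_succ, ← h1]
        ring
      set u := 4 * b with hu
      have h4 : |z * a * u| ≤ 4 * D * |u| := by
        rw [abs_mul, abs_mul]
        gcongr
      have h4' := (abs_le.mp h4).1
      have h5 : a ^ 2 ≤ D ^ 2 := by
        rw [← sq_abs a]
        gcongr
      have h6 : 4 * D * |u| ≤ u ^ 2 + 4 * D ^ 2 := by
        rw [← sq_abs u]
        nlinarith [sq_nonneg (|u| - 2 * D)]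
      nlinarith
    · have h1 : (5 - z) * ev (kap 4 (m + 1) 0) z = 5 - z * a + 20 * b := by
        have h2 := congrArg (fun p => ev p z) (S_closed (m + 1))
        have h3 := congrArg (fun p => ev p z) (S_closed m)
        simp only [ev_sub, ev_mul, ev_add, ev_X, ev_one, ev_four, ev_five] at h2 h3
        rw [← ha, hU2] at h2
        rw [← ha, ← hb] at h3
        rw [kap]
        simp only [ev_add, ev_mul, ev_C]
        rw [Nat.sub_zero, Nat.sub_zero]
        push_cast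
        linear_combination h2 + 4 * h3
      rw [h1, show 5 - z * a + 20 * b - 5 * (4 * b) = 5 - z * a by ring]
      have h2 : |z * a| ≤ 4 * D := by rw [abs_mul]; gcongr
      obtain ⟨h3, h4⟩ := abs_le.mp h2
      exact abs_le.mpr ⟨by linarith, by linarith⟩
    · have h1 : (16 - z ^ 2) * Kr 4 (m + 1) z z - 2 * ((m + 1 : ℕ) + 1) * (5 + z) * (4 * b) =
          (16 - z ^ 2) * a - (z + 5) * ((m + 1 : ℕ) : ℝ) * z * a := by
        rw [Kr_eq_Kd]
        have h2 := Kd_diag (m + 1) z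
        have h3 := Kd_diag m z
        rw [← ha, hU2] at h2
        rw [← ha, ← hb] at h3
        push_cast at h2 h3 ⊢
        linear_combination h2 + 4 * h3
      rw [h1]
      have hr0 : (0 : ℝ) ≤ ((m + 1 : ℕ) : ℝ) := Nat.cast_nonneg _
      set R := ((m + 1 : ℕ) : ℝ) with hR
      have h3 : |(16 - z ^ 2) * a| ≤ 16 * D := by
        rw [abs_mul (16 - z ^ 2) a]
        gcongr
        exact abs_le.mpr ⟨by nlinarith, by nlinarith⟩
      have h4 : |(z + 5) * R * z * a| ≤ 9 * R * 4 * D := by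
        rw [abs_mul, abs_mul, abs_mul, abs_of_nonneg hr0]
        gcongr
        exact abs_le.mpr ⟨by linarith, by linarith⟩
      have h5 := abs_sub ((16 - z ^ 2) * a) ((z + 5) * R * z * a)
      have h6 := abs_nonneg (4 * b)
      nlinarith [mul_nonneg hD h6, mul_nonneg hD hr0]

theorem kernel_real (C d z u K k0 p : ℝ) (hC0 : 60 ≤ C) (hdC : 20 * C ≤ d) (hp : 2 * p / 4 ≤ |u|)
    (hud : d ≤ |u|) (hp0 : 0 < p) (hz : |z| ≤ 4) (hu2 : |(5 - z) * k0 - 5 * u| ≤ C)
    (hu3 : |(16 - z ^ 2) * K - 2 * d * (5 + z) * u| ≤ C * (|u| + d)) :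
    d * p / 20 ≤ |K| ∧ |k0 / K - wt z / d| ≤ 16 * C / d ^ 2 := by
  obtain ⟨hz1, hz2⟩ := abs_le.mp hz
  have hu0 : 0 < |u| := by linarith
  have hd0 : 0 < d := by linarith
  have hdu : 0 < d * |u| := mul_pos hd0 hu0
  obtain ⟨e1, he1⟩ : ∃ e1, e1 = (5 - z) * k0 - 5 * u := ⟨_, rfl⟩
  obtain ⟨e2, he2⟩ : ∃ e2, e2 = (16 - z ^ 2) * K - 2 * d * (5 + z) * u := ⟨_, rfl⟩
  rw [← he1] at hu2
  rw [← he2] at hu3
  have h3 : C * |u| ≤ d * |u| / 20 := by nlinarith
  have h4 : C * d ≤ d * |u| / 20 := by nlinarith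
  have hmain : 1.9 * (d * |u|) ≤ |(16 - z ^ 2) * K| := by
    have h1 : |2 * d * (5 + z) * u| ≤ |(16 - z ^ 2) * K| + |e2| := by
      have : 2 * d * (5 + z) * u = (16 - z ^ 2) * K - e2 := by rw [he2]; ring
      rw [this]
      exact abs_sub _ _
    have h0 : 0 ≤ 2 * d * (5 + z) := mul_nonneg (by linarith) (by linarith)
    have h2 : |2 * d * (5 + z) * u| = 2 * d * (5 + z) * |u| := by
      rw [abs_mul, abs_of_nonneg h0]
    rw [h2] at h1
    have h5 : 2 * (d * |u|) ≤ 2 * d * (5 + z) * |u| := by nlinarith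
    linarith
  have h16 : |(16 - z ^ 2)| ≤ 16 := abs_le.mpr ⟨by nlinarith, by nlinarith⟩
  have hK1 : 1.9 * (d * |u|) ≤ 16 * |K| := by
    rw [abs_mul] at hmain
    exact hmain.trans (mul_le_mul_of_nonneg_right h16 (abs_nonneg K))
  have hKpos : 0 < |K| := by linarith
  have hK0 : K ≠ 0 := abs_pos.mp hKpos
  refine ⟨?_, ?_⟩
  · have h2 : d * (p / 2) ≤ d * |u| := by
      apply mul_le_mul_of_nonneg_left _ hd0.le
      linarith
    have h3 : 0 < d * p := by positivity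
    linarith
  · have h25 : 0 < 25 - z ^ 2 := by nlinarith
    have h25' : 9 ≤ 25 - z ^ 2 := by nlinarith
    have h1 : k0 / K - wt z / d =
        (2 * d * (5 + z) * e1 - 5 * e2) / (2 * d * (25 - z ^ 2) * K) := by
      have hden : (2 * d * (25 - z ^ 2) * K) ≠ 0 := by positivity
      rw [wt, eq_div_iff hden, sub_mul]
      have a1 : k0 / K * (2 * d * (25 - z ^ 2) * K) = k0 * (2 * d * (25 - z ^ 2)) := by
        field_simp
      have a2 : 5 * (16 - z ^ 2) / (2 * (25 - z ^ 2)) / d * (2 * d * (25 - z ^ 2) * K) =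
          5 * (16 - z ^ 2) * K := by
        field_simp
      rw [a1, a2, he1, he2]
      ring
    rw [h1, abs_div]
    have h2 : |2 * d * (25 - z ^ 2) * K| = 2 * d * (25 - z ^ 2) * |K| := by
      rw [abs_mul, abs_of_nonneg (by positivity)]
    rw [h2, div_le_div_iff₀ (by positivity) (by positivity)]
    have h3 : |2 * d * (5 + z) * e1 - 5 * e2| ≤ 28 * C * |u| := by
      have h4 : |2 * d * (5 + z) * e1| ≤ 18 * |u| * C := by
        have h0 : 0 ≤ 2 * d * (5 + z) := mul_nonneg (by linarith) (by linarith)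
        rw [abs_mul, abs_of_nonneg h0]
        have h7 : 2 * d * (5 + z) ≤ 18 * |u| := by nlinarith
        exact mul_le_mul h7 hu2 (abs_nonneg _) (by positivity)
      have h5 : |5 * e2| ≤ 5 * (C * (2 * |u|)) := by
        rw [abs_mul, abs_of_nonneg (show (0 : ℝ) ≤ 5 by norm_num)]
        have : C * (|u| + d) ≤ C * (2 * |u|) :=
          mul_le_mul_of_nonneg_left (by linarith) (by linarith)
        linarith
      have h6 := abs_sub (2 * d * (5 + z) * e1) (5 * e2)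
      linarith
    have hC00 : 0 < C := by linarith
    calc |2 * d * (5 + z) * e1 - 5 * e2| * d ^ 2 ≤ (28 * C * |u|) * d ^ 2 := by gcongr
      _ = (28 * C * d) * (d * |u|) := by ring
      _ ≤ (28 * C * d) * (16 / 1.9 * |K|) := by
          apply mul_le_mul_of_nonneg_left _ (by positivity)
          linarith
      _ = (28 * 16 / 1.9) * (C * d * |K|) := by ring
      _ ≤ 288 * (C * d * |K|) := by
          apply mul_le_mul_of_nonneg_right _ (by positivity)
          norm_num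
      _ = 16 * C * (2 * d * 9 * |K|) := by ring
      _ ≤ 16 * C * (2 * d * (25 - z ^ 2) * |K|) := by gcongr

/-- Everything about the kernel that the spectral modules need. -/
theorem kernel_facts (D : ℕ) : ∃ (C : ℝ) (r0 : ℕ), ∀ (s : ℤ) (r : ℕ) (z : ℝ),
    (s = 0 ∨ s = 4) → r0 ≤ r → |z| ≤ 4 → |ev (W s r) z| ≤ D →
      ((r : ℝ) + 1) * 2 ^ r / 20 ≤ |Kr s r z z| ∧
      |ev (kap s r 0) z / Kr s r z z - wt z / (r + 1)| ≤ C / ((r : ℝ) + 1) ^ 2 := by
  refine ⟨16 * (60 * (D + 1)), 1200 * (D + 1), ?_⟩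
  intro s r z hs hr hz hW
  have hD : (0 : ℝ) ≤ D := Nat.cast_nonneg D
  obtain ⟨u, hu1, hu2, hu3⟩ := kernel_u D hD s r z hs (by omega) (kernel_big D r hr) hz hW
  have h1 : (2 : ℝ) ^ (r + 1) = 2 * 2 ^ r := by rw [pow_succ]; ring
  have hpow : 4 * ((r : ℝ) + 1) ≤ 2 ^ (r + 1) := by
    have h1 := two_pow_ge (r + 1) (by omega)
    exact_mod_cast h1
  have hrD : (1200 : ℝ) * (D + 1) ≤ r := by
    have : ((1200 * (D + 1) : ℕ) : ℝ) ≤ (r : ℝ) := by exact_mod_cast hr
    push_cast at this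
    exact this
  rw [h1] at hu1 hpow
  exact kernel_real (60 * (D + 1)) ((r : ℝ) + 1) z u (Kr s r z z) (ev (kap s r 0) z) (2 ^ r)
    (by linarith) (by linarith) hu1 (by linarith) (by positivity) hz hu2 hu3

theorem sep_fact (D : ℕ) : ∃ r0 : ℕ, ∀ (s : ℤ) (r : ℕ) (z x : ℝ),
    (s = 0 ∨ s = 4) → r0 ≤ r → |z| ≤ 4 → |ev (W s r) z| ≤ D →
    |x - z| < 1 / ((r : ℝ) + 1) ^ 5 → (|ev (W s r) x| ≤ D ∨ |x| ≤ 4) →
      |x| ≤ 4 ∧ |Kr s r x z - Kr s r z z| ≤ |Kr s r z z| / 2 ∧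
      |x - z| * 2 ^ r ≤ |ev (W s r) x - ev (W s r) z| := by
  obtain ⟨C, r1, h1⟩ := kernel_facts D
  refine ⟨r1 + 1200 * (D + 1), ?_⟩
  intro s r z x hs hr hz hW hxz hx
  obtain ⟨hK, -⟩ := h1 s r z hs (le_trans (Nat.le_add_right _ _) hr) hz hW
  have hD : (0 : ℝ) ≤ D := Nat.cast_nonneg D
  obtain ⟨hz1, hz2⟩ := abs_le.mp hz
  have hrD : (1200 : ℝ) * (D + 1) ≤ r := by
    have h0 : 1200 * (D + 1) ≤ r := le_trans (Nat.le_add_left _ _) hr
    have : ((1200 * (D + 1) : ℕ) : ℝ) ≤ (r : ℝ) := by exact_mod_cast h0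
    push_cast at this
    exact this
  clear hr
  have hp0 : (1 : ℝ) ≤ 2 ^ r := one_le_pow₀ (by norm_num)
  have hhalf : |x - z| < 1 / 2 := by
    refine hxz.trans_le ?_
    apply one_div_le_one_div_of_le (by norm_num)
    have h2 : (1 : ℝ) ≤ ((r : ℝ) + 1) ^ 4 := one_le_pow₀ (by linarith)
    have h3 : (2 : ℝ) ≤ (r : ℝ) + 1 := by linarith
    nlinarith
  obtain ⟨hxz1, hxz2⟩ := abs_lt.mp hhalf
  have hx4 : |x| ≤ 4 := by
    rcases hx with hx | hx
    swap
    · exact hx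
    by_contra hlt
    push Not at hlt
    have hUr := (ev_U_large r |x| hlt.le).1
    have hUr2 := (ev_U_large r |x| hlt.le).2
    have hbig : (D : ℝ) + 1 < (r + 1) * 2 ^ r / 2 := by nlinarith
    have hneg : x < 0 → ∀ n, ev (U n) x = (-1) ^ n * ev (U n) |x| := by
      intro h0 n
      rw [abs_of_neg h0, ev_U_neg, ← mul_assoc, ← mul_pow]
      norm_num
    rcases hs with rfl | rfl
    · rw [W_zero_eq] at hx
      rcases le_or_gt 0 x with h0 | h0
      · rw [abs_of_nonneg h0] at hUr hUr2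
        have h3 := (abs_le.mp hx).2
        have h4 : (0 : ℝ) < 2 ^ (r + 1) := by positivity
        nlinarith
      · rw [hneg h0, hneg h0, pow_succ] at hx
        have h5 : (-1 : ℝ) ^ r * -1 * ev (U (r + 1)) |x| + (-1) ^ r * ev (U r) |x| =
            (-1) ^ r * (ev (U r) |x| - ev (U (r + 1)) |x|) := by ring
        rw [h5, abs_mul, abs_pow, abs_neg, abs_one, one_pow, one_mul] at hx
        have h3 := (abs_le.mp hx).1
        have h4 : (0 : ℝ) < 2 ^ (r + 1) := by positivity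
        nlinarith
    · rw [W_four_eq, abs_mul] at hx
      have h6 : abs (ev (U r) x) = abs (ev (U r) |x|) := by
        rcases le_or_gt 0 x with h0 | h0
        · rw [abs_of_nonneg h0]
        · rw [hneg h0, abs_mul, abs_pow, abs_neg, abs_one, one_pow, one_mul]
      have h7 : (1 : ℝ) / 2 ≤ |x + 5| := by
        rw [abs_of_nonneg (by linarith)]
        linarith
      rw [h6] at hx
      have h8 := le_abs_self (ev (U r) |x|)
      have h9 : (1 : ℝ) / 2 * abs (ev (U r) |x|) ≤ |x + 5| * abs (ev (U r) |x|) := by gcongr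
      linarith
  have hlip := Kr_lip s hs r x z hx4 hz
  have h24 : 24 * ((r : ℝ) + 1) ^ 5 * 2 ^ r * |x - z| ≤ 24 * 2 ^ r := by
    have h3 : ((r : ℝ) + 1) ^ 5 * |x - z| ≤ 1 := by
      rw [lt_div_iff₀ (by positivity)] at hxz
      linarith
    calc 24 * ((r : ℝ) + 1) ^ 5 * 2 ^ r * |x - z| =
        24 * 2 ^ r * (((r : ℝ) + 1) ^ 5 * |x - z|) := by ring
      _ ≤ 24 * 2 ^ r * 1 := by gcongr
      _ = _ := by ring
  have hhalfK : |Kr s r x z - Kr s r z z| ≤ |Kr s r z z| / 2 := by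
    refine hlip.trans (h24.trans ?_)
    nlinarith
  refine ⟨hx4, hhalfK, ?_⟩
  rw [← Kr_mul, abs_mul]
  apply mul_le_mul_of_nonneg_left _ (abs_nonneg _)
  have h5 : |Kr s r z z| ≤ |Kr s r x z| + |Kr s r x z - Kr s r z z| := by
    have : Kr s r z z = Kr s r x z - (Kr s r x z - Kr s r z z) := by ring
    calc |Kr s r z z| = |Kr s r x z - (Kr s r x z - Kr s r z z)| := by rw [← this]
      _ ≤ _ := abs_sub _ _
  nlinarith

end Pool.Agent.H18.Cage
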