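import Pool.Agent.H18.Cage.LogKernel
import Pool.Agent.H18.Cage.IntM

/-! Module KEY: the discriminant energy inequality. -/

set_option autoImplicit false

namespace Pool.Agent.H18.Cage

open Polynomial Matrix Finset

open scoped Classical in
/-- Integrality of the product of the nonzero differences. -/
theorem sum_log_diff_nonneg {V : Type} [Fintype V] [DecidableEq V] (A : Matrix V V ℤ)
    (O : Matrix V V ℝ) (lam : V → ℝ) (hO : O * Oᵀ = 1) (hA : toR A = O * diagonal lam * Oᵀ) :
    0 ≤ ∑ p ∈ (univ : Finset (V × V)).filter (fun p => lam p.1 ≠ lam p.2),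
      Real.log |lam p.1 - lam p.2| := by
  set O2 : Matrix (V × V) (V × V) ℝ := kroneckerMap (· * ·) O O with hO2
  set M : Matrix (V × V) (V × V) ℤ :=
    kroneckerMap (· * ·) A 1 - kroneckerMap (· * ·) 1 A with hM
  set nu : V × V → ℝ := fun p => lam p.1 - lam p.2 with hnu
  have hT : (kroneckerMap (· * ·) O O)ᵀ = kroneckerMap (· * ·) Oᵀ Oᵀ := by
    ext i j
    simp [kroneckerMap_apply]
  have h1 : O2 * O2ᵀ = 1 := by
    rw [hO2, hT, ← Matrix.mul_kronecker_mul, hO, Matrix.one_kronecker_one]
  have h2 : toR M = O2 * diagonal nu * O2ᵀ := by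
    have e1 : toR M = kroneckerMap (· * ·) (toR A) (1 : Matrix V V ℝ) -
        kroneckerMap (· * ·) (1 : Matrix V V ℝ) (toR A) := by
      ext ⟨i, i'⟩ ⟨j, j'⟩
      simp only [toR, hM, Matrix.map_apply, Matrix.sub_apply, kroneckerMap_apply]
      push_cast
      simp [Matrix.one_apply]
    have e2 : diagonal nu = kroneckerMap (· * ·) (diagonal lam) (1 : Matrix V V ℝ) -
        kroneckerMap (· * ·) (1 : Matrix V V ℝ) (diagonal lam) := by
      ext ⟨i, i'⟩ ⟨j, j'⟩
      simp only [hnu, Matrix.sub_apply, kroneckerMap_apply, Matrix.one_apply,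
        Matrix.diagonal_apply, Prod.mk.injEq]
      by_cases h1 : i = j <;> by_cases h2 : i' = j' <;> simp [h1, h2]
    rw [e1, e2, hO2, hT, hA]
    rw [Matrix.mul_sub, Matrix.sub_mul, ← Matrix.mul_kronecker_mul, ← Matrix.mul_kronecker_mul,
      ← Matrix.mul_kronecker_mul, ← Matrix.mul_kronecker_mul, Matrix.mul_one, hO]
  have h3 := one_le_prod_eig M O2 nu h1 h2
  have h4 : 0 ≤ Real.log (∏ i ∈ univ.filter (fun i => nu i ≠ 0), |nu i|) := Real.log_nonneg h3
  rw [Real.log_prod (fun i hi => (abs_pos.2 (Finset.mem_filter.1 hi).2).ne')] at h4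
  have h5 : (univ : Finset (V × V)).filter (fun p => lam p.1 ≠ lam p.2) =
      univ.filter (fun i => nu i ≠ 0) := by
    apply Finset.filter_congr
    intro p _
    simp only [hnu, ne_eq, sub_eq_zero]
  rw [h5]
  exact h4

theorem wt_ge {x : ℝ} (hx : |x| ≤ 4) : (16 - x ^ 2) / 10 ≤ wt x := by
  have h1 : x ^ 2 ≤ 16 := by
    have := sq_le_sq' (by linarith [neg_abs_le x, abs_nonneg x]) (le_trans (le_abs_self x) hx)
    linarith
  have h0 := sq_nonneg x
  unfold wt
  rw [div_le_div_iff₀ (by norm_num) (by linarith)]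
  nlinarith

theorem key_wt_le {x : ℝ} (hx : |x| ≤ 4) : wt x ≤ 8 / 5 := by
  have h1 : x ^ 2 ≤ 16 := by
    have := sq_le_sq' (by linarith [neg_abs_le x, abs_nonneg x]) (le_trans (le_abs_self x) hx)
    linarith
  have h0 := sq_nonneg x
  unfold wt
  rw [div_le_div_iff₀ (by linarith) (by norm_num)]
  nlinarith

/-- The elementary inequality behind the choice of `r0`. -/
theorem key_asymp (D r : ℕ) (hr : 100 * (40 + 3 * D) ≤ r) :
    ((r : ℝ) + 1) * (Real.log 2 + 1 / r) + 4 * Real.log ((r : ℝ) + 1) + 1 / 50 * Real.log 10 ≤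
      1.02 * (r * Real.log 2 - Real.log (2 * D + 1)) := by
  have hr' : (100 * (40 + 3 * D) : ℝ) ≤ r := by exact_mod_cast hr
  have hD : (0:ℝ) ≤ D := Nat.cast_nonneg D
  have hrpos : (1:ℝ) ≤ r := by linarith
  have h1 := Real.log_two_gt_d9
  have h2 := Real.log_two_lt_d9
  have h3 : Real.log ((r:ℝ) + 1) ≤ ((r:ℝ) + 1) / 1024 + 10 * Real.log 2 - 1 := by
    have e1 : Real.log (((r:ℝ) + 1) / 1024) ≤ ((r:ℝ) + 1) / 1024 - 1 :=
      Real.log_le_sub_one_of_pos (by positivity)
    rw [Real.log_div (by positivity) (by norm_num)] at e1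
    have e2 : Real.log 1024 = 10 * Real.log 2 := by
      rw [show (1024:ℝ) = 2 ^ 10 by norm_num, Real.log_pow]
      norm_num
    linarith
  have h4 : Real.log (2 * D + 1) ≤ 2 * D := by
    have := Real.log_le_sub_one_of_pos (show (0:ℝ) < 2 * D + 1 by positivity)
    linarith
  have h5 : Real.log 10 ≤ 4 * Real.log 2 := by
    have : 4 * Real.log 2 = Real.log 16 := by
      rw [show (16:ℝ) = 2 ^ 4 by norm_num, Real.log_pow]
      norm_num
    rw [this]
    exact Real.log_le_log (by norm_num) (by norm_num)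
  have h6 : ((r : ℝ) + 1) * (1 / r) ≤ 2 := by
    rw [mul_one_div, div_le_iff₀ (by linarith)]
    linarith
  nlinarith

theorem key_ineq (D : ℕ) : ∃ (ε : ℝ) (r0 : ℕ), 0 < ε ∧
    ∀ (V : Type) [Fintype V] [DecidableEq V] (A : Matrix V V ℤ) (O : Matrix V V ℝ)
      (lam : V → ℝ) (r : ℕ), r0 ≤ r →
      O * Oᵀ = 1 → Oᵀ * O = 1 → toR A = O * diagonal lam * Oᵀ →
      (∀ i, |lam i| ≤ 5) → (∑ i, lam i ^ 2 = 5 * Fintype.card V) →
      ((((nex lam)ᶜ).card : ℝ) * (r + 1) ≤ ε * Fintype.card V) →
      (∀ i ∈ nex lam, |((cl r lam (lam i)).card : ℝ) - wt (lam i) / (r + 1) * Fintype.card V|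
        ≤ ε * Fintype.card V / (r + 1)) →
      (∀ i ∈ nex lam, ∀ j ∈ cl r lam (lam i), |lam j - lam i| * 2 ^ r ≤ 2 * D) →
      (1 / 20 : ℝ) * (Fintype.card V : ℝ) ^ 2 / (r + 1) ≤
        ∑ i ∈ nex lam, (mult lam (lam i) : ℝ) := by
  classical
  refine ⟨1 / 100, 100 * (40 + 3 * D), by norm_num, ?_⟩
  intro V _ _ A O lam r hr hO1 hO2 hA hlam5 hsq hexc hcl hsep
  have hasy := key_asymp D r hr
  have hlogd := sum_log_diff_nonneg A O lam hO1 hA
  have hr' : (100 * (40 + 3 * D) : ℝ) ≤ r := by exact_mod_cast hr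
  have hD0 : (0:ℝ) ≤ D := Nat.cast_nonneg D
  set n : ℝ := (Fintype.card V : ℝ) with hn
  have hn0 : 0 ≤ n := Nat.cast_nonneg _
  set d : ℝ := (r:ℝ) + 1 with hd
  have hdpos : 0 < d := by rw [hd]; linarith
  have hd1 : 1 < d := by rw [hd]; linarith
  have hrpos : (0:ℝ) < r := by linarith
  have hmemNE : ∀ i, i ∈ nex lam ↔ |lam i| ≤ 4 := by
    intro i
    simp [nex]
  have hmemcl : ∀ i j, j ∈ cl r lam (lam i) ↔ |lam j - lam i| < 1 / d ^ 5 := by
    intro i j
    simp [cl, hd]
  set NE := nex lam with hNE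
  set θ : V → ℝ := fun i => Real.arccos (lam i / 4) with hθ
  have hcos : ∀ i ∈ NE, 4 * Real.cos (θ i) = lam i := by
    intro i hi
    have := abs_le.1 ((hmemNE i).1 hi)
    simp only [hθ]
    rw [Real.cos_arccos (by linarith) (by linarith)]
    ring
  set ρ : ℝ := 1 - 1 / d with hρ
  have hρ0 : 0 < ρ := by
    rw [hρ, sub_pos, div_lt_one hdpos]
    exact hd1
  have hρ1 : ρ < 1 := by
    rw [hρ]
    have : 0 < 1 / d := by positivity
    linarith
  have hρd : Real.log (1 - ρ) = - Real.log d := by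
    rw [hρ, sub_sub_cancel, one_div, Real.log_inv]
  have hρr : - Real.log ρ ≤ 1 / r := by
    have e1 : ρ⁻¹ = 1 + 1 / r := by
      rw [hρ]
      have : d - 1 = r := by rw [hd]; ring
      field_simp
      rw [this]
      field_simp
      rw [hd]
    rw [← Real.log_inv, e1]
    have := Real.log_le_sub_one_of_pos (show (0:ℝ) < 1 + 1 / r by positivity)
    linarith
  have hρl : Real.log ρ ≤ 0 := Real.log_nonpos hρ0.le hρ1.le
  have hL0 : 0 < Real.log 2 := Real.log_pos (by norm_num)
  have hlogd0 : 0 < Real.log d := Real.log_pos hd1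
  have hlog10 : 0 < Real.log 10 := Real.log_pos (by norm_num)
  set c : ℝ := Real.log 2 - Real.log ρ with hc
  have hc0 : 0 < c := by rw [hc]; linarith
  set q : ℝ := Real.log (2 * D + 1) - r * Real.log 2 with hq
  -- indicator functions
  set near : V → V → ℝ := fun i j => if |lam j - lam i| < 1 / d ^ 5 then 1 else 0 with hnear
  set eqq : V → V → ℝ := fun i j => if lam i = lam j then 1 else 0 with heqq
  set h : V → V → ℝ := fun i j => (c + Lk ρ (θ i) (θ j)) + near i j * (2 * Real.log d) +
    (near i j - eqq i j) * q with hh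
  set f : V → V → ℝ := fun i j => if lam i ≠ lam j then Real.log |lam i - lam j| else 0 with hf
  have hfsum : 0 ≤ ∑ i, ∑ j, f i j := by
    rw [Finset.sum_filter, Fintype.sum_prod_type] at hlogd
    exact hlogd
  have hLk : ∀ i j, - (2 * Real.log d) ≤ Lk ρ (θ i) (θ j) := by
    intro i j
    have := le_Lk (θ i) (θ j) ρ hρ0 hρ1
    rw [hρd] at this
    linarith
  have hfh : ∀ i ∈ NE, ∀ j ∈ NE, f i j ≤ h i j := by
    intro i hi j hj
    by_cases heq : lam i = lam j
    · have e1 : f i j = 0 := by simp [hf, heq]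
      have e2 : eqq i j = 1 := by simp [heqq, heq]
      have e3 : near i j = 1 := by
        simp only [hnear]
        rw [if_pos]
        rw [heq, sub_self, abs_zero]
        positivity
      simp only [hh]
      rw [e1, e2, e3]
      have := hLk i j
      linarith
    · have e1 : f i j = Real.log |lam i - lam j| := by simp [hf, heq]
      have e2 : eqq i j = 0 := by simp [heqq, heq]
      by_cases hnr : |lam j - lam i| < 1 / d ^ 5
      · have e3 : near i j = 1 := by
          simp only [hnear]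
          rw [if_pos hnr]
        have hs := hsep i hi j ((hmemcl i j).2 hnr)
        have hpos : 0 < |lam i - lam j| := abs_pos.2 (sub_ne_zero.2 heq)
        have e4 : Real.log |lam i - lam j| ≤ q := by
          have e5 : |lam i - lam j| * 2 ^ r ≤ 2 * D + 1 := by
            rw [abs_sub_comm]
            linarith
          have e6 := Real.log_le_log (by positivity) e5
          rw [Real.log_mul hpos.ne' (by positivity), Real.log_pow] at e6
          rw [hq]
          linarith
        simp only [hh]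
        rw [e1, e2, e3]
        have := hLk i j
        linarith
      · have e3 : near i j = 0 := by
          simp only [hnear]
          rw [if_neg hnr]
        simp only [hh]
        rw [e1, e2, e3]
        have e4 := log_le_Lk (θ i) (θ j) ρ hρ0 hρ1 (by rw [hcos i hi, hcos j hj]; exact heq)
        rw [hcos i hi, hcos j hj] at e4
        rw [hc]
        linarith
  have hf10 : ∀ i j, f i j ≤ Real.log 10 := by
    intro i j
    simp only [hf]
    split_ifs with heq
    · have hpos : 0 < |lam i - lam j| := abs_pos.2 (sub_ne_zero.2 heq)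
      apply Real.log_le_log hpos
      calc |lam i - lam j| ≤ |lam i| + |lam j| := abs_sub _ _
        _ ≤ 10 := by linarith [hlam5 i, hlam5 j]
    · exact hlog10.le
  have hfle : ∀ i j, f i j ≤ (if i ∈ NE then (if j ∈ NE then h i j else 0) else 0) +
      (if i ∈ NEᶜ then Real.log 10 else 0) + (if j ∈ NEᶜ then Real.log 10 else 0) := by
    intro i j
    by_cases hi : i ∈ NE
    · by_cases hj : j ∈ NE
      · have hi' : i ∉ NEᶜ := by simp [hi]
        have hj' : j ∉ NEᶜ := by simp [hj]
        rw [if_pos hi, if_pos hj, if_neg hi', if_neg hj']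
        linarith [hfh i hi j hj]
      · have hi' : i ∉ NEᶜ := by simp [hi]
        have hj' : j ∈ NEᶜ := by simp [hj]
        rw [if_pos hi, if_neg hj, if_neg hi', if_pos hj']
        linarith [hf10 i j]
    · have hi' : i ∈ NEᶜ := by simp [hi]
      rw [if_neg hi, if_pos hi']
      have := hf10 i j
      split_ifs <;> linarith
  set NP : ℝ := ∑ i ∈ NE, ∑ j ∈ NE, near i j with hNP
  set EP : ℝ := ∑ i ∈ NE, ∑ j ∈ NE, eqq i j with hEP
  have hcardNE : (NE.card : ℝ) ≤ n := by
    rw [hn]
    exact_mod_cast Finset.card_le_univ NE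
  have hsumh : ∑ i ∈ NE, ∑ j ∈ NE, h i j ≤ n ^ 2 * c + NP * (2 * Real.log d) + (NP - EP) * q := by
    have e1 : ∑ i ∈ NE, ∑ j ∈ NE, h i j = (NE.card : ℝ) * (NE.card * c) +
        ∑ i ∈ NE, ∑ j ∈ NE, Lk ρ (θ i) (θ j) + NP * (2 * Real.log d) + (NP - EP) * q := by
      simp only [hh, Finset.sum_add_distrib, Finset.sum_sub_distrib, ← Finset.sum_mul,
        Finset.sum_const, nsmul_eq_mul]
      rw [hNP, hEP]
      ring
    rw [e1]
    have e2 := sum_Lk_nonpos NE θ ρ hρ0 hρ1
    have e3 : (NE.card : ℝ) * (NE.card * c) ≤ n ^ 2 * c := by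
      have : (NE.card : ℝ) * NE.card ≤ n * n :=
        mul_le_mul hcardNE hcardNE (Nat.cast_nonneg _) hn0
      nlinarith
    linarith
  have hsumf : ∑ i, ∑ j, f i j ≤ ∑ i ∈ NE, ∑ j ∈ NE, h i j +
      2 * (n * ((NEᶜ.card : ℝ) * Real.log 10)) := by
    calc ∑ i, ∑ j, f i j ≤ ∑ i, ∑ j, ((if i ∈ NE then (if j ∈ NE then h i j else 0) else 0) +
        (if i ∈ NEᶜ then Real.log 10 else 0) + (if j ∈ NEᶜ then Real.log 10 else 0)) :=
          Finset.sum_le_sum (fun i _ => Finset.sum_le_sum (fun j _ => hfle i j))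
      _ = _ := by
        simp only [Finset.sum_add_distrib]
        have e1 : ∀ i, (∑ j, if i ∈ NE then (if j ∈ NE then h i j else 0) else 0) =
            if i ∈ NE then ∑ j ∈ NE, h i j else 0 := by
          intro i
          split_ifs
          · rw [← Finset.sum_filter]
            congr 1
            ext j
            simp
          · simp
        simp_rw [e1]
        have e2 : ∀ g : V → ℝ, (∑ i, if i ∈ NE then g i else 0) = ∑ i ∈ NE, g i := by
          intro g
          rw [← Finset.sum_filter]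
          congr 1
          ext j
          simp
        have e3 : (∑ i : V, if i ∈ NEᶜ then Real.log 10 else 0) = (NEᶜ.card : ℝ) * Real.log 10 := by
          rw [← Finset.sum_filter]
          have : univ.filter (fun i => i ∈ NEᶜ) = NEᶜ := by
            ext j
            simp
          rw [this]
          simp
        rw [e2, e3]
        simp only [Finset.sum_const, Finset.card_univ, nsmul_eq_mul]
        rw [← Finset.mul_sum, e3]
        rw [← hn]
        ring
  have hexc' : (NEᶜ.card : ℝ) ≤ 1 / 100 * n / d := by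
    rw [le_div_iff₀ hdpos]
    exact hexc
  -- bounds for NP
  have hrow : ∀ i ∈ NE, ((cl r lam (lam i)).card : ℝ) - NEᶜ.card ≤ ∑ j ∈ NE, near i j ∧
      ∑ j ∈ NE, near i j ≤ (cl r lam (lam i)).card := by
    intro i hi
    have e1 : ∑ j ∈ NE, near i j = ((NE.filter (fun j => |lam j - lam i| < 1 / d ^ 5)).card : ℝ) := by
      simp only [hnear]
      rw [Finset.sum_ite]
      simp
    have e2 : NE.filter (fun j => |lam j - lam i| < 1 / d ^ 5) ⊆ cl r lam (lam i) := by
      intro j hj
      exact (hmemcl i j).2 (Finset.mem_filter.1 hj).2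
    have e3 : cl r lam (lam i) ⊆ NE.filter (fun j => |lam j - lam i| < 1 / d ^ 5) ∪ NEᶜ := by
      intro j hj
      by_cases hjn : j ∈ NE
      · exact Finset.mem_union_left _ (Finset.mem_filter.2 ⟨hjn, (hmemcl i j).1 hj⟩)
      · exact Finset.mem_union_right _ (by simp [hjn])
    have e4 := (Finset.card_le_card e3).trans (Finset.card_union_le _ _)
    have e5 := Finset.card_le_card e2
    rw [e1]
    constructor
    · have : ((cl r lam (lam i)).card : ℝ) ≤
        ((NE.filter (fun j => |lam j - lam i| < 1 / d ^ 5)).card : ℝ) + (NEᶜ.card : ℝ) := by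
        exact_mod_cast e4
      linarith
    · exact_mod_cast e5
  have hwtsum : 11 / 10 * n ≤ ∑ i ∈ NE, wt (lam i) := by
    have e1 : ∑ i ∈ NE, (16 - lam i ^ 2) / 10 ≤ ∑ i ∈ NE, wt (lam i) :=
      Finset.sum_le_sum (fun i hi => wt_ge ((hmemNE i).1 hi))
    have e2 : ∑ i, (16 - lam i ^ 2) / 10 ≤ ∑ i ∈ NE, (16 - lam i ^ 2) / 10 := by
      rw [← Finset.sum_add_sum_compl NE]
      have : ∑ i ∈ NEᶜ, (16 - lam i ^ 2) / 10 ≤ 0 := by
        apply Finset.sum_nonpos
        intro i hi
        have h1 : ¬ |lam i| ≤ 4 := by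
          rw [← hmemNE]
          simpa using hi
        push Not at h1
        have h2 : 16 < lam i ^ 2 := by
          rw [← sq_abs]
          nlinarith
        linarith
      linarith
    have e3 : ∑ i, (16 - lam i ^ 2) / 10 = 11 / 10 * n := by
      rw [← Finset.sum_div, Finset.sum_sub_distrib, hsq]
      simp only [Finset.sum_const, Finset.card_univ, nsmul_eq_mul]
      rw [← hn]
      ring
    linarith
  have hNPlow : (11 / 10 - 2 / 100) * (n ^ 2 / d) ≤ NP := by
    have e1 : ∑ i ∈ NE, (wt (lam i) / d * n - 1 / 100 * n / d - 1 / 100 * n / d) ≤ NP := by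
      rw [hNP]
      apply Finset.sum_le_sum
      intro i hi
      have h1 := (hrow i hi).1
      have h2 := (abs_le.1 (hcl i hi)).1
      linarith
    rw [Finset.sum_sub_distrib, Finset.sum_sub_distrib, ← Finset.sum_mul, ← Finset.sum_div] at e1
    simp only [Finset.sum_const, nsmul_eq_mul] at e1
    have e2 : (NE.card : ℝ) * (1 / 100 * n / d) ≤ n * (1 / 100 * n / d) :=
      mul_le_mul_of_nonneg_right hcardNE (by positivity)
    have e3 : 11 / 10 * n / d * n ≤ (∑ i ∈ NE, wt (lam i)) / d * n := by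
      apply mul_le_mul_of_nonneg_right _ hn0
      apply div_le_div_of_nonneg_right hwtsum hdpos.le
    have e4 : (11 / 10 - 2 / 100) * (n ^ 2 / d) = 11 / 10 * n / d * n - n * (1 / 100 * n / d)
        - n * (1 / 100 * n / d) := by ring
    rw [e4]
    linarith
  have hNPup : NP ≤ 2 * (n ^ 2 / d) := by
    have e1 : NP ≤ ∑ i ∈ NE, (161 / 100 * n / d) := by
      rw [hNP]
      apply Finset.sum_le_sum
      intro i hi
      have h1 := (hrow i hi).2
      have h2 := (abs_le.1 (hcl i hi)).2
      have h3 := key_wt_le ((hmemNE i).1 hi)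
      have h4 : wt (lam i) / d * n ≤ 8 / 5 / d * n := by
        apply mul_le_mul_of_nonneg_right _ hn0
        apply div_le_div_of_nonneg_right h3 hdpos.le
      have h5 : 161 / 100 * n / d = 8 / 5 / d * n + 1 / 100 * n / d := by ring
      rw [h5]
      linarith
    rw [Finset.sum_const, nsmul_eq_mul] at e1
    have e2 : (NE.card : ℝ) * (161 / 100 * n / d) ≤ n * (161 / 100 * n / d) :=
      mul_le_mul_of_nonneg_right hcardNE (by positivity)
    have e3 : n * (161 / 100 * n / d) ≤ 2 * (n ^ 2 / d) := by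
      have : 2 * (n ^ 2 / d) - n * (161 / 100 * n / d) = 39 / 100 * (n ^ 2 / d) := by ring
      have h0 : 0 ≤ n ^ 2 / d := by positivity
      linarith
    linarith
  have hEPeq : ∑ i ∈ NE, (mult lam (lam i) : ℝ) = EP := by
    rw [hEP]
    apply Finset.sum_congr rfl
    intro i hi
    have e1 : ∑ j ∈ NE, eqq i j = ((NE.filter (fun j => lam i = lam j)).card : ℝ) := by
      simp only [heqq]
      rw [Finset.sum_ite]
      simp
    rw [e1]
    unfold mult
    congr 2
    ext j
    simp only [Finset.mem_filter, Finset.mem_univ, true_and]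
    constructor
    · intro h1
      exact ⟨by rw [hmemNE, h1, ← hmemNE]; exact hi, h1.symm⟩
    · intro h1
      exact h1.2.symm
  rw [hEPeq]
  -- final computation
  have hmain : (NP - EP) * (r * Real.log 2 - Real.log (2 * D + 1)) ≤
      (n ^ 2 / d) * (d * (Real.log 2 + 1 / r) + 4 * Real.log d + 1 / 50 * Real.log 10) := by
    have e1 : 0 ≤ n ^ 2 * c + NP * (2 * Real.log d) + (NP - EP) * q +
        2 * (n * ((NEᶜ.card : ℝ) * Real.log 10)) := by linarith
    have e2 : n ^ 2 * c ≤ n ^ 2 * (Real.log 2 + 1 / r) := by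
      apply mul_le_mul_of_nonneg_left _ (sq_nonneg n)
      rw [hc]
      linarith
    have e3 : NP * (2 * Real.log d) ≤ 2 * (n ^ 2 / d) * (2 * Real.log d) :=
      mul_le_mul_of_nonneg_right hNPup (by positivity)
    have e4 : 2 * (n * ((NEᶜ.card : ℝ) * Real.log 10)) ≤
        2 * (n * ((1 / 100 * n / d) * Real.log 10)) := by
      have := mul_le_mul_of_nonneg_right hexc' hlog10.le
      have := mul_le_mul_of_nonneg_left this hn0
      linarith
    have e5 : (n ^ 2 / d) * (d * (Real.log 2 + 1 / r) + 4 * Real.log d + 1 / 50 * Real.log 10) =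
      n ^ 2 * (Real.log 2 + 1 / r) + 2 * (n ^ 2 / d) * (2 * Real.log d) +
        2 * (n * ((1 / 100 * n / d) * Real.log 10)) := by
      field_simp
      ring
    rw [e5]
    have e6 : (NP - EP) * (r * Real.log 2 - Real.log (2 * D + 1)) = - ((NP - EP) * q) := by
      rw [hq]
      ring
    rw [e6]
    linarith
  set T : ℝ := r * Real.log 2 - Real.log (2 * D + 1) with hT
  have hTpos : 0 < T := by
    have : 0 ≤ d * (Real.log 2 + 1 / r) + 4 * Real.log d + 1 / 50 * Real.log 10 := by positivity
    have h1 : 0 < d * (Real.log 2 + 1 / r) := by positivity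
    have h2 : 0 ≤ 4 * Real.log d + 1 / 50 * Real.log 10 := by positivity
    nlinarith
  have hNPEP : NP - EP ≤ (n ^ 2 / d) * 1.02 := by
    have e1 : (n ^ 2 / d) * (d * (Real.log 2 + 1 / r) + 4 * Real.log d + 1 / 50 * Real.log 10) ≤
        (n ^ 2 / d) * (1.02 * T) := mul_le_mul_of_nonneg_left hasy (by positivity)
    have e2 : (NP - EP) * T ≤ (n ^ 2 / d) * 1.02 * T := by
      calc _ ≤ _ := hmain
        _ ≤ _ := e1
        _ = _ := by ring
    exact le_of_mul_le_mul_right e2 hTpos
  have e7 : 1 / 20 * n ^ 2 / d = 1 / 20 * (n ^ 2 / d) := by ring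
  rw [e7]
  have h0 : 0 ≤ n ^ 2 / d := by positivity
  linarith

end Pool.Agent.H18.Cage
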