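import Pool.Agent.H18.Cage.CombDefs

/-! Module LOCAL-1. -/

set_option autoImplicit false

namespace Pool.Agent.H18.Cage

open Polynomial Matrix Finset

/-- Entrywise form of the commutation relation. -/
theorem entry_comm {V : Type} [Fintype V] [DecidableEq V] (G : SimpleGraph V)
    [DecidableRel G.Adj] {E : Matrix V V ℤ}
    (hcomm : G.adjMatrix ℤ * E = E * G.adjMatrix ℤ) (u x : V) :
    ∑ u' ∈ G.neighborFinset u, E u' x = ∑ x' ∈ G.neighborFinset x, E u x' := by
  have h := congrFun (congrFun hcomm u) x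
  rwa [SimpleGraph.adjMatrix_mul_apply, SimpleGraph.mul_adjMatrix_apply] at h

/-- Walking: the support of the row of `u0` is close to the support of the row of `u`. -/
theorem walk_support {V : Type} [Fintype V] [DecidableEq V] {G : SimpleGraph V}
    [DecidableRel G.Adj] {r : ℕ} (h : TreeLike G r) {E : V → V → ℤ} (hE0 : ∀ u v, 0 ≤ E u v)
    (hc : ∀ u x, ∑ u' ∈ G.neighborFinset u, E u' x = ∑ x' ∈ G.neighborFinset x, E u x')
    (u0 : V) : ∀ (n : ℕ) (u x : V), G.dist u0 u = n → E u x ≠ 0 →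
      ∃ x', E u0 x' ≠ 0 ∧ G.dist x' x ≤ n := by
  intro n
  induction n with
  | zero =>
    intro u x hu hx
    have : u0 = u := h.conn.dist_eq_zero_iff.mp hu
    subst this
    exact ⟨x, hx, by simp⟩
  | succ n ih =>
    intro u x hu hx
    have hne : u0 ≠ u := by
      rintro rfl
      rw [SimpleGraph.dist_self] at hu
      omega
    obtain ⟨w, hw1, hw2⟩ := h.exists_closer hne
    have hpos : 0 < ∑ u' ∈ G.neighborFinset w, E u' x := by
      apply Finset.sum_pos'
      · intro i _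
        exact hE0 _ _
      · exact ⟨u, by simpa using hw1.symm, lt_of_le_of_ne (hE0 _ _) (Ne.symm hx)⟩
    rw [hc] at hpos
    obtain ⟨y, hy1, hy2⟩ := Finset.exists_ne_zero_of_sum_ne_zero (ne_of_gt hpos)
    have hxy : G.Adj x y := by simpa using hy1
    obtain ⟨x', hx1, hx2⟩ := ih w y (by omega) hy2
    refine ⟨x', hx1, ?_⟩
    have t : G.dist x' x ≤ G.dist x' y + G.dist y x := h.conn.dist_triangle
    have t2 : G.dist y x = 1 := SimpleGraph.dist_eq_one_iff_adj.mpr hxy.symm
    omega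

/-- MODULE LOCAL-1. From window hypotheses to sheets. -/
theorem exists_sheets {V : Type} [Fintype V] [DecidableEq V] (G : SimpleGraph V)
    [DecidableRel G.Adj] (T R Rb r : ℕ) (E : Matrix V V ℤ) (v x0 : V) (hR : 1 ≤ R)
    (hRb : 20 * (R + T + 2) ≤ Rb)
    (hr : Rb ≤ r) (h : TreeLike G r) (hE0 : ∀ u v, 0 ≤ E u v) (hsymm : E.IsSymm)
    (hcomm : G.adjMatrix ℤ * E = E * G.adjMatrix ℤ) (hbase : E v x0 ≠ 0)
    (H2 : ∀ u, G.dist v u ≤ Rb → ∀ x y, E u x ≠ 0 → E u y ≠ 0 →
      G.dist x y ≤ T ∨ Rb < G.dist x y)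
    (H3 : ∀ x, G.dist x0 x ≤ Rb → ∀ u w, E u x ≠ 0 → E w x ≠ 0 →
      G.dist u w ≤ T ∨ Rb < G.dist u w) :
    ∃ q q0 : V → V → ℤ, Sheet G q v x0 T R ∧ Sheet G q0 v x0 T R ∧ Par G q0 v x0 ∧
      (∀ u x, G.dist v u ≤ R + 1 → G.dist x0 x ≤ 3 * R → q u x = E u x) ∧
      (∀ u x, q0 u x ≠ 0 → q u x ≠ 0) := by
  classical
  have tri : ∀ a b c : V, G.dist a c ≤ G.dist a b + G.dist b c := fun a b c =>
    h.conn.dist_triangle
  have dc : ∀ a b : V, G.dist a b = G.dist b a := fun a b => G.dist_comm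
  have step : ∀ (w : V) {a b : V}, G.Adj a b → G.dist w b ≤ G.dist w a + 1 := by
    intro w a b hab
    have h1 := tri w a b
    have h2 : G.dist a b = 1 := SimpleGraph.dist_eq_one_iff_adj.mpr hab
    omega
  have hc := entry_comm G hcomm
  have walk1 := walk_support h hE0 hc
  have walk2 := walk_support h (E := fun u x => E x u) (fun u x => hE0 x u)
    (fun u x => (hc x u).symm)
  have hn1 : ∀ u x, G.dist v u ≤ R + 1 → G.dist x0 x ≤ 3 * R → E u x ≠ 0 →
      G.dist x0 x ≤ T + G.dist v u := by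
    intro u x hu hx hux
    obtain ⟨x', hx1, hx2⟩ := walk1 v _ u x rfl hux
    have t := tri x0 x x'
    have t2 := tri x0 x' x
    rw [dc x x'] at t
    rcases H2 v (by simp) x0 x' hbase hx1 with h1 | h1 <;> omega
  have hn2 : ∀ u x, G.dist v u ≤ R + 1 → G.dist x0 x ≤ 3 * R → E u x ≠ 0 →
      G.dist v u ≤ T + G.dist x0 x := by
    intro u x hu hx hux
    obtain ⟨u', hu1, hu2⟩ := walk2 x0 _ x u rfl hux
    have t := tri v u u'
    have t2 := tri v u' u
    rw [dc u u'] at t
    rcases H3 x0 (by simp) v u' hbase hu1 with h1 | h1 <;> omega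
  have hd1 : ∀ u x y, G.dist v u ≤ R + 1 → G.dist x0 x ≤ 3 * R → G.dist x0 y ≤ 3 * R →
      E u x ≠ 0 → E u y ≠ 0 → G.dist x y ≤ T := by
    intro u x y hu hx hy h1 h2
    have t := tri x x0 y
    rw [dc x x0] at t
    rcases H2 u (by omega) x y h1 h2 with h3 | h3 <;> omega
  have hd2 : ∀ u w x, G.dist v u ≤ R + 1 → G.dist v w ≤ R + 1 → G.dist x0 x ≤ 3 * R →
      E u x ≠ 0 → E w x ≠ 0 → G.dist u w ≤ T := by
    intro u w x hu hw hx h1 h2
    have t := tri u v w
    rw [dc u v] at t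
    rcases H3 x (by omega) u w h1 h2 with h3 | h3 <;> omega
  let q : V → V → ℤ := fun u x =>
    if G.dist v u ≤ R + 1 ∧ G.dist x0 x ≤ 3 * R then E u x else 0
  let q0 : V → V → ℤ := fun u x => if Even (G.dist v u + G.dist x0 x) then q u x else 0
  have hq : ∀ u x, q u x = if G.dist v u ≤ R + 1 ∧ G.dist x0 x ≤ 3 * R then E u x else 0 :=
    fun _ _ => rfl
  have hq0 : ∀ u x, q0 u x = if Even (G.dist v u + G.dist x0 x) then q u x else 0 :=
    fun _ _ => rfl
  have hqE : ∀ u x, G.dist v u ≤ R + 1 → G.dist x0 x ≤ 3 * R → q u x = E u x := by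
    intro u x hu hx
    rw [hq, if_pos ⟨hu, hx⟩]
  have hqne : ∀ u x, q u x ≠ 0 → G.dist v u ≤ R + 1 ∧ G.dist x0 x ≤ 3 * R ∧ E u x ≠ 0 := by
    intro u x hux
    rw [hq] at hux
    split_ifs at hux with h1
    · exact ⟨h1.1, h1.2, hux⟩
    · exact absurd rfl hux
  have hq0ne : ∀ u x, q0 u x ≠ 0 → Even (G.dist v u + G.dist x0 x) ∧ q u x ≠ 0 := by
    intro u x hux
    rw [hq0] at hux
    split_ifs at hux with h1
    · exact ⟨h1, hux⟩
    · exact absurd rfl hux
  have hqpos : ∀ u x, 0 ≤ q u x := by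
    intro u x
    rw [hq]
    split_ifs
    · exact hE0 _ _
    · exact le_rfl
  have hqcomm : ∀ u x, G.dist v u ≤ R → G.dist x0 x ≤ 2 * R →
      ∑ u' ∈ G.neighborFinset u, q u' x = ∑ x' ∈ G.neighborFinset x, q u x' := by
    intro u x hu hx
    have e1 : ∑ u' ∈ G.neighborFinset u, q u' x = ∑ u' ∈ G.neighborFinset u, E u' x := by
      apply Finset.sum_congr rfl
      intro u' hu'
      have hadj : G.Adj u u' := by simpa using hu'
      have := step v hadj
      exact hqE u' x (by omega) (by omega)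
    have e2 : ∑ x' ∈ G.neighborFinset x, q u x' = ∑ x' ∈ G.neighborFinset x, E u x' := by
      apply Finset.sum_congr rfl
      intro x' hx'
      have hadj : G.Adj x x' := by simpa using hx'
      have := step x0 hadj
      exact hqE u x' (by omega) (by omega)
    rw [e1, e2, hc]
  refine ⟨q, q0, ⟨hqpos, ?_, hqcomm, ?_, ?_, ?_, ?_⟩, ⟨?_, ?_, ?_, ?_, ?_, ?_, ?_⟩, ?_, hqE,
    fun u x hx => (hq0ne u x hx).2⟩
  · rw [hqE v x0 (by simp) (by simp)]
    exact hbase
  · intro u x hu hux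
    obtain ⟨h1, h2, h3⟩ := hqne u x hux
    exact hn1 u x h1 h2 h3
  · intro u x hu hux
    obtain ⟨h1, h2, h3⟩ := hqne u x hux
    exact hn2 u x h1 h2 h3
  · intro u x y hu hux huy
    obtain ⟨h1, h2, h3⟩ := hqne u x hux
    obtain ⟨h4, h5, h6⟩ := hqne u y huy
    exact hd1 u x y h1 h2 h5 h3 h6
  · intro u w x hu hw hux hwx
    obtain ⟨h1, h2, h3⟩ := hqne u x hux
    obtain ⟨h4, h5, h6⟩ := hqne w x hwx
    exact hd2 u w x h1 h4 h2 h3 h6
  · intro u x
    rw [hq0]
    split_ifs
    · exact hqpos _ _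
    · exact le_rfl
  · rw [hq0, if_pos (by simp), hqE v x0 (by simp) (by simp)]
    exact hbase
  · intro u x hu hx
    by_cases hev : Even (G.dist v u + G.dist x0 x)
    · have z1 : ∀ u' ∈ G.neighborFinset u, q0 u' x = 0 := by
        intro u' hu'
        have hadj : G.Adj u u' := by simpa using hu'
        have hd := h.dist_adj (u := v) (w := u) (w' := u') (by omega) hadj
        rw [hq0, if_neg]
        rw [Nat.even_iff] at hev ⊢
        omega
      have z2 : ∀ x' ∈ G.neighborFinset x, q0 u x' = 0 := by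
        intro x' hx'
        have hadj : G.Adj x x' := by simpa using hx'
        have hd := h.dist_adj (u := x0) (w := x) (w' := x') (by omega) hadj
        rw [hq0, if_neg]
        rw [Nat.even_iff] at hev ⊢
        omega
      rw [Finset.sum_eq_zero z1, Finset.sum_eq_zero z2]
    · have e1 : ∑ u' ∈ G.neighborFinset u, q0 u' x = ∑ u' ∈ G.neighborFinset u, q u' x := by
        apply Finset.sum_congr rfl
        intro u' hu'
        have hadj : G.Adj u u' := by simpa using hu'
        have hd := h.dist_adj (u := v) (w := u) (w' := u') (by omega) hadj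
        rw [hq0, if_pos]
        rw [Nat.even_iff] at hev ⊢
        omega
      have e2 : ∑ x' ∈ G.neighborFinset x, q0 u x' = ∑ x' ∈ G.neighborFinset x, q u x' := by
        apply Finset.sum_congr rfl
        intro x' hx'
        have hadj : G.Adj x x' := by simpa using hx'
        have hd := h.dist_adj (u := x0) (w := x) (w' := x') (by omega) hadj
        rw [hq0, if_pos]
        rw [Nat.even_iff] at hev ⊢
        omega
      rw [e1, e2]
      exact hqcomm u x hu hx
  · intro u x hu hux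
    obtain ⟨h1, h2, h3⟩ := hqne u x (hq0ne u x hux).2
    exact hn1 u x h1 h2 h3
  · intro u x hu hux
    obtain ⟨h1, h2, h3⟩ := hqne u x (hq0ne u x hux).2
    exact hn2 u x h1 h2 h3
  · intro u x y hu hux huy
    obtain ⟨h1, h2, h3⟩ := hqne u x (hq0ne u x hux).2
    obtain ⟨h4, h5, h6⟩ := hqne u y (hq0ne u y huy).2
    exact hd1 u x y h1 h2 h5 h3 h6
  · intro u w x hu hw hux hwx
    obtain ⟨h1, h2, h3⟩ := hqne u x (hq0ne u x hux).2
    obtain ⟨h4, h5, h6⟩ := hqne w x (hq0ne w x hwx).2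
    exact hd2 u w x h1 h4 h2 h3 h6
  · intro u x hux
    exact (hq0ne u x hux).1

end Pool.Agent.H18.Cage
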