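import Pool.Agent.H18.Cage.CombDefs

/-! Module LOCAL-2. -/

set_option autoImplicit false

namespace Pool.Agent.H18.Cage

open Polynomial Matrix Finset

namespace Down

variable {V : Type} [Fintype V] [DecidableEq V] {G : SimpleGraph V} [DecidableRel G.Adj]

theorem dist_step {r : ℕ} (h : TreeLike G r) (v : V) {a b : V} (hab : G.Adj a b) :
    G.dist v b ≤ G.dist v a + 1 := by
  have h1 := h.conn.dist_triangle (u := v) (v := a) (w := b)
  have h2 : G.dist a b = 1 := SimpleGraph.dist_eq_one_iff_adj.mpr hab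
  omega

theorem fwd {r : ℕ} (h : TreeLike G r) {β : V → ℕ} {d : V → V} {v : V} {B : ℕ}
    (hd : ∀ w, G.dist v w ≤ B → G.Adj w (d w) ∧ β (d w) + 1 = β w) (a : V) :
    ∀ (n : ℕ) (u u1 : V), G.Adj u u1 → β u1 + 1 = β u → G.dist a u1 = G.dist a u + 1 →
      G.dist v u1 + n ≤ B + 1 → G.dist a u + n ≤ r → G.dist a (d^[n] u1) = G.dist a u + n + 1 := by
  intro n
  induction n with
  | zero =>
    intro u u1 _ _ h3 _ _
    simpa using h3
  | succ n ih =>
    intro u u1 h1 h2 h3 h4 h5
    rw [Function.iterate_succ_apply]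
    obtain ⟨d1, d2⟩ := hd u1 (by omega)
    have hne : u ≠ d u1 := by
      intro hh
      rw [← hh] at d2
      omega
    have s1 := dist_step h v d1
    have s2 := dist_step h a d1
    have s3 : ¬ G.dist a (d u1) ≤ G.dist a u1 := fun hle =>
      hne (h.closer_unique (u := a) (w := u1) (by omega) h1.symm d1 (by omega) hle)
    have := ih u1 (d u1) d1 d2 (by omega) (by omega) (by omega)
    omega

theorem chain {r : ℕ} (h : TreeLike G r) {β : V → ℕ} {d : V → V} {v : V} {B : ℕ}
    (hd : ∀ w, G.dist v w ≤ B → G.Adj w (d w) ∧ β (d w) + 1 = β w) :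
    ∀ (n : ℕ) (u1 : V), G.dist v u1 + n ≤ B + 1 →
      β (d^[n] u1) + n = β u1 ∧ G.dist v (d^[n] u1) ≤ G.dist v u1 + n := by
  intro n
  induction n with
  | zero =>
    intro u1 _
    simp
  | succ n ih =>
    intro u1 h1
    rw [Function.iterate_succ_apply]
    obtain ⟨d1, d2⟩ := hd u1 (by omega)
    have s1 := dist_step h v d1
    have := ih (d u1) (by omega)
    omega

end Down

open Down in
/-- MODULE LOCAL-2. Unique descending neighbour. -/
theorem unique_down {V : Type} [Fintype V] [DecidableEq V] (G : SimpleGraph V)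
    [DecidableRel G.Adj] (T R r : ℕ) (q : V → V → ℤ) (v x0 : V) (hTR : T + 3 ≤ R)
    (hr : 20 * R ≤ r) (h : TreeLike G r) (hs : Sheet G q v x0 T R) (hp : Par G q v x0)
    (o : V) (ho1 : 4 * R ≤ G.dist x0 o) (ho2 : G.dist x0 o ≤ 8 * R)
    (u : V) (hu : G.dist v u + T + 3 ≤ R) :
    (∃ x, q u x ≠ 0 ∧ G.dist x o = bt G q o u) ∧
    ∃ u', G.Adj u u' ∧ bt G q o u' + 1 = bt G q o u ∧
      ∀ u'', G.Adj u u'' → u'' ≠ u' → bt G q o u'' = bt G q o u + 1 := by
  classical
  have tri : ∀ a b c : V, G.dist a c ≤ G.dist a b + G.dist b c := fun a b c =>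
    h.conn.dist_triangle
  have dc : ∀ a b : V, G.dist a b = G.dist b a := fun a b => G.dist_comm
  -- one application of the commutation relation
  have ADJ : ∀ u u' x, G.dist v u ≤ R → G.Adj u u' → q u' x ≠ 0 →
      ∃ y, G.Adj x y ∧ q u y ≠ 0 := by
    intro u u' x hu hadj hx
    have s1 := dist_step h v hadj
    have hn := hs.near1 u' x (by omega) hx
    have hcm := hs.comm u x hu (by omega)
    have hpos : 0 < ∑ u' ∈ G.neighborFinset u, q u' x := by
      apply Finset.sum_pos'
      · intro i _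
        exact hs.nonneg _ _
      · exact ⟨u', by simpa using hadj, lt_of_le_of_ne (hs.nonneg _ _) (Ne.symm hx)⟩
    rw [hcm] at hpos
    obtain ⟨y, hy1, hy2⟩ := Finset.exists_ne_zero_of_sum_ne_zero (ne_of_gt hpos)
    exact ⟨y, by simpa using hy1, hy2⟩
  have nonempty : ∀ n, n ≤ R → ∀ u, G.dist v u = n → ∃ x, q u x ≠ 0 := by
    intro n
    induction n with
    | zero =>
      intro _ u hu
      have : v = u := h.conn.dist_eq_zero_iff.mp hu
      subst this
      exact ⟨x0, hs.base⟩
    | succ n ih =>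
      intro hn u hu
      have hne : v ≠ u := by
        rintro rfl
        rw [SimpleGraph.dist_self] at hu
        omega
      obtain ⟨w, hw1, hw2⟩ := h.exists_closer hne
      obtain ⟨x, hx⟩ := ih (by omega) w (by omega)
      obtain ⟨y, _, hy⟩ := ADJ u w x (by omega) hw1 hx
      exact ⟨y, hy⟩
  have attain : ∀ u, G.dist v u ≤ R → ∃ x, q u x ≠ 0 ∧ G.dist x o = bt G q o u := by
    intro u hu
    obtain ⟨x, hx⟩ := nonempty _ hu u rfl
    have hne : {h | ∃ x, q u x ≠ 0 ∧ G.dist x o = h}.Nonempty := ⟨_, x, hx, rfl⟩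
    exact Nat.sInf_mem hne
  have btle : ∀ u x, q u x ≠ 0 → bt G q o u ≤ G.dist x o := by
    intro u x hx
    exact Nat.sInf_le ⟨x, hx, rfl⟩
  have par : ∀ u, G.dist v u ≤ R → Even (bt G q o u + G.dist v u + G.dist x0 o) := by
    intro u hu
    obtain ⟨x, hx1, hx2⟩ := attain u hu
    have hn := hs.near1 u x (by omega) hx1
    have p1 := hp u x hx1
    have p2 := h.parity (a := x) (b := x0) (c := o) (by rw [dc x x0]; omega)
    rw [dc x x0, hx2] at p2
    have p3 := p1.add p2
    have e : G.dist v u + G.dist x0 x + (G.dist x0 x + G.dist x0 o + bt G q o u) =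
        (bt G q o u + G.dist v u + G.dist x0 o) + (G.dist x0 x + G.dist x0 x) := by ring
    rw [e] at p3
    exact (Nat.even_add.mp p3).mpr ⟨_, rfl⟩
  have btadj1 : ∀ u u', G.dist v u ≤ R → G.dist v u' ≤ R → G.Adj u u' →
      bt G q o u ≤ bt G q o u' + 1 := by
    intro u u' hu hu' hadj
    obtain ⟨x, hx1, hx2⟩ := attain u' hu'
    obtain ⟨y, hy1, hy2⟩ := ADJ u u' x hu hadj hx1
    have := btle u y hy2
    have := dist_step h o hy1
    rw [dc o x, dc o y] at this
    omega
  have btadj : ∀ u u', G.dist v u ≤ R → G.dist v u' ≤ R → G.Adj u u' →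
      bt G q o u' + 1 = bt G q o u ∨ bt G q o u' = bt G q o u + 1 := by
    intro u u' hu hu' hadj
    have h1 := btadj1 u u' hu hu' hadj
    have h2 := btadj1 u' u hu' hu hadj.symm
    have h3 := par u hu
    have h4 := par u' hu'
    have h5 := h.dist_adj (u := v) (w := u) (w' := u') (by omega) hadj
    rw [Nat.even_iff] at h3 h4
    omega
  have down : ∀ u, G.dist v u + 1 ≤ R → ∃ u', G.Adj u u' ∧ bt G q o u' + 1 = bt G q o u := by
    intro u hu
    obtain ⟨x, hx1, hx2⟩ := attain u (by omega)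
    have hn := hs.near1 u x (by omega) hx1
    have hne : o ≠ x := by
      rintro rfl
      omega
    obtain ⟨y, hy1, hy2⟩ := h.exists_closer hne
    have s1 := dist_step h x0 hy1
    have hcm := hs.comm u y (by omega) (by omega)
    have hpos : 0 < ∑ x' ∈ G.neighborFinset y, q u x' := by
      apply Finset.sum_pos'
      · intro i _
        exact hs.nonneg _ _
      · exact ⟨x, by simpa using hy1.symm, lt_of_le_of_ne (hs.nonneg _ _) (Ne.symm hx1)⟩
    rw [← hcm] at hpos
    obtain ⟨u', hu1, hu2⟩ := Finset.exists_ne_zero_of_sum_ne_zero (ne_of_gt hpos)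
    have hadj : G.Adj u u' := by simpa using hu1
    have s2 := dist_step h v hadj
    have h1 := btle u' y hu2
    have h2 := btadj u u' (by omega) (by omega) hadj
    have c1 := dc o x
    have c2 := dc o y
    exact ⟨u', hadj, by omega⟩
  -- a function choosing descending neighbours
  obtain ⟨B, hB⟩ : ∃ B, R = B + 1 := ⟨R - 1, by omega⟩
  have down' : ∀ u, ∃ u', G.dist v u ≤ B → (G.Adj u u' ∧ bt G q o u' + 1 = bt G q o u) := by
    intro u
    by_cases hu : G.dist v u ≤ B
    · obtain ⟨u', hu'⟩ := down u (by omega)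
      exact ⟨u', fun _ => hu'⟩
    · exact ⟨u, fun hh => absurd hh hu⟩
  choose d hd using down'
  have climb : ∀ (n : ℕ) (u u1 x : V), G.Adj u u1 → G.dist v u + n + 1 ≤ R →
      (n = 0 ∨ G.dist v u1 + n ≤ B + 1) →
      q (d^[n] u1) x ≠ 0 → ∃ y, q u y ≠ 0 ∧ G.dist x y ≤ n + 1 := by
    intro n
    induction n with
    | zero =>
      intro u u1 x hadj hu _ hx
      obtain ⟨y, hy1, hy2⟩ := ADJ u u1 x (by omega) hadj hx
      exact ⟨y, hy2, (SimpleGraph.dist_eq_one_iff_adj.mpr hy1).le⟩
    | succ n ih =>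
      intro u u1 x hadj hu hu1 hx
      rw [Function.iterate_succ_apply] at hx
      obtain ⟨d1, d2⟩ := hd u1 (by omega)
      have s1 := dist_step h v d1
      have s2 := dist_step h v hadj
      obtain ⟨y', hy1, hy2⟩ := ih u1 (d u1) x d1 (by omega) (by omega) hx
      obtain ⟨y, hy3, hy4⟩ := ADJ u u1 y' (by omega) hadj hy1
      have := dist_step h x hy3
      exact ⟨y, hy4, by omega⟩
  refine ⟨attain u (by omega), ?_⟩
  obtain ⟨u1, hu1, hβ1⟩ := down u (by omega)
  refine ⟨u1, hu1, hβ1, ?_⟩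
  intro u2 hu2 hne
  have s1 := dist_step h v hu1
  have s2 := dist_step h v hu2
  by_contra hcon
  have hβ2 : bt G q o u2 + 1 = bt G q o u := by
    rcases btadj u u2 (by omega) (by omega) hu2 with h1 | h1
    · exact h1
    · exact absurd h1 hcon
  -- the two chains diverge
  have e1 : G.dist u u1 = 1 := SimpleGraph.dist_eq_one_iff_adj.mpr hu1
  have e2 : G.dist u u2 = 1 := SimpleGraph.dist_eq_one_iff_adj.mpr hu2
  have e3 : G.dist u1 u2 = G.dist u1 u + 1 := by
    have t := dist_step h u1 hu2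
    have : ¬ G.dist u1 u2 ≤ G.dist u1 u := fun hle =>
      hne (h.closer_unique (u := u1) (w := u) (by rw [dc u1 u]; omega) hu1 hu2
        (by rw [SimpleGraph.dist_self]; omega) hle).symm
    omega
  set p := d^[T] u1 with hpdef
  set p' := d^[T] u2 with hp'def
  have f1 : G.dist u1 p' = G.dist u1 u + T + 1 :=
    fwd h hd u1 T u u2 hu2 hβ2 e3 (by omega) (by rw [dc u1 u]; omega)
  have f2 : G.dist u p' = G.dist u u + T + 1 :=
    fwd h hd u T u u2 hu2 hβ2 (by rw [SimpleGraph.dist_self]; omega) (by omega)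
      (by rw [SimpleGraph.dist_self]; omega)
  rw [SimpleGraph.dist_self] at f2
  have c1 := dc u1 u
  have c2 := dc u1 p'
  have c3 := dc u p'
  have f3 : G.dist p' p = G.dist p' u + T + 1 :=
    fwd h hd p' T u u1 hu1 hβ1 (by omega) (by omega) (by omega)
  have g1 := chain h hd T u1 (by omega)
  have g2 := chain h hd T u2 (by omega)
  rw [← hpdef] at g1
  rw [← hp'def] at g2
  obtain ⟨x, hx1, hx2⟩ := attain p (by omega)
  obtain ⟨x', hx'1, hx'2⟩ := attain p' (by omega)
  obtain ⟨y, hy1, hy2⟩ := climb T u u1 x hu1 (by omega) (by omega) hx1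
  obtain ⟨y', hy'1, hy'2⟩ := climb T u u2 x' hu2 (by omega) (by omega) hx'1
  have b1 := btle u y hy1
  have b2 := btle u y' hy'1
  have t1 := tri y x o
  have t2 := tri y' x' o
  rw [dc y x] at t1
  rw [dc y' x'] at t2
  have n1 := hs.near1 u y (by omega) hy1
  have t3 := tri y x0 o
  rw [dc y x0] at t3
  have hyy' := hs.diam1 u y' y (by omega) hy'1 hy1
  have fp := h.four_point (a := y') (b := x) (c := y) (e := o) (by omega) (by omega)
  have hmax : max (G.dist y' y + G.dist x o) (G.dist y' o + G.dist x y) ≤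
      bt G q o u + T + 1 := by
    apply max_le <;> omega
  have t4 := tri y' x o
  have hxx' : x = x' := h.between_unique (a := y') (b := o) (p := x) (q := x') (by omega)
    (by omega) (by rw [dc y' x']; omega) (by rw [dc y' x']; omega)
  rw [← hxx'] at hx'1
  have := hs.diam2 p' p x (by omega) (by omega) hx'1 hx1
  omega

end Pool.Agent.H18.Cage
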