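import Pool.Agent.H18.Cage.Geo

/-! Module RADIAL. -/

set_option autoImplicit false

namespace Pool.Agent.H18.Cage

open Polynomial Matrix Finset

section RadialStep

variable {V : Type} [Fintype V] [DecidableEq V] {G : SimpleGraph V} [DecidableRel G.Adj] {r : ℕ}

theorem radial_shift (h : TreeLike G r) (t ρ : ℕ) (x0 : V) (Z : V → V → ℤ) (htr : t + 1 ≤ r)
    (hcomm : ∀ x y, G.dist x0 x + 1 ≤ ρ → G.dist x0 y + 1 ≤ ρ →
      ∑ x' ∈ G.neighborFinset x, Z x' y = ∑ y' ∈ G.neighborFinset y, Z x y')
    (hzero : ∀ x y, G.dist x0 x ≤ ρ → G.dist x0 y ≤ ρ → t < G.dist x y → Z x y = 0)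
    {x y x1 y1 : V} (hx : G.Adj x x1) (hy : G.Adj y y1) (h1 : G.dist x y1 = t + 1)
    (h2 : G.dist x y = t) (h3 : G.dist x1 y1 = t) (hxb : G.dist x0 x + 1 ≤ ρ)
    (hyb : G.dist x0 y1 + 1 ≤ ρ) : Z x y = Z x1 y1 := by
  have h4 := hcomm x y1 hxb hyb
  rw [Finset.sum_eq_single x1, Finset.sum_eq_single y] at h4
  · exact h4.symm
  · intro b hb hne
    rw [SimpleGraph.mem_neighborFinset] at hb
    refine hzero _ _ (by omega) ?_ ?_
    · have := h.adj_le (u := x0) hb
      omega
    · rcases h.dist_adj (u := x) (w := y1) (w' := b) (by omega) hb with h5 | h5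
      · exact absurd (h.tree x y1 b y (by omega) hb hy.symm (by omega) (by omega)) hne
      · omega
  · intro hn
    exact absurd (by rw [SimpleGraph.mem_neighborFinset]; exact hy.symm) hn
  · intro b hb hne
    rw [SimpleGraph.mem_neighborFinset] at hb
    have e1 : G.dist y1 x = t + 1 := by rw [G.dist_comm]; exact h1
    have e2 : G.dist y1 x1 = t := by rw [G.dist_comm]; exact h3
    have e3 : G.dist y1 b = G.dist b y1 := G.dist_comm
    refine hzero _ _ ?_ (by omega) ?_
    · have := h.adj_le (u := x0) hb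
      omega
    · rcases h.dist_adj (u := y1) (w := x) (w' := b) (by omega) hb with h5 | h5
      · exact absurd (h.tree y1 x b x1 (by omega) hb hx (by omega) (by omega)) hne
      · omega
  · intro hn
    exact absurd (by rw [SimpleGraph.mem_neighborFinset]; exact hx) hn

/-- Simultaneous extension away from two points. -/
theorem extend_two (h : TreeLike G r) {a a' b : V} (L : ℕ) (hr : G.dist a b + L ≤ r + 1)
    (hr' : G.dist a' b + L ≤ r + 1) (hL : L ≤ r + 1) :
    ∃ c, G.dist b c = L ∧ G.dist a c = G.dist a b + L ∧ G.dist a' c = G.dist a' b + L := by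
  induction L with
  | zero => exact ⟨b, by simp, by simp, by simp⟩
  | succ L ih =>
    obtain ⟨c, hc1, hc2, hc3⟩ := ih (by omega) (by omega) (by omega)
    obtain ⟨c', hadj, h1, h2, -⟩ := h.extend_three (a := a) (a' := a') (a'' := a) (b := c)
      (by omega) (by omega) (by omega)
    have h3 := h.adj_le (u := b) hadj
    have h4 := h.tri a b c'
    exact ⟨c', by omega, by omega, by omega⟩

theorem radial_back (h : TreeLike G r) (T t ρ : ℕ) (x0 : V) (Z : V → V → ℤ) (hT : t ≤ T)
    (htr : t + 1 ≤ r)
    (hcomm : ∀ x y, G.dist x0 x + 1 ≤ ρ → G.dist x0 y + 1 ≤ ρ →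
      ∑ x' ∈ G.neighborFinset x, Z x' y = ∑ y' ∈ G.neighborFinset y, Z x y')
    (hzero : ∀ x y, G.dist x0 x ≤ ρ → G.dist x0 y ≤ ρ → t < G.dist x y → Z x y = 0)
    {x y : V} (hxy : G.dist x y = t) (hxb : G.dist x0 x + (T + 2) ≤ ρ) (i : ℕ) (hi : i ≤ t) :
    ∀ z w, G.dist x z = i → G.dist x w = t - i → G.dist y w = i → G.dist y z = t + i →
      Z x y = Z z w := by
  induction i with
  | zero =>
    intro z w h1 h2 h3 h4
    have e1 : x = z := h.dist_zero.mp h1
    have e2 : y = w := h.dist_zero.mp h3
    rw [e1, e2]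
  | succ i ih =>
    intro z w h1 h2 h3 h4
    have hxz : x ≠ z := by
      rintro rfl
      rw [SimpleGraph.dist_self] at h1
      omega
    have hyw : y ≠ w := by
      rintro rfl
      rw [SimpleGraph.dist_self] at h3
      omega
    obtain ⟨z', hz', hdz⟩ := h.exists_closer hxz
    obtain ⟨w', hw', hdw⟩ := h.exists_closer hyw
    have d1 : G.dist y z' = t + i := by
      have a1 := h.adj_le (u := y) hz'
      have a2 := h.tri y x z'
      have a3 : G.dist y x = t := by rw [G.dist_comm]; exact hxy
      omega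
    have d2 : G.dist x w' = t - i := by
      have a4 := h.adj_le (u := x) hw'
      have a5 := h.tri x w' y
      have a6 : G.dist w' y = G.dist y w' := G.dist_comm
      omega
    have d3 : G.dist z w' = t + 1 := by
      have b1 := h.tri z x w'
      have b2 : G.dist z x = G.dist x z := G.dist_comm
      have b3 := h.tri y w' z
      have b4 : G.dist w' z = G.dist z w' := G.dist_comm
      omega
    have d4 : G.dist z w = t := by
      have b5 := h.tri z x w
      have b2 : G.dist z x = G.dist x z := G.dist_comm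
      have b6 := h.tri y w z
      have b4 : G.dist w z = G.dist z w := G.dist_comm
      omega
    have d5 : G.dist z' w' = t := by
      have b7 := h.tri z' x w'
      have b8 : G.dist z' x = G.dist x z' := G.dist_comm
      have b9 := h.tri y w' z'
      have b10 : G.dist w' z' = G.dist z' w' := G.dist_comm
      omega
    rw [ih (by omega) z' w' (by omega) d2 (by omega) d1]
    symm
    have c1 := h.tri x0 x z
    have c2 := h.tri x0 x w'
    exact radial_shift h t ρ x0 Z htr hcomm hzero hz' hw' d3 d4 d5 (by omega) (by omega)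

theorem radial_step (h : TreeLike G r) (T t ρ : ℕ) (x0 : V) (Z : V → V → ℤ) (hT : t ≤ T)
    (hr : 2 * T + 2 ≤ r)
    (hcomm : ∀ x y, G.dist x0 x + 1 ≤ ρ → G.dist x0 y + 1 ≤ ρ →
      ∑ x' ∈ G.neighborFinset x, Z x' y = ∑ y' ∈ G.neighborFinset y, Z x y')
    (hzero : ∀ x y, G.dist x0 x ≤ ρ → G.dist x0 y ≤ ρ → t < G.dist x y → Z x y = 0) :
    ∃ g : ℤ, ∀ x y, G.dist x0 x + (T + 2) ≤ ρ → G.dist x y = t → Z x y = g := by
  have hA : ∀ x y y', G.dist x0 x + (T + 2) ≤ ρ → G.dist x y = t → G.dist x y' = t →
      Z x y = Z x y' := by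
    intro x y y' hx hy hy'
    have e1 : G.dist y x = t := by rw [G.dist_comm]; exact hy
    have e2 : G.dist y' x = t := by rw [G.dist_comm]; exact hy'
    obtain ⟨z, hz1, hz2, hz3⟩ := extend_two h (a := y) (a' := y') (b := x) t (by omega)
      (by omega) (by omega)
    have k1 := radial_back h T t ρ x0 Z hT (by omega) hcomm hzero hy hx t le_rfl z x hz1
      (by simp) e1 (by omega)
    have k2 := radial_back h T t ρ x0 Z hT (by omega) hcomm hzero hy' hx t le_rfl z x hz1
      (by simp) e2 (by omega)
    rw [k1, k2]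
  have hx0 : G.dist x0 x0 = 0 := SimpleGraph.dist_self
  obtain ⟨y0, hy0, -⟩ := h.extend (a := x0) (b := x0) t (by omega)
  refine ⟨Z x0 y0, ?_⟩
  have hC : ∀ j x y, G.dist x0 x = j → G.dist x0 x + (T + 2) ≤ ρ → G.dist x y = t →
      Z x y = Z x0 y0 := by
    intro j
    induction j with
    | zero =>
      intro x y h1 h2 h3
      have : x0 = x := h.dist_zero.mp h1
      subst this
      exact hA _ _ _ h2 h3 hy0
    | succ j ih =>
      intro x1 y h1 h2 h3
      have hne : x0 ≠ x1 := by
        rintro rfl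
        omega
      obtain ⟨x, hadj, hd⟩ := h.exists_closer hne
      have hd1 : G.dist x x1 = 1 := SimpleGraph.dist_eq_one_iff_adj.mpr hadj.symm
      obtain ⟨y1, hy1, hy2⟩ := h.extend (a := x) (b := x1) t (by omega)
      have hxy1 : x ≠ y1 := by
        rintro rfl
        rw [SimpleGraph.dist_self] at hy2
        omega
      obtain ⟨y', hy', hdy⟩ := h.exists_closer hxy1
      have k1 : Z x y' = Z x1 y1 := by
        refine radial_shift h t ρ x0 Z (by omega) hcomm hzero hadj.symm hy'.symm ?_ ?_ ?_ ?_ ?_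
        · omega
        · omega
        · omega
        · omega
        · have := h.tri x0 x1 y1
          omega
      have k2 := ih x y' (by omega) (by omega) (by omega)
      rw [hA x1 y y1 h2 h3 hy1, ← k1, k2]
  intro x y h1 h2
  exact hC _ x y rfl h1 h2

end RadialStep

/-- MODULE RADIAL. -/
theorem radial (T R : ℕ) :
    ∀ (V : Type) [Fintype V] [DecidableEq V] (G : SimpleGraph V) [DecidableRel G.Adj]
      (r : ℕ) (x0 : V) (Z : V → V → ℤ), TreeLike G r →
      2 * (R + (T + 2) * (T + 2)) + T + 2 ≤ r →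
      (∀ x y, G.dist x0 x ≤ R + (T + 2) * (T + 2) → G.dist x0 y ≤ R + (T + 2) * (T + 2) →
        ∑ x' ∈ G.neighborFinset x, Z x' y = ∑ y' ∈ G.neighborFinset y, Z x y') →
      (∀ x y, G.dist x0 x ≤ R + (T + 2) * (T + 2) + 1 → G.dist x0 y ≤ R + (T + 2) * (T + 2) + 1 →
        T < G.dist x y → Z x y = 0) →
      ∃ c : ℕ → ℤ, (∀ t, T < t → c t = 0) ∧
        ∀ x y, G.dist x0 x ≤ R → G.dist x0 y ≤ R → Z x y = c (G.dist x y) := by
  intro V _ _ G _ r x0 Z h hr hcomm hzero
  have hTT : T + 2 ≤ (T + 2) * (T + 2) := by nlinarith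
  have hTr : 2 * T + 2 ≤ r := by nlinarith
  have key : ∀ k, k ≤ T + 1 → ∃ c : ℕ → ℤ, (∀ t, T < t → c t = 0) ∧
      ∀ x y, G.dist x0 x + k * (T + 2) ≤ R + (T + 2) * (T + 2) + 1 →
        G.dist x0 y + k * (T + 2) ≤ R + (T + 2) * (T + 2) + 1 →
        T + 1 ≤ G.dist x y + k → Z x y = c (G.dist x y) := by
    intro k
    induction k with
    | zero =>
      intro _
      refine ⟨fun _ => 0, fun _ _ => rfl, ?_⟩
      intro x y h1 h2 h3
      exact hzero x y (by omega) (by omega) (by omega)
    | succ k ih =>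
      intro hk
      obtain ⟨c, hc0, hc⟩ := ih (by omega)
      set t := T - k with ht
      set ρ := R + (T + 2) * (T + 2) + 1 - k * (T + 2) with hρ
      have hkT : (k + 1) * (T + 2) ≤ (T + 1) * (T + 2) := Nat.mul_le_mul_right _ hk
      have hexp : (T + 2) * (T + 2) = (T + 1) * (T + 2) + (T + 2) := by ring
      have hexp2 : (k + 1) * (T + 2) = k * (T + 2) + (T + 2) := by ring
      set c' : ℕ → ℤ := fun s => if t < s ∧ s ≤ T then c s else 0 with hc'
      set Z' : V → V → ℤ := fun x y => Z x y - ∑ s ∈ Finset.range (T + 1), c' s * Dm G s x y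
        with hZ'
      have hval : ∀ x y, Z' x y = Z x y - (if G.dist x y ≤ T then c' (G.dist x y) else 0) := by
        intro x y
        simp only [hZ', TreeLike.Dm_apply, mul_ite, mul_one, mul_zero]
        rw [Finset.sum_ite_eq (Finset.range (T + 1)) (G.dist x y) c']
        simp only [Finset.mem_range, Nat.lt_succ_iff]
      obtain ⟨g, hg⟩ := radial_step h T t ρ x0 Z' (by omega) hTr (by
        intro x y h1 h2
        have e1 : ∑ x' ∈ G.neighborFinset x, Z' x' y = ∑ x' ∈ G.neighborFinset x, Z x' y -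
            ∑ s ∈ Finset.range (T + 1), c' s * ∑ x' ∈ G.neighborFinset x, Dm G s x' y := by
          simp only [hZ', Finset.sum_sub_distrib, Finset.mul_sum]
          rw [Finset.sum_comm]
        have e2 : ∑ y' ∈ G.neighborFinset y, Z' x y' = ∑ y' ∈ G.neighborFinset y, Z x y' -
            ∑ s ∈ Finset.range (T + 1), c' s * ∑ y' ∈ G.neighborFinset y, Dm G s x y' := by
          simp only [hZ', Finset.sum_sub_distrib, Finset.mul_sum]
          rw [Finset.sum_comm]
        rw [e1, e2, hcomm x y (by omega) (by omega)]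
        congr 1
        refine Finset.sum_congr rfl (fun s hs => ?_)
        rw [Finset.mem_range] at hs
        rw [h.Dm_comm s (by omega) x y]) (by
        intro x y h1 h2 h3
        rw [hval]
        by_cases h4 : G.dist x y ≤ T
        · rw [if_pos h4, hc']
          simp only
          rw [if_pos ⟨h3, h4⟩, hc x y (by omega) (by omega) (by omega), sub_self]
        · rw [if_neg h4, hc x y (by omega) (by omega) (by omega), hc0 _ (by omega), sub_self])
      refine ⟨fun s => if s = t then g else c s, ?_, ?_⟩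
      · intro s hs
        simp only
        rw [if_neg (by omega), hc0 s hs]
      · intro x y h1 h2 h3
        simp only
        by_cases h4 : G.dist x y = t
        · rw [if_pos h4, ← hg x y (by omega) h4, hval, h4]
          by_cases h5 : t ≤ T
          · rw [if_pos h5, hc']
            simp only
            rw [if_neg (by omega), sub_zero]
          · rw [if_neg h5, sub_zero]
        · rw [if_neg h4]
          exact hc x y (by omega) (by omega) (by omega)
  obtain ⟨c, hc0, hc⟩ := key (T + 1) le_rfl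
  refine ⟨c, hc0, fun x y h1 h2 => hc x y ?_ ?_ (by omega)⟩
  · have hexp : (T + 2) * (T + 2) = (T + 1) * (T + 2) + (T + 2) := by ring
    omega
  · have hexp : (T + 2) * (T + 2) = (T + 1) * (T + 2) + (T + 2) := by ring
    omega

end Pool.Agent.H18.Cage
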