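import Pool.Agent.H18.Cage.Local2
import Pool.Agent.H18.Cage.Radial

/-! Module LOCAL-3. -/

set_option autoImplicit false

namespace Pool.Agent.H18.Cage

open Polynomial Matrix Finset

namespace Center

variable {V : Type} [Fintype V] [DecidableEq V] {G : SimpleGraph V} [DecidableRel G.Adj]

/-- `UpC G β u k a`: a descending chain of length `k` from `a` to `u`. -/
def UpC (G : SimpleGraph V) (β : V → ℕ) (u : V) : ℕ → V → Prop
  | 0, a => a = u
  | (k + 1), a => ∃ a1, G.Adj a a1 ∧ β a1 + 1 = β a ∧ UpC G β u k a1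

/-- Every vertex of the ball of radius `B` has a unique descending neighbour. -/
def DownOn (G : SimpleGraph V) (β : V → ℕ) (v : V) (B : ℕ) : Prop :=
  ∀ u, G.dist v u ≤ B → ∃ u', G.Adj u u' ∧ β u' + 1 = β u ∧
    ∀ u'', G.Adj u u'' → u'' ≠ u' → β u'' = β u + 1

theorem dist_step {r : ℕ} (h : TreeLike G r) (v : V) {a b : V} (hab : G.Adj a b) :
    G.dist v b ≤ G.dist v a + 1 := by
  have h1 := h.conn.dist_triangle (u := v) (v := a) (w := b)
  have h2 : G.dist a b = 1 := SimpleGraph.dist_eq_one_iff_adj.mpr hab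
  omega

theorem walk_up {r : ℕ} (h : TreeLike G r) {β : V → ℕ} {v : V} {B : ℕ}
    (hd : DownOn G β v B) :
    ∀ (n : ℕ) (a a' b : V), G.Adj a a' → G.dist a b = n + 1 → G.dist a' b = n →
      β a' = β a + 1 → G.dist v a + n ≤ B → β b = β a + n + 1 := by
  intro n
  induction n with
  | zero =>
    intro a a' b haa' _ h2 h3 _
    have : a' = b := h.conn.dist_eq_zero_iff.mp h2
    subst this
    omega
  | succ n ih =>
    intro a a' b haa' h1 h2 h3 h4
    have hne : b ≠ a' := by
      rintro rfl
      rw [SimpleGraph.dist_self] at h2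
      omega
    obtain ⟨w, hw1, hw2⟩ := h.exists_closer hne
    have hv' := dist_step h v haa'
    obtain ⟨u', hu1, hu2, hu3⟩ := hd a' (by omega)
    have hau : a = u' := by
      by_contra hcon
      have := hu3 a haa'.symm hcon
      omega
    subst hau
    have hwa : w ≠ a := by
      rintro rfl
      rw [G.dist_comm] at h1
      have := G.dist_comm (u := b) (v := a')
      omega
    have h5 := hu3 w hw1 hwa
    have h6 : G.dist w b = n := by
      have := G.dist_comm (u := b) (v := a')
      have := G.dist_comm (u := b) (v := w)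
      omega
    have := ih a' w b hw1 h2 h6 h5 (by omega)
    omega

theorem toward {r : ℕ} (h : TreeLike G r) {β : V → ℕ} {v : V} {B : ℕ}
    (hd : DownOn G β v B) {a b a1 : V} (hab : a ≠ b) (hβ : β b = β a)
    (ha1 : G.Adj a a1) (hβ1 : β a1 + 1 = β a) (hB : G.dist v a + G.dist a b ≤ B) :
    G.dist b a1 + 1 = G.dist b a := by
  obtain ⟨a', ha', hd'⟩ := h.exists_closer (u := b) (w := a) hab.symm
  obtain ⟨a2, h21, h22, h23⟩ := hd a (by omega)
  have h1 : a1 = a2 := by
    by_contra hcon
    have := h23 a1 ha1 hcon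
    omega
  have h2 : a' = a2 := by
    by_contra hcon
    have h3 := h23 a' ha' hcon
    have c1 := G.dist_comm (u := b) (v := a)
    have c2 := G.dist_comm (u := b) (v := a')
    have := walk_up h hd (G.dist a' b) a a' b ha' (by omega) rfl h3 (by omega)
    omega
  rw [h1, ← h2]
  exact hd'

theorem meet {r : ℕ} (h : TreeLike G r) {β : V → ℕ} {v : V} {B : ℕ} (hBr : B ≤ r)
    (hd : DownOn G β v B) {Q : V → Prop}
    (hQ : ∀ a b, G.dist v a ≤ B → G.Adj a b → β b + 1 = β a → Q a → Q b) {u : V} :
    ∀ (k : ℕ) (a b : V), UpC G β u k a → β b = β a → G.dist a b ≤ 2 * k →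
      G.dist v a + 3 * k ≤ B → G.dist v b + 3 * k ≤ B → Q b → Q u := by
  intro k
  induction k with
  | zero =>
    intro a b h1 h2 h3 h4 h5 h6
    have h7 : a = u := h1
    have h8 : a = b := h.conn.dist_eq_zero_iff.mp (by omega)
    rw [← h7, h8]
    exact h6
  | succ k ih =>
    intro a b h1 h2 h3 h4 h5 h6
    obtain ⟨a1, haa1, hβa1, hup⟩ := h1
    obtain ⟨b1, hbb1, hβb1, hb1⟩ := hd b (by omega)
    have hQb1 : Q b1 := hQ b b1 (by omega) hbb1 hβb1 h6
    have s1 := dist_step h v haa1
    have s2 := dist_step h v hbb1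
    refine ih a1 b1 hup (by omega) ?_ (by omega) (by omega) hQb1
    by_cases hab : a = b
    · subst hab
      have : a1 = b1 := by
        by_contra hcon
        have := hb1 a1 haa1 hcon
        omega
      subst this
      rw [SimpleGraph.dist_self]
      omega
    · have t1 := toward h hd hab h2 haa1 hβa1 (by omega)
      have t2 := toward h hd (Ne.symm hab) h2.symm hbb1 hβb1 (by
        rw [G.dist_comm (u := b) (v := a)]; omega)
      have c1 := G.dist_comm (u := b) (v := a)
      have c2 := G.dist_comm (u := b) (v := a1)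
      have hne : b1 ≠ a := by
        rintro rfl
        omega
      obtain ⟨a'', ha1'', ha2''⟩ := h.exists_closer (u := b1) (w := a) hne
      have c3 := G.dist_comm (u := b1) (v := a)
      have s3 : G.dist b a'' ≤ G.dist b b1 + G.dist b1 a'' := h.conn.dist_triangle
      have s4 : G.dist b b1 = 1 := SimpleGraph.dist_eq_one_iff_adj.mpr hbb1
      have : a1 = a'' := h.closer_unique (u := b) (w := a) (by omega) haa1 ha1''
        (by omega) (by omega)
      subst this
      have c4 := G.dist_comm (u := b1) (v := a1)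
      omega

theorem exists_up {r : ℕ} (h : TreeLike G r) {β : V → ℕ} {v : V} {B : ℕ}
    (hd : DownOn G β v B) (u : V) :
    ∀ k, G.dist v u + k ≤ B → ∃ a, UpC G β u k a ∧ G.dist u a ≤ k := by
  intro k
  induction k with
  | zero =>
    intro _
    exact ⟨u, rfl, by simp⟩
  | succ k ih =>
    intro hk
    obtain ⟨a, ha1, ha2⟩ := ih (by omega)
    have h1 := h.conn.dist_triangle (u := v) (v := u) (w := a)
    obtain ⟨a', hu1, hu2, hu3⟩ := hd a (by omega)
    have hcard : 1 < (G.neighborFinset a).card := by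
      rw [SimpleGraph.card_neighborFinset_eq_degree, h.deg a]
      norm_num
    obtain ⟨w, hw1, hw2⟩ := Finset.exists_mem_ne hcard a'
    have hw1' : G.Adj a w := by simpa using hw1
    have h3 := hu3 w hw1' hw2
    refine ⟨w, ⟨a, hw1'.symm, by omega, ha1⟩, ?_⟩
    have := dist_step h u hw1'
    omega

end Center

open Center in
/-- MODULE LOCAL-3. Existence of centres. -/
theorem exists_center {V : Type} [Fintype V] [DecidableEq V] (G : SimpleGraph V)
    [DecidableRel G.Adj] (T R r : ℕ) (q : V → V → ℤ) (v x0 : V)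
    (hTR : 4 * (T + 4) * (T + 4) ≤ R)
    (hr : 20 * R ≤ r) (h : TreeLike G r) (hs : Sheet G q v x0 T R) (hp : Par G q v x0) :
    ∃ ρ ≤ T, ∀ u, G.dist v u + 2 * (T + 4) * (T + 4) ≤ R →
      ∃ m, (∀ x, q u x ≠ 0 → G.dist m x ≤ ρ) ∧
        ∀ o, 4 * R ≤ G.dist x0 o → G.dist x0 o ≤ 8 * R → bt G q o u + ρ = G.dist m o := by
  classical
  have tri : ∀ a b c : V, G.dist a c ≤ G.dist a b + G.dist b c := fun a b c =>
    h.conn.dist_triangle
  have dc : ∀ a b : V, G.dist a b = G.dist b a := fun a b => G.dist_comm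
  have hK1 : 4 * (T + 4) * (T + 4) = 4 * ((T + 4) * (T + 4)) := by ring
  have hK2 : 2 * (T + 4) * (T + 4) = 2 * ((T + 4) * (T + 4)) := by ring
  have hK3 : (T + 4) * (T + 4) = (T + 2) * (T + 2) + 4 * T + 12 := by ring
  rw [hK1] at hTR
  rw [hK2]
  set K := (T + 4) * (T + 4) with hKdef
  clear_value K
  set S2 := (T + 2) * (T + 2) with hSdef
  have hS0 : S2 = (T + 2) * (T + 2) := hSdef
  clear_value S2
  -- the kernel
  let M : V → V → ℤ := fun x x' => ∑ u ∈ univ.filter (fun u => G.dist v u ≤ R), q u x * q u x'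
  have hMdef : ∀ x x', M x x' = ∑ u ∈ univ.filter (fun u => G.dist v u ≤ R), q u x * q u x' :=
    fun _ _ => rfl
  have hMne : ∀ x y, M x y ≠ 0 → ∃ u, G.dist v u ≤ R ∧ q u x ≠ 0 ∧ q u y ≠ 0 := by
    intro x y hxy
    obtain ⟨u, hu, hu2⟩ := Finset.exists_ne_zero_of_sum_ne_zero hxy
    simp only [mem_filter, mem_univ, true_and] at hu
    exact ⟨u, hu, left_ne_zero_of_mul hu2, right_ne_zero_of_mul hu2⟩
  have hMpos : ∀ u x y, G.dist v u ≤ R → q u x ≠ 0 → q u y ≠ 0 → M x y ≠ 0 := by
    intro u x y hu hx hy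
    apply ne_of_gt
    rw [hMdef]
    apply Finset.sum_pos'
    · intro i _
      exact mul_nonneg (hs.nonneg _ _) (hs.nonneg _ _)
    · refine ⟨u, by simpa using hu, ?_⟩
      exact mul_pos (lt_of_le_of_ne (hs.nonneg _ _) (Ne.symm hx))
        (lt_of_le_of_ne (hs.nonneg _ _) (Ne.symm hy))
  have sumBN : ∀ F : V → V → ℤ,
      ∑ u ∈ univ.filter (fun u => G.dist v u ≤ R), ∑ u' ∈ G.neighborFinset u, F u u' =
      ∑ u, ∑ u', if (G.dist v u ≤ R ∧ G.Adj u u') then F u u' else 0 := by
    intro F
    rw [Finset.sum_filter]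
    apply Finset.sum_congr rfl
    intro u _
    by_cases hu : G.dist v u ≤ R
    · simp only [hu, if_true, true_and]
      rw [SimpleGraph.neighborFinset_eq_filter, Finset.sum_filter]
    · simp [hu]
  have hMcomm : ∀ x y, G.dist x0 x + T + 1 ≤ R → G.dist x0 y + T + 1 ≤ R →
      ∑ x' ∈ G.neighborFinset x, M x' y = ∑ y' ∈ G.neighborFinset y, M x y' := by
    intro x y hx hy
    have e1 : ∑ x' ∈ G.neighborFinset x, M x' y =
        ∑ u ∈ univ.filter (fun u => G.dist v u ≤ R), ∑ u' ∈ G.neighborFinset u,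
          q u' x * q u y := by
      simp only [hMdef]
      rw [Finset.sum_comm]
      apply Finset.sum_congr rfl
      intro u hu
      simp only [mem_filter, mem_univ, true_and] at hu
      rw [← Finset.sum_mul, ← Finset.sum_mul, hs.comm u x hu (by omega)]
    have e2 : ∑ y' ∈ G.neighborFinset y, M x y' =
        ∑ u ∈ univ.filter (fun u => G.dist v u ≤ R), ∑ u' ∈ G.neighborFinset u,
          q u x * q u' y := by
      simp only [hMdef]
      rw [Finset.sum_comm]
      apply Finset.sum_congr rfl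
      intro u hu
      simp only [mem_filter, mem_univ, true_and] at hu
      rw [← Finset.mul_sum, ← Finset.mul_sum, hs.comm u y hu (by omega)]
    rw [e1, e2, sumBN, sumBN, Finset.sum_comm]
    apply Finset.sum_congr rfl
    intro u _
    apply Finset.sum_congr rfl
    intro u' _
    by_cases hadj : G.Adj u u'
    · have hadj' := hadj.symm
      simp only [hadj, hadj', and_true]
      by_cases h1 : G.dist v u ≤ R
      · by_cases h2 : G.dist v u' ≤ R
        · simp only [h1, h2, if_true]
        · simp only [h1, h2, if_true, if_false]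
          have := dist_step h v hadj
          by_contra hne
          have h3 : q u' y ≠ 0 := right_ne_zero_of_mul (Ne.symm hne)
          have := hs.near2 u' y (by omega) h3
          omega
      · by_cases h2 : G.dist v u' ≤ R
        · simp only [h1, h2, if_true, if_false]
          have := dist_step h v hadj'
          by_contra hne
          have h3 : q u x ≠ 0 := left_ne_zero_of_mul hne
          have := hs.near2 u x (by omega) h3
          omega
        · simp only [h1, h2, if_false]
    · have hadj' : ¬ G.Adj u' u := fun hh => hadj hh.symm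
      simp only [hadj, hadj', and_false, if_false]
  obtain ⟨R1, hR1⟩ : ∃ R1, R = R1 + S2 + T + 2 := ⟨R - S2 - T - 2, by omega⟩
  obtain ⟨c, hcT, hc⟩ := radial T R1 V G r x0 M h (by rw [← hS0]; omega)
    (by
      rw [← hS0]
      intro x y hx hy
      exact hMcomm x y (by omega) (by omega))
    (by
      rw [← hS0]
      intro x y hx hy hxy
      by_contra hne
      obtain ⟨u, hu1, hu2, hu3⟩ := hMne x y hne
      have := hs.diam1 u x y (by omega) hu2 hu3
      omega)
  have hc0 : c 0 ≠ 0 := by
    have h1 := hMpos v x0 x0 (by simp) hs.base hs.base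
    rw [hc x0 x0 (by simp) (by simp), SimpleGraph.dist_self] at h1
    exact h1
  set s := Nat.findGreatest (fun t => c t ≠ 0) T with hsdef
  have hsT : s ≤ T := Nat.findGreatest_le T
  have hcs : c s ≠ 0 := Nat.findGreatest_spec (P := fun t => c t ≠ 0) (Nat.zero_le T) hc0
  have hcmax : ∀ t, c t ≠ 0 → t ≤ s := by
    intro t ht
    have htT : t ≤ T := by
      by_contra hcon
      exact ht (hcT t (by omega))
    exact Nat.le_findGreatest htT ht
  clear_value s
  -- s is even
  have hseven : Even s := by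
    obtain ⟨y, hy1, hy2⟩ := h.extend (a := x0) (b := x0) s (by simp; omega)
    have h1 : M x0 y ≠ 0 := by
      rw [hc x0 y (by simp) (by omega), hy1]
      exact hcs
    obtain ⟨u, _, hu2, hu3⟩ := hMne _ _ h1
    have p1 := hp u x0 hu2
    have p2 := hp u y hu3
    rw [SimpleGraph.dist_self, add_zero] at p1
    rw [hy1] at p2
    exact (Nat.even_add.mp p2).mp p1
  obtain ⟨ρ, hρ⟩ := hseven
  -- any two points of a support have distance at most s
  have hdiam : ∀ u x y, G.dist v u ≤ R → q u x ≠ 0 → q u y ≠ 0 → G.dist x0 x ≤ R1 →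
      G.dist x0 y ≤ R1 → G.dist x y ≤ s := by
    intro u x y hu hx hy hx1 hy1
    apply hcmax
    rw [← hc x y hx1 hy1]
    exact hMpos u x y hu hx hy
  have btle : ∀ o u x, q u x ≠ 0 → bt G q o u ≤ G.dist x o := by
    intro o u x hx
    exact Nat.sInf_le ⟨x, hx, rfl⟩
  refine ⟨ρ, by omega, ?_⟩
  intro u hu
  -- range of heights
  have hrange : ∀ o, 4 * R ≤ G.dist x0 o → G.dist x0 o ≤ 8 * R →
      (∃ x, q u x ≠ 0 ∧ G.dist x o = bt G q o u) ∧
      ∃ x', q u x' ≠ 0 ∧ bt G q o u + s ≤ G.dist x' o := by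
    intro o ho1 ho2
    have hud := fun u (hu : G.dist v u + T + 3 ≤ R) =>
      unique_down G T R r q v x0 (by omega) hr h hs hp o ho1 ho2 u hu
    refine ⟨(hud u (by omega)).1, ?_⟩
    obtain ⟨B, hB⟩ : ∃ B, R = B + T + 3 := ⟨R - T - 3, by omega⟩
    have hd : DownOn G (bt G q o) v B := fun w hw => (hud w (by omega)).2
    have hQ : ∀ a b, G.dist v a ≤ B → G.Adj a b → bt G q o b + 1 = bt G q o a →
        (∃ x', q a x' ≠ 0 ∧ bt G q o a + s ≤ G.dist x' o) →
        (∃ x', q b x' ≠ 0 ∧ bt G q o b + s ≤ G.dist x' o) := by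
      rintro a b ha hab hβ ⟨x', hx1, hx2⟩
      have hsb := dist_step h v hab
      have hn := hs.near1 a x' (by omega) hx1
      have hcm := hs.comm b x' (by omega) (by omega)
      have hpos : 0 < ∑ u' ∈ G.neighborFinset b, q u' x' := by
        apply Finset.sum_pos'
        · intro i _
          exact hs.nonneg _ _
        · exact ⟨a, by simpa using hab.symm, lt_of_le_of_ne (hs.nonneg _ _) (Ne.symm hx1)⟩
      rw [hcm] at hpos
      obtain ⟨y, hy1, hy2⟩ := Finset.exists_ne_zero_of_sum_ne_zero (ne_of_gt hpos)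
      refine ⟨y, hy2, ?_⟩
      have hadj : G.Adj x' y := by simpa using hy1
      have := dist_step h o hadj.symm
      rw [dc o x', dc o y] at this
      omega
    obtain ⟨u0, hu01, hu02⟩ := exists_up h hd u T (by omega)
    have hvu0 := tri v u u0
    obtain ⟨x, hx1, hx2⟩ := (hud u0 (by omega)).1
    have hxn := hs.near1 u0 x (by omega) hx1
    have hox : G.dist o x ≤ G.dist o x0 + G.dist x0 x := tri o x0 x
    rw [dc o x0] at hox
    obtain ⟨x', hx'1, hx'2⟩ := h.extend (a := o) (b := x) s (by omega)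
    have hx0x' := tri x0 x x'
    have hM1 : M x x' ≠ 0 := by
      rw [hc x x' (by omega) (by omega), hx'1]
      exact hcs
    obtain ⟨u1, hu1, hu1x, hu1x'⟩ := hMne _ _ hM1
    have hu01d := hs.diam2 u0 u1 x (by omega) (by omega) hx1 hu1x
    have hvu1 := tri v u0 u1
    have hb1 := btle o u1 x hu1x
    obtain ⟨y, hy1, hy2⟩ := (hud u1 (by omega)).1
    have hyn := hs.near1 u1 y (by omega) hy1
    have hyx' := hdiam u1 y x' hu1 hy1 hu1x' (by omega) (by omega)
    have t1 := tri x' y o
    rw [dc x' y, dc x' o, hx'2, dc o x] at t1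
    refine meet h (by omega) hd hQ T u0 u1 hu01 (by omega) (by omega) (by omega) (by omega) ?_
    refine ⟨x', hu1x', ?_⟩
    rw [dc x' o, hx'2, dc o x]
    omega
  -- the centre
  obtain ⟨o0, ho1, ho2⟩ := h.extend (a := x0) (b := x0) (4 * R) (by simp; omega)
  obtain ⟨⟨x, hx1, hx2⟩, x', hx'1, hx'2⟩ := hrange o0 (by omega) (by omega)
  have near : ∀ y, q u y ≠ 0 → G.dist x0 y ≤ R1 := by
    intro y hy
    have := hs.near1 u y (by omega) hy
    omega
  have hR1u : G.dist v u ≤ R := by omega
  have d1 := hdiam u x x' hR1u hx1 hx'1 (near x hx1) (near x' hx'1)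
  have d2 := tri x' x o0
  rw [dc x' x] at d2
  have d3 : G.dist x x' = ρ + ρ := by omega
  obtain ⟨m, hm1, hm2⟩ := h.exists_between (a := x) (b := x') ρ (by omega)
  have hmall : ∀ y, q u y ≠ 0 → G.dist m y ≤ ρ := by
    intro y hy
    have e1 := hdiam u y x hR1u hy hx1 (near y hy) (near x hx1)
    have e2 := hdiam u y x' hR1u hy hx'1 (near y hy) (near x' hx'1)
    have := h.four_point (a := y) (b := m) (c := x) (e := x') (by omega)
      (by rw [dc m x]; omega)
    rw [dc m x] at this
    rw [dc m y]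
    have hmax : max (G.dist y x + G.dist m x') (G.dist y x' + G.dist x m) ≤ 3 * ρ := by
      apply max_le <;> omega
    omega
  refine ⟨m, hmall, ?_⟩
  intro o ho1 ho2
  obtain ⟨⟨y, hy1, hy2⟩, y', hy'1, hy'2⟩ := hrange o ho1 ho2
  have e1 := hmall y hy1
  have e2 := hmall y' hy'1
  have e3 := tri m y o
  have e4 := tri y' m o
  rw [dc y' m] at e4
  omega

end Pool.Agent.H18.Cage
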