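import Pool.Agent.H18.Cage.Local3

/-! Module LOCAL-4. -/

set_option autoImplicit false

namespace Pool.Agent.H18.Cage

open Polynomial Matrix Finset

open Center in
/-- MODULE LOCAL-4. The local isomorphism. -/
theorem exists_locIso {V : Type} [Fintype V] [DecidableEq V] (G : SimpleGraph V)
    [DecidableRel G.Adj] (T R R0 r : ℕ) (q : V → V → ℤ) (v x0 : V)
    (hTR : 4 * (T + 4) * (T + 4) ≤ R) (hR0 : R0 + 2 * (T + 4) * (T + 4) + 2 ≤ R)
    (hr : 20 * R ≤ r) (h : TreeLike G r) (hs : Sheet G q v x0 T R) (hp : Par G q v x0) :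
    ∃ (φ : V → V) (m : V), LocIso G R0 v m φ ∧
      ∀ u, G.dist v u ≤ R0 → ∀ x, q u x ≠ 0 → G.dist (φ u) x ≤ T := by
  classical
  have tri : ∀ a b c : V, G.dist a c ≤ G.dist a b + G.dist b c := fun a b c =>
    h.conn.dist_triangle
  have dc : ∀ a b : V, G.dist a b = G.dist b a := fun a b => G.dist_comm
  obtain ⟨ρ, hρT, hcen⟩ := exists_center G T R r q v x0 hTR hr h hs hp
  have hK1 : 4 * (T + 4) * (T + 4) = 4 * ((T + 4) * (T + 4)) := by ring
  have hK2 : 2 * (T + 4) * (T + 4) = 2 * ((T + 4) * (T + 4)) := by ring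
  have hK3 : (T + 4) * (T + 4) = (T + 2) * (T + 2) + 4 * T + 12 := by ring
  rw [hK1] at hTR
  rw [hK2] at hR0 hcen
  set K := (T + 4) * (T + 4) with hKdef
  clear_value K
  set S2 := (T + 2) * (T + 2) with hSdef
  clear_value S2
  choose! φ hφ1 hφ2 using hcen
  -- a far point exists
  obtain ⟨o0, ho01, ho02⟩ := h.extend (a := x0) (b := x0) (4 * R) (by simp; omega)
  rw [SimpleGraph.dist_self] at ho02
  have hball : ∀ u, G.dist v u + 2 * K ≤ R → G.dist x0 (φ u) + 1 ≤ R := by
    intro u hu
    obtain ⟨x, hx1, _⟩ := (unique_down G T R r q v x0 (by omega) hr h hs hp o0 (by omega)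
      (by omega) u (by omega)).1
    have h1 := hs.near1 u x (by omega) hx1
    have h2 := hφ1 u hu x hx1
    have h3 := tri x0 x (φ u)
    rw [dc x (φ u)] at h3
    omega
  -- descending neighbours in terms of `φ`
  have hdown : ∀ o, 4 * R ≤ G.dist x0 o → G.dist x0 o ≤ 8 * R → ∀ u,
      G.dist v u + 1 + 2 * K ≤ R → ∃ u', G.Adj u u' ∧ G.dist (φ u') o + 1 = G.dist (φ u) o ∧
        ∀ u'', G.Adj u u'' → u'' ≠ u' → G.dist (φ u'') o = G.dist (φ u) o + 1 := by
    intro o ho1 ho2 u hu
    obtain ⟨u', hu1, hu2, hu3⟩ := (unique_down G T R r q v x0 (by omega) hr h hs hp o ho1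
      ho2 u (by omega)).2
    have e0 := hφ2 u (by omega) o ho1 ho2
    have s1 := dist_step h v hu1
    have e1 := hφ2 u' (by omega) o ho1 ho2
    refine ⟨u', hu1, by omega, ?_⟩
    intro u'' hadj hne
    have s2 := dist_step h v hadj
    have e2 := hφ2 u'' (by omega) o ho1 ho2
    have e3 := hu3 u'' hadj hne
    omega
  have hadj : ∀ u u', G.dist v u + 1 + 2 * K ≤ R → G.Adj u u' → G.Adj (φ u) (φ u') := by
    intro u u' hu huu'
    have s1 := dist_step h v huu'
    have b1 := hball u (by omega)
    have b2 := hball u' (by omega)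
    have b3 := tri (φ u) x0 (φ u')
    rw [dc (φ u) x0] at b3
    obtain ⟨o, ho1, ho2⟩ := h.extend (a := φ u) (b := φ u') (6 * R) (by omega)
    have f1 := tri x0 (φ u') o
    have f2 := tri (φ u') x0 o
    rw [dc (φ u') x0] at f2
    obtain ⟨w, hw1, hw2, hw3⟩ := hdown o (by omega) (by omega) u hu
    have key : G.dist (φ u) (φ u') = 1 := by
      by_cases hc : u' = w
      · subst hc
        omega
      · have := hw3 u' huu' hc
        omega
    exact SimpleGraph.dist_eq_one_iff_adj.mp key
  have hsurj : ∀ u, G.dist v u + 1 + 2 * K ≤ R → ∀ s, G.Adj (φ u) s →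
      ∃ u', G.Adj u u' ∧ φ u' = s := by
    intro u hu s hsadj
    have b1 := hball u (by omega)
    have b2 := dist_step h x0 hsadj
    have b3 : G.dist (φ u) s = 1 := SimpleGraph.dist_eq_one_iff_adj.mpr hsadj
    obtain ⟨o, ho1, ho2⟩ := h.extend (a := φ u) (b := s) (6 * R) (by omega)
    have f1 := tri x0 s o
    have f2 := tri s x0 o
    rw [dc s x0] at f2
    obtain ⟨w, hw1, hw2, hw3⟩ := hdown o (by omega) (by omega) u hu
    refine ⟨w, hw1, ?_⟩
    have d1 := dc o (φ u)
    have d2 := dc o (φ w)
    have d3 := dc o s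
    exact h.closer_unique (u := o) (w := φ u) (by omega) (hadj u w hu hw1) hsadj
      (by omega) (by omega)
  have hinj : ∀ u, G.dist v u + 1 + 2 * K ≤ R → ∀ a b, G.Adj u a → G.Adj u b → φ a = φ b →
      a = b := by
    intro u hu a b ha hb hab
    have hI : Set.InjOn φ (G.neighborFinset u : Set V) := by
      apply Finset.injOn_of_surjOn_of_card_le (t := G.neighborFinset (φ u))
      · intro w hw
        simp only [SimpleGraph.coe_neighborFinset, SimpleGraph.mem_neighborSet] at hw ⊢
        exact hadj u w hu hw
      · intro s hs'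
        simp only [SimpleGraph.coe_neighborFinset, SimpleGraph.mem_neighborSet] at hs'
        obtain ⟨w, hw1, hw2⟩ := hsurj u hu s hs'
        exact ⟨w, by simpa using hw1, hw2⟩
      · rw [SimpleGraph.card_neighborFinset_eq_degree, SimpleGraph.card_neighborFinset_eq_degree,
          h.deg, h.deg]
    exact hI (by simpa using ha) (by simpa using hb) hab
  refine ⟨φ, φ v, ⟨rfl, ?_, ?_⟩, ?_⟩
  · -- isometry
    have stay : ∀ u w u', G.dist v u ≤ R0 → G.dist v w ≤ R0 → G.Adj u u' →
        G.dist w u' + 1 = G.dist w u → G.dist v u' ≤ R0 := by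
      intro u w u' hu hw huu' hd
      have t1 := tri u v w
      rw [dc u v] at t1
      have t2 : G.dist u u' = 1 := SimpleGraph.dist_eq_one_iff_adj.mpr huu'
      have c1 := dc u u'
      have c2 := dc u w
      have c3 := dc u' w
      have := h.four_point (a := v) (b := u') (c := u) (e := w) (by omega) (by omega)
      have hmax : max (G.dist v u + G.dist u' w) (G.dist v w + G.dist u' u) ≤
          R0 + G.dist u w := by
        apply max_le <;> omega
      omega
    have main : ∀ n, ∀ u w, G.dist v u ≤ R0 → G.dist v w ≤ R0 → G.dist u w = n →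
        G.dist (φ u) (φ w) = n := by
      intro n
      induction n using Nat.twoStepInduction with
      | zero =>
        intro u w _ _ hd
        have : u = w := h.conn.dist_eq_zero_iff.mp hd
        subst this
        simp
      | one =>
        intro u w hu hw hd
        exact SimpleGraph.dist_eq_one_iff_adj.mpr
          (hadj u w (by omega) (SimpleGraph.dist_eq_one_iff_adj.mp hd))
      | more n ih1 ih2 =>
        intro u w hu hw hd
        have c1 := dc w u
        have hne : w ≠ u := by
          rintro rfl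
          rw [SimpleGraph.dist_self] at hd
          omega
        obtain ⟨u', hu'1, hu'2⟩ := h.exists_closer hne
        have c2 := dc w u'
        have hne' : w ≠ u' := by
          rintro rfl
          rw [SimpleGraph.dist_self] at hu'2
          omega
        obtain ⟨u'', hu''1, hu''2⟩ := h.exists_closer hne'
        have c3 := dc w u''
        have b1 := stay u w u' hu hw hu'1 hu'2
        have b2 := stay u' w u'' b1 hw hu''1 hu''2
        have i1 := ih2 u' w b1 hw (by omega)
        have i2 := ih1 u'' w b2 hw (by omega)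
        have a1 := hadj u' u (by omega) hu'1.symm
        have a2 := hadj u' u'' (by omega) hu''1
        have hnn : u ≠ u'' := by
          rintro rfl
          omega
        have hφn : φ u ≠ φ u'' := fun hh => hnn (hinj u' (by omega) u u'' hu'1.symm hu''1 hh)
        have t1 := tri u v w
        rw [dc u v] at t1
        have e1 := dc (φ w) (φ u)
        have e2 := dc (φ w) (φ u')
        have e3 := dc (φ w) (φ u'')
        have lower : ¬ G.dist (φ w) (φ u) ≤ G.dist (φ w) (φ u') := fun hle =>
          hφn (h.closer_unique (u := φ w) (w := φ u') (by omega) a1 a2 hle (by omega))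
        have upper := dist_step h (φ w) a1
        omega
    intro u w hu hw
    exact main _ u w hu hw rfl
  · -- onto
    have main : ∀ n, n ≤ R0 → ∀ y, G.dist (φ v) y = n → ∃ u, G.dist v u ≤ n ∧ φ u = y := by
      intro n
      induction n with
      | zero =>
        intro _ y hy
        exact ⟨v, by simp, h.conn.dist_eq_zero_iff.mp hy⟩
      | succ n ih =>
        intro hn y hy
        have hne : φ v ≠ y := by
          intro hh
          rw [hh, SimpleGraph.dist_self] at hy
          omega
        obtain ⟨y', hy1, hy2⟩ := h.exists_closer hne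
        obtain ⟨u', hu1, hu2⟩ := ih (by omega) y' (by omega)
        obtain ⟨u, hu3, hu4⟩ := hsurj u' (by omega) y (by rw [hu2]; exact hy1.symm)
        have := dist_step h v hu3
        exact ⟨u, by omega, hu4⟩
    intro y hy
    obtain ⟨u, hu1, hu2⟩ := main _ hy y rfl
    exact ⟨u, by omega, hu2⟩
  · intro u hu x hx
    exact (hφ1 u (by omega) x hx).trans hρT

end Pool.Agent.H18.Cage
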