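import Pool.Agent.H18.Cage.Local4
import Pool.Agent.H18.Cage.Local1

/-! Module LOCAL-5. -/

set_option autoImplicit false

namespace Pool.Agent.H18.Cage

open Polynomial Matrix Finset

/-- MODULE LOCAL-5. Classification of a nearby cluster. -/
theorem local_class (T R0 : ℕ) : ∃ R : ℕ,
    ∀ (V : Type) [Fintype V] [DecidableEq V] (G : SimpleGraph V) [DecidableRel G.Adj]
      (r : ℕ) (E : Matrix V V ℤ) (v x0 : V), R ≤ r → TreeLike G r →
      (∀ u v, 0 ≤ E u v) → E.IsSymm → G.adjMatrix ℤ * E = E * G.adjMatrix ℤ →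
      E v x0 ≠ 0 →
      (∀ u, G.dist v u ≤ R → ∀ x y, E u x ≠ 0 → E u y ≠ 0 → G.dist x y ≤ T ∨ R < G.dist x y) →
      (∀ x, G.dist x0 x ≤ R → ∀ u w, E u x ≠ 0 → E w x ≠ 0 → G.dist u w ≤ T ∨ R < G.dist u w) →
      ∃ (φ : V → V) (c : ℕ → ℤ) (m : V), LocIso G R0 v m φ ∧ G.dist m x0 ≤ T ∧
        (∀ u y, G.dist v u ≤ R0 → G.dist m y ≤ R0 → E u y = c (G.dist (φ u) y)) := by
  obtain ⟨K, hK⟩ : ∃ K, K = (T + 4) * (T + 4) := ⟨_, rfl⟩
  obtain ⟨L, hL⟩ : ∃ L, L = (2 * T + 2) * (2 * T + 2) := ⟨_, rfl⟩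
  obtain ⟨R0', hR0'⟩ : ∃ R0', R0' = R0 + L + 2 := ⟨_, rfl⟩
  obtain ⟨Rs, hRs⟩ : ∃ Rs, Rs = R0' + 4 * K + 2 := ⟨_, rfl⟩
  obtain ⟨Rb, hRb⟩ : ∃ Rb, Rb = 20 * (Rs + T + 2) := ⟨_, rfl⟩
  have hK1 : 4 * (T + 4) * (T + 4) = 4 * K := by rw [hK]; ring
  have hK2 : 2 * (T + 4) * (T + 4) = 2 * K := by rw [hK]; ring
  have hK3 : K = T * T + 8 * T + 16 := by rw [hK]; ring
  have hTT : 0 ≤ T * T := Nat.zero_le _
  refine ⟨Rb, ?_⟩
  intro V _ _ G _ r E v x0 hr h hE0 hsymm hcomm hbase H2 H3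
  classical
  have tri : ∀ a b c : V, G.dist a c ≤ G.dist a b + G.dist b c := fun a b c =>
    h.conn.dist_triangle
  have dc : ∀ a b : V, G.dist a b = G.dist b a := fun a b => G.dist_comm
  obtain ⟨q, q0, hs, hs0, hp, hqE, hq0q⟩ := exists_sheets G T Rs Rb r E v x0 (by omega)
    (by omega) hr h hE0 hsymm hcomm hbase H2 H3
  obtain ⟨φ, m, hφ, hφT⟩ := exists_locIso G T Rs R0' r q0 v x0 (by rw [hK1]; omega)
    (by rw [hK2]; omega) (by omega) h hs0 hp
  have hmx0 : G.dist m x0 ≤ T := by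
    have := hφT v (by simp) x0 hs0.base
    rwa [hφ.base] at this
  obtain ⟨o0, ho01, ho02⟩ := h.extend (a := x0) (b := x0) (4 * Rs) (by simp; omega)
  rw [SimpleGraph.dist_self] at ho02
  have hφ2T : ∀ u, G.dist v u ≤ R0' → ∀ y, q u y ≠ 0 → G.dist (φ u) y ≤ 2 * T := by
    intro u hu y hy
    obtain ⟨x, hx1, _⟩ := (unique_down G T Rs r q0 v x0 (by omega) (by omega) h hs0 hp o0
      (by omega) (by omega) u (by omega)).1
    have h1 := hφT u hu x hx1
    have h2 := hs.diam1 u x y (by omega) (hq0q u x hx1) hy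
    have h3 := tri (φ u) x y
    omega
  -- injectivity and the inverse map
  have hφinj : ∀ a b, G.dist v a ≤ R0' → G.dist v b ≤ R0' → φ a = φ b → a = b := by
    intro a b ha hb hab
    have h1 := hφ.iso a b ha hb
    rw [hab, SimpleGraph.dist_self] at h1
    exact h.conn.dist_eq_zero_iff.mp h1.symm
  have hφd : ∀ u, G.dist v u ≤ R0' → G.dist m (φ u) = G.dist v u := by
    intro u hu
    have h1 := hφ.iso v u (by simp) hu
    rwa [hφ.base] at h1
  have honto : ∀ x, ∃ u, G.dist m x ≤ R0' → (G.dist v u ≤ R0' ∧ φ u = x) := by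
    intro x
    by_cases hx : G.dist m x ≤ R0'
    · obtain ⟨u, hu⟩ := hφ.onto x hx
      exact ⟨u, fun _ => hu⟩
    · exact ⟨x, fun hh => absurd hh hx⟩
  choose ψ hψ using honto
  have hψφ : ∀ u, G.dist v u ≤ R0' → ψ (φ u) = u := by
    intro u hu
    have h1 := hψ (φ u) (by rw [hφd u hu]; exact hu)
    exact hφinj _ _ h1.1 hu h1.2
  obtain ⟨c, hcT, hc⟩ := radial (2 * T) R0 V G r m (fun x y => q (ψ x) y) h
    (by rw [← hL]; omega)
    (by
      rw [← hL]
      intro x y hx hy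
      obtain ⟨hu1, hu2⟩ := hψ x (by omega)
      have hu3 := hφd (ψ x) hu1
      rw [hu2] at hu3
      have hx0y := tri x0 m y
      rw [dc x0 m] at hx0y
      rw [← hs.comm (ψ x) y (by omega) (by omega)]
      apply Finset.sum_nbij' (fun x' => ψ x') (fun u' => φ u')
      · intro x' hx'
        have hadj : G.Adj x x' := by simpa using hx'
        have e1 : G.dist x x' = 1 := SimpleGraph.dist_eq_one_iff_adj.mpr hadj
        have t := tri m x x'
        obtain ⟨hv1, hv2⟩ := hψ x' (by omega)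
        have e2 := hφ.iso (ψ x) (ψ x') hu1 hv1
        rw [hu2, hv2, e1] at e2
        have e3 : G.Adj (ψ x) (ψ x') := SimpleGraph.dist_eq_one_iff_adj.mp e2.symm
        simpa using e3
      · intro u' hu'
        have hadj : G.Adj (ψ x) u' := by simpa using hu'
        have e1 : G.dist (ψ x) u' = 1 := SimpleGraph.dist_eq_one_iff_adj.mpr hadj
        have t := tri v (ψ x) u'
        have e2 := hφ.iso (ψ x) u' hu1 (by omega)
        rw [hu2, e1] at e2
        have e3 : G.Adj x (φ u') := SimpleGraph.dist_eq_one_iff_adj.mp e2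
        simpa using e3
      · intro x' hx'
        have hadj : G.Adj x x' := by simpa using hx'
        have e1 : G.dist x x' = 1 := SimpleGraph.dist_eq_one_iff_adj.mpr hadj
        have t := tri m x x'
        exact (hψ x' (by omega)).2
      · intro u' hu'
        have hadj : G.Adj (ψ x) u' := by simpa using hu'
        have e1 : G.dist (ψ x) u' = 1 := SimpleGraph.dist_eq_one_iff_adj.mpr hadj
        have t := tri v (ψ x) u'
        exact hψφ u' (by omega)
      · intro x' _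
        rfl)
    (by
      rw [← hL]
      intro x y hx hy hxy
      by_contra hne
      obtain ⟨hu1, hu2⟩ := hψ x (by omega)
      have := hφ2T (ψ x) hu1 y hne
      rw [hu2] at this
      omega)
  refine ⟨φ, c, m, ⟨hφ.base, ?_, ?_⟩, hmx0, ?_⟩
  · intro u w hu hw
    exact hφ.iso u w (by omega) (by omega)
  · intro y hy
    obtain ⟨u, hu1, hu2⟩ := hφ.onto y (by omega)
    refine ⟨u, ?_, hu2⟩
    rw [← hφd u hu1, hu2]
    exact hy
  · intro u y hu hy
    have h1 := hc (φ u) y (by rw [hφd u (by omega)]; exact hu) hy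
    rw [hψφ u (by omega)] at h1
    have hx0y := tri x0 m y
    rw [dc x0 m] at hx0y
    rw [← hqE u y (by omega) (by omega)]
    exact h1

end Pool.Agent.H18.Cage
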