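import Mathlib

/-! Module LOGKERNEL: the smoothed logarithmic kernel. -/

set_option autoImplicit false

namespace Pool.Agent.H18.Cage

open Finset

/-- Smoothed logarithmic kernel. -/
noncomputable def Lk (ρ θ θ' : ℝ) : ℝ :=
  (1 / 2) * Real.log (1 - 2 * ρ * Real.cos (θ + θ') + ρ ^ 2) +
  (1 / 2) * Real.log (1 - 2 * ρ * Real.cos (θ - θ') + ρ ^ 2)

theorem hasSum_log_kernel (ρ a : ℝ) (h0 : 0 < ρ) (h1 : ρ < 1) :
    HasSum (fun n : ℕ => ρ ^ n * Real.cos (n * a) / n)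
      (- ((1 / 2) * Real.log (1 - 2 * ρ * Real.cos a + ρ ^ 2))) := by
  set z : ℂ := (ρ : ℂ) * Complex.exp (a * Complex.I) with hz
  have hznorm : ‖z‖ < 1 := by
    rw [hz, norm_mul, Complex.norm_exp_ofReal_mul_I, mul_one, Complex.norm_real,
      Real.norm_eq_abs, abs_of_pos h0]
    exact h1
  have hs := Complex.hasSum_taylorSeries_neg_log hznorm
  have hre := Complex.hasSum_re hs
  have e1 : (fun n : ℕ => (z ^ n / (n : ℂ)).re) = fun n : ℕ => ρ ^ n * Real.cos (n * a) / n := by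
    funext n
    have e2 : z ^ n = ((ρ ^ n : ℝ) : ℂ) * Complex.exp (((n * a : ℝ) : ℂ) * Complex.I) := by
      rw [hz, mul_pow, ← Complex.exp_nat_mul]
      push_cast
      ring_nf
    rw [e2, Complex.div_natCast_re, Complex.re_ofReal_mul, Complex.exp_ofReal_mul_I_re]
  have e3 : (-Complex.log (1 - z)).re = - ((1 / 2) *
      Real.log (1 - 2 * ρ * Real.cos a + ρ ^ 2)) := by
    rw [Complex.neg_re, Complex.log_re]
    congr 1
    have h4 : 1 - 2 * ρ * Real.cos a + ρ ^ 2 = ‖1 - z‖ ^ 2 := by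
      rw [← Complex.normSq_eq_norm_sq, Complex.normSq_apply]
      simp only [hz, Complex.sub_re, Complex.one_re, Complex.re_ofReal_mul,
        Complex.exp_ofReal_mul_I_re, Complex.sub_im, Complex.one_im, Complex.im_ofReal_mul,
        Complex.exp_ofReal_mul_I_im]
      have := Real.sin_sq_add_cos_sq a
      nlinarith
    rw [h4, Real.log_pow]
    push_cast
    ring
  rw [e1, e3] at hre
  exact hre

/-- Negative semidefiniteness. -/
theorem sum_Lk_nonpos {ι : Type} (s : Finset ι) (θ : ι → ℝ) (ρ : ℝ) (h0 : 0 < ρ) (h1 : ρ < 1) :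
    ∑ i ∈ s, ∑ j ∈ s, Lk ρ (θ i) (θ j) ≤ 0 := by
  have hL : ∀ i j, HasSum (fun n : ℕ => 2 * (ρ ^ n / n) * (Real.cos (n * θ i) *
      Real.cos (n * θ j))) (- Lk ρ (θ i) (θ j)) := by
    intro i j
    have ha := (hasSum_log_kernel ρ (θ i + θ j) h0 h1).add
      (hasSum_log_kernel ρ (θ i - θ j) h0 h1)
    convert ha using 1
    · funext n
      have e1 : (n : ℝ) * (θ i + θ j) = n * θ i + n * θ j := by ring
      have e2 : (n : ℝ) * (θ i - θ j) = n * θ i - n * θ j := by ring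
      rw [e1, e2, Real.cos_add, Real.cos_sub]
      ring
    · unfold Lk
      ring
  have hsum : HasSum (fun n : ℕ => ∑ i ∈ s, ∑ j ∈ s, 2 * (ρ ^ n / n) * (Real.cos (n * θ i) *
      Real.cos (n * θ j))) (∑ i ∈ s, ∑ j ∈ s, (- Lk ρ (θ i) (θ j))) :=
    hasSum_sum (fun i _ => hasSum_sum (fun j _ => hL i j))
  have hnn : 0 ≤ ∑ i ∈ s, ∑ j ∈ s, (- Lk ρ (θ i) (θ j)) := by
    refine hsum.nonneg ?_
    intro n
    have : ∑ i ∈ s, ∑ j ∈ s, 2 * (ρ ^ n / n) * (Real.cos (n * θ i) * Real.cos (n * θ j))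
        = 2 * (ρ ^ n / n) * (∑ i ∈ s, Real.cos (n * θ i)) ^ 2 := by
      rw [sq, Finset.sum_mul_sum, Finset.mul_sum]
      apply Finset.sum_congr rfl
      intro i _
      rw [Finset.mul_sum]
    show 0 ≤ ∑ i ∈ s, ∑ j ∈ s, 2 * (ρ ^ n / n) * (Real.cos (n * θ i) * Real.cos (n * θ j))
    rw [this]
    positivity
  simp only [Finset.sum_neg_distrib] at hnn
  linarith

theorem kern_ge (a ρ : ℝ) : (1 - ρ) ^ 2 + ρ * (2 - 2 * Real.cos a) =
    1 - 2 * ρ * Real.cos a + ρ ^ 2 := by ring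

theorem log_le_Lk (θ θ' ρ : ℝ) (h0 : 0 < ρ) (h1 : ρ < 1)
    (hne : 4 * Real.cos θ ≠ 4 * Real.cos θ') :
    Real.log |4 * Real.cos θ - 4 * Real.cos θ'| ≤ Real.log 2 - Real.log ρ + Lk ρ θ θ' := by
  have hsq : (4 * Real.cos θ - 4 * Real.cos θ') ^ 2 =
      4 * (2 - 2 * Real.cos (θ + θ')) * (2 - 2 * Real.cos (θ - θ')) := by
    rw [Real.cos_add, Real.cos_sub]
    have e1 := Real.sin_sq_add_cos_sq θ
    have e2 := Real.sin_sq_add_cos_sq θ'
    have e3 : Real.sin θ ^ 2 = 1 - Real.cos θ ^ 2 := by linarith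
    have e4 : Real.sin θ' ^ 2 = 1 - Real.cos θ' ^ 2 := by linarith
    have e5 : 4 * (2 - 2 * (Real.cos θ * Real.cos θ' - Real.sin θ * Real.sin θ')) *
      (2 - 2 * (Real.cos θ * Real.cos θ' + Real.sin θ * Real.sin θ')) =
      16 * ((1 - Real.cos θ * Real.cos θ') ^ 2 - Real.sin θ ^ 2 * Real.sin θ' ^ 2) := by ring
    rw [e5, e3, e4]
    ring
  have hpos : 0 < (4 * Real.cos θ - 4 * Real.cos θ') ^ 2 := by
    have : 4 * Real.cos θ - 4 * Real.cos θ' ≠ 0 := sub_ne_zero.2 hne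
    positivity
  have hc1 : 0 ≤ 2 - 2 * Real.cos (θ + θ') := by linarith [Real.cos_le_one (θ + θ')]
  have hc2 : 0 ≤ 2 - 2 * Real.cos (θ - θ') := by linarith [Real.cos_le_one (θ - θ')]
  have hp1 : 0 < 2 - 2 * Real.cos (θ + θ') := by
    rcases hc1.lt_or_eq with h | h
    · exact h
    · rw [hsq, ← h] at hpos
      simp at hpos
  have hp2 : 0 < 2 - 2 * Real.cos (θ - θ') := by
    rcases hc2.lt_or_eq with h | h
    · exact h
    · rw [hsq, ← h] at hpos
      simp at hpos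
  have hlog : Real.log |4 * Real.cos θ - 4 * Real.cos θ'| =
      Real.log 2 + (1 / 2) * Real.log (2 - 2 * Real.cos (θ + θ')) +
      (1 / 2) * Real.log (2 - 2 * Real.cos (θ - θ')) := by
    have h3 : Real.log ((4 * Real.cos θ - 4 * Real.cos θ') ^ 2) =
        2 * Real.log |4 * Real.cos θ - 4 * Real.cos θ'| := by
      rw [Real.log_abs, Real.log_pow]
      push_cast
      ring
    have h4 : Real.log ((4 * Real.cos θ - 4 * Real.cos θ') ^ 2) =
        2 * Real.log 2 + Real.log (2 - 2 * Real.cos (θ + θ')) +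
        Real.log (2 - 2 * Real.cos (θ - θ')) := by
      rw [hsq, Real.log_mul (by positivity) hp2.ne', Real.log_mul (by norm_num) hp1.ne']
      rw [show (4:ℝ) = 2 ^ 2 by norm_num, Real.log_pow]
      push_cast
      ring
    linarith
  have hk : ∀ a : ℝ, 0 < 2 - 2 * Real.cos a → Real.log ρ + Real.log (2 - 2 * Real.cos a) ≤
      Real.log (1 - 2 * ρ * Real.cos a + ρ ^ 2) := by
    intro a ha
    rw [← Real.log_mul h0.ne' ha.ne', ← kern_ge]
    apply Real.log_le_log (by positivity)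
    have : 0 ≤ (1 - ρ) ^ 2 := sq_nonneg _
    linarith
  have k1 := hk _ hp1
  have k2 := hk _ hp2
  rw [hlog]
  unfold Lk
  linarith

theorem le_Lk (θ θ' ρ : ℝ) (h0 : 0 < ρ) (h1 : ρ < 1) :
    2 * Real.log (1 - ρ) ≤ Lk ρ θ θ' := by
  have hk : ∀ a : ℝ, 2 * Real.log (1 - ρ) ≤
      Real.log (1 - 2 * ρ * Real.cos a + ρ ^ 2) := by
    intro a
    rw [← kern_ge]
    have : 2 * Real.log (1 - ρ) = Real.log ((1 - ρ) ^ 2) := by
      rw [Real.log_pow]
      push_cast
      ring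
    rw [this]
    apply Real.log_le_log
    · have : 0 < 1 - ρ := by linarith
      positivity
    · have : 0 ≤ 2 - 2 * Real.cos a := by linarith [Real.cos_le_one a]
      have := mul_nonneg h0.le this
      linarith
  have k1 := hk (θ + θ')
  have k2 := hk (θ - θ')
  unfold Lk
  linarith

end Pool.Agent.H18.Cage
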