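import Pool.Agent.H18.Cage.Kernel
import Pool.Agent.H18.Cage.Geo

/-! Module QUAD-2. -/

set_option autoImplicit false

namespace Pool.Agent.H18.Cage

open Polynomial Matrix Finset

namespace Q2

section geo

variable {V : Type} [Fintype V] [DecidableEq V] {G : SimpleGraph V} [DecidableRel G.Adj] {r : ℕ}

/-- entries of an expanded polynomial of the adjacency matrix -/
theorem aeval_apply (h : TreeLike G r) (N : ℕ) (hN : N ≤ r) (c : ℕ → ℤ) (w m : V) :
    (aeval (G.adjMatrix ℤ) (∑ t ∈ range (N + 1), C (c t) * F t)) w m =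
      if G.dist w m ≤ N then c (G.dist w m) else 0 := by
  rw [map_sum, Matrix.sum_apply]
  have h1 : ∀ t ∈ range (N + 1), (aeval (G.adjMatrix ℤ) (C (c t) * F t)) w m =
      if G.dist w m = t then c t else 0 := by
    intro t ht
    rw [mem_range] at ht
    rw [map_mul, aeval_C, h.aeval_F t (by omega), ← Algebra.smul_def, Matrix.smul_apply,
      TreeLike.Dm_apply]
    split_ifs <;> simp
  rw [sum_congr rfl h1, sum_ite_eq]
  simp only [mem_range, Nat.lt_succ_iff]

/-- sums of radial functions -/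
theorem radial (h : TreeLike G r) (N : ℕ) (hN : N ≤ r) (f : ℕ → ℝ) (m : V) :
    ∑ w, (if G.dist w m ≤ N then f (G.dist w m) else 0) =
      f 0 + ∑ t ∈ range N, 5 * 4 ^ t * f (t + 1) := by
  induction N with
  | zero =>
    have : ∀ w, (if G.dist w m ≤ 0 then f (G.dist w m) else 0) = if w = m then f 0 else 0 := by
      intro w
      by_cases hw : w = m
      · subst hw; simp
      · have := h.dist_pos hw
        rw [if_neg hw, if_neg (by omega)]
    rw [sum_congr rfl (fun w _ => this w)]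
    simp
  | succ N ih =>
    have h1 : ∀ w, (if G.dist w m ≤ N + 1 then f (G.dist w m) else 0) =
        (if G.dist w m ≤ N then f (G.dist w m) else 0) +
        (if G.dist m w = N + 1 then f (N + 1) else 0) := by
      intro w
      rw [SimpleGraph.dist_comm (u := m)]
      by_cases h2 : G.dist w m ≤ N
      · rw [if_pos (by omega), if_pos h2, if_neg (by omega), add_zero]
      · by_cases h3 : G.dist w m = N + 1
        · rw [if_pos (by omega), if_neg h2, if_pos h3, zero_add, h3]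
        · rw [if_neg (by omega), if_neg h2, if_neg h3, zero_add]
    rw [sum_congr rfl (fun w _ => h1 w), sum_add_distrib, ih (by omega), sum_range_succ, add_assoc]
    congr 2
    rw [← sum_filter, sum_const, h.card_sphere m N hN, nsmul_eq_mul]
    push_cast
    ring

theorem ev_expand (N : ℕ) (c : ℕ → ℤ) (z : ℝ) :
    ev (∑ t ∈ range (N + 1), C (c t) * F t) z =
      (c 0 : ℝ) + ∑ t ∈ range N, (c (t + 1) : ℝ) * ev (F (t + 1)) z := by
  rw [ev_sum, sum_range_succ']
  simp only [ev_mul, ev_C, ev_F_zero, mul_one]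
  ring

/-- column sums -/
theorem col_sum (h : TreeLike G r) (N : ℕ) (hN : N ≤ r) (p : ℤ[X]) (hp : p.natDegree ≤ N) (m : V) :
    ∑ w, (((aeval (G.adjMatrix ℤ) p) w m : ℤ) : ℝ) = ev p 5 := by
  obtain ⟨c, hc⟩ := exists_F_expansion N p hp
  rw [hc]
  have h1 : ∀ w, (((aeval (G.adjMatrix ℤ) (∑ t ∈ range (N + 1), C (c t) * F t)) w m : ℤ) : ℝ) =
      if G.dist w m ≤ N then ((c (G.dist w m) : ℤ) : ℝ) else 0 := by
    intro w
    rw [aeval_apply h N hN]
    split_ifs <;> simp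
  rw [sum_congr rfl (fun w _ => h1 w), radial h N hN (fun t => (c t : ℝ)), ev_expand]
  congr 1
  refine sum_congr rfl fun t _ => ?_
  rw [ev_F_five]
  ring

theorem supp (h : TreeLike G r) (N : ℕ) (hN : N ≤ r) (p : ℤ[X]) (hp : p.natDegree ≤ N) (w m : V)
    (hne : (aeval (G.adjMatrix ℤ) p) w m ≠ 0) : G.dist w m ≤ N := by
  obtain ⟨c, hc⟩ := exists_F_expansion N p hp
  rw [hc, aeval_apply h N hN] at hne
  by_contra hlt
  rw [if_neg hlt] at hne
  exact hne rfl

/-- the diagonal term -/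
theorem diag_term (h : TreeLike G r) (N : ℕ) (hN : N ≤ r) (C' : ℝ) (κ : ℕ → ℝ) (z : ℝ)
    (hκ : ∀ t, 1 ≤ t → t ≤ N → |5 * 4 ^ (t - 1) * κ t - κ 0 * ev (F t) z| ≤ C')
    (p : ℤ[X]) (hp : p.natDegree ≤ N) (v : V)
    (hnn : ∀ w, 0 ≤ (aeval (G.adjMatrix ℤ) p) w v) :
    |∑ w, (if G.dist v w ≤ r then κ (G.dist v w) else 0) *
        (((aeval (G.adjMatrix ℤ) p) w v : ℤ) : ℝ) - κ 0 * ev p z| ≤ |C'| * ev p 5 := by
  obtain ⟨c, hc⟩ := exists_F_expansion N p hp
  have hc0 : ∀ t ≤ N, 0 ≤ c t := by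
    intro t ht
    have : ∃ w, G.dist v w = t := by
      cases t with
      | zero => exact ⟨v, by simp⟩
      | succ t =>
        have h1 := h.card_sphere v t (by omega)
        have h2 : 0 < (univ.filter (fun c => G.dist v c = t + 1)).card := by
          rw [h1]; positivity
        obtain ⟨w, hw⟩ := card_pos.1 h2
        exact ⟨w, (mem_filter.1 hw).2⟩
    obtain ⟨w, hw⟩ := this
    have h1 := hnn w
    rw [hc, aeval_apply h N hN, SimpleGraph.dist_comm, hw, if_pos ht] at h1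
    exact h1
  have h1 : ∀ w, (if G.dist v w ≤ r then κ (G.dist v w) else 0) *
        (((aeval (G.adjMatrix ℤ) p) w v : ℤ) : ℝ) =
      if G.dist w v ≤ N then (fun t => κ t * (c t : ℝ)) (G.dist w v) else 0 := by
    intro w
    rw [hc, aeval_apply h N hN, SimpleGraph.dist_comm (u := v)]
    by_cases h2 : G.dist w v ≤ N
    · rw [if_pos h2, if_pos (by omega), if_pos h2]
    · rw [if_neg h2, if_neg h2]; simp
  rw [sum_congr rfl (fun w _ => h1 w), radial h N hN (fun t => κ t * (c t : ℝ)) v]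
  have h2 : ev p z = (c 0 : ℝ) + ∑ t ∈ range N, (c (t + 1) : ℝ) * ev (F (t + 1)) z := by
    rw [hc, ev_expand]
  have h5 : ev p 5 = (c 0 : ℝ) + ∑ t ∈ range N, (c (t + 1) : ℝ) * ev (F (t + 1)) 5 := by
    rw [hc, ev_expand]
  have h3 : κ 0 * (c 0 : ℝ) + ∑ t ∈ range N, 5 * 4 ^ t * (κ (t + 1) * (c (t + 1) : ℝ)) -
      κ 0 * ev p z = ∑ t ∈ range N, (c (t + 1) : ℝ) *
        (5 * 4 ^ (t + 1 - 1) * κ (t + 1) - κ 0 * ev (F (t + 1)) z) := by
    rw [h2, mul_add, mul_sum, add_sub_add_left_eq_sub, ← sum_sub_distrib]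
    refine sum_congr rfl fun t _ => ?_
    rw [Nat.add_sub_cancel]
    ring
  have h3' : (fun t => κ t * (c t : ℝ)) 0 + ∑ t ∈ range N, 5 * 4 ^ t *
      (fun t => κ t * (c t : ℝ)) (t + 1) - κ 0 * ev p z = ∑ t ∈ range N, (c (t + 1) : ℝ) *
        (5 * 4 ^ (t + 1 - 1) * κ (t + 1) - κ 0 * ev (F (t + 1)) z) := h3
  rw [h3', h5]
  have hc0' : (0:ℝ) ≤ c 0 := by exact_mod_cast hc0 0 (Nat.zero_le _)
  calc |∑ t ∈ range N, (c (t + 1) : ℝ) *
        (5 * 4 ^ (t + 1 - 1) * κ (t + 1) - κ 0 * ev (F (t + 1)) z)|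
      ≤ ∑ t ∈ range N, |(c (t + 1) : ℝ) *
        (5 * 4 ^ (t + 1 - 1) * κ (t + 1) - κ 0 * ev (F (t + 1)) z)| := abs_sum_le_sum_abs _ _
    _ ≤ ∑ t ∈ range N, |C'| * ((c (t + 1) : ℝ) * ev (F (t + 1)) 5) := by
        refine sum_le_sum fun t ht => ?_
        rw [mem_range] at ht
        have hct : (0:ℝ) ≤ c (t + 1) := by exact_mod_cast hc0 (t + 1) (by omega)
        rw [abs_mul, abs_of_nonneg hct, ev_F_five]
        have hk := (hκ (t + 1) (by omega) (by omega)).trans (le_abs_self C')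
        have h4 : (1:ℝ) ≤ 5 * 4 ^ t := by
          have : (1:ℝ) ≤ 4 ^ t := one_le_pow₀ (by norm_num)
          linarith
        calc (c (t + 1) : ℝ) * |5 * 4 ^ (t + 1 - 1) * κ (t + 1) - κ 0 * ev (F (t + 1)) z|
            ≤ (c (t + 1) : ℝ) * |C'| := mul_le_mul_of_nonneg_left hk hct
          _ ≤ ((c (t + 1) : ℝ) * |C'|) * (5 * 4 ^ t) :=
              le_mul_of_one_le_right (mul_nonneg hct (abs_nonneg _)) h4
          _ = |C'| * ((c (t + 1) : ℝ) * (5 * 4 ^ t)) := by ring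
    _ ≤ |C'| * ((c 0 : ℝ) + ∑ t ∈ range N, (c (t + 1) : ℝ) * ev (F (t + 1)) 5) := by
        rw [← mul_sum]
        exact mul_le_mul_of_nonneg_left (by linarith) (abs_nonneg _)

end geo

section mat

variable {V : Type} [Fintype V] [DecidableEq V]

theorem pow_nonneg_entries (A : Matrix V V ℤ) (P : Matrix V V ℤ[X])
    (hP : ∀ u v x y, 0 ≤ (aeval A (P u v)) x y) (j : ℕ) :
    ∀ u v x y, 0 ≤ (aeval A ((P ^ j) u v)) x y := by
  induction j with
  | zero =>
    intro u v x y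
    rw [pow_zero, Matrix.one_apply]
    split_ifs
    · rw [map_one, Matrix.one_apply]; split_ifs <;> norm_num
    · rw [map_zero, Matrix.zero_apply]
  | succ j ih =>
    intro u v x y
    rw [pow_succ, Matrix.mul_apply, map_sum, Matrix.sum_apply]
    refine sum_nonneg fun k _ => ?_
    rw [map_mul, Matrix.mul_apply]
    exact sum_nonneg fun l _ => mul_nonneg (ih u k x l) (hP k v l y)

theorem pow_natDegree (P : Matrix V V ℤ[X]) (D : ℕ) (hP : ∀ u v, (P u v).natDegree ≤ D) (j : ℕ) :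
    ∀ u v, ((P ^ j) u v).natDegree ≤ D * j := by
  induction j with
  | zero =>
    intro u v
    rw [pow_zero, Matrix.one_apply]
    split_ifs <;> simp
  | succ j ih =>
    intro u v
    rw [pow_succ, Matrix.mul_apply]
    refine natDegree_sum_le_of_forall_le _ _ fun k _ => ?_
    refine natDegree_mul_le.trans ?_
    have := ih u k
    have := hP k v
    rw [mul_add, mul_one]
    omega

theorem ev_mul_apply (P Q : Matrix V V ℤ[X]) (u v : V) (x : ℝ) :
    ev ((P * Q) u v) x = ∑ k, ev (P u k) x * ev (Q k v) x := by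
  rw [Matrix.mul_apply, ev_sum]
  simp only [ev_mul]

theorem pow_row (P : Matrix V V ℤ[X]) (C : ℕ) (x : ℝ)
    (hP : ∀ u, ∑ v, |ev (P u v) x| ≤ C) (j : ℕ) :
    ∀ u, ∑ v, |ev ((P ^ j) u v) x| ≤ (C : ℝ) ^ j := by
  induction j with
  | zero =>
    intro u
    have : ∀ v, |ev ((P ^ 0) u v) x| = if u = v then 1 else 0 := by
      intro v
      rw [pow_zero, Matrix.one_apply]
      split_ifs <;> simp
    rw [sum_congr rfl (fun v _ => this v)]
    simp
  | succ j ih =>
    intro u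
    rw [pow_succ']
    calc ∑ v, |ev ((P * P ^ j) u v) x|
        ≤ ∑ v, ∑ k, |ev (P u k) x| * |ev ((P ^ j) k v) x| := by
          refine sum_le_sum fun v _ => ?_
          rw [ev_mul_apply]
          refine (abs_sum_le_sum_abs _ _).trans (le_of_eq ?_)
          simp only [abs_mul]
      _ = ∑ k, |ev (P u k) x| * ∑ v, |ev ((P ^ j) k v) x| := by
          rw [sum_comm]
          simp only [mul_sum]
      _ ≤ ∑ k, |ev (P u k) x| * (C : ℝ) ^ j :=
          sum_le_sum fun k _ => mul_le_mul_of_nonneg_left (ih k) (abs_nonneg _)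
      _ = (∑ k, |ev (P u k) x|) * (C : ℝ) ^ j := by rw [sum_mul]
      _ ≤ (C : ℝ) * (C : ℝ) ^ j :=
          mul_le_mul_of_nonneg_right (hP u) (by positivity)
      _ = (C : ℝ) ^ (j + 1) := by rw [pow_succ]; ring

theorem evM_pow (P : Matrix V V ℤ[X]) (j : ℕ) (z : ℝ) : evM (P ^ j) z = (evM P z) ^ j := by
  let f : ℤ[X] →+* ℝ := (aeval z : ℤ[X] →ₐ[ℤ] ℝ).toRingHom
  have h1 : ∀ Q : Matrix V V ℤ[X], evM Q z = f.mapMatrix Q := fun Q => rfl
  rw [h1, h1, map_pow]

theorem E_pow (E : Matrix V V ℤ) (D : ℕ) (hnn : ∀ u v, 0 ≤ E u v) (hs : E.IsSymm)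
    (hrow : ∀ u, ∑ v, E u v ≤ (D : ℤ)) (j : ℕ) :
    (∀ u v, 0 ≤ (E ^ j) u v) ∧ ∀ v, ∑ w, (E ^ j) w v ≤ (D : ℤ) ^ j := by
  have hcol : ∀ u, ∑ v, E v u ≤ (D : ℤ) := by
    intro u
    have : ∀ v, E v u = E u v := fun v => hs.apply u v
    simp only [this]
    exact hrow u
  induction j with
  | zero =>
    constructor
    · intro u v
      rw [pow_zero, Matrix.one_apply]
      split_ifs <;> norm_num
    · intro v
      simp [Matrix.one_apply]
  | succ j ih =>
    obtain ⟨ih1, ih2⟩ := ih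
    constructor
    · intro u v
      rw [pow_succ, Matrix.mul_apply]
      exact sum_nonneg fun k _ => mul_nonneg (ih1 u k) (hnn k v)
    · intro v
      rw [pow_succ']
      calc ∑ w, (E * E ^ j) w v = ∑ w, ∑ k, E w k * (E ^ j) k v := by
            simp only [Matrix.mul_apply]
        _ = ∑ k, (∑ w, E w k) * (E ^ j) k v := by
            rw [sum_comm]; simp only [sum_mul]
        _ ≤ ∑ k, (D : ℤ) * (E ^ j) k v :=
            sum_le_sum fun k _ => mul_le_mul_of_nonneg_right (hcol k) (ih1 k v)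
        _ = (D : ℤ) * ∑ k, (E ^ j) k v := by rw [mul_sum]
        _ ≤ (D : ℤ) * (D : ℤ) ^ j := mul_le_mul_of_nonneg_left (ih2 v) (by positivity)
        _ = (D : ℤ) ^ (j + 1) := by rw [pow_succ]; ring

end mat

end Q2

/-- QUAD-2: combinatorial side. -/
theorem quad_comb (D C b : ℕ) : ∃ (C2 : ℝ) (r0 : ℕ), 0 < C2 ∧
    ∀ (V : Type) [Fintype V] [DecidableEq V] (G : SimpleGraph V) [DecidableRel G.Adj]
      (s : ℤ) (r : ℕ) (E : Matrix V V ℤ) (P : Matrix V V ℤ[X]) (Typ : Finset V) (ε' : ℝ),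
      r0 ≤ r → Setup G s r D E → PolyRep G E D C b r ε' P Typ →
      ∀ z : ℝ, |z| ≤ 4 → |ev (W s r) z| ≤ D → ∀ j ≤ b,
        |∑ v, ∑ w, (if G.dist v w ≤ r then ev (kap s r (G.dist v w)) z else 0)
              * ((E ^ j) w v : ℝ)
          - ev (kap s r 0) z * ((evM P z) ^ j).trace|
          ≤ C2 * ((r : ℝ) + 1) * 2 ^ r * (Typᶜ).card
            + C2 * ((r : ℝ) + 1) * (2 : ℝ) ^ ((3 * (r : ℝ)) / 4) * Fintype.card V := by
  obtain ⟨C', hC'⟩ := kap_rec (D * b) D
  set N : ℕ := D * b with hN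
  set Cb : ℝ := ((C : ℝ) + 1) ^ b with hCb
  set Db : ℝ := ((D : ℝ) + 1) ^ b with hDb
  have hCb0 : 0 ≤ Cb := by positivity
  have hDb0 : 0 ≤ Db := by positivity
  refine ⟨6 * (Db + Cb) + (|C'| + 6 * 2 ^ N) * Cb + 1, N, by positivity, ?_⟩
  set C2 : ℝ := 6 * (Db + Cb) + (|C'| + 6 * 2 ^ N) * Cb + 1 with hC2
  intro V _ _ G _ s r E P Typ ε' hr hS hP z hz hW j hj
  have tl := hS.tl
  have hNr : N ≤ r := hr
  set κ : ℕ → ℝ := fun t => ev (kap s r t) z with hκ
  have hκle : ∀ t ≤ r, |κ t| ≤ 6 * (r + 1) * 2 ^ (r - t) := fun t ht =>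
    abs_ev_kap_le s hS.hs r t ht z hz
  have hr1 : (0:ℝ) < (r:ℝ) + 1 := by positivity
  have hκle' : ∀ t ≤ r, |κ t| ≤ 6 * (r + 1) * 2 ^ r := by
    intro t ht
    refine (hκle t ht).trans ?_
    have : (2:ℝ) ^ (r - t) ≤ 2 ^ r := pow_le_pow_right₀ (by norm_num) (by omega)
    exact mul_le_mul_of_nonneg_left this (by positivity)
  -- powers
  have hCj : (C : ℝ) ^ j ≤ Cb := by
    calc (C : ℝ) ^ j ≤ ((C : ℝ) + 1) ^ j := by gcongr; linarith
      _ ≤ ((C : ℝ) + 1) ^ b := pow_le_pow_right₀ (by linarith [Nat.cast_nonneg (α := ℝ) C]) hj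
  have hDj : (D : ℝ) ^ j ≤ Db := by
    calc (D : ℝ) ^ j ≤ ((D : ℝ) + 1) ^ j := by gcongr; linarith
      _ ≤ ((D : ℝ) + 1) ^ b := pow_le_pow_right₀ (by linarith [Nat.cast_nonneg (α := ℝ) D]) hj
  have hrow : ∀ x : ℝ, |x| ≤ 5 → ∀ u, ∑ v, |ev ((P ^ j) u v) x| ≤ Cb := fun x hx u =>
    (Q2.pow_row P C x (hP.row x hx) j u).trans hCj
  have hsymm : ∀ u v, (P ^ j) u v = (P ^ j) v u := by
    intro u v
    have h1 : (P ^ j)ᵀ = P ^ j := by rw [Matrix.transpose_pow, hP.symm.eq]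
    have h2 := congrFun (congrFun h1 v) u
    rw [Matrix.transpose_apply] at h2
    exact h2
  have hcolP : ∀ x : ℝ, |x| ≤ 5 → ∀ v, ∑ m, |ev ((P ^ j) m v) x| ≤ Cb := by
    intro x hx v
    have h1 : ∀ m, |ev ((P ^ j) m v) x| = |ev ((P ^ j) v m) x| := fun m => by rw [hsymm m v]
    rw [sum_congr rfl (fun m _ => h1 m)]
    exact hrow x hx v
  have hdegP : ∀ u v, ((P ^ j) u v).natDegree ≤ N := fun u v =>
    (Q2.pow_natDegree P D hP.deg j u v).trans (Nat.mul_le_mul_left _ hj)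
  have hnnP := Q2.pow_nonneg_entries (G.adjMatrix ℤ) P hP.nonneg j
  obtain ⟨hE1, hE2⟩ := Q2.E_pow E D hS.nonneg hS.symm hS.row j
  have h5 : |(5:ℝ)| ≤ 5 := by norm_num
  have hz5 : |z| ≤ 5 := by linarith
  -- trace
  have htr : ((evM P z) ^ j).trace = ∑ v, ev ((P ^ j) v v) z := by
    rw [← Q2.evM_pow]; rfl
  set T : V → ℝ := fun v => ∑ w, (if G.dist v w ≤ r then κ (G.dist v w) else 0) * ((E ^ j) w v : ℝ)
    with hT
  -- atypical vertices
  have hatyp : ∀ v, |T v - κ 0 * ev ((P ^ j) v v) z| ≤ C2 * ((r : ℝ) + 1) * 2 ^ r := by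
    intro v
    have h1 : |T v| ≤ 6 * (r + 1) * 2 ^ r * Db := by
      calc |T v| ≤ ∑ w, |(if G.dist v w ≤ r then κ (G.dist v w) else 0) * ((E ^ j) w v : ℝ)| :=
            abs_sum_le_sum_abs _ _
        _ ≤ ∑ w, 6 * (r + 1) * 2 ^ r * ((E ^ j) w v : ℝ) := by
            refine sum_le_sum fun w _ => ?_
            have hE1' : (0:ℝ) ≤ ((E ^ j) w v : ℝ) := by exact_mod_cast hE1 w v
            rw [abs_mul, abs_of_nonneg hE1']
            refine mul_le_mul_of_nonneg_right ?_ hE1'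
            split_ifs with hd
            · exact hκle' _ hd
            · rw [abs_zero]; positivity
        _ = 6 * (r + 1) * 2 ^ r * ∑ w, ((E ^ j) w v : ℝ) := by rw [mul_sum]
        _ ≤ 6 * (r + 1) * 2 ^ r * Db := by
            refine mul_le_mul_of_nonneg_left ?_ (by positivity)
            refine le_trans ?_ hDj
            exact_mod_cast hE2 v
    have h2 : |κ 0 * ev ((P ^ j) v v) z| ≤ 6 * (r + 1) * 2 ^ r * Cb := by
      rw [abs_mul]
      have h3 : |ev ((P ^ j) v v) z| ≤ Cb :=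
        (single_le_sum (f := fun m => |ev ((P ^ j) v m) z|) (fun _ _ => abs_nonneg _)
          (mem_univ v)).trans (hrow z hz5 v)
      exact mul_le_mul (hκle' 0 (Nat.zero_le _)) h3 (abs_nonneg _) (by positivity)
    calc |T v - κ 0 * ev ((P ^ j) v v) z| ≤ |T v| + |κ 0 * ev ((P ^ j) v v) z| := abs_sub _ _
      _ ≤ 6 * (r + 1) * 2 ^ r * Db + 6 * (r + 1) * 2 ^ r * Cb := add_le_add h1 h2
      _ = (6 * (Db + Cb)) * (((r:ℝ) + 1) * 2 ^ r) := by ring
      _ ≤ C2 * (((r:ℝ) + 1) * 2 ^ r) := by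
          refine mul_le_mul_of_nonneg_right ?_ (by positivity)
          have : 0 ≤ (|C'| + 6 * 2 ^ N) * Cb := by positivity
          linarith
      _ = C2 * ((r : ℝ) + 1) * 2 ^ r := by ring
  -- typical vertices
  have htyp : ∀ v ∈ Typ, |T v - κ 0 * ev ((P ^ j) v v) z| ≤
      C2 * ((r : ℝ) + 1) * (2 : ℝ) ^ ((3 * (r : ℝ)) / 4) := by
    intro v hv
    set Q : ℝ := (2 : ℝ) ^ ((3 * (r : ℝ)) / 4) with hQ
    have hQ1 : 1 ≤ Q := Real.one_le_rpow (by norm_num) (by positivity)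
    set R : V → ℝ := fun m => ∑ w, (if G.dist v w ≤ r then κ (G.dist v w) else 0) *
      (((aeval (G.adjMatrix ℤ) ((P ^ j) m v)) w m : ℤ) : ℝ) with hR
    have hTR : T v = ∑ m, R m := by
      simp only [hT, hR]
      rw [sum_comm]
      refine sum_congr rfl fun w _ => ?_
      rw [← mul_sum, hP.rep v hv j hj w]
      push_cast
      rfl
    have hRv : |R v - κ 0 * ev ((P ^ j) v v) z| ≤ |C'| * Cb := by
      refine (Q2.diag_term tl N hNr C' κ z (fun t h1 h2 => hC' s r z hS.hs hz hW t h1 h2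
        (h2.trans hNr)) ((P ^ j) v v) (hdegP v v) v (fun w => hnnP v v w v)).trans ?_
      refine mul_le_mul_of_nonneg_left ?_ (abs_nonneg _)
      refine (le_abs_self _).trans ?_
      exact (single_le_sum (f := fun m => |ev ((P ^ j) v m) 5|) (fun _ _ => abs_nonneg _)
          (mem_univ v)).trans (hrow 5 h5 v)
    have hRm : ∀ m, m ≠ v → |R m| ≤ 6 * (r + 1) * (2 ^ N * Q) * |ev ((P ^ j) m v) 5| := by
      intro m hm
      by_cases hp0 : (P ^ j) m v = 0
      · have : R m = 0 := by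
          simp only [hR, hp0, map_zero, Matrix.zero_apply, Int.cast_zero, mul_zero, sum_const_zero]
        rw [this, abs_zero]
        positivity
      have hfar := hP.far v hv j hj m hm hp0
      have h1 : ∀ w, |(if G.dist v w ≤ r then κ (G.dist v w) else 0) *
          (((aeval (G.adjMatrix ℤ) ((P ^ j) m v)) w m : ℤ) : ℝ)| ≤
          6 * (r + 1) * (2 ^ N * Q) * (((aeval (G.adjMatrix ℤ) ((P ^ j) m v)) w m : ℤ) : ℝ) := by
        intro w
        have hnn : (0:ℝ) ≤ (((aeval (G.adjMatrix ℤ) ((P ^ j) m v)) w m : ℤ) : ℝ) := by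
          exact_mod_cast hnnP m v w m
        rw [abs_mul, abs_of_nonneg hnn]
        by_cases h0 : (aeval (G.adjMatrix ℤ) ((P ^ j) m v)) w m = 0
        · rw [h0]; simp
        refine mul_le_mul_of_nonneg_right ?_ hnn
        have hd := Q2.supp tl N hNr _ (hdegP m v) w m h0
        have htri := tl.tri v w m
        split_ifs with hle
        · refine (hκle _ hle).trans ?_
          refine mul_le_mul_of_nonneg_left ?_ (by positivity)
          rw [hQ, ← Real.rpow_natCast, ← Real.rpow_natCast, ← Real.rpow_add (by norm_num)]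
          refine Real.rpow_le_rpow_of_exponent_le (by norm_num) ?_
          have h2 : (r : ℝ) ≤ 4 * G.dist v m := by exact_mod_cast hfar
          have h3 : (G.dist v m : ℝ) ≤ G.dist v w + G.dist w m := by exact_mod_cast htri
          have h4 : (G.dist w m : ℝ) ≤ N := by exact_mod_cast hd
          rw [Nat.cast_sub hle]
          linarith
        · rw [abs_zero]; positivity
      calc |R m| ≤ ∑ w, |(if G.dist v w ≤ r then κ (G.dist v w) else 0) *
          (((aeval (G.adjMatrix ℤ) ((P ^ j) m v)) w m : ℤ) : ℝ)| := abs_sum_le_sum_abs _ _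
        _ ≤ ∑ w, 6 * (r + 1) * (2 ^ N * Q) *
            (((aeval (G.adjMatrix ℤ) ((P ^ j) m v)) w m : ℤ) : ℝ) := sum_le_sum fun w _ => h1 w
        _ = 6 * (r + 1) * (2 ^ N * Q) * ev ((P ^ j) m v) 5 := by
            rw [← mul_sum, Q2.col_sum tl N hNr _ (hdegP m v)]
        _ ≤ 6 * (r + 1) * (2 ^ N * Q) * |ev ((P ^ j) m v) 5| :=
            mul_le_mul_of_nonneg_left (le_abs_self _) (by positivity)
    have hsplit : T v - κ 0 * ev ((P ^ j) v v) z =
        (R v - κ 0 * ev ((P ^ j) v v) z) + ∑ m ∈ univ.erase v, R m := by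
      rw [hTR, ← add_sum_erase univ R (mem_univ v)]
      ring
    rw [hsplit]
    calc |(R v - κ 0 * ev ((P ^ j) v v) z) + ∑ m ∈ univ.erase v, R m|
        ≤ |R v - κ 0 * ev ((P ^ j) v v) z| + |∑ m ∈ univ.erase v, R m| := abs_add_le _ _
      _ ≤ |C'| * Cb + ∑ m ∈ univ.erase v, |R m| := add_le_add hRv (abs_sum_le_sum_abs _ _)
      _ ≤ |C'| * Cb + ∑ m ∈ univ.erase v, 6 * (r + 1) * (2 ^ N * Q) * |ev ((P ^ j) m v) 5| := by
          gcongr with m hm
          exact hRm m (ne_of_mem_erase hm)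
      _ ≤ |C'| * Cb + 6 * (r + 1) * (2 ^ N * Q) * Cb := by
          rw [← mul_sum]
          gcongr
          exact (sum_le_sum_of_subset_of_nonneg (erase_subset _ _)
            (fun _ _ _ => abs_nonneg _)).trans (hcolP 5 h5 v)
      _ ≤ |C'| * Cb * (((r:ℝ) + 1) * Q) + 6 * (r + 1) * (2 ^ N * Q) * Cb := by
          have h0 : (1:ℝ) ≤ ((r:ℝ) + 1) * Q := by
            have h1 : (1:ℝ) ≤ (r:ℝ) + 1 := by linarith [Nat.cast_nonneg (α := ℝ) r]
            nlinarith
          have h1 : |C'| * Cb ≤ |C'| * Cb * (((r:ℝ) + 1) * Q) :=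
            le_mul_of_one_le_right (by positivity) h0
          linarith
      _ = ((|C'| + 6 * 2 ^ N) * Cb) * (((r:ℝ) + 1) * Q) := by ring
      _ ≤ C2 * (((r:ℝ) + 1) * Q) := by
          refine mul_le_mul_of_nonneg_right ?_ (by positivity)
          have : 0 ≤ 6 * (Db + Cb) := by positivity
          linarith
      _ = C2 * ((r : ℝ) + 1) * Q := by ring
  -- sum up
  have hsum : ∑ v, T v - κ 0 * ((evM P z) ^ j).trace = ∑ v, (T v - κ 0 * ev ((P ^ j) v v) z) := by
    rw [htr, mul_sum, sum_sub_distrib]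
  have hC2pos : 0 ≤ C2 := by positivity
  have goal1 : |∑ v, T v - κ 0 * ((evM P z) ^ j).trace| ≤
      C2 * ((r : ℝ) + 1) * 2 ^ r * (Typᶜ).card
        + C2 * ((r : ℝ) + 1) * (2 : ℝ) ^ ((3 * (r : ℝ)) / 4) * Fintype.card V := by
    rw [hsum]
    refine (abs_sum_le_sum_abs _ _).trans ?_
    rw [← sum_compl_add_sum Typ]
    refine add_le_add ?_ ?_
    · refine (sum_le_sum fun v _ => hatyp v).trans ?_
      rw [sum_const, nsmul_eq_mul]
      linarith
    · refine (sum_le_sum fun v hv => htyp v hv).trans ?_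
      rw [sum_const, nsmul_eq_mul]
      have h1 : (Typ.card : ℝ) ≤ Fintype.card V := by exact_mod_cast card_le_univ Typ
      have h2 : 0 ≤ C2 * ((r : ℝ) + 1) * (2 : ℝ) ^ ((3 * (r : ℝ)) / 4) := by positivity
      nlinarith
  exact goal1

end Pool.Agent.H18.Cage
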