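import Pool.Agent.H18.Cage.Quad1
import Pool.Agent.H18.Cage.Quad2

/-! Module QUAD-3. -/

set_option autoImplicit false

namespace Pool.Agent.H18.Cage

open Polynomial Matrix Finset

lemma row_pow_le {V : Type} [Fintype V] [DecidableEq V] (M : Matrix V V ℝ) (K : ℝ)
    (hK : 0 ≤ K) (hM : ∀ u, ∑ v, |M u v| ≤ K) (j : ℕ) : ∀ u, ∑ v, |(M ^ j) u v| ≤ K ^ j := by
  induction j with
  | zero =>
    intro u
    rw [pow_zero, pow_zero, Finset.sum_eq_single u]
    · simp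
    · intro v _ hv
      rw [Matrix.one_apply_ne (Ne.symm hv), abs_zero]
    · intro h
      exact absurd (Finset.mem_univ u) h
  | succ j ih =>
    intro u
    rw [pow_succ]
    calc ∑ v, |(M ^ j * M) u v| ≤ ∑ v, ∑ w, |(M ^ j) u w| * |M w v| := by
          apply Finset.sum_le_sum
          intro v _
          rw [Matrix.mul_apply]
          refine (Finset.abs_sum_le_sum_abs _ _).trans (le_of_eq ?_)
          exact Finset.sum_congr rfl (fun w _ => abs_mul _ _)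
      _ = ∑ w, |(M ^ j) u w| * ∑ v, |M w v| := by
          rw [Finset.sum_comm]
          simp_rw [← Finset.mul_sum]
      _ ≤ ∑ w, |(M ^ j) u w| * K := by
          apply Finset.sum_le_sum
          intro w _
          exact mul_le_mul_of_nonneg_left (hM w) (abs_nonneg _)
      _ = (∑ w, |(M ^ j) u w|) * K := (Finset.sum_mul _ _ _).symm
      _ ≤ K ^ j * K := mul_le_mul_of_nonneg_right (ih u) hK
      _ = K ^ (j + 1) := (pow_succ _ _).symm

lemma abs_trace_pow_le {V : Type} [Fintype V] [DecidableEq V] (M : Matrix V V ℝ) (K : ℝ)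
    (hK : 1 ≤ K) (hM : ∀ u, ∑ v, |M u v| ≤ K) (j b : ℕ) (hj : j ≤ b) :
    |(M ^ j).trace| ≤ Fintype.card V * K ^ b := by
  have h := row_pow_le M K (by linarith) hM j
  rw [Matrix.trace]
  calc |∑ v, (M ^ j).diag v| ≤ ∑ v, |(M ^ j) v v| := Finset.abs_sum_le_sum_abs _ _
    _ ≤ ∑ _v : V, K ^ b := by
        apply Finset.sum_le_sum
        intro v _
        calc |(M ^ j) v v| ≤ ∑ w, |(M ^ j) v w| :=
              Finset.single_le_sum (f := fun w => |(M ^ j) v w|) (fun w _ => abs_nonneg _)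
                (Finset.mem_univ v)
          _ ≤ K ^ j := h v
          _ ≤ K ^ b := pow_le_pow_right₀ hK hj
    _ = Fintype.card V * K ^ b := by
        rw [Finset.sum_const, Finset.card_univ, nsmul_eq_mul]

lemma quad_limits (a1 a2 a3 ε : ℝ) (hε : 0 < ε) : ∃ r0 : ℕ, ∀ r : ℕ, r0 ≤ r →
    a1 * (((r : ℝ) + 1) ^ 5 / 2 ^ r) ≤ ε ∧
    a2 * (((r : ℝ) + 1) * (2 : ℝ) ^ ((3 * (r : ℝ)) / 4) / 2 ^ r) ≤ ε ∧
    a3 / ((r : ℝ) + 1) ≤ ε := by
  have t1 : Filter.Tendsto (fun r : ℕ => a1 * (((r : ℝ) + 1) ^ 5 / 2 ^ r)) Filter.atTop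
      (nhds 0) := by
    have h := tendsto_pow_const_div_const_pow_of_one_lt 5 (show (1 : ℝ) < 2 by norm_num)
    have h' := (h.comp (Filter.tendsto_add_atTop_nat 1)).const_mul (a1 * 2)
    rw [mul_zero] at h'
    refine h'.congr (fun r => ?_)
    simp only [Function.comp_apply]
    push_cast
    rw [pow_succ (2 : ℝ) r]
    field_simp
  have hc : (1 : ℝ) < (2 : ℝ) ^ ((1 : ℝ) / 4) := Real.one_lt_rpow (by norm_num) (by norm_num)
  have t2 : Filter.Tendsto (fun r : ℕ => a2 * (((r : ℝ) + 1) * (2 : ℝ) ^ ((3 * (r : ℝ)) / 4) /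
      2 ^ r)) Filter.atTop (nhds 0) := by
    have h := tendsto_pow_const_div_const_pow_of_one_lt 1 hc
    have h' := (h.comp (Filter.tendsto_add_atTop_nat 1)).const_mul (a2 * (2 : ℝ) ^ ((1 : ℝ) / 4))
    rw [mul_zero] at h'
    refine h'.congr (fun r => ?_)
    simp only [Function.comp_apply]
    have hc0 : (0 : ℝ) < (2 : ℝ) ^ ((1 : ℝ) / 4) := by positivity
    have e1 : ((2 : ℝ) ^ ((1 : ℝ) / 4)) ^ r = (2 : ℝ) ^ ((r : ℝ) / 4) := by
      rw [← Real.rpow_natCast, ← Real.rpow_mul (by norm_num)]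
      congr 1
      ring
    have e2 : (2 : ℝ) ^ r = (2 : ℝ) ^ ((3 * (r : ℝ)) / 4) * (2 : ℝ) ^ ((r : ℝ) / 4) := by
      rw [← Real.rpow_natCast, ← Real.rpow_add (by norm_num)]
      congr 1
      ring
    have e3 : (0 : ℝ) < (2 : ℝ) ^ ((r : ℝ) / 4) := by positivity
    have e4 : (0 : ℝ) < (2 : ℝ) ^ ((3 * (r : ℝ)) / 4) := by positivity
    rw [pow_one, pow_succ, e1, e2]
    push_cast
    field_simp
  have t3 : Filter.Tendsto (fun r : ℕ => a3 / ((r : ℝ) + 1)) Filter.atTop (nhds 0) :=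
    tendsto_const_div_atTop_nhds_zero_nat a3 |>.comp (Filter.tendsto_add_atTop_nat 1) |>.congr
      (fun r => by simp)
  have e1 := t1.eventually_le_const hε
  have e2 := t2.eventually_le_const hε
  have e3 := t3.eventually_le_const hε
  obtain ⟨r0, h0⟩ := Filter.eventually_atTop.mp (e1.and (e2.and e3))
  exact ⟨r0, h0⟩

/-- QUAD-3: the quadrature formula. -/
theorem quadrature (D C b : ℕ) (ε : ℝ) (hε : 0 < ε) : ∃ (ε' : ℝ) (r0 : ℕ), 0 < ε' ∧
    ∀ (V : Type) [Fintype V] [DecidableEq V] (G : SimpleGraph V) [DecidableRel G.Adj]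
      (s : ℤ) (r : ℕ) (E : Matrix V V ℤ) (O : Matrix V V ℝ) (lam mu : V → ℝ) (i0 : V)
      (P : Matrix V V ℤ[X]) (Typ : Finset V),
      r0 ≤ r → Setup G s r D E → Spec (G.adjMatrix ℤ) E (W s r) D O lam mu i0 →
      PolyRep G E D C b r ε' P Typ →
      ∀ z : ℝ, |z| ≤ 4 → |ev (W s r) z| ≤ D → ∀ j ≤ b,
        |∑ i ∈ cl r lam z, mu i ^ j - wt z / (r + 1) * ((evM P z) ^ j).trace|
          ≤ ε * Fintype.card V / (r + 1) := by
  obtain ⟨C1, r1, hC1, h1⟩ := quad_spectral D b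
  obtain ⟨C2, r2, hC2, h2⟩ := quad_comb D C b
  obtain ⟨C3, r3, h3⟩ := kernel_facts D
  obtain ⟨r4, h4⟩ := quad_limits (20 * C1) (20 * C2) (|C3| * ((C : ℝ) + 1) ^ b) (ε / 4)
    (by positivity)
  refine ⟨ε / (80 * C2), max (max r1 r2) (max r3 r4), by positivity, ?_⟩
  intro V _ _ G _ s r E O lam mu i0 P Typ hr hset hspec hrep z hz hW j hj
  have hr1 : r1 ≤ r := le_trans (le_trans (le_max_left _ _) (le_max_left _ _)) hr
  have hr2 : r2 ≤ r := le_trans (le_trans (le_max_right _ _) (le_max_left _ _)) hr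
  have hr3 : r3 ≤ r := le_trans (le_trans (le_max_left _ _) (le_max_right _ _)) hr
  have hr4 : r4 ≤ r := le_trans (le_trans (le_max_right _ _) (le_max_right _ _)) hr
  have g1 := h1 V G s r E O lam mu i0 hr1 hset hspec z hz hW j hj
  have g2 := h2 V G s r E P Typ (ε / (80 * C2)) hr2 hset hrep z hz hW j hj
  obtain ⟨g3, g3'⟩ := h3 s r z hset.hs hr3 hz hW
  obtain ⟨l1, l2, l3⟩ := h4 r hr4
  set K := Kr s r z z with hK
  set S' := ∑ i ∈ cl r lam z, mu i ^ j with hS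
  set T := ((evM P z) ^ j).trace with hT
  set κ := ev (kap s r 0) z with hκ
  set Q := ∑ v, ∑ w, (if G.dist v w ≤ r then ev (kap s r (G.dist v w)) z else 0)
          * ((E ^ j) w v : ℝ) with hQ
  set n : ℝ := (Fintype.card V : ℝ) with hn
  have hn0 : 0 ≤ n := by rw [hn]; positivity
  set R : ℝ := (r : ℝ) + 1 with hR
  have hR0 : 0 < R := by rw [hR]; positivity
  have h2r : (0 : ℝ) < 2 ^ r := by positivity
  have hKpos : 0 < |K| := lt_of_lt_of_le (by positivity) g3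
  have hK0 : K ≠ 0 := abs_pos.mp hKpos
  have hTle : |T| ≤ n * ((C : ℝ) + 1) ^ b := by
    apply abs_trace_pow_le _ _ (by linarith [Nat.cast_nonneg (α := ℝ) C]) _ j b hj
    intro u
    have := hrep.row z (by linarith) u
    simp only [evM, Matrix.map_apply]
    linarith
  have htyp := hrep.typ
  -- decomposition
  have hdec : S' - wt z / R * T = (K * S' - Q) / K + (Q - κ * T) / K + (κ / K - wt z / R) * T := by
    field_simp
    ring
  have b1 : |(K * S' - Q) / K| ≤ 20 * C1 * (R ^ 5 / 2 ^ r) * n / R := by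
    rw [abs_div, div_le_div_iff₀ hKpos hR0]
    calc |K * S' - Q| * R ≤ (C1 * R ^ 5 * n) * R := mul_le_mul_of_nonneg_right g1 hR0.le
      _ = 20 * C1 * (R ^ 5 / 2 ^ r) * n * (R * 2 ^ r / 20) := by field_simp
      _ ≤ 20 * C1 * (R ^ 5 / 2 ^ r) * n * |K| :=
          mul_le_mul_of_nonneg_left g3 (by positivity)
  have b2 : |(Q - κ * T) / K| ≤ 20 * C2 * ((Typᶜ).card : ℝ) +
      20 * C2 * (R * (2 : ℝ) ^ ((3 * (r : ℝ)) / 4) / 2 ^ r) * n / R := by
    have e4 : (0 : ℝ) < (2 : ℝ) ^ ((3 * (r : ℝ)) / 4) := by positivity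
    rw [abs_div, div_le_iff₀ hKpos]
    calc |Q - κ * T| ≤ C2 * R * 2 ^ r * ((Typᶜ).card : ℝ) +
          C2 * R * (2 : ℝ) ^ ((3 * (r : ℝ)) / 4) * n := g2
      _ = (20 * C2 * ((Typᶜ).card : ℝ) +
          20 * C2 * (R * (2 : ℝ) ^ ((3 * (r : ℝ)) / 4) / 2 ^ r) * n / R) * (R * 2 ^ r / 20) := by
          field_simp
      _ ≤ _ := mul_le_mul_of_nonneg_left g3 (by positivity)
  have b3 : |(κ / K - wt z / R) * T| ≤ |C3| * ((C : ℝ) + 1) ^ b / R * n / R := by
    rw [abs_mul]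
    calc |κ / K - wt z / R| * |T| ≤ (|C3| / R ^ 2) * (n * ((C : ℝ) + 1) ^ b) := by
          apply mul_le_mul _ hTle (abs_nonneg _) (by positivity)
          exact g3'.trans (by gcongr; exact le_abs_self _)
      _ = _ := by field_simp
  have b4 : 20 * C2 * ((Typᶜ).card : ℝ) ≤ ε / 4 * n / R := by
    rw [le_div_iff₀ hR0]
    calc 20 * C2 * ((Typᶜ).card : ℝ) * R = 20 * C2 * (((Typᶜ).card : ℝ) * R) := by ring
      _ ≤ 20 * C2 * (ε / (80 * C2) * n) := mul_le_mul_of_nonneg_left htyp (by positivity)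
      _ = ε / 4 * n := by field_simp; ring
  have c1 : 20 * C1 * (R ^ 5 / 2 ^ r) * n / R ≤ ε / 4 * n / R := by
    gcongr
  have c2 : 20 * C2 * (R * (2 : ℝ) ^ ((3 * (r : ℝ)) / 4) / 2 ^ r) * n / R ≤ ε / 4 * n / R := by
    gcongr
  have c3 : |C3| * ((C : ℝ) + 1) ^ b / R * n / R ≤ ε / 4 * n / R := by
    gcongr
  rw [hdec]
  have htri := abs_add_three ((K * S' - Q) / K) ((Q - κ * T) / K) ((κ / K - wt z / R) * T)
  have hfin : ε * n / R = ε / 4 * n / R + ε / 4 * n / R + ε / 4 * n / R + ε / 4 * n / R := by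
    ring
  rw [hfin]
  linarith

end Pool.Agent.H18.Cage
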