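import Pool.Agent.H18.Cage.Geo

/-! Module SPEC: simultaneous diagonalization and counting of exceptional eigenvalues. -/

set_option autoImplicit false

namespace Pool.Agent.H18.Cage

open Polynomial Matrix Finset

/-- Orthogonal diagonalization of a real symmetric matrix. -/
theorem spec_diag {V : Type} [Fintype V] [DecidableEq V] (M : Matrix V V ℝ) (hM : M.IsSymm) :
    ∃ (O : Matrix V V ℝ) (lam : V → ℝ), O * Oᵀ = 1 ∧ Oᵀ * O = 1 ∧ M = O * diagonal lam * Oᵀ := by
  have hH : M.IsHermitian := by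
    rw [Matrix.IsHermitian, Matrix.conjTranspose_eq_transpose_of_trivial]
    exact hM
  refine ⟨hH.eigenvectorUnitary, hH.eigenvalues, ?_, ?_, ?_⟩
  · have := Unitary.coe_mul_star_self hH.eigenvectorUnitary
    rwa [Unitary.coe_star, Matrix.star_eq_conjTranspose,
      Matrix.conjTranspose_eq_transpose_of_trivial] at this
  · have := Unitary.coe_star_mul_self hH.eigenvectorUnitary
    rwa [Matrix.star_eq_conjTranspose,
      Matrix.conjTranspose_eq_transpose_of_trivial] at this
  · have := hH.spectral_theorem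
    rw [Unitary.conjStarAlgAut_apply, Matrix.star_eq_conjTranspose,
      Matrix.conjTranspose_eq_transpose_of_trivial] at this
    simpa [Function.comp_def] using this

theorem toR_mul {V : Type} [Fintype V] [DecidableEq V] (M N : Matrix V V ℤ) :
    toR (M * N) = toR M * toR N :=
  map_mul (Int.castRingHom ℝ).mapMatrix M N

theorem toR_add {V : Type} (M N : Matrix V V ℤ) : toR (M + N) = toR M + toR N := by
  ext i j; simp [toR]

theorem conj_pow {V : Type} [Fintype V] [DecidableEq V] (O : Matrix V V ℝ) (lam : V → ℝ)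
    (h1 : O * Oᵀ = 1) (h2 : Oᵀ * O = 1) (n : ℕ) :
    (O * diagonal lam * Oᵀ) ^ n = O * diagonal (fun i => lam i ^ n) * Oᵀ := by
  induction n with
  | zero => simp [h1]
  | succ n ih =>
    rw [pow_succ, ih]
    have : O * diagonal (fun i => lam i ^ n) * Oᵀ * (O * diagonal lam * Oᵀ) =
        O * diagonal (fun i => lam i ^ n) * (Oᵀ * O) * diagonal lam * Oᵀ := by
      simp only [Matrix.mul_assoc]
    rw [this, h2, Matrix.mul_one, Matrix.mul_assoc O, Matrix.diagonal_mul_diagonal]
    simp only [pow_succ]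

theorem toR_aeval {V : Type} [Fintype V] [DecidableEq V] (A : Matrix V V ℤ)
    (O : Matrix V V ℝ) (lam : V → ℝ)
    (h1 : O * Oᵀ = 1) (h2 : Oᵀ * O = 1) (hA : toR A = O * diagonal lam * Oᵀ) (p : ℤ[X]) :
    toR (aeval A p) = O * diagonal (fun i => ev p (lam i)) * Oᵀ := by
  induction p using Polynomial.induction_on' with
  | add p q hp hq =>
    rw [map_add, toR_add, hp, hq, ← Matrix.add_mul, ← Matrix.mul_add, Matrix.diagonal_add]
    simp only [ev_add]
  | monomial n a =>
    rw [aeval_monomial]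
    have e1 : toR ((algebraMap ℤ (Matrix V V ℤ)) a * A ^ n) = (a : ℝ) • (toR A) ^ n := by
      have : toR (A ^ n) = toR A ^ n := map_pow (Int.castRingHom ℝ).mapMatrix A n
      rw [← this, ← Algebra.smul_def]
      ext i j
      simp only [toR, Matrix.smul_apply, Matrix.map_apply, smul_eq_mul, Int.cast_mul]
    rw [e1, hA, conj_pow O lam h1 h2]
    have e2 : (fun i => ev (monomial n a) (lam i)) = (fun i => (a : ℝ) * lam i ^ n) := by
      ext i
      simp [ev, aeval_monomial]
    rw [e2]
    have e3 : diagonal (fun i => (a : ℝ) * lam i ^ n) = (a : ℝ) • diagonal (fun i => lam i ^ n) := by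
      ext i j
      by_cases h : i = j
      · subst h; simp
      · simp [h]
    rw [e3, Matrix.mul_smul, Matrix.smul_mul]

/-- Eigenvalues are bounded by the maximal absolute row sum. -/
theorem eig_le {V : Type} [Fintype V] [DecidableEq V] [Nonempty V] (M O : Matrix V V ℝ)
    (mu : V → ℝ) (D : ℝ) (hrow : ∀ x, ∑ y, |M x y| ≤ D)
    (h2 : Oᵀ * O = 1) (hM : M = O * diagonal mu * Oᵀ) (i : V) : |mu i| ≤ D := by
  have hMO : M * O = O * diagonal mu := by
    rw [hM, Matrix.mul_assoc, h2, Matrix.mul_one]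
  obtain ⟨x, hx⟩ := Finite.exists_max (fun x => |O x i|)
  have hpos : 0 < |O x i| := by
    rcases (abs_nonneg (O x i)).lt_or_eq with h | h
    · exact h
    · exfalso
      have h0 : ∀ y, O y i = 0 := by
        intro y
        have := hx y
        rw [← h] at this
        exact abs_nonpos_iff.mp this
      have := congrFun (congrFun h2 i) i
      rw [Matrix.mul_apply] at this
      simp [h0] at this
  have h3 : ∑ y, M x y * O y i = mu i * O x i := by
    have := congrFun (congrFun hMO x) i
    rw [Matrix.mul_apply, Matrix.mul_diagonal] at this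
    rw [this]; ring
  have h4 : |mu i| * |O x i| ≤ D * |O x i| := by
    rw [← abs_mul, ← h3]
    calc |∑ y, M x y * O y i| ≤ ∑ y, |M x y * O y i| := Finset.abs_sum_le_sum_abs _ _
      _ = ∑ y, |M x y| * |O y i| := by simp only [abs_mul]
      _ ≤ ∑ y, |M x y| * |O x i| := by
        apply Finset.sum_le_sum
        intro y _
        exact mul_le_mul_of_nonneg_left (hx y) (abs_nonneg _)
      _ = (∑ y, |M x y|) * |O x i| := by rw [Finset.sum_mul]
      _ ≤ D * |O x i| := mul_le_mul_of_nonneg_right (hrow x) (abs_nonneg _)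
  exact le_of_mul_le_mul_right h4 hpos

theorem adj_sum {V : Type} [Fintype V] [DecidableEq V] (G : SimpleGraph V) [DecidableRel G.Adj]
    (f : V → ℝ) (x : V) :
    ∑ y, toR (G.adjMatrix ℤ) x y * f y = ∑ y ∈ G.neighborFinset x, f y := by
  rw [SimpleGraph.neighborFinset_eq_filter, Finset.sum_filter]
  apply Finset.sum_congr rfl
  intro y _
  by_cases h : G.Adj x y
  · simp [toR, h]
  · simp [toR, h]

/-- Harmonic functions on a connected regular graph are constant. -/
theorem harmonic_const {V : Type} [Fintype V] [DecidableEq V] (G : SimpleGraph V)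
    [DecidableRel G.Adj] (hc : G.Connected) (hd : G.IsRegularOfDegree 5)
    (f : V → ℝ) (hf : ∀ x, ∑ y ∈ G.neighborFinset x, f y = 5 * f x) (x y : V) : f x = f y := by
  have : Nonempty V := ⟨x⟩
  obtain ⟨m, hm⟩ := Finite.exists_max f
  have step : ∀ u v, G.Adj u v → f u = f m → f v = f m := by
    intro u v huv hu
    have h1 := hf u
    have hcard : (G.neighborFinset u).card = 5 := by
      rw [SimpleGraph.card_neighborFinset_eq_degree]; exact hd u
    have h2 : ∑ y ∈ G.neighborFinset u, (f m - f y) = 0 := by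
      rw [Finset.sum_sub_distrib, Finset.sum_const, hcard, h1, hu]
      simp
    have h3 := (Finset.sum_eq_zero_iff_of_nonneg (fun y _ => sub_nonneg.mpr (hm y))).mp h2 v
      (by simpa using huv)
    linarith
  have all : ∀ v, f v = f m := by
    intro v
    obtain ⟨p⟩ := hc.preconnected m v
    have : ∀ (a b : V), G.Walk a b → f a = f m → f b = f m := by
      intro a b q
      induction q with
      | nil => exact id
      | cons h q ih => exact fun ha => ih (step _ _ h ha)
    exact this m v p rfl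
  rw [all x, all y]

theorem exists_spec (D : ℕ) : ∃ r0 : ℕ,
    ∀ (V : Type) [Fintype V] [DecidableEq V] (G : SimpleGraph V) [DecidableRel G.Adj]
      (s : ℤ) (r : ℕ) (E : Matrix V V ℤ), r0 ≤ r → Setup G s r D E →
      ∃ (O : Matrix V V ℝ) (lam mu : V → ℝ) (i0 : V),
        Spec (G.adjMatrix ℤ) E (W s r) D O lam mu i0 := by
  refine ⟨0, ?_⟩
  intro V _ _ G _ s r E _ hS
  have hconn := hS.tl.conn
  have : Nonempty V := hconn.nonempty
  have hAs : (toR (G.adjMatrix ℤ)).IsSymm := by
    ext i j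
    simp [toR, SimpleGraph.adj_comm]
  obtain ⟨O, lam, h1, h2, hA⟩ := spec_diag (toR (G.adjMatrix ℤ)) hAs
  have hAO : toR (G.adjMatrix ℤ) * O = O * diagonal lam := by
    rw [hA, Matrix.mul_assoc, h2, Matrix.mul_one]
  -- coordinates of the all ones vector
  set c : V → ℝ := fun i => ∑ x, O x i with hc
  have hone : ∀ x, ∑ i, O x i * c i = 1 := by
    intro x
    have e : ∑ i, O x i * c i = ∑ y, (O * Oᵀ) x y := by
      simp only [hc, Matrix.mul_apply, Matrix.transpose_apply, Finset.mul_sum]
      rw [Finset.sum_comm]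
    rw [e, h1]
    simp [Matrix.one_apply]
  have hlam : ∀ i, lam i * c i = 5 * c i := by
    intro i
    have e1 : ∀ x, ∑ y, toR (G.adjMatrix ℤ) x y * O y i = lam i * O x i := by
      intro x
      have := congrFun (congrFun hAO x) i
      rw [Matrix.mul_apply, Matrix.mul_diagonal] at this
      rw [this]; ring
    have e2 : ∑ x, ∑ y, toR (G.adjMatrix ℤ) x y * O y i = lam i * c i := by
      simp only [e1, hc, Finset.mul_sum]
    rw [← e2, Finset.sum_comm]
    have e3 : ∀ y, ∑ x, toR (G.adjMatrix ℤ) x y * O y i = 5 * O y i := by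
      intro y
      have h3 := adj_sum G (fun _ => O y i) y
      rw [Finset.sum_const, SimpleGraph.card_neighborFinset_eq_degree, hS.tl.deg y] at h3
      have h4 : ∀ x, toR (G.adjMatrix ℤ) x y = toR (G.adjMatrix ℤ) y x := by
        intro x
        exact congrFun (congrFun hAs x) y |>.symm
      simp only [h4]
      rw [h3]
      simp
    simp only [e3, hc, Finset.mul_sum]
  obtain ⟨x0⟩ : Nonempty V := inferInstance
  obtain ⟨i0, hi0⟩ : ∃ i, c i ≠ 0 := by
    by_contra hcon
    push Not at hcon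
    have := hone x0
    simp [hcon] at this
  have hl0 : lam i0 = 5 := by
    have := hlam i0
    exact mul_right_cancel₀ hi0 this
  have hconst : ∀ x y, O x i0 = O y i0 := by
    intro x y
    refine harmonic_const G hconn hS.tl.deg (fun x => O x i0) ?_ x y
    intro x
    rw [← adj_sum G (fun x => O x i0) x]
    have := congrFun (congrFun hAO x) i0
    rw [Matrix.mul_apply, Matrix.mul_diagonal] at this
    rw [this, hl0]; ring
  have hk : O x0 i0 ≠ 0 := by
    intro h0
    apply hi0
    simp only [hc]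
    apply Finset.sum_eq_zero
    intro x _
    rw [hconst x x0, h0]
  have hcz : ∀ i, i ≠ i0 → c i = 0 := by
    intro i hi
    have := congrFun (congrFun h2 i0) i
    rw [Matrix.mul_apply, Matrix.one_apply_ne (Ne.symm hi)] at this
    simp only [Matrix.transpose_apply] at this
    have e : ∑ x, O x i0 * O x i = O x0 i0 * c i := by
      simp only [hc, Finset.mul_sum]
      apply Finset.sum_congr rfl
      intro x _
      rw [hconst x x0]
    rw [e] at this
    exact (mul_eq_zero.mp this).resolve_left hk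
  have hone' : ∀ x, O x i0 * c i0 = 1 := by
    intro x
    rw [← hone x, Finset.sum_eq_single i0]
    · intro b _ hb
      rw [hcz b hb, mul_zero]
    · intro h; exact absurd (Finset.mem_univ _) h
  -- the all ones matrix
  have hJ : (Matrix.of (fun _ _ => (1 : ℝ)) : Matrix V V ℝ) =
      O * diagonal (fun i => if i = i0 then c i0 ^ 2 else 0) * Oᵀ := by
    ext x y
    rw [Matrix.mul_apply]
    simp only [Matrix.mul_diagonal, Matrix.transpose_apply, Matrix.of_apply]
    rw [Finset.sum_eq_single i0]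
    · rw [if_pos rfl]
      have a := hone' x
      have b := hone' y
      calc (1 : ℝ) = (O x i0 * c i0) * (O y i0 * c i0) := by rw [a, b]; norm_num
        _ = _ := by ring
    · intro b _ hb
      rw [if_neg hb]; ring
    · intro h; exact absurd (Finset.mem_univ _) h
  refine ⟨O, lam, fun i => - ev (W s r) (lam i) + (if i = i0 then (1 + s) * c i0 ^ 2 else 0), i0, ?_⟩
  have hE : toR E = O * diagonal (fun i => - ev (W s r) (lam i) +
      (if i = i0 then (1 + (s : ℝ)) * c i0 ^ 2 else 0)) * Oᵀ := by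
    have e1 : toR E = (1 + (s : ℝ)) • (Matrix.of (fun _ _ => (1 : ℝ)) : Matrix V V ℝ) -
        toR (aeval (G.adjMatrix ℤ) (W s r)) := by
      have := congrArg toR hS.rel
      rw [toR_add] at this
      rw [eq_sub_iff_add_eq, add_comm, this]
      ext x y
      simp [toR]
    rw [e1, toR_aeval _ O lam h1 h2 hA, hJ, ← Matrix.smul_mul, ← Matrix.mul_smul,
      ← Matrix.sub_mul, ← Matrix.mul_sub]
    congr 2
    ext x y
    by_cases h : x = y
    · subst h
      simp only [Matrix.sub_apply, Matrix.smul_apply, Matrix.diagonal_apply_eq, smul_eq_mul]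
      by_cases h' : x = i0
      · rw [if_pos h', if_pos h']; ring
      · rw [if_neg h', if_neg h']; ring
    · simp [h]
  refine ⟨h1, h2, hA, hE, hl0, ?_, ?_, ?_⟩
  · intro i hi
    simp [hi]
  · intro i
    refine eig_le (toR E) O _ D ?_ h2 hE i
    intro x
    have h3 := hS.row x
    have h4 : ∀ y, |toR E x y| = ((E x y : ℤ) : ℝ) := by
      intro y
      have := hS.nonneg x y
      simp only [toR, Matrix.map_apply]
      rw [abs_of_nonneg (by exact_mod_cast this)]
    simp only [h4]
    exact_mod_cast h3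
  · intro i
    refine eig_le (toR (G.adjMatrix ℤ)) O _ 5 ?_ h2 hA i
    intro x
    have h3 := adj_sum G (fun _ => 1) x
    rw [Finset.sum_const, SimpleGraph.card_neighborFinset_eq_degree, hS.tl.deg x] at h3
    have h4 : ∀ y, |toR (G.adjMatrix ℤ) x y| = toR (G.adjMatrix ℤ) x y * 1 := by
      intro y
      rw [mul_one]
      apply abs_of_nonneg
      by_cases h : G.Adj x y
      · simp [toR, h]
      · simp [toR, h]
    simp only [h4]
    rw [h3]
    norm_num

/-- trace of a conjugated diagonal matrix squared -/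
theorem trace_sq {V : Type} [Fintype V] [DecidableEq V] (O : Matrix V V ℝ) (d : V → ℝ)
    (h1 : O * Oᵀ = 1) (h2 : Oᵀ * O = 1) (M : Matrix V V ℝ) (hM : M = O * diagonal d * Oᵀ) :
    (M * M).trace = ∑ i, d i ^ 2 := by
  have : M * M = O * diagonal (fun i => d i ^ 2) * Oᵀ := by
    rw [← pow_two, hM, conj_pow O d h1 h2]
  rw [this, Matrix.mul_assoc, Matrix.trace_mul_comm, Matrix.mul_assoc, h2, Matrix.mul_one,
    Matrix.trace_diagonal]

/-- trace of the square of a distance matrix -/
theorem trace_Dm_sq {V : Type} [Fintype V] [DecidableEq V] (G : SimpleGraph V) (t : ℕ) :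
    (toR (Dm G t) * toR (Dm G t)).trace =
      ∑ u, ((univ.filter (fun v => G.dist u v = t)).card : ℝ) := by
  rw [Matrix.trace]
  apply Finset.sum_congr rfl
  intro u _
  rw [Matrix.diag_apply, Matrix.mul_apply, Finset.card_filter]
  push_cast
  apply Finset.sum_congr rfl
  intro v _
  simp only [toR, Matrix.map_apply, Dm, Matrix.of_apply]
  rw [G.dist_comm (u := v)]
  by_cases h : G.dist u v = t
  · simp [h]
  · simp [h]

theorem exc_bound (D : ℕ) (ε : ℝ) (hε : 0 < ε) : ∃ r0 : ℕ,
    ∀ (V : Type) [Fintype V] [DecidableEq V] (G : SimpleGraph V) [DecidableRel G.Adj]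
      (s : ℤ) (r : ℕ) (E : Matrix V V ℤ) (O : Matrix V V ℝ) (lam mu : V → ℝ) (i0 : V),
      r0 ≤ r → Setup G s r D E → Spec (G.adjMatrix ℤ) E (W s r) D O lam mu i0 →
      (((nex lam)ᶜ).card : ℝ) * (r + 1) ≤ ε * Fintype.card V := by
  refine ⟨⌈3 / ε⌉₊ + 1, ?_⟩
  intro V _ _ G _ s r E O lam mu i0 hr hS hSp
  have hr1 : 1 ≤ r := by omega
  have hrε : 3 / ε ≤ r := by
    have h1 : (3 / ε : ℝ) ≤ ⌈3 / ε⌉₊ := Nat.le_ceil _
    have h2 : ((⌈3 / ε⌉₊ + 1 : ℕ) : ℝ) ≤ r := by exact_mod_cast hr
    push_cast at h2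
    linarith
  have hF := toR_aeval (G.adjMatrix ℤ) O lam hSp.O1 hSp.O2 hSp.hA (F r)
  rw [hS.tl.aeval_F r le_rfl] at hF
  have htr := trace_sq O _ hSp.O1 hSp.O2 _ hF
  rw [trace_Dm_sq] at htr
  obtain ⟨m, rfl⟩ : ∃ m, r = m + 1 := ⟨r - 1, by omega⟩
  have hup : ∑ i, ev (F (m + 1)) (lam i) ^ 2 ≤ Fintype.card V * (5 * 4 ^ m) := by
    rw [← htr]
    calc ∑ u, ((univ.filter (fun v => G.dist u v = m + 1)).card : ℝ)
        ≤ ∑ _u : V, (5 * 4 ^ m : ℝ) := by
          apply Finset.sum_le_sum
          intro u _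
          exact_mod_cast hS.tl.card_sphere_le u m
      _ = Fintype.card V * (5 * 4 ^ m) := by simp
  have hlow : (((nex lam)ᶜ).card : ℝ) * (3 / 4 * ((m + 1 : ℕ) + 1) * 2 ^ (m + 1)) ^ 2 ≤
      ∑ i, ev (F (m + 1)) (lam i) ^ 2 := by
    calc (((nex lam)ᶜ).card : ℝ) * (3 / 4 * ((m + 1 : ℕ) + 1) * 2 ^ (m + 1)) ^ 2
        = ∑ _i ∈ (nex lam)ᶜ, (3 / 4 * (((m + 1 : ℕ) : ℝ) + 1) * 2 ^ (m + 1)) ^ 2 := by
          rw [Finset.sum_const, nsmul_eq_mul]
      _ ≤ ∑ i ∈ (nex lam)ᶜ, ev (F (m + 1)) (lam i) ^ 2 := by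
          apply Finset.sum_le_sum
          intro i hi
          have hi' : 4 ≤ |lam i| := by
            rw [Finset.mem_compl] at hi
            by_contra hcon
            apply hi
            simp only [nex, Finset.mem_filter, Finset.mem_univ, true_and]
            linarith
          have := ev_F_large (m + 1) (lam i) hi'
          rw [← sq_abs (ev (F (m + 1)) (lam i))]
          gcongr
      _ ≤ ∑ i, ev (F (m + 1)) (lam i) ^ 2 :=
          Finset.sum_le_sum_of_subset_of_nonneg (Finset.subset_univ _)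
            (fun i _ _ => sq_nonneg _)
  have hfin := hlow.trans hup
  have e1 : (3 / 4 * (((m + 1 : ℕ) : ℝ) + 1) * 2 ^ (m + 1)) ^ 2 =
      (9 / 4 * (((m + 1 : ℕ) : ℝ) + 1) ^ 2) * 4 ^ m := by
    have : ((2 : ℝ) ^ (m + 1)) ^ 2 = 4 * 4 ^ m := by
      rw [← pow_mul, mul_comm, pow_mul]
      norm_num
      rw [pow_succ]; ring
    rw [mul_pow, this]; ring
  rw [e1] at hfin
  have h4 : (0 : ℝ) < 4 ^ m := by positivity
  have hfin2 : (((nex lam)ᶜ).card : ℝ) * (9 / 4 * (((m + 1 : ℕ) : ℝ) + 1) ^ 2) ≤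
      Fintype.card V * 5 := by
    have : ((((nex lam)ᶜ).card : ℝ) * (9 / 4 * (((m + 1 : ℕ) : ℝ) + 1) ^ 2)) * 4 ^ m ≤
        (Fintype.card V * 5) * 4 ^ m := by linarith
    exact le_of_mul_le_mul_right this h4
  have hεr : 3 ≤ ε * (((m + 1 : ℕ) : ℝ) + 1) := by
    rw [div_le_iff₀ hε] at hrε
    nlinarith
  set R : ℝ := (((m + 1 : ℕ) : ℝ) + 1) with hR
  have hRpos : 0 < R := by positivity
  set N : ℝ := (((nex lam)ᶜ).card : ℝ) with hN
  set n : ℝ := (Fintype.card V : ℝ) with hn
  have hNn : 0 ≤ N := Nat.cast_nonneg _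
  have hnn : 0 ≤ n := Nat.cast_nonneg _
  have h5 : N * R * R * (9 / 4) ≤ 5 * n := by nlinarith
  have h6 : (N * R) * R ≤ (ε * n) * R := by
    nlinarith
  exact le_of_mul_le_mul_right h6 hRpos

theorem sum_sq_lam {V : Type} [Fintype V] [DecidableEq V] (G : SimpleGraph V) [DecidableRel G.Adj]
    (s : ℤ) (r D : ℕ) (E : Matrix V V ℤ) (O : Matrix V V ℝ) (lam mu : V → ℝ) (i0 : V)
    (hS : Setup G s r D E) (hSp : Spec (G.adjMatrix ℤ) E (W s r) D O lam mu i0) :
    ∑ i, lam i ^ 2 = 5 * Fintype.card V := by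
  rw [← trace_sq O lam hSp.O1 hSp.O2 _ hSp.hA, ← TreeLike.Dm_one, trace_Dm_sq]
  have : ∀ u : V, (univ.filter (fun v => G.dist u v = 1)).card = 5 := by
    intro u
    exact hS.tl.sphere_one u
  simp only [this]
  simp [mul_comm]

end Pool.Agent.H18.Cage
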