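import Pool.Agent.H18.Cage.Struct3

/-! Module STRUCT-4. -/

set_option autoImplicit false

namespace Pool.Agent.H18.Cage

open Polynomial Matrix Finset

section Chain

variable {V : Type} [Fintype V] [DecidableEq V] {G : SimpleGraph V} [DecidableRel G.Adj]
  {E : Matrix V V ℤ} {D b R0 r : ℕ}

/-- Chains of aligned pairs. -/
theorem chain_iso (h : TreeLike G r) (hE : ∀ u v, 0 ≤ E u v) (hsymm : E.IsSymm)
    (hD : D ≤ R0) (hR : 2 * R0 ≤ r) (v : V) :
    ∀ (j : ℕ) (m : V), (PM G E D R0 ^ j) m v ≠ 0 →
      ∃ ψ : V → V, LocIso G R0 v m ψ ∧ Reach G E (j * (D + 1)) v m ∧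
        ∀ u, G.dist v u + D ≤ R0 →
          ((E * aeval (G.adjMatrix ℤ) (Gp D)) ^ j) u (ψ u) ≠ 0 := by
  classical
  have tri : ∀ a b c : V, G.dist a c ≤ G.dist a b + G.dist b c := fun a b c =>
    h.conn.dist_triangle
  have dc : ∀ a b : V, G.dist a b = G.dist b a := fun a b => G.dist_comm
  intro j
  induction j with
  | zero =>
    intro m hm
    have hmv : m = v := by
      by_contra hne
      rw [pow_zero, Matrix.one_apply_ne hne] at hm
      exact hm rfl
    subst hmv
    refine ⟨id, LocIso.refl G R0 m, Reach.refl hE _ _, ?_⟩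
    intro u _
    rw [pow_zero, id, Matrix.one_apply_eq]
    norm_num
  | succ j ih =>
    intro m hm
    rw [pow_succ', Matrix.mul_apply] at hm
    obtain ⟨x, _, hx⟩ := Finset.exists_ne_zero_of_sum_ne_zero hm
    obtain ⟨ψ, hψ, hreach, hN⟩ := ih x (right_ne_zero_of_mul hx)
    have hPM : PM G E D R0 m x ≠ 0 := left_ne_zero_of_mul hx
    have hA' : Aligned G E D R0 m x := by
      by_contra hA
      apply hPM
      simp only [PM, Matrix.of_apply, if_neg hA]
    obtain ⟨φ, c, hφ, hc, t, ht, hct⟩ := aligned_symm h hsymm hR hA'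
    refine ⟨φ ∘ ψ, hψ.comp hφ, ?_, ?_⟩
    · obtain ⟨y, hy, _⟩ := h.extend (a := m) (b := m) t (by simp; omega)
      have hxy : E x y ≠ 0 := by
        have := hc x y (by simp) (by omega)
        rw [hφ.base, hy] at this
        rw [this]
        exact hct
      have h1 : Reach G E (1 + D) x m :=
        (Reach.of_E hE hxy).trans hE (Reach.of_dist h hE D (by rw [dc y m]; omega))
      have h2 := hreach.trans hE h1
      have e : j * (D + 1) + (1 + D) = (j + 1) * (D + 1) := by ring
      rwa [e] at h2
    · intro u hu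
      apply pow_trans_entry (N1_nonneg h hE (by omega)) (hN u hu)
      rw [pow_one]
      obtain ⟨y, hy, _⟩ := h.extend (a := φ (ψ u)) (b := φ (ψ u)) t (by simp; omega)
      have e1 := hψ.dist_base (u := u) (by omega)
      have e2 := hφ.dist_base (u := ψ u) (by omega)
      have t1 := tri m (φ (ψ u)) y
      have hxy : E (ψ u) y ≠ 0 := by
        have := hc (ψ u) y (by omega) (by omega)
        rw [hy] at this
        rw [this]
        exact hct
      exact N1_ne h hE (by omega) hxy (by rw [dc y]; simp only [Function.comp_apply]; omega)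

end Chain

/-- MODULE STRUCT-4: iterated representation and no near return. -/
theorem rep_all (D b R0 : ℕ) (hb : 2 ≤ b) (hR0 : 10 * (rowN D b + D + 2) ≤ R0) :
    ∃ K r0 : ℕ, ∀ (V : Type) [Fintype V] [DecidableEq V] (G : SimpleGraph V)
      [DecidableRel G.Adj] (s : ℤ) (r : ℕ) (E : Matrix V V ℤ), r0 ≤ r → Setup G s r D E →
      ∀ v ∈ typN G E D b r K, ∀ j ≤ b,
        (∀ w, (E ^ j) w v = ∑ m, (aeval (G.adjMatrix ℤ) ((PM G E D R0 ^ j) m v)) w m) ∧
        (∀ m, m ≠ v → (PM G E D R0 ^ j) m v ≠ 0 → r ≤ 4 * G.dist v m) := by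
  obtain ⟨K1, r1, hone⟩ := rep_one D b R0 hb hR0
  obtain ⟨T, hT⟩ : ∃ T, T = rowN D b := ⟨_, rfl⟩
  rw [← hT] at hR0
  refine ⟨K1 + b * (D + 1) + R0, r1 + 20 * R0, ?_⟩
  intro V _ _ G _ s r E hr hS v hv j hj
  classical
  have h := hS.tl
  have hE := hS.nonneg
  have hsymm := hS.symm
  have dc : ∀ a b : V, G.dist a b = G.dist b a := fun a b => G.dist_comm
  have hchain := fun j m => chain_iso (G := G) (E := E) (D := D) (R0 := R0) h hE hsymm
    (by omega) (by omega) v j m
  constructor
  · -- representation
    have hAE : ∀ p : ℤ[X], E * aeval (G.adjMatrix ℤ) p = aeval (G.adjMatrix ℤ) p * E := by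
      intro p
      have hc : Commute E (G.adjMatrix ℤ) := hS.comm.symm
      induction p using Polynomial.induction_on' with
      | add p q hp hq => rw [map_add, mul_add, add_mul, hp, hq]
      | monomial n a =>
        rw [Polynomial.aeval_monomial]
        exact ((Algebra.commute_algebraMap_right a E).mul_right (hc.pow_right n)).eq
    induction j with
    | zero =>
      intro w
      rw [pow_zero, pow_zero, Finset.sum_eq_single v]
      · rw [Matrix.one_apply_eq, map_one]
      · intro m _ hne
        rw [Matrix.one_apply_ne hne, map_zero, Matrix.zero_apply]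
      · intro hh
        exact absurd (mem_univ v) hh
    | succ j ih =>
      have ih' := ih (by omega)
      intro w
      have step1 : ∀ m, (aeval (G.adjMatrix ℤ) ((PM G E D R0 ^ j) m v) * E) w m =
          ∑ m', (aeval (G.adjMatrix ℤ) (PM G E D R0 m' m * (PM G E D R0 ^ j) m v)) w m' := by
        intro m
        by_cases hm : (PM G E D R0 ^ j) m v = 0
        · rw [hm]
          simp
        · obtain ⟨ψ, _, hreach, _⟩ := hchain j m hm
          have hle : j * (D + 1) ≤ b * (D + 1) := Nat.mul_le_mul_right _ (by omega)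
          have hmt : m ∈ typN G E D b r K1 :=
            typN_of_reach hE (typN_mono hE hv (by omega)) hreach
          have hrep := hone V G s r E (by omega) hS m hmt
          rw [Matrix.mul_apply]
          have e1 : ∀ x, (aeval (G.adjMatrix ℤ) ((PM G E D R0 ^ j) m v)) w x * E x m =
              ∑ m', (aeval (G.adjMatrix ℤ) ((PM G E D R0 ^ j) m v)) w x *
                (aeval (G.adjMatrix ℤ) (PM G E D R0 m' m)) x m' := by
            intro x
            rw [hrep x, Finset.mul_sum]
          rw [Finset.sum_congr rfl (fun x _ => e1 x), Finset.sum_comm]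
          apply Finset.sum_congr rfl
          intro m' _
          rw [mul_comm (PM G E D R0 m' m), map_mul, Matrix.mul_apply]
      calc (E ^ (j + 1)) w v = ∑ x, E w x * (E ^ j) x v := by
            rw [pow_succ', Matrix.mul_apply]
        _ = ∑ x, ∑ m, E w x * (aeval (G.adjMatrix ℤ) ((PM G E D R0 ^ j) m v)) x m := by
            apply Finset.sum_congr rfl
            intro x _
            rw [ih' x, Finset.mul_sum]
        _ = ∑ m, (E * aeval (G.adjMatrix ℤ) ((PM G E D R0 ^ j) m v)) w m := by
            rw [Finset.sum_comm]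
            apply Finset.sum_congr rfl
            intro m _
            rw [Matrix.mul_apply]
        _ = ∑ m, ∑ m', (aeval (G.adjMatrix ℤ)
              (PM G E D R0 m' m * (PM G E D R0 ^ j) m v)) w m' := by
            apply Finset.sum_congr rfl
            intro m _
            rw [hAE, step1 m]
        _ = ∑ m', (aeval (G.adjMatrix ℤ) ((PM G E D R0 ^ (j + 1)) m' v)) w m' := by
            rw [Finset.sum_comm]
            apply Finset.sum_congr rfl
            intro m' _
            rw [pow_succ', Matrix.mul_apply, map_sum, Matrix.sum_apply]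
  · -- no near return
    intro m hm hne
    by_contra hcon
    push Not at hcon
    obtain ⟨ψ, hψ, _, hN⟩ := hchain j m hne
    have hv1 : v ∉ badN G E D b r := notMem_badN_of_reach hv (Reach.refl hE _ v)
    have h1 : Nm G E D b v m ≠ 0 := by
      have := Nm_ne h hE (by omega) hj (hN v (by simp; omega))
      rwa [hψ.base] at this
    have h2 := not_bad hv1 h1
    rw [← hT] at h2
    have hpos : G.dist v m ≠ 0 := fun hh => hm (h.conn.dist_eq_zero_iff.mp hh).symm
    obtain ⟨u, hu1, hu2⟩ := push h (LocIso.refl G R0 v) hψ (Ne.symm hm) (T + 1) (by omega)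
      (by omega) (by omega)
    rw [id] at hu2
    have hu3 : u ∉ badN G E D b r := notMem_badN_of_reach hv
      ((Reach.of_dist h hE (T + 1) hu1.le).mono hE (by omega))
    have h3 : Nm G E D b u (ψ u) ≠ 0 := Nm_ne h hE (by omega) hj (hN u (by omega))
    have h4 := not_bad hu3 h3
    rw [← hT] at h4
    omega

end Pool.Agent.H18.Cage
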