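import Pool.Agent.H18.Cage.Struct2
import Pool.Agent.H18.Cage.Struct4

/-! Assembly of the structure theorem. -/

set_option autoImplicit false

namespace Pool.Agent.H18.Cage

open Polynomial Matrix Finset

theorem exists_polyRep (D : ℕ) : ∃ C : ℕ, ∀ (b : ℕ) (ε : ℝ), 0 < ε → ∃ r0 : ℕ,
    ∀ (V : Type) [Fintype V] [DecidableEq V] (G : SimpleGraph V) [DecidableRel G.Adj]
      (s : ℤ) (r : ℕ) (E : Matrix V V ℤ), r0 ≤ r → Setup G s r D E →
      ∃ (P : Matrix V V ℤ[X]) (Typ : Finset V), PolyRep G E D C b r ε P Typ := by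
  obtain ⟨C, hC⟩ := PM_row D
  refine ⟨C, fun b ε hε => ?_⟩
  set b' := max b 2 with hb'
  set R0 := 10 * (rowN D b' + D + 2) with hR0
  obtain ⟨K, r1, h1⟩ := rep_all D b' R0 (le_max_right _ _) le_rfl
  obtain ⟨r2, h2⟩ := typN_card D b' K ε hε
  refine ⟨r1 + r2 + 2 * R0, fun V _ _ G _ s r E hr hS => ?_⟩
  have hDR : D ≤ R0 := by omega
  refine ⟨PM G E D R0, typN G E D b' r K, ?_, ?_, ?_, ?_, ?_, ?_, ?_⟩
  · exact PM_symm hS.tl hS.symm (by omega) hDR
  · exact PM_deg G E D R0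
  · exact hC V G E R0 r hS.tl hDR (by omega) hS.nonneg hS.row
  · exact PM_nonneg hS.tl hS.nonneg (by omega)
  · exact h2 V G s r E (by omega) hS
  · intro v hv j hj w
    exact (h1 V G s r E (by omega) hS v hv j (hj.trans (le_max_left _ _))).1 w
  · intro v hv j hj m hm hne
    exact (h1 V G s r E (by omega) hS v hv j (hj.trans (le_max_left _ _))).2 m hm hne

end Pool.Agent.H18.Cage
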