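import Pool.Agent.H18.Cage.Kernel

/-! Module ZEROS: many zeros of the relation polynomial near the centre of the spectrum. -/

set_option autoImplicit false

namespace Pool.Agent.H18.Cage

open Polynomial Matrix Finset

/-- The grid points. -/
noncomputable def gridpt (N j : ℕ) : ℝ := (Real.pi / 2 + Real.pi * j) / N

theorem gridpt_lt {N j k : ℕ} (hN : 0 < N) (h : j < k) : gridpt N j < gridpt N k := by
  unfold gridpt
  have hN' : (0:ℝ) < N := by exact_mod_cast hN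
  apply div_lt_div_of_pos_right _ hN'
  have h1 : (j:ℝ) < k := by exact_mod_cast h
  have := mul_lt_mul_of_pos_left h1 Real.pi_pos
  linarith

theorem gridpt_le {N j k : ℕ} (hN : 0 < N) (h : j ≤ k) : gridpt N j ≤ gridpt N k := by
  rcases h.lt_or_eq with h | h
  · exact (gridpt_lt hN h).le
  · rw [h]

theorem sin_gridpt {N j : ℕ} (hN : 0 < N) : Real.sin (N * gridpt N j) = (-1) ^ j := by
  have hN' : (N:ℝ) ≠ 0 := by exact_mod_cast hN.ne'
  unfold gridpt
  rw [mul_div_cancel₀ _ hN', add_comm, Real.sin_add_pi_div_two, mul_comm, Real.cos_nat_mul_pi]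

theorem exists_zero_between (g : ℝ → ℝ) (hg : Continuous g) (a b c : ℝ) (hab : a ≤ b)
    (h1 : 0 < c * g a) (h2 : c * g b < 0) : ∃ t, a < t ∧ t < b ∧ g t = 0 := by
  have hcont : ContinuousOn (fun t => c * g t) (Set.Icc a b) :=
    (continuous_const.mul hg).continuousOn
  have h0 : (0:ℝ) ∈ Set.Icc (c * g b) (c * g a) := ⟨h2.le, h1.le⟩
  obtain ⟨t, ht, hgt⟩ := intermediate_value_Icc' hab hcont h0
  have hgt' : c * g t = 0 := hgt
  have hc : c ≠ 0 := by
    rintro rfl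
    simp at h1
  refine ⟨t, lt_of_le_of_ne ht.1 ?_, lt_of_le_of_ne ht.2 ?_, ?_⟩
  · rintro rfl
    exact h1.ne' hgt'
  · rintro rfl
    exact h2.ne hgt'
  · rcases mul_eq_zero.1 hgt' with h | h
    · exact absurd h hc
    · exact h

theorem exists_zeros (g : ℝ → ℝ) (hg : Continuous g) (N : ℕ) (hN : 1000 ≤ N)
    (hs : ∀ j : ℕ, 0 < (-1) ^ j * g (gridpt N j)) :
    ∃ Z : Finset ℝ, N / 500 ≤ Z.card ∧ ∀ z ∈ Z, ∃ t, z = 4 * Real.cos t ∧ g t = 0 ∧
      Real.pi / 2 ≤ t ∧ t ≤ Real.pi / 2 + 1 / 80 := by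
  have hN0 : 0 < N := by omega
  have hNr : (0:ℝ) < N := by exact_mod_cast hN0
  have hex : ∀ k : ℕ, ∃ t, gridpt N (N / 2 + k) < t ∧ t < gridpt N (N / 2 + k + 1) ∧ g t = 0 := by
    intro k
    refine exists_zero_between g hg _ _ ((-1) ^ (N / 2 + k)) (gridpt_le hN0 (by omega))
      (hs _) ?_
    have := hs (N / 2 + k + 1)
    rw [pow_succ] at this
    linarith
  choose t ht1 ht2 ht3 using hex
  have hlow : Real.pi / 2 ≤ gridpt N (N / 2) := by
    unfold gridpt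
    rw [le_div_iff₀ hNr]
    have : (N:ℝ) ≤ 2 * ((N / 2 : ℕ) : ℝ) + 1 := by
      have : N ≤ 2 * (N / 2) + 1 := by omega
      exact_mod_cast this
    nlinarith [Real.pi_pos]
  have hup : gridpt N (N / 2 + N / 500) ≤ Real.pi / 2 + 1 / 80 := by
    unfold gridpt
    rw [div_le_iff₀ hNr]
    have h1 : 2 * ((N / 2 : ℕ) : ℝ) ≤ N := by
      have : 2 * (N / 2) ≤ N := by omega
      exact_mod_cast this
    have h2 : 500 * ((N / 500 : ℕ) : ℝ) ≤ N := by
      have : 500 * (N / 500) ≤ N := by omega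
      exact_mod_cast this
    have h3 : (1000 : ℝ) ≤ N := by exact_mod_cast hN
    have h4 := Real.pi_lt_d2
    have h5 := Real.pi_pos
    push_cast
    have h6 : Real.pi * (2 * ((N / 2 : ℕ) : ℝ)) ≤ Real.pi * N :=
      mul_le_mul_of_nonneg_left h1 h5.le
    have h7 : Real.pi * (500 * ((N / 500 : ℕ) : ℝ)) ≤ Real.pi * N :=
      mul_le_mul_of_nonneg_left h2 h5.le
    nlinarith
  have hbd : ∀ k, k < N / 500 → Real.pi / 2 ≤ t k ∧ t k ≤ Real.pi / 2 + 1 / 80 := by
    intro k hk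
    constructor
    · exact (hlow.trans (gridpt_le hN0 (by omega))).trans (ht1 k).le
    · exact (ht2 k).le.trans ((gridpt_le hN0 (by omega)).trans hup)
  have hmono : ∀ k l, k < l → t k < t l := by
    intro k l hkl
    exact (ht2 k).trans_le ((gridpt_le hN0 (by omega)).trans (ht1 l).le)
  refine ⟨(range (N / 500)).image (fun k => 4 * Real.cos (t k)), ?_, ?_⟩
  · rw [Finset.card_image_of_injOn, Finset.card_range]
    intro k hk l hl hkl
    have hk' := hbd k (Finset.mem_range.1 hk)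
    have hl' := hbd l (Finset.mem_range.1 hl)
    have hpi := Real.pi_gt_three
    have hcos : Real.cos (t k) = Real.cos (t l) := by
      have : 4 * Real.cos (t k) = 4 * Real.cos (t l) := hkl
      linarith
    have htt := Real.injOn_cos ⟨by linarith [hk'.1], by linarith [hk'.2]⟩
      ⟨by linarith [hl'.1], by linarith [hl'.2]⟩ hcos
    rcases lt_trichotomy k l with h | h | h
    · exact absurd htt (hmono k l h).ne
    · exact h
    · exact absurd htt (hmono l k h).ne'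
  · intro z hz
    obtain ⟨k, hk, rfl⟩ := Finset.mem_image.1 hz
    have hk' := hbd k (Finset.mem_range.1 hk)
    exact ⟨t k, rfl, ht3 k, hk'.1, hk'.2⟩

theorem abs_four_cos_le {t : ℝ} (h1 : Real.pi / 2 ≤ t) (h2 : t ≤ Real.pi / 2 + 1 / 80) :
    |4 * Real.cos t| ≤ 1 / 20 := by
  have h3 : Real.cos t = - Real.sin (t - Real.pi / 2) := by
    rw [Real.sin_sub_pi_div_two]
    ring
  rw [h3, mul_neg, abs_neg, abs_mul]
  have h4 : |Real.sin (t - Real.pi / 2)| ≤ |t - Real.pi / 2| := Real.abs_sin_le_abs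
  rw [abs_of_nonneg (show 0 ≤ t - Real.pi / 2 by linarith)] at h4
  rw [abs_of_pos (by norm_num : (0:ℝ) < 4)]
  linarith

theorem continuous_ev (p : ℤ[X]) : Continuous (fun x => ev p x) := by
  unfold ev
  exact Polynomial.continuous_aeval p

theorem W_zero_trig (r : ℕ) (θ : ℝ) : ev (W 0 r) (4 * Real.cos θ) * Real.sin θ =
    2 ^ (r + 1) * (Real.sin ((r + 2 : ℕ) * θ) + 1 / 2 * Real.sin ((r + 1 : ℕ) * θ)) := by
  have h1 := ev_U_trig (r + 1) θ
  have h2 := ev_U_trig r θ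
  unfold W
  rw [Gp_succ]
  simp only [ev_add, ev_mul, ev_C]
  have e1 : (((r + 1 : ℕ) : ℝ) + 1) * θ = ((r + 2 : ℕ) : ℝ) * θ := by push_cast; ring
  have e2 : ((r : ℝ) + 1) * θ = ((r + 1 : ℕ) : ℝ) * θ := by push_cast; ring
  rw [e1] at h1
  rw [e2] at h2
  rw [pow_succ] at *
  linear_combination h1 + h2

theorem W_four_trig (r : ℕ) (θ : ℝ) : ev (W 4 (r + 1)) (4 * Real.cos θ) * Real.sin θ =
    (4 * Real.cos θ + 5) * (2 ^ (r + 1) * Real.sin ((r + 2 : ℕ) * θ)) := by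
  have h1 := ev_U_trig (r + 1) θ
  have e1 : (((r + 1 : ℕ) : ℝ) + 1) * θ = ((r + 2 : ℕ) : ℝ) * θ := by push_cast; ring
  rw [e1] at h1
  rw [← h1]
  unfold W
  rw [Gp_succ, Gp_succ]
  simp only [ev_add, ev_mul, ev_C, ev_U_succ]
  push_cast
  ring

theorem zeros_fact : ∃ r0 : ℕ, ∀ (s : ℤ) (r : ℕ), (s = 0 ∨ s = 4) → r0 ≤ r →
    ∃ Z : Finset ℝ, ((r : ℝ) + 1) / 1000 ≤ Z.card ∧
    (∀ z ∈ Z, |z| ≤ 1 / 20 ∧ ev (W s r) z = 0) ∧
    (∀ z ∈ Z, ∀ z' ∈ Z, z ≠ z' → 2 / ((r : ℝ) + 1) ^ 5 ≤ |z - z'|) := by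
  obtain ⟨C, r0, hk⟩ := kernel_facts 0
  refine ⟨max r0 2000, ?_⟩
  intro s r hs hr
  have hr0 : r0 ≤ r := le_trans (le_max_left _ _) hr
  have hr2 : 2000 ≤ r := le_trans (le_max_right _ _) hr
  have hr2' : (2000 : ℝ) ≤ r := by exact_mod_cast hr2
  set g : ℝ → ℝ := fun θ => ev (W s r) (4 * Real.cos θ) * Real.sin θ with hg
  have hgc : Continuous g :=
    ((continuous_ev _).comp (continuous_const.mul Real.continuous_cos)).mul Real.continuous_sin
  have hZ : ∃ N : ℕ, 1000 ≤ N ∧ r + 1 ≤ N ∧ ∀ j : ℕ, 0 < (-1) ^ j * g (gridpt N j) := by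
    rcases hs with rfl | rfl
    · refine ⟨r + 2, by omega, by omega, ?_⟩
      intro j
      simp only [hg]
      rw [W_zero_trig, sin_gridpt (by omega)]
      have e1 : (-1:ℝ) ^ j * (-1) ^ j = 1 := by
        rw [← mul_pow]; simp
      have e2 : |(-1:ℝ) ^ j * Real.sin ((r + 1 : ℕ) * gridpt (r + 2) j)| ≤ 1 := by
        rw [abs_mul, abs_pow, abs_neg, abs_one, one_pow, one_mul]
        exact Real.abs_sin_le_one _
      have e3 := (abs_le.1 e2).1
      have e4 : (0:ℝ) < 2 ^ (r + 1) := by positivity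
      have e5 : (-1:ℝ) ^ j * (2 ^ (r + 1) * ((-1) ^ j + 1 / 2 *
          Real.sin ((r + 1 : ℕ) * gridpt (r + 2) j))) =
          2 ^ (r + 1) * ((-1) ^ j * (-1) ^ j + 1 / 2 *
            ((-1:ℝ) ^ j * Real.sin ((r + 1 : ℕ) * gridpt (r + 2) j))) := by ring
      rw [e5, e1]
      apply mul_pos e4
      linarith
    · obtain ⟨r', rfl⟩ : ∃ r', r = r' + 1 := ⟨r - 1, by omega⟩
      refine ⟨r' + 2, by omega, by omega, ?_⟩
      intro j
      simp only [hg]
      rw [W_four_trig, sin_gridpt (by omega)]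
      have e1 : (-1:ℝ) ^ j * (-1) ^ j = 1 := by
        rw [← mul_pow]; simp
      have e2 := Real.neg_one_le_cos (gridpt (r' + 2) j)
      have e5 : (-1:ℝ) ^ j * ((4 * Real.cos (gridpt (r' + 2) j) + 5) *
          (2 ^ (r' + 1) * (-1) ^ j)) =
          (4 * Real.cos (gridpt (r' + 2) j) + 5) * 2 ^ (r' + 1) * ((-1) ^ j * (-1) ^ j) := by
        ring
      rw [e5, e1, mul_one]
      apply mul_pos (by linarith) (by positivity)
  obtain ⟨N, hN1, hN2, hNs⟩ := hZ
  obtain ⟨Z, hZc, hZz⟩ := exists_zeros g hgc N hN1 hNs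
  have hzero : ∀ z ∈ Z, |z| ≤ 1 / 20 ∧ ev (W s r) z = 0 := by
    intro z hz
    obtain ⟨t, rfl, hgt, h1, h2⟩ := hZz z hz
    refine ⟨abs_four_cos_le h1 h2, ?_⟩
    have hsin : 0 < Real.sin t := by
      apply Real.sin_pos_of_pos_of_lt_pi
      · linarith [Real.pi_pos]
      · linarith [Real.pi_gt_three]
    rcases mul_eq_zero.1 hgt with h | h
    · exact h
    · exact absurd h hsin.ne'
  refine ⟨Z, ?_, hzero, ?_⟩
  · have h1 : ((N / 500 : ℕ) : ℝ) ≤ Z.card := by exact_mod_cast hZc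
    have h2 : (N:ℝ) ≤ 500 * ((N / 500 : ℕ) : ℝ) + 500 := by
      have : N ≤ 500 * (N / 500) + 500 := by omega
      exact_mod_cast this
    have h3 : (r:ℝ) + 1 ≤ N := by exact_mod_cast hN2
    linarith
  · intro z hz z' hz' hne
    have h1 := hzero z hz
    have h2 := hzero z' hz'
    have hz4 : |z| ≤ 4 := h1.1.trans (by norm_num)
    have hz4' : |z'| ≤ 4 := h2.1.trans (by norm_num)
    have hlip := Kr_lip s hs r z z' hz4 hz4'
    have hkk := (hk s r z' hs hr0 hz4' (by rw [h2.2]; simp)).1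
    have hmul := Kr_mul s r z z'
    rw [h1.2, h2.2, sub_zero] at hmul
    have hK0 : Kr s r z z' = 0 := by
      rcases mul_eq_zero.1 hmul with h | h
      · exact absurd (sub_eq_zero.1 h) hne
      · exact h
    rw [hK0, zero_sub, abs_neg] at hlip
    have h3 := hkk.trans hlip
    have h2r : (0:ℝ) < 2 ^ r := by positivity
    have h4 : ((r:ℝ) + 1) / 20 ≤ 24 * ((r:ℝ) + 1) ^ 5 * |z - z'| := by
      have h5 : ((r:ℝ) + 1) / 20 * 2 ^ r ≤ (24 * ((r:ℝ) + 1) ^ 5 * |z - z'|) * 2 ^ r := by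
        calc ((r:ℝ) + 1) / 20 * 2 ^ r = ((r:ℝ) + 1) * 2 ^ r / 20 := by ring
          _ ≤ _ := h3
          _ = _ := by ring
      exact le_of_mul_le_mul_right h5 h2r
    rw [div_le_iff₀ (by positivity)]
    nlinarith

end Pool.Agent.H18.Cage
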