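import Pool.Agent.H18.Cage.Girth3
import Pool.Agent.H18.Cage.StructMain
import Pool.Agent.H18.Cage.SpecM
import Pool.Agent.H18.Cage.Zeros
import Pool.Agent.H18.Cage.Quad
import Pool.Agent.H18.Cage.Key
import Pool.Agent.H18.Cage.FinalD

set_option autoImplicit false

namespace Pool.Agent.H18.Cage

open Polynomial Matrix Finset

theorem no_setup (D : ℕ) : ∃ r0 : ℕ, ∀ (V : Type) [Fintype V] [DecidableEq V]
    (G : SimpleGraph V) [DecidableRel G.Adj] (s : ℤ) (r : ℕ) (E : Matrix V V ℤ),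
    r0 ≤ r → ¬ Setup G s r D E := by
  obtain ⟨C, hC⟩ := exists_polyRep D
  obtain ⟨b, ε, rF, hε, hF⟩ := final_arith D C
  obtain ⟨εk, rk, hεk, hk⟩ := key_ineq D
  set ε1 := min ε εk with hε1
  have hε1pos : 0 < ε1 := lt_min hε hεk
  obtain ⟨ε', rQ, hε', hQ⟩ := quadrature D C b ε1 hε1pos
  obtain ⟨rP, hP⟩ := hC b ε' hε'
  obtain ⟨rS, hS⟩ := exists_spec D
  obtain ⟨rE, hE⟩ := exc_bound D ε1 hε1pos
  obtain ⟨rs, hs⟩ := sep_fact D
  obtain ⟨rZ, hZ⟩ := zeros_fact
  refine ⟨rF + rk + rQ + rP + rS + rE + rs + rZ, ?_⟩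
  intro V _ _ G _ s r E hr hSet
  obtain ⟨O, lam, mu, i0, hSp⟩ := hS V G s r E (by omega) hSet
  obtain ⟨P, Typ, hPR⟩ := hP V G s r E (by omega) hSet
  have hn : (0 : ℝ) ≤ Fintype.card V := Nat.cast_nonneg _
  have hr1 : (0 : ℝ) < (r : ℝ) + 1 := by positivity
  have hsep : ∀ z : ℝ, |z| ≤ 4 → |ev (W s r) z| ≤ D → ∀ j ∈ cl r lam z,
      |lam j| ≤ 4 ∧ |lam j - z| * 2 ^ r ≤ |mu j + ev (W s r) z| := by
    intro z hz hWz j hj
    have hj' : |lam j - z| < 1 / ((r : ℝ) + 1) ^ 5 := by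
      simpa [cl] using hj
    have hj0 : j ≠ i0 := by
      rintro rfl
      rw [hSp.lam0] at hj'
      have h1 : (1 : ℝ) ≤ |5 - z| := by
        have := abs_le.mp hz
        rw [abs_of_nonneg (by linarith)]
        linarith
      have h2 : 1 / ((r : ℝ) + 1) ^ 5 ≤ 1 := by
        rw [div_le_one (by positivity)]
        exact one_le_pow₀ (by linarith)
      linarith
    have hmu := hSp.mu_eq j hj0
    have hW : |ev (W s r) (lam j)| ≤ D := by
      have := hSp.mu_le j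
      rw [hmu, abs_neg] at this
      exact this
    obtain ⟨h1, -, h3⟩ := hs s r z (lam j) hSet.hs (by omega) hz hWz hj' (Or.inl hW)
    refine ⟨h1, ?_⟩
    rw [hmu]
    have : |-ev (W s r) (lam j) + ev (W s r) z| = |ev (W s r) (lam j) - ev (W s r) z| := by
      rw [← abs_neg]; congr 1; ring
    rw [this]
    exact h3
  have hexc := hE V G s r E O lam mu i0 (by omega) hSet hSp
  have hquad := hQ V G s r E O lam mu i0 P Typ (by omega) hSet hSp hPR
  have hWnex : ∀ i ∈ nex lam, |lam i| ≤ 4 ∧ |ev (W s r) (lam i)| ≤ D := by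
    intro i hi
    have h4 : |lam i| ≤ 4 := by simpa [nex] using hi
    refine ⟨h4, ?_⟩
    have hi0 : i ≠ i0 := by
      rintro rfl
      rw [hSp.lam0] at h4
      norm_num at h4
    have := hSp.mu_le i
    rw [hSp.mu_eq i hi0, abs_neg] at this
    exact this
  have hkey := hk V (G.adjMatrix ℤ) O lam r (by omega) hSp.O1 hSp.O2 hSp.hA hSp.lam_le
    (sum_sq_lam G s r D E O lam mu i0 hSet hSp)
    (hexc.trans (mul_le_mul_of_nonneg_right (min_le_right _ _) hn))
    (by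
      intro i hi
      obtain ⟨h4, hW⟩ := hWnex i hi
      have := hquad (lam i) h4 hW 0 (Nat.zero_le _)
      simp only [pow_zero, sum_const, nsmul_eq_mul, mul_one, trace_one] at this
      refine this.trans ?_
      gcongr
      exact min_le_right _ _)
    (by
      intro i hi j hj
      obtain ⟨h4, hW⟩ := hWnex i hi
      have := (hsep (lam i) h4 hW j hj).2
      refine this.trans ?_
      have h1 := hSp.mu_le j
      calc |mu j + ev (W s r) (lam i)| ≤ |mu j| + |ev (W s r) (lam i)| := abs_add_le _ _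
        _ ≤ D + D := add_le_add h1 hW
        _ = 2 * D := by ring)
  refine hF V (G.adjMatrix ℤ) E (W s r) P O lam mu i0 r (by omega) ?_
  refine ⟨hSp, hPR.symm, hPR.deg, hPR.row, ?_, hsep, ?_, hkey, hZ s r hSet.hs (by omega)⟩
  · exact hexc.trans (mul_le_mul_of_nonneg_right (min_le_left _ _) hn)
  · intro z hz hWz j hj
    refine (hquad z hz hWz j hj).trans ?_
    gcongr
    exact min_le_left _ _

theorem main :
    ¬ (∀ k : ℕ, 3 ≤ k → ∃ c : ℕ,
      Set.Infinite {g : ℕ | 3 ≤ g ∧ ∃ n : ℕ,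
        n ≤ (if Even g then 2 * ∑ i ∈ Finset.range (g / 2), (k - 1) ^ i
             else 1 + k * ∑ i ∈ Finset.range ((g - 1) / 2), (k - 1) ^ i) + c ∧
        ∃ G : SimpleGraph (Fin n), (∃ _ : DecidableRel G.Adj, G.IsRegularOfDegree k) ∧ G.girth = g}) := by
  intro h
  obtain ⟨c, hc⟩ := h 5 (by norm_num)
  apply hc
  obtain ⟨r1, h1⟩ := setup_odd c
  obtain ⟨r2, h2⟩ := setup_even c
  obtain ⟨r3, h3⟩ := no_setup (5 * c)
  refine Set.Finite.subset (Set.finite_lt_nat (2 * (r1 + r2 + r3) + 10)) ?_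
  rintro g ⟨hg3, n, hn, G, ⟨inst, hreg⟩, hgirth⟩
  by_contra hlt
  simp only [Set.mem_setOf_eq, not_lt] at hlt
  by_cases hev : Even g
  · obtain ⟨m, hm⟩ := hev
    have hr : g = 2 * (m - 1) + 2 := by omega
    have hn' : n ≤ 2 * ∑ i ∈ range ((m - 1) + 1), 4 ^ i + c := by
      have : Even g := ⟨m, hm⟩
      rw [if_pos this] at hn
      have h5 : g / 2 = (m - 1) + 1 := by omega
      rw [h5] at hn
      exact hn
    obtain ⟨E, hE⟩ := h2 n (m - 1) G (by omega) hreg (by omega) hn'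
    exact h3 (Fin n) G 4 (m - 1) E (by omega) hE
  · obtain ⟨m, hm⟩ := Nat.not_even_iff_odd.mp hev
    have hn' : n ≤ 1 + 5 * ∑ i ∈ range ((m - 1) + 1), 4 ^ i + c := by
      rw [if_neg hev] at hn
      have h5 : (g - 1) / 2 = (m - 1) + 1 := by omega
      rw [h5] at hn
      exact hn
    obtain ⟨E, hE⟩ := h1 n (m - 1) G (by omega) hreg (by omega) hn'
    exact h3 (Fin n) G 0 (m - 1) E (by omega) hE

end Pool.Agent.H18.Cage
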