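import Pool.Agent.H18.Cage.Defs

/-! Basic facts on the polynomial sequences. -/

set_option autoImplicit false

namespace Pool.Agent.H18.Cage

open Polynomial Matrix Finset

@[simp] theorem ev_add (p q : ℤ[X]) (x : ℝ) : ev (p + q) x = ev p x + ev q x := by simp [ev]
@[simp] theorem ev_sub (p q : ℤ[X]) (x : ℝ) : ev (p - q) x = ev p x - ev q x := by simp [ev]
@[simp] theorem ev_mul (p q : ℤ[X]) (x : ℝ) : ev (p * q) x = ev p x * ev q x := by simp [ev]
@[simp] theorem ev_pow (p : ℤ[X]) (n : ℕ) (x : ℝ) : ev (p ^ n) x = ev p x ^ n := by simp [ev]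
@[simp] theorem ev_neg (p : ℤ[X]) (x : ℝ) : ev (-p) x = - ev p x := by simp [ev]
@[simp] theorem ev_X (x : ℝ) : ev X x = x := by simp [ev]
@[simp] theorem ev_C (a : ℤ) (x : ℝ) : ev (C a) x = a := by simp [ev]
@[simp] theorem ev_one (x : ℝ) : ev 1 x = 1 := by simp [ev]
@[simp] theorem ev_zero (x : ℝ) : ev 0 x = 0 := by simp [ev]
@[simp] theorem ev_natCast (n : ℕ) (x : ℝ) : ev (n : ℤ[X]) x = n := by simp [ev]
@[simp] theorem ev_four (x : ℝ) : ev 4 x = 4 := by
  have := ev_natCast 4 x
  simpa using this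
@[simp] theorem ev_five (x : ℝ) : ev 5 x = 5 := by
  have := ev_natCast 5 x
  simpa using this
theorem ev_sum {ι : Type} (s : Finset ι) (f : ι → ℤ[X]) (x : ℝ) :
    ev (∑ i ∈ s, f i) x = ∑ i ∈ s, ev (f i) x := by simp [ev]

@[simp] theorem ev_U_zero (x : ℝ) : ev (U 0) x = 1 := by simp [U]
@[simp] theorem ev_U_one (x : ℝ) : ev (U 1) x = x := by simp [U]
theorem ev_U_succ (n : ℕ) (x : ℝ) : ev (U (n + 2)) x = x * ev (U (n + 1)) x - 4 * ev (U n) x := by
  simp [U]

@[simp] theorem ev_F_zero (x : ℝ) : ev (F 0) x = 1 := by simp [F]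
@[simp] theorem ev_F_one (x : ℝ) : ev (F 1) x = x := by simp [F]
@[simp] theorem ev_F_two (x : ℝ) : ev (F 2) x = x ^ 2 - 5 := by simp [F]
theorem ev_F_succ (n : ℕ) (x : ℝ) :
    ev (F (n + 3)) x = x * ev (F (n + 2)) x - 4 * ev (F (n + 1)) x := by
  simp [F]

/-- `F (n+2) = U (n+2) - U n`. -/
theorem F_eq (n : ℕ) : F (n + 2) = U (n + 2) - U n := by
  induction n using Nat.twoStepInduction with
  | zero => simp [F, U]; ring
  | one => simp [F, U]; ring
  | more n ih1 ih2 =>
    have h1 : F (n + 4) = X * F (n + 3) - 4 * F (n + 2) := rfl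
    have h2 : U (n + 4) = X * U (n + 3) - 4 * U (n + 2) := rfl
    have h3 : U (n + 2) = X * U (n + 1) - 4 * U n := rfl
    rw [h1, ih1, ih2, h2, h3]
    ring

/-- `Gp (n+1) = U (n+1) + U n`. -/
theorem Gp_succ (n : ℕ) : Gp (n + 1) = U (n + 1) + U n := by
  induction n using Nat.twoStepInduction with
  | zero => simp [Gp, sum_range_succ, F, U]; ring
  | one => simp [Gp, sum_range_succ, F, U]; ring
  | more n ih1 ih2 =>
    have : Gp (n + 2 + 1) = Gp (n + 1 + 1) + F (n + 3) := by
      simp only [Gp]; rw [sum_range_succ _ (n + 3)]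
    rw [this, ih2, F_eq (n + 1)]
    ring

theorem Gp_zero : Gp 0 = 1 := by simp [Gp, F]

theorem S_succ (n : ℕ) : S (n + 1) = S n + U n := by simp [S, sum_range_succ]

theorem S_zero : S 0 = 0 := by simp [S]

/-- `S (n+2) = X * S (n+1) - 4 * S n + 1`. -/
theorem S_rec (n : ℕ) : S (n + 2) = X * S (n + 1) - 4 * S n + 1 := by
  induction n with
  | zero => simp [S, sum_range_succ, U]; ring
  | succ n ih =>
    have h3 : U (n + 2) = X * U (n + 1) - 4 * U n := rfl
    have e1 : S (n + 1 + 2) = S (n + 2) + U (n + 2) := S_succ (n + 2)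
    have e2 : S (n + 1 + 1) = S (n + 1) + U (n + 1) := S_succ (n + 1)
    have e3 : S (n + 2) = S (n + 1) + U (n + 1) := S_succ (n + 1)
    have e4 : S (n + 1) = S n + U n := S_succ n
    rw [e1, h3, ih]
    have e5 : S (n + 1 + 1) = X * S (n + 1) - 4 * S n + 1 := ih
    linear_combination (X : ℤ[X]) * ih - X * e3 + 4 * e4

/-- Closed form: `(5 - X) * S (n+1) = 1 + 4 * U n - U (n+1)`. -/
theorem S_closed (n : ℕ) : (5 - X) * S (n + 1) = 1 + 4 * U n - U (n + 1) := by
  induction n with
  | zero => simp [S, U]; ring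
  | succ n ih =>
    rw [S_succ (n + 1), mul_add, ih]
    have h3 : U (n + 2) = X * U (n + 1) - 4 * U n := rfl
    rw [h3]
    ring

/-- Auxiliary kernel. -/
noncomputable def Kd (d : ℕ) (x z : ℝ) : ℝ := ∑ t ∈ range d, ev (F t) x * ev (S (d - t)) z

theorem ev_S_rec (n : ℕ) (z : ℝ) : ev (S (n + 2)) z = z * ev (S (n + 1)) z - 4 * ev (S n) z + 1 := by
  rw [S_rec]; simp

theorem ev_S_zero (z : ℝ) : ev (S 0) z = 0 := by simp [S_zero]

theorem ev_S_one (z : ℝ) : ev (S 1) z = 1 := by simp [S, U]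

theorem Gp_rec (n : ℕ) : Gp (n + 2) = X * Gp (n + 1) - 4 * Gp n := by
  cases n with
  | zero => simp [Gp, sum_range_succ, F]; ring
  | succ n =>
    rw [Gp_succ (n + 2), Gp_succ (n + 1), Gp_succ n]
    have h3 : U (n + 3) = X * U (n + 2) - 4 * U (n + 1) := rfl
    have h2 : U (n + 2) = X * U (n + 1) - 4 * U n := rfl
    rw [h3]
    linear_combination h2

theorem Kd_rec (d : ℕ) (x z : ℝ) :
    Kd (d + 2) x z = ev (Gp (d + 1)) x + z * Kd (d + 1) x z - 4 * Kd d x z := by
  have hG : ev (Gp (d + 1)) x = ∑ t ∈ range d, ev (F t) x + ev (F d) x + ev (F (d + 1)) x := by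
    simp only [Gp]
    rw [ev_sum, sum_range_succ, sum_range_succ]
  rw [hG]
  simp only [Kd]
  rw [sum_range_succ, sum_range_succ, sum_range_succ]
  have e1 : d + 2 - (d + 1) = 1 := by omega
  have e2 : d + 2 - d = 2 := by omega
  have e3 : d + 1 - d = 1 := by omega
  rw [e1, e2, e3, ev_S_one]
  have e4 : ev (S 2) z = z + 1 := by
    have := ev_S_rec 0 z
    simp only [zero_add, ev_S_zero, ev_S_one] at this
    rw [this]; ring
  rw [e4]
  have e5 : ∑ t ∈ range d, ev (F t) x * ev (S (d + 2 - t)) z =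
      ∑ t ∈ range d, ev (F t) x + z * ∑ t ∈ range d, ev (F t) x * ev (S (d + 1 - t)) z
        - 4 * ∑ t ∈ range d, ev (F t) x * ev (S (d - t)) z := by
    rw [mul_sum, mul_sum, ← sum_add_distrib, ← sum_sub_distrib]
    apply sum_congr rfl
    intro t ht
    have ht' : t < d := mem_range.mp ht
    obtain ⟨m, hm⟩ : ∃ m, d - t = m := ⟨_, rfl⟩
    have a1 : d + 2 - t = m + 2 := by omega
    have a2 : d + 1 - t = m + 1 := by omega
    rw [a1, a2, hm, ev_S_rec]
    ring
  rw [e5]
  ring

theorem Kd_mul (d : ℕ) (x z : ℝ) : (x - z) * Kd d x z = ev (Gp d) x - ev (Gp d) z := by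
  induction d using Nat.twoStepInduction with
  | zero => simp [Kd, Gp, F]
  | one => simp [Kd, Gp, sum_range_succ, F, ev_S_one]
  | more d ih1 ih2 =>
    rw [Kd_rec, Gp_rec]
    simp only [ev_sub, ev_mul, ev_X, ev_four]
    linear_combination z * ih2 - 4 * ih1

theorem Kr_eq_Kd (s : ℤ) (r : ℕ) (x z : ℝ) : Kr s r x z = Kd (r + 1) x z + s * Kd r x z := by
  simp only [Kr, Kd, kap]
  have : ∑ t ∈ range (r + 1), ev (F t) x * ev (S (r + 1 - t) + C s * S (r - t)) z =
      ∑ t ∈ range (r + 1), ev (F t) x * ev (S (r + 1 - t)) z +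
      s * ∑ t ∈ range (r + 1), ev (F t) x * ev (S (r - t)) z := by
    rw [mul_sum, ← sum_add_distrib]
    apply sum_congr rfl
    intro t _
    simp only [ev_add, ev_mul, ev_C]
    ring
  rw [this]
  congr 2
  rw [sum_range_succ]
  simp [ev_S_zero]

theorem Kr_mul (s : ℤ) (r : ℕ) (x z : ℝ) :
    (x - z) * Kr s r x z = ev (W s r) x - ev (W s r) z := by
  rw [Kr_eq_Kd]
  simp only [W, ev_add, ev_mul, ev_C]
  linear_combination Kd_mul (r + 1) x z + (s : ℝ) * Kd_mul r x z

theorem ev_U_trig (n : ℕ) (θ : ℝ) :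
    ev (U n) (4 * Real.cos θ) * Real.sin θ = 2 ^ n * Real.sin ((n + 1) * θ) := by
  induction n using Nat.twoStepInduction with
  | zero => simp
  | one =>
    simp only [ev_U_one, Nat.cast_one]
    have : ((1 : ℝ) + 1) * θ = 2 * θ := by ring
    rw [this, Real.sin_two_mul]; ring
  | more n ih1 ih2 =>
    rw [ev_U_succ]
    have h1 : Real.sin (((n + 2 : ℕ) + 1 : ℝ) * θ) =
        2 * Real.cos θ * Real.sin (((n + 1 : ℕ) + 1 : ℝ) * θ) - Real.sin ((n + 1 : ℝ) * θ) := by
      have a : (((n + 2 : ℕ) : ℝ) + 1) * θ = (((n + 1 : ℕ) : ℝ) + 1) * θ + θ := by push_cast; ring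
      have b : ((n : ℝ) + 1) * θ = (((n + 1 : ℕ) : ℝ) + 1) * θ - θ := by push_cast; ring
      rw [a, b, Real.sin_add, Real.sin_sub]
      ring
    rw [h1]
    have : (4 * Real.cos θ * ev (U (n + 1)) (4 * Real.cos θ) - 4 * ev (U n) (4 * Real.cos θ)) *
        Real.sin θ = 4 * Real.cos θ * (ev (U (n + 1)) (4 * Real.cos θ) * Real.sin θ) -
        4 * (ev (U n) (4 * Real.cos θ) * Real.sin θ) := by ring
    rw [this, ih1, ih2]
    rw [pow_succ, pow_succ]
    ring

theorem abs_sin_nat_mul_le (n : ℕ) (θ : ℝ) : |Real.sin (n * θ)| ≤ n * |Real.sin θ| := by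
  induction n with
  | zero => simp
  | succ n ih =>
    have : ((n + 1 : ℕ) : ℝ) * θ = n * θ + θ := by push_cast; ring
    rw [this, Real.sin_add]
    calc |Real.sin (n * θ) * Real.cos θ + Real.cos (n * θ) * Real.sin θ|
        ≤ |Real.sin (n * θ)| * |Real.cos θ| + |Real.cos (n * θ)| * |Real.sin θ| := by
          refine (abs_add_le _ _).trans ?_
          rw [abs_mul, abs_mul]
      _ ≤ |Real.sin (n * θ)| * 1 + 1 * |Real.sin θ| := by
          gcongr
          · exact Real.abs_cos_le_one _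
          · exact Real.abs_cos_le_one _
      _ ≤ ((n + 1 : ℕ) : ℝ) * |Real.sin θ| := by push_cast; linarith

theorem ev_U_neg (n : ℕ) (x : ℝ) : ev (U n) (-x) = (-1) ^ n * ev (U n) x := by
  induction n using Nat.twoStepInduction with
  | zero => simp
  | one => simp
  | more n ih1 ih2 =>
    rw [ev_U_succ, ev_U_succ, ih1, ih2, pow_succ, pow_succ]
    ring

theorem ev_U_four (n : ℕ) : ev (U n) 4 = (n + 1) * 2 ^ n := by
  induction n using Nat.twoStepInduction with
  | zero => simp
  | one => simp; norm_num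
  | more n ih1 ih2 =>
    rw [ev_U_succ, ih1, ih2, pow_succ, pow_succ]
    push_cast
    ring

theorem abs_ev_U_le (n : ℕ) (x : ℝ) (hx : |x| ≤ 4) : |ev (U n) x| ≤ (n + 1) * 2 ^ n := by
  have hx' := abs_le.mp hx
  set θ := Real.arccos (x / 4) with hθ
  have hcos : 4 * Real.cos θ = x := by
    rw [hθ, Real.cos_arccos (by linarith) (by linarith)]; ring
  by_cases hs : Real.sin θ = 0
  · have h1 : Real.cos θ ^ 2 = 1 := by
      have := Real.sin_sq_add_cos_sq θ
      rw [hs] at this; linarith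
    have h2 : x = 4 ∨ x = -4 := by
      have : (x - 4) * (x + 4) = 0 := by rw [← hcos]; linear_combination 16 * h1
      rcases mul_eq_zero.mp this with h | h
      · left; linarith
      · right; linarith
    have h4 : |ev (U n) 4| ≤ (n + 1) * 2 ^ n := by
      rw [ev_U_four, abs_of_nonneg (by positivity)]
    rcases h2 with rfl | rfl
    · exact h4
    · rw [ev_U_neg, abs_mul, abs_pow]
      simpa using h4
  · have h1 := ev_U_trig n θ
    rw [hcos] at h1
    have h2 : |ev (U n) x| * |Real.sin θ| ≤ ((n + 1) * 2 ^ n) * |Real.sin θ| := by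
      rw [← abs_mul, h1, abs_mul, abs_pow, abs_two]
      have := abs_sin_nat_mul_le (n + 1) θ
      push_cast at this
      calc (2 : ℝ) ^ n * |Real.sin ((n + 1) * θ)| ≤ 2 ^ n * ((n + 1) * |Real.sin θ|) := by gcongr
        _ = _ := by ring
    exact le_of_mul_le_mul_right h2 (abs_pos.mpr hs)

theorem abs_ev_F_le (n : ℕ) (x : ℝ) (hx : |x| ≤ 4) : |ev (F n) x| ≤ 2 * (n + 1) * 2 ^ n := by
  match n with
  | 0 => simp
  | 1 => simp; linarith
  | (n + 2) =>
    rw [F_eq, ev_sub]
    have h1 := abs_ev_U_le (n + 2) x hx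
    have h2 := abs_ev_U_le n x hx
    have h3 := abs_sub (ev (U (n + 2)) x) (ev (U n) x)
    have h4 : ((n : ℝ) + 1) * 2 ^ n ≤ (((n + 2 : ℕ) : ℝ) + 1) * 2 ^ (n + 2) := by
      push_cast
      gcongr
      · linarith
      · norm_num
      · omega
    calc |ev (U (n + 2)) x - ev (U n) x| ≤ |ev (U (n + 2)) x| + |ev (U n) x| := h3
      _ ≤ (((n + 2 : ℕ) : ℝ) + 1) * 2 ^ (n + 2) + (((n + 2 : ℕ) : ℝ) + 1) * 2 ^ (n + 2) := by
        linarith
      _ = _ := by ring

theorem abs_ev_S_le (n : ℕ) (x : ℝ) (hx : |x| ≤ 4) : |ev (S n) x| ≤ n * 2 ^ n := by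
  induction n with
  | zero => simp [ev_S_zero]
  | succ n ih =>
    rw [S_succ, ev_add]
    have h1 := abs_ev_U_le n x hx
    calc |ev (S n) x + ev (U n) x| ≤ |ev (S n) x| + |ev (U n) x| := abs_add_le _ _
      _ ≤ n * 2 ^ n + (n + 1) * 2 ^ n := by linarith
      _ ≤ ((n + 1 : ℕ) : ℝ) * 2 ^ (n + 1) := by
        rw [pow_succ]; push_cast
        have : (0 : ℝ) < 2 ^ n := by positivity
        nlinarith

theorem abs_ev_kap_le (s : ℤ) (hs : s = 0 ∨ s = 4) (r t : ℕ) (ht : t ≤ r) (z : ℝ) (hz : |z| ≤ 4) :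
    |ev (kap s r t) z| ≤ 6 * (r + 1) * 2 ^ (r - t) := by
  obtain ⟨m, rfl⟩ := Nat.exists_eq_add_of_le ht
  have e1 : t + m + 1 - t = m + 1 := by omega
  have e2 : t + m - t = m := by omega
  rw [kap, e1, e2, ev_add, ev_mul, ev_C]
  have h1 := abs_ev_S_le (m + 1) z hz
  have h2 := abs_ev_S_le m z hz
  have hs' : |(s : ℝ)| ≤ 4 := by rcases hs with rfl | rfl <;> norm_num
  have h3 : |(s : ℝ) * ev (S m) z| ≤ 4 * (m * 2 ^ m) := by
    rw [abs_mul]; gcongr
  calc |ev (S (m + 1)) z + (s : ℝ) * ev (S m) z| ≤ |ev (S (m + 1)) z| + |(s : ℝ) * ev (S m) z| :=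
        abs_add_le _ _
    _ ≤ ((m + 1 : ℕ) : ℝ) * 2 ^ (m + 1) + 4 * (m * 2 ^ m) := by linarith
    _ ≤ 6 * (((t + m : ℕ) : ℝ) + 1) * 2 ^ m := by
      rw [pow_succ]; push_cast
      have : (0 : ℝ) < 2 ^ m := by positivity
      have ht0 : (0 : ℝ) ≤ t := Nat.cast_nonneg t
      have hm0 : (0 : ℝ) ≤ m := Nat.cast_nonneg m
      nlinarith [mul_nonneg ht0 this.le]

theorem ev_F_five (n : ℕ) : ev (F (n + 1)) 5 = 5 * 4 ^ n := by
  induction n using Nat.twoStepInduction with
  | zero => simp
  | one => simp; norm_num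
  | more n ih1 ih2 =>
    have := ev_F_succ n (5 : ℝ)
    have e : n + 2 + 1 = n + 3 := rfl
    rw [e, this, ih1, ih2, pow_succ, pow_succ]
    ring

theorem ev_F_neg (n : ℕ) (x : ℝ) : ev (F n) (-x) = (-1) ^ n * ev (F n) x := by
  match n with
  | 0 => simp
  | 1 => simp
  | (n + 2) =>
    rw [F_eq, ev_sub, ev_sub, ev_U_neg, ev_U_neg, pow_succ, pow_succ]
    ring

theorem ev_F_trig (n : ℕ) (θ : ℝ) :
    ev (F n) (4 * Real.cos θ) * Real.sin θ =
      2 ^ n * (3 / 4 * Real.sin (n * θ) * Real.cos θ + 5 / 4 * Real.cos (n * θ) * Real.sin θ) ∨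
      n = 0 := by
  match n with
  | 0 => right; rfl
  | 1 =>
    left
    simp only [ev_F_one, Nat.cast_one, one_mul]
    ring
  | (n + 2) =>
    left
    rw [F_eq, ev_sub, sub_mul, ev_U_trig, ev_U_trig]
    have a : (((n + 2 : ℕ) : ℝ) + 1) * θ = ((n + 2 : ℕ) : ℝ) * θ + θ := by ring
    have b : ((n : ℝ) + 1) * θ = ((n + 2 : ℕ) : ℝ) * θ - θ := by push_cast; ring
    rw [a, b, Real.sin_add, Real.sin_sub, pow_succ, pow_succ]
    ring

theorem F_spherical (n : ℕ) (x : ℝ) (h4 : 4 ≤ x) (h5 : x ≤ 5) :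
    0 ≤ ev (F (n + 1)) x ∧ ev (F (n + 1)) x ≤ 5 * 4 ^ n ∧
    2 * ev (F (n + 1)) x ≤ ev (F (n + 2)) x ∧ ev (F (n + 2)) x ≤ 4 * ev (F (n + 1)) x := by
  induction n with
  | zero =>
    simp only [zero_add, ev_F_one, ev_F_two, pow_zero, mul_one]
    refine ⟨by linarith, by linarith, by nlinarith, by nlinarith⟩
  | succ n ih =>
    obtain ⟨h1, h2, h3, h6⟩ := ih
    have h7 := ev_F_succ n x
    have e : n + 1 + 1 = n + 2 := rfl
    have e' : n + 1 + 2 = n + 3 := rfl
    rw [e, e', h7]
    refine ⟨by linarith, by rw [pow_succ]; linarith, by nlinarith, by nlinarith⟩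

/-- For `5 ≥ |x|`, `|F t x| ≤ F t 5`. -/
theorem abs_ev_F_le_five (n : ℕ) (x : ℝ) (hx : |x| ≤ 5) : |ev (F n) x| ≤ ev (F n) 5 := by
  wlog h0 : 0 ≤ x generalizing x with H
  · have := H (-x) (by rwa [abs_neg]) (by linarith)
    rw [ev_F_neg, abs_mul, abs_pow, abs_neg, abs_one, one_pow, one_mul] at this
    exact this
  rw [abs_of_nonneg h0] at hx
  cases n with
  | zero => simp
  | succ n =>
    rw [ev_F_five]
    rcases le_total 4 x with h4 | h4
    · obtain ⟨h1, h2, -, -⟩ := F_spherical n x h4 hx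
      rw [abs_of_nonneg h1]; exact h2
    · have hpow : (2 : ℝ) ^ (n + 1) * ((3 * (n + 1) + 5) / 4) ≤ 5 * 4 ^ n := by
        have h1 : (3 : ℝ) * (n + 1) + 5 ≤ 5 * 2 ^ (n + 1) := by
          have : ((n : ℝ) + 1) ≤ 2 ^ n := by
            have := Nat.lt_two_pow_self (n := n)
            have h' : n + 1 ≤ 2 ^ n := this
            exact_mod_cast h'
          rw [pow_succ]
          have h2 : (1 : ℝ) ≤ 2 ^ n := one_le_pow₀ (by norm_num)
          linarith
        have h2 : (4 : ℝ) ^ n = 2 ^ n * 2 ^ n := by rw [← mul_pow]; norm_num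
        rw [h2, pow_succ]
        rw [pow_succ] at h1
        have h3 : (0 : ℝ) < 2 ^ n := by positivity
        nlinarith
      refine le_trans ?_ hpow
      set θ := Real.arccos (x / 4) with hθ
      have hcos : 4 * Real.cos θ = x := by
        rw [hθ, Real.cos_arccos (by linarith) (by linarith)]; ring
      by_cases hs : Real.sin θ = 0
      · -- x = 4
        have h1 : Real.cos θ ^ 2 = 1 := by
          have := Real.sin_sq_add_cos_sq θ
          rw [hs] at this; linarith
        have h2 : x = 4 := by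
          have : (x - 4) * (x + 4) = 0 := by rw [← hcos]; linear_combination 16 * h1
          rcases mul_eq_zero.mp this with h | h
          · linarith
          · linarith
        subst h2
        cases n with
        | zero => simp; norm_num
        | succ n =>
          have h3 : ev (F (n + 1 + 1)) 4 = (((n : ℝ) + 3) - ((n : ℝ) + 1) / 4) * 2 ^ (n + 2) := by
            have : n + 1 + 1 = n + 2 := rfl
            rw [this, F_eq, ev_sub, ev_U_four, ev_U_four, pow_succ, pow_succ]
            push_cast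
            ring
          rw [h3, abs_of_nonneg]
          · apply le_of_eq
            have : n + 1 + 1 = n + 2 := rfl
            rw [this]
            push_cast
            ring
          · have : (0 : ℝ) ≤ n := Nat.cast_nonneg n
            apply mul_nonneg
            · linarith
            · positivity
      · rcases ev_F_trig (n + 1) θ with h1 | h1
        · rw [hcos] at h1
          have h2 : |ev (F (n + 1)) x| * |Real.sin θ| ≤
              (2 ^ (n + 1) * ((3 * (n + 1) + 5) / 4)) * |Real.sin θ| := by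
            rw [← abs_mul, h1, abs_mul, abs_pow, abs_two]
            have h3 := abs_sin_nat_mul_le (n + 1) θ
            have h4 : |3 / 4 * Real.sin (((n + 1 : ℕ) : ℝ) * θ) * Real.cos θ +
                5 / 4 * Real.cos (((n + 1 : ℕ) : ℝ) * θ) * Real.sin θ| ≤
                3 / 4 * ((((n + 1 : ℕ) : ℝ)) * |Real.sin θ|) * 1 + 5 / 4 * 1 * |Real.sin θ| := by
              refine (abs_add_le _ _).trans ?_
              rw [abs_mul, abs_mul, abs_mul, abs_mul]
              have a1 : |(3 / 4 : ℝ)| = 3 / 4 := abs_of_pos (by norm_num)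
              have a2 : |(5 / 4 : ℝ)| = 5 / 4 := abs_of_pos (by norm_num)
              rw [a1, a2]
              gcongr
              · exact Real.abs_cos_le_one _
              · exact Real.abs_cos_le_one _
            calc (2 : ℝ) ^ (n + 1) * _ ≤ 2 ^ (n + 1) * (3 / 4 * ((((n + 1 : ℕ) : ℝ)) * |Real.sin θ|) * 1 + 5 / 4 * 1 * |Real.sin θ|) := by
                  gcongr
              _ = _ := by push_cast; ring
          exact le_of_mul_le_mul_right h2 (abs_pos.mpr hs)
        · omega

theorem ev_Gp_five (n : ℕ) : ev (Gp n) 5 = 1 + 5 * ∑ i ∈ range n, (4 : ℝ) ^ i := by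
  induction n with
  | zero => simp [Gp_zero]
  | succ n ih =>
    have : Gp (n + 1) = Gp n + F (n + 1) := by simp only [Gp]; rw [sum_range_succ _ (n + 1)]
    rw [this, ev_add, ih, ev_F_five, sum_range_succ]
    ring

theorem ev_W_five (s : ℤ) (r : ℕ) :
    ev (W s r) 5 = (1 + 5 * ∑ i ∈ range (r + 1), (4 : ℝ) ^ i) + s * (1 + 5 * ∑ i ∈ range r, (4 : ℝ) ^ i) := by
  rw [W, ev_add, ev_mul, ev_C, ev_Gp_five, ev_Gp_five]

theorem F_monic_natDegree (n : ℕ) : (F n).Monic ∧ (F n).natDegree = n := by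
  induction n using Nat.strong_induction_on with
  | _ n ih =>
    match n with
    | 0 => exact ⟨by simp [F], by simp [F]⟩
    | 1 => exact ⟨by simpa [F] using monic_X, by simp [F]⟩
    | 2 =>
      have h5 : (5 : ℤ[X]) = C 5 := by simp
      have hX : (X ^ 2 : ℤ[X]).Monic := monic_X_pow 2
      have hd : (X ^ 2 : ℤ[X]).natDegree = 2 := natDegree_X_pow 2
      have hlt : (C (5 : ℤ)).degree < (X ^ 2 : ℤ[X]).degree := by
        rw [degree_X_pow]
        exact lt_of_le_of_lt degree_C_le (by norm_num)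
      constructor
      · simp only [F]; rw [h5]; exact hX.sub_of_left hlt
      · simp only [F]; rw [h5, natDegree_sub_C, hd]
    | (m + 3) =>
      obtain ⟨m1, d1⟩ := ih (m + 2) (by omega)
      obtain ⟨m2, d2⟩ := ih (m + 1) (by omega)
      have hX : (X * F (m + 2)).Monic := monic_X.mul m1
      have hd : (X * F (m + 2)).natDegree = m + 3 := by
        rw [monic_X.natDegree_mul m1, natDegree_X, d1]; omega
      have h4 : (4 : ℤ[X]) = C 4 := by simp
      have hle : (4 * F (m + 1)).natDegree ≤ m + 1 := by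
        rw [h4]
        exact (natDegree_C_mul_le _ _).trans d2.le
      have hlt : (4 * F (m + 1)).degree < (X * F (m + 2)).degree := by
        apply degree_lt_degree
        omega
      constructor
      · exact hX.sub_of_left hlt
      · have : F (m + 3) = X * F (m + 2) - 4 * F (m + 1) := rfl
        rw [this, natDegree_sub_eq_left_of_natDegree_lt (by omega), hd]

theorem natDegree_F (n : ℕ) : (F n).natDegree = n := (F_monic_natDegree n).2

theorem F_monic (n : ℕ) : (F n).Monic := (F_monic_natDegree n).1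

/-- Every integer polynomial of degree at most `N` is an integer combination of `F 0, ..., F N`. -/
theorem exists_F_expansion (N : ℕ) (p : ℤ[X]) (hp : p.natDegree ≤ N) :
    ∃ c : ℕ → ℤ, p = ∑ t ∈ range (N + 1), C (c t) * F t := by
  induction N generalizing p with
  | zero =>
    refine ⟨fun _ => p.coeff 0, ?_⟩
    simp only [zero_add, range_one, sum_singleton, F, mul_one]
    exact eq_C_of_natDegree_le_zero hp
  | succ N ih =>
    set a := p.coeff (N + 1) with ha
    have h1 : (p - C a * F (N + 1)).natDegree ≤ N := by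
      rw [natDegree_le_iff_coeff_eq_zero]
      intro m hm
      rw [coeff_sub, coeff_C_mul]
      rcases Nat.lt_or_ge (N + 1) m with h | h
      · rw [coeff_eq_zero_of_natDegree_lt (lt_of_le_of_lt hp h),
          coeff_eq_zero_of_natDegree_lt (by rw [natDegree_F]; exact h)]
        ring
      · have hm' : m = N + 1 := by omega
        subst hm'
        have h2 : (F (N + 1)).coeff (N + 1) = 1 := by
          have := (F_monic (N + 1)).coeff_natDegree
          rwa [natDegree_F] at this
        rw [h2, ha]; ring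
    obtain ⟨c, hc⟩ := ih _ h1
    refine ⟨fun t => if t = N + 1 then a else c t, ?_⟩
    rw [sum_range_succ]
    have h3 : ∑ t ∈ range (N + 1), C (if t = N + 1 then a else c t) * F t =
        ∑ t ∈ range (N + 1), C (c t) * F t := by
      apply sum_congr rfl
      intro t ht
      rw [if_neg]
      have := mem_range.mp ht
      omega
    rw [h3, ← hc]
    simp

theorem ev_U_large (n : ℕ) (x : ℝ) (hx : 4 ≤ x) :
    (n + 1) * 2 ^ n ≤ ev (U n) x ∧ 2 * ev (U n) x + 2 ^ (n + 1) ≤ ev (U (n + 1)) x := by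
  induction n with
  | zero => simp; linarith
  | succ n ih =>
    obtain ⟨h1, h2⟩ := ih
    have h3 := ev_U_succ n x
    have hpos : (0 : ℝ) ≤ ev (U n) x := le_trans (by positivity) h1
    have e : n + 1 + 1 = n + 2 := rfl
    rw [e, h3]
    constructor
    · rw [pow_succ]; push_cast; rw [pow_succ] at h2; nlinarith
    · have h4 : (2 : ℝ) ^ (n + 2) = 2 * 2 ^ (n + 1) := by rw [pow_succ]; ring
      rw [h4]
      have h5 : (0 : ℝ) < 2 ^ (n + 1) := by positivity
      nlinarith

theorem ev_F_large (n : ℕ) (x : ℝ) (hx : 4 ≤ |x|) : 3 / 4 * (n + 1) * 2 ^ n ≤ |ev (F n) x| := by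
  wlog h0 : 0 ≤ x generalizing x with H
  · have := H (-x) (by rwa [abs_neg]) (by linarith)
    rw [ev_F_neg, abs_mul, abs_pow, abs_neg, abs_one, one_pow, one_mul] at this
    exact this
  rw [abs_of_nonneg h0] at hx
  match n with
  | 0 => simp; norm_num
  | 1 => simp; rw [abs_of_nonneg h0]; linarith
  | (n + 2) =>
    rw [F_eq, ev_sub]
    obtain ⟨h1, h2⟩ := ev_U_large n x hx
    obtain ⟨h3, h4⟩ := ev_U_large (n + 1) x hx
    obtain ⟨h5, h6⟩ := ev_U_large (n + 2) x hx
    have e : n + 1 + 1 = n + 2 := rfl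
    rw [e] at h4
    have p1 : (0 : ℝ) < 2 ^ (n + 1) := by positivity
    have p2 : (0 : ℝ) < 2 ^ (n + 1 + 1) := by positivity
    have h7 : ev (U n) x ≤ ev (U (n + 2)) x / 4 := by linarith
    refine le_trans ?_ (le_abs_self _)
    linarith

theorem kap_succ (s : ℤ) (r t : ℕ) (ht : t + 2 ≤ r + 1) (z : ℝ) :
    ev (kap s r t) z = z * ev (kap s r (t + 1)) z - 4 * ev (kap s r (t + 2)) z + (1 + s) ∨
      t + 2 = r + 1 := by
  rcases Nat.lt_or_ge (t + 2) (r + 1) with h | h
  · left
    obtain ⟨m, hm⟩ : ∃ m, r = t + 2 + m := ⟨r - (t + 2), by omega⟩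
    subst hm
    have a1 : t + 2 + m + 1 - t = m + 1 + 2 := by omega
    have a2 : t + 2 + m - t = m + 2 := by omega
    have a3 : t + 2 + m + 1 - (t + 1) = m + 1 + 1 := by omega
    have a4 : t + 2 + m - (t + 1) = m + 1 := by omega
    have a5 : t + 2 + m + 1 - (t + 2) = m + 1 := by omega
    have a6 : t + 2 + m - (t + 2) = m := by omega
    simp only [kap, a1, a2, a3, a4, a5, a6, ev_add, ev_mul, ev_C]
    have b1 := ev_S_rec (m + 1) z
    have b2 := ev_S_rec m z
    rw [b1, b2]
    ring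
  · right; omega

theorem kap_one (s : ℤ) (r : ℕ) (hr : 1 ≤ r) (z : ℝ) :
    5 * ev (kap s r 1) z - ev (kap s r 0) z * z = (1 + s) - ev (W s r) z := by
  obtain ⟨m, rfl⟩ : ∃ m, r = m + 1 := ⟨r - 1, by omega⟩
  have key : ∀ n : ℕ, 5 * ev (S (n + 1)) z - ev (S (n + 2)) z * z = 1 - ev (Gp (n + 2)) z := by
    intro n
    induction n using Nat.twoStepInduction with
    | zero =>
      have h1 := ev_S_rec 0 z
      simp only [zero_add, ev_S_zero, ev_S_one] at h1
      simp only [zero_add, ev_S_one]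
      rw [h1]
      simp [Gp, sum_range_succ]
      ring
    | one =>
      have h1 := ev_S_rec 0 z
      simp only [zero_add, ev_S_zero, ev_S_one] at h1
      have h2 := ev_S_rec 1 z
      have e1 : (1 : ℕ) + 1 = 2 := rfl
      have e2 : (1 : ℕ) + 2 = 3 := rfl
      rw [e1, ev_S_one] at h2
      rw [e2] at h2
      have h3 := ev_F_succ 0 z
      simp only [zero_add] at h3
      rw [e1, e2, h2, h1]
      simp [Gp, sum_range_succ, h3]
      ring
    | more n ih1 ih2 =>
      have h1 := ev_S_rec (n + 1) z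
      have h2 := ev_S_rec (n + 2) z
      have h3 : ev (Gp (n + 2 + 2)) z = z * ev (Gp (n + 1 + 2)) z - 4 * ev (Gp (n + 2)) z := by
        rw [Gp_rec (n + 2)]; simp
      have e1 : n + 2 + 1 = n + 1 + 2 := rfl
      have e2 : n + 1 + 1 = n + 2 := rfl
      rw [e1] at h2 ⊢
      rw [e2] at ih2 h1
      linear_combination z * ih2 - 4 * ih1 + 5 * h1 - z * h2 + h3
  have a1 : m + 1 + 1 - 1 = m + 1 := by omega
  have a2 : m + 1 - 1 = m := by omega
  have a3 : m + 1 + 1 - 0 = m + 2 := by omega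
  have a4 : m + 1 - 0 = m + 1 := by omega
  simp only [kap, a1, a2, a3, a4, ev_add, ev_mul, ev_C, W]
  have k1 := key m
  have k2 : 5 * ev (S m) z - ev (S (m + 1)) z * z = 1 - ev (Gp (m + 1)) z := by
    cases m with
    | zero => simp [ev_S_zero, ev_S_one, Gp, sum_range_succ]
    | succ m => exact key m
  have e : m + 1 + 1 = m + 2 := rfl
  rw [e]
  linear_combination k1 + (s : ℝ) * k2

/-- Near-proportionality of the coefficients of the kernel to those of the spherical function. -/
theorem kap_rec (T D : ℕ) : ∃ C : ℝ, ∀ (s : ℤ) (r : ℕ) (z : ℝ), (s = 0 ∨ s = 4) → |z| ≤ 4 →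
    |ev (W s r) z| ≤ D → ∀ t, 1 ≤ t → t ≤ T → t ≤ r →
      |5 * 4 ^ (t - 1) * ev (kap s r t) z - ev (kap s r 0) z * ev (F t) z| ≤ C := by
  refine ⟨(30 + D) * 10 ^ T, ?_⟩
  intro s r z hs hz hW
  have hs0 : (0 : ℝ) ≤ 1 + s ∧ (1 : ℝ) + s ≤ 5 := by rcases hs with rfl | rfl <;> norm_num
  -- strong statement for consecutive indices
  have key : ∀ t : ℕ, (1 ≤ t → t ≤ r →
      |5 * 4 ^ (t - 1) * ev (kap s r t) z - ev (kap s r 0) z * ev (F t) z| ≤ (30 + D) * 10 ^ t) := by
    intro t
    induction t using Nat.strong_induction_on with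
    | _ t ih =>
      intro h1 hr
      match t with
      | 0 => omega
      | 1 =>
        have := kap_one s r hr z
        simp only [Nat.sub_self, pow_zero, mul_one, ev_F_one]
        rw [this]
        have h3 := abs_sub (1 + (s : ℝ)) (ev (W s r) z)
        rw [abs_of_nonneg hs0.1] at h3
        have : (0 : ℝ) ≤ D := Nat.cast_nonneg D
        linarith
      | 2 =>
        have h2 := ih 1 (by omega) le_rfl (by omega)
        simp only [Nat.sub_self, pow_zero, mul_one, ev_F_one] at h2
        rcases kap_succ s r 0 (by omega) z with h3 | h3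
        · simp only [zero_add] at h3
          have e : (2 : ℕ) - 1 = 1 := rfl
          rw [e, pow_one, ev_F_two]
          have h4 : 5 * 4 * ev (kap s r 2) z - ev (kap s r 0) z * (z ^ 2 - 5) =
              z * (5 * ev (kap s r 1) z - ev (kap s r 0) z * z) + 5 * (1 + s) := by
            linear_combination 5 * h3
          rw [h4]
          calc |z * (5 * ev (kap s r 1) z - ev (kap s r 0) z * z) + 5 * (1 + s)|
              ≤ |z| * |5 * ev (kap s r 1) z - ev (kap s r 0) z * z| + |5 * (1 + (s : ℝ))| := by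
                refine (abs_add_le _ _).trans ?_
                rw [abs_mul]
            _ ≤ 4 * ((30 + D) * 10 ^ 1) + 25 := by
                gcongr
                rw [abs_of_nonneg (by linarith)]; linarith
            _ ≤ (30 + D) * 10 ^ 2 := by
                have : (0 : ℝ) ≤ D := Nat.cast_nonneg D
                norm_num; linarith
        · omega
      | (t + 3) =>
        have h2 := ih (t + 2) (by omega) (by omega) (by omega)
        have h3 := ih (t + 1) (by omega) (by omega) (by omega)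
        have e1 : t + 2 - 1 = t + 1 := rfl
        have e2 : t + 1 - 1 = t := rfl
        have e3 : t + 3 - 1 = t + 2 := rfl
        rw [e1] at h2
        rw [e2] at h3
        rw [e3]
        rcases kap_succ s r (t + 1) (by omega) z with h4 | h4
        · have e4 : t + 1 + 1 = t + 2 := rfl
          have e5 : t + 1 + 2 = t + 3 := rfl
          rw [e4, e5] at h4
          have h5 := ev_F_succ t z
          have h6 : 5 * 4 ^ (t + 2) * ev (kap s r (t + 3)) z - ev (kap s r 0) z * ev (F (t + 3)) z =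
              z * (5 * 4 ^ (t + 1) * ev (kap s r (t + 2)) z - ev (kap s r 0) z * ev (F (t + 2)) z)
              - 4 * (5 * 4 ^ t * ev (kap s r (t + 1)) z - ev (kap s r 0) z * ev (F (t + 1)) z)
              + 5 * 4 ^ (t + 1) * (1 + s) := by
            rw [h5]
            have p2 : (4 : ℝ) ^ (t + 2) = 16 * 4 ^ t := by rw [pow_succ, pow_succ]; ring
            have p1 : (4 : ℝ) ^ (t + 1) = 4 * 4 ^ t := by rw [pow_succ]; ring
            rw [p2, p1]
            linear_combination (20 * (4 : ℝ) ^ t) * h4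
          rw [h6]
          have hD : (0 : ℝ) ≤ D := Nat.cast_nonneg D
          have h10 : (4 : ℝ) ^ (t + 1) ≤ 10 ^ (t + 1) := by gcongr; norm_num
          have hX : (0 : ℝ) < 10 ^ (t + 1) := by positivity
          calc |z * (5 * 4 ^ (t + 1) * ev (kap s r (t + 2)) z - ev (kap s r 0) z * ev (F (t + 2)) z)
              - 4 * (5 * 4 ^ t * ev (kap s r (t + 1)) z - ev (kap s r 0) z * ev (F (t + 1)) z)
              + 5 * 4 ^ (t + 1) * (1 + s)|
              ≤ |z| * |5 * 4 ^ (t + 1) * ev (kap s r (t + 2)) z - ev (kap s r 0) z * ev (F (t + 2)) z|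
                + 4 * |5 * 4 ^ t * ev (kap s r (t + 1)) z - ev (kap s r 0) z * ev (F (t + 1)) z|
                + 5 * 4 ^ (t + 1) * (1 + s) := by
                refine (abs_add_le _ _).trans ?_
                refine add_le_add ?_ ?_
                · refine (abs_sub _ _).trans ?_
                  rw [abs_mul, abs_mul, abs_of_nonneg (by norm_num : (0 : ℝ) ≤ 4)]
                · rw [abs_of_nonneg]
                  apply mul_nonneg (by positivity) hs0.1
            _ ≤ 4 * ((30 + D) * 10 ^ (t + 2)) + 4 * ((30 + D) * 10 ^ (t + 1)) + 5 * 10 ^ (t + 1) * 5 := by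
                gcongr
                · exact hs0.1
                · exact hs0.2
            _ ≤ (30 + D) * 10 ^ (t + 3) := by
                have q2 : (10 : ℝ) ^ (t + 2) = 10 * 10 ^ (t + 1) := by rw [pow_succ]; ring
                have q3 : (10 : ℝ) ^ (t + 3) = 100 * 10 ^ (t + 1) := by rw [pow_succ, pow_succ]; ring
                rw [q2, q3]
                nlinarith [mul_nonneg hD hX.le]
        · omega
  intro t h1 hT hr
  refine (key t h1 hr).trans ?_
  have hD : (0 : ℝ) ≤ D := Nat.cast_nonneg D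
  gcongr
  norm_num

end Pool.Agent.H18.Cage
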