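import Pool.Agent.H18.Cage.Kernel
import Pool.Agent.H18.Cage.Geo

/-! Module QUAD-1. -/

set_option autoImplicit false

namespace Pool.Agent.H18.Cage

open Polynomial Matrix Finset

namespace Q1

variable {V : Type} [Fintype V] [DecidableEq V]

/-- Conjugation of diagonal matrices by an orthogonal matrix, as a ring homomorphism. -/
noncomputable def conjHom (O : Matrix V V ℝ) (O1 : O * Oᵀ = 1) (O2 : Oᵀ * O = 1) :
    (V → ℝ) →+* Matrix V V ℝ where
  toFun f := O * diagonal f * Oᵀ
  map_one' := by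
    have : diagonal (1 : V → ℝ) = (1 : Matrix V V ℝ) := diagonal_one
    rw [this, mul_one, O1]
  map_zero' := by
    have : diagonal (0 : V → ℝ) = (0 : Matrix V V ℝ) := diagonal_zero
    rw [this, mul_zero, zero_mul]
  map_add' f g := by
    have : diagonal (f + g) = diagonal f + diagonal g := (diagonal_add f g).symm
    rw [this, mul_add, add_mul]
  map_mul' f g := by
    have h : diagonal (f * g) = diagonal f * diagonal g := (diagonal_mul_diagonal f g).symm
    rw [h]
    calc O * (diagonal f * diagonal g) * Oᵀ = O * diagonal f * 1 * diagonal g * Oᵀ := by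
          simp only [mul_assoc, mul_one]
      _ = O * diagonal f * (Oᵀ * O) * diagonal g * Oᵀ := by rw [O2]
      _ = O * diagonal f * Oᵀ * (O * diagonal g * Oᵀ) := by simp only [mul_assoc]

theorem conjHom_apply (O : Matrix V V ℝ) (O1 : O * Oᵀ = 1) (O2 : Oᵀ * O = 1) (f : V → ℝ) :
    conjHom O O1 O2 f = O * diagonal f * Oᵀ := rfl

theorem trace_conjHom (O : Matrix V V ℝ) (O1 : O * Oᵀ = 1) (O2 : Oᵀ * O = 1) (f : V → ℝ) :
    (conjHom O O1 O2 f).trace = ∑ i, f i := by
  rw [conjHom_apply, Matrix.trace_mul_comm, ← mul_assoc, O2, one_mul, trace_diagonal]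

theorem conjHom_smul (O : Matrix V V ℝ) (O1 : O * Oᵀ = 1) (O2 : Oᵀ * O = 1) (a : ℝ) (f : V → ℝ) :
    conjHom O O1 O2 (fun i => a * f i) = a • conjHom O O1 O2 f := by
  rw [conjHom_apply, conjHom_apply]
  have : diagonal (fun i => a * f i) = a • diagonal f := by
    ext i j
    rw [Matrix.smul_apply, diagonal_apply, diagonal_apply]
    split_ifs <;> simp
  rw [this, Matrix.mul_smul, Matrix.smul_mul]

/-- functional calculus -/
theorem toR_aeval (A : Matrix V V ℤ) (O : Matrix V V ℝ) (O1 : O * Oᵀ = 1) (O2 : Oᵀ * O = 1)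
    (lam : V → ℝ) (hA : toR A = O * diagonal lam * Oᵀ) (p : ℤ[X]) :
    toR (aeval A p) = conjHom O O1 O2 (fun i => ev p (lam i)) := by
  let f1 : ℤ[X] →+* Matrix V V ℝ :=
    ((Int.castRingHom ℝ).mapMatrix).comp (aeval A : ℤ[X] →ₐ[ℤ] Matrix V V ℤ).toRingHom
  let f2 : ℤ[X] →+* Matrix V V ℝ :=
    (conjHom O O1 O2).comp (RingHom.pi (fun i => (aeval (lam i) : ℤ[X] →ₐ[ℤ] ℝ).toRingHom))
  have h : f1 = f2 := by
    apply Polynomial.ringHom_ext'
    · exact RingHom.ext_int _ _
    · have e1 : f1 X = toR A := by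
        change (Int.castRingHom ℝ).mapMatrix (aeval A X) = _
        rw [aeval_X]; rfl
      have e2 : f2 X = O * diagonal lam * Oᵀ := by
        change conjHom O O1 O2 (fun i => aeval (lam i) (X : ℤ[X])) = _
        simp only [aeval_X]
        rfl
      rw [e1, e2, hA]
  exact congrArg (fun g : ℤ[X] →+* Matrix V V ℝ => g p) h

theorem toR_pow (E : Matrix V V ℤ) (j : ℕ) : toR (E ^ j) = toR E ^ j := by
  have h1 : ∀ M : Matrix V V ℤ, toR M = (Int.castRingHom ℝ).mapMatrix M := fun M => rfl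
  rw [h1, h1, map_pow]

/-- the trace formula -/
theorem trace_formula (G : SimpleGraph V) [DecidableRel G.Adj] (s : ℤ) (r D : ℕ)
    (E : Matrix V V ℤ) (O : Matrix V V ℝ) (lam mu : V → ℝ) (i0 : V)
    (tl : TreeLike G r) (hSp : Spec (G.adjMatrix ℤ) E (W s r) D O lam mu i0) (z : ℝ) (j : ℕ) :
    ∑ v, ∑ w, (if G.dist v w ≤ r then ev (kap s r (G.dist v w)) z else 0)
              * ((E ^ j) w v : ℝ) = ∑ i, Kr s r (lam i) z * mu i ^ j := by
  set Φ := conjHom O hSp.O1 hSp.O2 with hΦ
  let K : Matrix V V ℝ := Matrix.of fun v w =>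
    if G.dist v w ≤ r then ev (kap s r (G.dist v w)) z else 0
  have h1 : ∑ v, ∑ w, (if G.dist v w ≤ r then ev (kap s r (G.dist v w)) z else 0)
              * ((E ^ j) w v : ℝ) = (K * toR (E ^ j)).trace := by
    simp only [Matrix.trace, Matrix.diag_apply, Matrix.mul_apply]
    rfl
  have h2 : K = Φ (fun i => Kr s r (lam i) z) := by
    have h3 : (fun i => Kr s r (lam i) z) =
        ∑ t ∈ range (r + 1), fun i => ev (kap s r t) z * ev (F t) (lam i) := by
      funext i
      rw [Finset.sum_apply]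
      unfold Kr
      exact sum_congr rfl fun t _ => mul_comm _ _
    rw [h3, map_sum]
    ext v w
    rw [Matrix.sum_apply]
    have h4 : ∀ t ∈ range (r + 1), (Φ (fun i => ev (kap s r t) z * ev (F t) (lam i))) v w =
        if G.dist v w = t then ev (kap s r t) z else 0 := by
      intro t ht
      rw [mem_range] at ht
      rw [hΦ, conjHom_smul, ← toR_aeval (G.adjMatrix ℤ) O hSp.O1 hSp.O2 lam hSp.hA,
        tl.aeval_F t (by omega), Matrix.smul_apply]
      simp only [toR, Matrix.map_apply, TreeLike.Dm_apply, smul_eq_mul]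
      split_ifs <;> simp
    rw [sum_congr rfl h4, sum_ite_eq]
    simp only [K, Matrix.of_apply, mem_range, Nat.lt_succ_iff]
  have h5 : toR (E ^ j) = Φ (mu ^ j) := by
    rw [toR_pow, hSp.hE, map_pow]
    rfl
  rw [h1, h2, h5, ← map_mul, hΦ, trace_conjHom]
  simp

/-- row sums of polynomials of the adjacency matrix -/
theorem row_sum (G : SimpleGraph V) [DecidableRel G.Adj] (hd : G.IsRegularOfDegree 5) (p : ℤ[X]) :
    (aeval (G.adjMatrix ℤ) p).mulVec 1 = (p.eval 5) • (1 : V → ℤ) := by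
  have hA : (G.adjMatrix ℤ).mulVec 1 = (5:ℤ) • (1 : V → ℤ) := by
    ext v
    have h1 : ((univ.filter (fun x => G.Adj v x)).card : ℤ) = 5 := by
      have h2 : univ.filter (fun x => G.Adj v x) = G.neighborFinset v := by ext; simp
      rw [h2, SimpleGraph.card_neighborFinset_eq_degree, hd v]
      rfl
    simpa [Matrix.mulVec, dotProduct, SimpleGraph.adjMatrix_apply] using h1
  induction p using Polynomial.induction_on' with
  | add p q hp hq => rw [map_add, Matrix.add_mulVec, hp, hq, eval_add, add_smul]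
  | monomial n a =>
    have hpow : ∀ n : ℕ, ((G.adjMatrix ℤ) ^ n).mulVec 1 = ((5:ℤ) ^ n) • (1 : V → ℤ) := by
      intro n
      induction n with
      | zero => simp
      | succ n ih =>
        rw [pow_succ, ← Matrix.mulVec_mulVec, hA, Matrix.mulVec_smul, ih, smul_smul, pow_succ,
          mul_comm]
    rw [aeval_monomial, ← Algebra.smul_def, Matrix.smul_mulVec, hpow, eval_monomial, smul_smul]

theorem W_five_le (G : SimpleGraph V) [DecidableRel G.Adj] (s : ℤ) (r D : ℕ) (E : Matrix V V ℤ)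
    (hS : Setup G s r D E) (v : V) : |ev (W s r) 5| ≤ 5 * Fintype.card V + D := by
  have h1 : (aeval (G.adjMatrix ℤ) (W s r) + E).mulVec 1 =
      ((1 + s) • Matrix.of (fun _ _ => (1 : ℤ)) : Matrix V V ℤ).mulVec 1 := by rw [hS.rel]
  rw [Matrix.add_mulVec, row_sum G hS.tl.deg] at h1
  have h2 := congrFun h1 v
  simp only [Pi.add_apply, Pi.smul_apply, Pi.one_apply, Matrix.mulVec, dotProduct, Matrix.smul_apply,
    Matrix.of_apply, smul_eq_mul, mul_one, sum_const, card_univ, nsmul_eq_mul] at h2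
  have h3 : ev (W s r) 5 = (((W s r).eval 5 : ℤ) : ℝ) := by
    unfold ev
    have := Polynomial.aeval_algebraMap_apply ℝ (5:ℤ) (W s r)
    simpa using this
  have hE0 : 0 ≤ ∑ w, E v w := sum_nonneg fun w _ => hS.nonneg v w
  have hE1 := hS.row v
  have hs : 0 ≤ 1 + s ∧ 1 + s ≤ 5 := by rcases hS.hs with rfl | rfl <;> norm_num
  have hn : (0:ℤ) ≤ Fintype.card V := by positivity
  have h4 : |(W s r).eval 5| ≤ 5 * (Fintype.card V : ℤ) + D := by
    rw [abs_le]
    constructor <;> nlinarith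
  rw [h3]
  exact_mod_cast h4

end Q1

/-- QUAD-1: spectral side. -/
theorem quad_spectral (D b : ℕ) : ∃ (C1 : ℝ) (r0 : ℕ), 0 < C1 ∧
    ∀ (V : Type) [Fintype V] [DecidableEq V] (G : SimpleGraph V) [DecidableRel G.Adj]
      (s : ℤ) (r : ℕ) (E : Matrix V V ℤ) (O : Matrix V V ℝ) (lam mu : V → ℝ) (i0 : V),
      r0 ≤ r → Setup G s r D E → Spec (G.adjMatrix ℤ) E (W s r) D O lam mu i0 →
      ∀ z : ℝ, |z| ≤ 4 → |ev (W s r) z| ≤ D → ∀ j ≤ b,
        |Kr s r z z * ∑ i ∈ cl r lam z, mu i ^ j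
          - ∑ v, ∑ w, (if G.dist v w ≤ r then ev (kap s r (G.dist v w)) z else 0)
              * ((E ^ j) w v : ℝ)|
          ≤ C1 * ((r : ℝ) + 1) ^ 5 * Fintype.card V := by
  obtain ⟨r0, hsep⟩ := sep_fact D
  refine ⟨(50 * D + 5) * ((D : ℝ) + 1) ^ b, r0, by positivity, ?_⟩
  intro V _ _ G _ s r E O lam mu i0 hr hS hSp z hz hW j hj
  classical
  rw [Q1.trace_formula G s r D E O lam mu i0 hS.tl hSp z j]
  set n : ℝ := (Fintype.card V : ℝ) with hn
  have hn1 : 1 ≤ n := by
    have : 0 < Fintype.card V := Fintype.card_pos_iff.2 ⟨i0⟩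
    have h1 : 1 ≤ Fintype.card V := this
    rw [hn]
    exact_mod_cast h1
  set R : ℝ := ((r : ℝ) + 1) ^ 5 with hR
  have hR1 : 1 ≤ R := one_le_pow₀ (by linarith [Nat.cast_nonneg (α := ℝ) r])
  have hD0 : (0:ℝ) ≤ D := Nat.cast_nonneg D
  set Db : ℝ := ((D : ℝ) + 1) ^ b with hDb
  have hDb0 : 0 ≤ Db := by positivity
  have hmem : ∀ i, i ∈ cl r lam z ↔ |lam i - z| < 1 / R := by
    intro i; simp [cl, hR]
  have hmu : ∀ i, |mu i ^ j| ≤ Db := by
    intro i
    rw [abs_pow]
    calc |mu i| ^ j ≤ ((D:ℝ) + 1) ^ j := by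
          gcongr
          linarith [hSp.mu_le i]
      _ ≤ Db := pow_le_pow_right₀ (by linarith) hj
  have hz' := abs_le.1 hz
  have h5z : (1:ℝ) ≤ 5 - z := by linarith
  have hi0 : i0 ∉ cl r lam z := by
    rw [hmem, hSp.lam0, not_lt, abs_of_nonneg (by linarith)]
    refine le_trans ?_ h5z
    rw [div_le_one (by positivity)]
    exact hR1
  set d : V → ℝ := fun i => Kr s r (lam i) z - (if i ∈ cl r lam z then Kr s r z z else 0) with hd
  have hd0 : |d i0| ≤ (5 + 2 * D) * n * R := by
    have h1 : d i0 = Kr s r 5 z := by simp only [hd, if_neg hi0, sub_zero, hSp.lam0]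
    have h2 := Kr_mul s r 5 z
    have h3 : |Kr s r 5 z| ≤ |ev (W s r) 5 - ev (W s r) z| := by
      rw [← h2, abs_mul, abs_of_nonneg (show (0:ℝ) ≤ 5 - z by linarith)]
      exact le_mul_of_one_le_left (abs_nonneg _) h5z
    have h4 := Q1.W_five_le G s r D E hS i0
    rw [h1]
    calc |Kr s r 5 z| ≤ |ev (W s r) 5 - ev (W s r) z| := h3
      _ ≤ |ev (W s r) 5| + |ev (W s r) z| := abs_sub _ _
      _ ≤ (5 * n + D) + D := add_le_add h4 hW
      _ ≤ (5 + 2 * D) * n := by nlinarith
      _ ≤ (5 + 2 * D) * n * R := le_mul_of_one_le_right (by positivity) hR1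
  have hdi : ∀ i, i ≠ i0 → |d i| ≤ 48 * D * R := by
    intro i hi
    have hWi : |ev (W s r) (lam i)| ≤ D := by
      have := hSp.mu_le i
      rwa [hSp.mu_eq i hi, abs_neg] at this
    have hWW : |ev (W s r) (lam i) - ev (W s r) z| ≤ 2 * D := by
      refine (abs_sub _ _).trans ?_
      linarith
    by_cases hcl : i ∈ cl r lam z
    · have h1 : d i = Kr s r (lam i) z - Kr s r z z := by simp only [hd, if_pos hcl]
      rw [hmem] at hcl
      obtain ⟨h2, -, h3⟩ := hsep s r z (lam i) hS.hs hr hz hW hcl (Or.inl hWi)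
      rw [h1]
      calc |Kr s r (lam i) z - Kr s r z z| ≤ 24 * R * 2 ^ r * |lam i - z| :=
            Kr_lip s hS.hs r (lam i) z h2 hz
        _ = 24 * R * (|lam i - z| * 2 ^ r) := by ring
        _ ≤ 24 * R * (2 * D) := by
            refine mul_le_mul_of_nonneg_left (h3.trans hWW) (by positivity)
        _ = 48 * D * R := by ring
    · have h1 : d i = Kr s r (lam i) z := by simp only [hd, if_neg hcl, sub_zero]
      rw [hmem, not_lt] at hcl
      have h2 := Kr_mul s r (lam i) z
      have h3 : 1 / R * |Kr s r (lam i) z| ≤ 2 * D := by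
        calc 1 / R * |Kr s r (lam i) z| ≤ |lam i - z| * |Kr s r (lam i) z| :=
              mul_le_mul_of_nonneg_right hcl (abs_nonneg _)
          _ = |ev (W s r) (lam i) - ev (W s r) z| := by rw [← abs_mul, h2]
          _ ≤ 2 * D := hWW
      rw [h1]
      have h4 : |Kr s r (lam i) z| ≤ 2 * D * R := by
        have h5 : |Kr s r (lam i) z| = R * (1 / R * |Kr s r (lam i) z|) := by
          field_simp
        rw [h5]
        calc R * (1 / R * |Kr s r (lam i) z|) ≤ R * (2 * D) :=
              mul_le_mul_of_nonneg_left h3 (by positivity)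
          _ = 2 * D * R := by ring
      nlinarith
  have hsplit : Kr s r z z * ∑ i ∈ cl r lam z, mu i ^ j - ∑ i, Kr s r (lam i) z * mu i ^ j =
      -∑ i, d i * mu i ^ j := by
    have h1 : Kr s r z z * ∑ i ∈ cl r lam z, mu i ^ j =
        ∑ i, (if i ∈ cl r lam z then Kr s r z z else 0) * mu i ^ j := by
      rw [mul_sum]
      simp only [ite_mul, zero_mul]
      rw [sum_ite_mem, univ_inter]
    rw [h1, ← sum_sub_distrib, ← sum_neg_distrib]
    refine sum_congr rfl fun i _ => ?_
    simp only [hd]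
    ring
  rw [hsplit, abs_neg]
  calc |∑ i, d i * mu i ^ j| ≤ ∑ i, |d i * mu i ^ j| := abs_sum_le_sum_abs _ _
    _ ≤ ∑ i, |d i| * Db := by
        refine sum_le_sum fun i _ => ?_
        rw [abs_mul]
        exact mul_le_mul_of_nonneg_left (hmu i) (abs_nonneg _)
    _ = (∑ i, |d i|) * Db := by rw [sum_mul]
    _ ≤ ((5 + 2 * D) * n * R + 48 * D * R * n) * Db := by
        refine mul_le_mul_of_nonneg_right ?_ hDb0
        rw [← add_sum_erase univ (fun i => |d i|) (mem_univ i0)]
        refine add_le_add hd0 ?_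
        calc ∑ i ∈ univ.erase i0, |d i| ≤ ∑ i ∈ univ.erase i0, 48 * D * R :=
              sum_le_sum fun i hi => hdi i (ne_of_mem_erase hi)
          _ ≤ ∑ i : V, 48 * D * R :=
              sum_le_sum_of_subset_of_nonneg (erase_subset _ _) (fun _ _ _ => by positivity)
          _ = 48 * D * R * n := by
              rw [sum_const, nsmul_eq_mul, card_univ, mul_comm]
    _ = (50 * D + 5) * Db * R * n := by ring

end Pool.Agent.H18.Cage
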