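import Pool.Agent.H18.Cage.StructDefs

/-! Module STRUCT-1. -/

set_option autoImplicit false

namespace Pool.Agent.H18.Cage

open Polynomial Matrix Finset

variable {V : Type} [Fintype V] [DecidableEq V]

/-- A local isomorphism preserves the distance to the base point. -/
theorem LocIso.dist_base {G : SimpleGraph V} {R0 : ℕ} {v m : V} {φ : V → V}
    (hφ : LocIso G R0 v m φ) {u : V} (hu : G.dist v u ≤ R0) : G.dist m (φ u) = G.dist v u := by
  have h1 := hφ.iso v u (by simp) hu
  rwa [hφ.base] at h1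

/-- The inverse of a local isomorphism. -/
theorem LocIso.exists_inv {G : SimpleGraph V} [DecidableRel G.Adj] {r : ℕ}
    (h : TreeLike G r) {R0 : ℕ} {v m : V} {φ : V → V} (hφ : LocIso G R0 v m φ) :
    ∃ ψ : V → V, LocIso G R0 m v ψ ∧ (∀ y, G.dist m y ≤ R0 → φ (ψ y) = y) ∧
      ∀ u, G.dist v u ≤ R0 → ψ (φ u) = u := by
  classical
  have hinj : ∀ a b, G.dist v a ≤ R0 → G.dist v b ≤ R0 → φ a = φ b → a = b := by
    intro a b ha hb hab
    have h1 := hφ.iso a b ha hb
    rw [hab, SimpleGraph.dist_self] at h1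
    exact h.conn.dist_eq_zero_iff.mp h1.symm
  have honto : ∀ x, ∃ u, G.dist m x ≤ R0 → (G.dist v u ≤ R0 ∧ φ u = x) := by
    intro x
    by_cases hx : G.dist m x ≤ R0
    · obtain ⟨u, hu⟩ := hφ.onto x hx
      exact ⟨u, fun _ => hu⟩
    · exact ⟨x, fun hh => absurd hh hx⟩
  choose ψ hψ using honto
  have hψφ : ∀ u, G.dist v u ≤ R0 → ψ (φ u) = u := by
    intro u hu
    have h1 := hψ (φ u) (by rw [hφ.dist_base hu]; exact hu)
    exact hinj _ _ h1.1 hu h1.2
  refine ⟨ψ, ⟨?_, ?_, ?_⟩, fun y hy => (hψ y hy).2, hψφ⟩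
  · have := hψφ v (by simp)
    rwa [hφ.base] at this
  · intro y y' hy hy'
    obtain ⟨h1, h2⟩ := hψ y hy
    obtain ⟨h3, h4⟩ := hψ y' hy'
    rw [← hφ.iso _ _ h1 h3, h2, h4]
  · intro u hu
    exact ⟨φ u, by rw [hφ.dist_base hu]; exact hu, hψφ u hu⟩

/-- Alignment data can be reversed. -/
theorem aligned_inv {G : SimpleGraph V} [DecidableRel G.Adj] {E : Matrix V V ℤ} {R0 r : ℕ}
    (h : TreeLike G r) (hE : E.IsSymm) {v m : V} (φ : V → V) (c : ℕ → ℤ)
    (hφ : LocIso G R0 v m φ)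
    (hc : ∀ u y, G.dist v u ≤ R0 → G.dist m y ≤ R0 → E u y = c (G.dist (φ u) y)) :
    ∃ ψ : V → V, LocIso G R0 m v ψ ∧
      ∀ y u, G.dist m y ≤ R0 → G.dist v u ≤ R0 → E y u = c (G.dist (ψ y) u) := by
  obtain ⟨ψ, h1, h2, h3⟩ := hφ.exists_inv h
  refine ⟨ψ, h1, ?_⟩
  intro y u hy hu
  have h4 : G.dist v (ψ y) ≤ R0 := by rw [h1.dist_base hy]; exact hy
  have h5 := hφ.iso u (ψ y) hu h4
  rw [h2 y hy] at h5
  rw [← hE.apply y u, hc u y hu hy, h5, G.dist_comm]

/-- MODULE STRUCT-1: basic properties of alignment and of `PM`. -/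
theorem aligned_symm {G : SimpleGraph V} [DecidableRel G.Adj] {E : Matrix V V ℤ} {D R0 r : ℕ}
    (h : TreeLike G r) (hE : E.IsSymm) (hr : 2 * R0 ≤ r) {v m : V}
    (hA : Aligned G E D R0 v m) : Aligned G E D R0 m v := by
  obtain ⟨φ, c, hφ, hc, ht⟩ := hA
  obtain ⟨ψ, hψ, hc'⟩ := aligned_inv h hE φ c hφ hc
  exact ⟨ψ, c, hψ, hc', ht⟩

theorem aligned_coef {G : SimpleGraph V} [DecidableRel G.Adj] {E : Matrix V V ℤ} {D R0 r : ℕ}
    (h : TreeLike G r) (hr : 2 * R0 ≤ r) {v m : V} (φ : V → V) (c : ℕ → ℤ)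
    (hφ : LocIso G R0 v m φ)
    (hc : ∀ u y, G.dist v u ≤ R0 → G.dist m y ≤ R0 → E u y = c (G.dist (φ u) y))
    (t : ℕ) (ht : t ≤ R0) : coef G E v m t = c t ∧ ∀ y, G.dist m y = t → E v y = c t := by
  have h1 : ∀ y, G.dist m y = t → E v y = c t := by
    intro y hy
    rw [hc v y (by simp) (by omega), hφ.base, hy]
  refine ⟨?_, h1⟩
  obtain ⟨y, hy, _⟩ := h.extend (a := m) (b := m) t (by simp; omega)
  have hex : ∃ y, G.dist m y = t := ⟨y, hy⟩
  rw [coef, dif_pos hex]
  exact h1 _ hex.choose_spec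

theorem PM_symm {G : SimpleGraph V} [DecidableRel G.Adj] {E : Matrix V V ℤ} {D R0 r : ℕ}
    (h : TreeLike G r) (hE : E.IsSymm) (hr : 2 * R0 ≤ r) (hD : D ≤ R0) :
    (PM G E D R0).IsSymm := by
  classical
  have key : ∀ v m, Aligned G E D R0 v m → PM G E D R0 v m = PM G E D R0 m v := by
    intro v m hA
    have hA' := aligned_symm h hE hr hA
    obtain ⟨φ, c, hφ, hc, ht⟩ := hA
    obtain ⟨ψ, hψ, hc'⟩ := aligned_inv h hE φ c hφ hc
    have hA : Aligned G E D R0 v m := ⟨φ, c, hφ, hc, ht⟩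
    simp only [PM, Matrix.of_apply, if_pos hA, if_pos hA']
    apply Finset.sum_congr rfl
    intro t ht
    have ht' : t ≤ R0 := by
      have := Finset.mem_range.mp ht
      omega
    rw [(aligned_coef (D := D) h hr φ c hφ hc t ht').1,
      (aligned_coef (D := D) h hr ψ c hψ hc' t ht').1]
  ext1 i j
  rw [Matrix.transpose_apply]
  by_cases h1 : Aligned G E D R0 i j
  · exact (key i j h1).symm
  · have h2 : ¬ Aligned G E D R0 j i := fun hh => h1 (aligned_symm h hE hr hh)
    simp only [PM, Matrix.of_apply, if_neg h1, if_neg h2]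

theorem PM_deg (G : SimpleGraph V) (E : Matrix V V ℤ) (D R0 : ℕ) (u v : V) :
    (PM G E D R0 u v).natDegree ≤ D := by
  classical
  simp only [PM, Matrix.of_apply]
  split_ifs
  · apply Polynomial.natDegree_sum_le_of_forall_le
    intro t ht
    refine (Polynomial.natDegree_C_mul_le _ _).trans ?_
    rw [natDegree_F]
    have := Finset.mem_range.mp ht
    omega
  · simp

theorem coef_nonneg {G : SimpleGraph V} {E : Matrix V V ℤ} (hE : ∀ u v, 0 ≤ E u v) (v m : V)
    (t : ℕ) : 0 ≤ coef G E v m t := by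
  rw [coef]
  split_ifs
  · exact hE _ _
  · exact le_rfl

/-- The matrix of `PM u v` at the adjacency matrix. -/
theorem aeval_PM {G : SimpleGraph V} [DecidableRel G.Adj] {E : Matrix V V ℤ} {D R0 r : ℕ}
    (h : TreeLike G r) (hr : D ≤ r) (u v x y : V) (hA : Aligned G E D R0 u v) :
    (aeval (G.adjMatrix ℤ) (PM G E D R0 u v)) x y =
      if G.dist x y ≤ D then coef G E u v (G.dist x y) else 0 := by
  classical
  simp only [PM, Matrix.of_apply, if_pos hA, map_sum, map_mul, aeval_C]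
  rw [Matrix.sum_apply]
  have e1 : ∀ t ∈ range (D + 1), ((algebraMap ℤ (Matrix V V ℤ)) (coef G E u v t) *
      aeval (G.adjMatrix ℤ) (F t)) x y = if G.dist x y = t then coef G E u v t else 0 := by
    intro t ht
    have ht' := Finset.mem_range.mp ht
    rw [h.aeval_F t (by omega), ← Algebra.smul_def, Matrix.smul_apply, Dm, Matrix.of_apply]
    split_ifs <;> simp
  rw [Finset.sum_congr rfl e1, Finset.sum_ite_eq]
  simp only [Finset.mem_range, Nat.lt_succ_iff]

theorem PM_nonneg {G : SimpleGraph V} [DecidableRel G.Adj] {E : Matrix V V ℤ} {D R0 r : ℕ}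
    (h : TreeLike G r) (hE : ∀ u v, 0 ≤ E u v) (hr : D ≤ r) (u v x y : V) :
    0 ≤ (aeval (G.adjMatrix ℤ) (PM G E D R0 u v)) x y := by
  classical
  by_cases hA : Aligned G E D R0 u v
  · rw [aeval_PM h hr u v x y hA]
    split_ifs
    · exact coef_nonneg hE _ _ _
    · exact le_rfl
  · simp only [PM, Matrix.of_apply, if_neg hA]
    simp

/-- Bound for the number of vertices in a ball. -/
theorem card_ball_le {G : SimpleGraph V} [DecidableRel G.Adj] {r : ℕ}
    (h : TreeLike G r) (a : V) (t : ℕ) :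
    (univ.filter (fun c => G.dist a c ≤ t)).card ≤ 6 ^ t := by
  classical
  induction t with
  | zero =>
    simp only [Nat.le_zero, pow_zero]
    rw [Finset.card_le_one]
    intro x hx y hy
    simp only [mem_filter, mem_univ, true_and] at hx hy
    rw [← h.conn.dist_eq_zero_iff.mp hx, ← h.conn.dist_eq_zero_iff.mp hy]
  | succ t ih =>
    have hsub : univ.filter (fun c => G.dist a c ≤ t + 1) ⊆
        univ.filter (fun c => G.dist a c ≤ t) ∪ univ.filter (fun c => G.dist a c = t + 1) := by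
      intro c hc
      simp only [mem_filter, mem_univ, true_and, mem_union] at hc ⊢
      omega
    have h1 := (Finset.card_le_card hsub).trans (Finset.card_union_le _ _)
    have h2 := h.card_sphere_le a t
    have h3 : 4 ^ t ≤ 6 ^ t := Nat.pow_le_pow_left (by norm_num) t
    rw [pow_succ]
    omega

theorem PM_row (D : ℕ) : ∃ C : ℕ, ∀ (V : Type) [Fintype V] [DecidableEq V] (G : SimpleGraph V)
    [DecidableRel G.Adj] (E : Matrix V V ℤ) (R0 r : ℕ), TreeLike G r → D ≤ R0 → 2 * R0 ≤ r →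
    (∀ u v, 0 ≤ E u v) → (∀ u, ∑ v, E u v ≤ (D : ℤ)) →
    ∀ x : ℝ, |x| ≤ 5 → ∀ u, ∑ v, |ev (PM G E D R0 u v) x| ≤ C := by
  obtain ⟨B, hB⟩ : ∃ B : ℕ, ∑ t ∈ range (D + 1), (D : ℝ) * ev (F t) 5 ≤ B := exists_nat_ge _
  refine ⟨D * 6 ^ D * B, ?_⟩
  intro V _ _ G _ E R0 r h hD hr hE hrow x hx u
  classical
  -- entries are at most `D`
  have hent : ∀ v, E u v ≤ D := fun v =>
    (Finset.single_le_sum (f := fun v => E u v) (fun i _ => hE u i) (mem_univ v)).trans (hrow u)
  have hcoef : ∀ v t, coef G E u v t ≤ D := by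
    intro v t
    rw [coef]
    split_ifs
    · exact hent _
    · exact Int.natCast_nonneg _
  -- each term
  have hterm : ∀ v, |ev (PM G E D R0 u v) x| ≤ B := by
    intro v
    simp only [PM, Matrix.of_apply]
    split_ifs with hA
    · rw [ev_sum]
      refine (Finset.abs_sum_le_sum_abs _ _).trans (le_trans ?_ hB)
      apply Finset.sum_le_sum
      intro t _
      rw [ev_mul, ev_C, abs_mul]
      have h1 : |((coef G E u v t : ℤ) : ℝ)| ≤ D := by
        rw [abs_of_nonneg (by exact_mod_cast coef_nonneg hE u v t)]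
        exact_mod_cast hcoef v t
      have h2 := abs_ev_F_le_five t x hx
      exact mul_le_mul h1 h2 (abs_nonneg _) (by positivity)
    · simp
  -- the support
  set supp := univ.filter (fun y => E u y ≠ 0) with hsupp
  have hsuppcard : (supp.card : ℤ) ≤ D := by
    refine le_trans ?_ (hrow u)
    rw [Finset.card_eq_sum_ones, Nat.cast_sum]
    have h1 : ∑ y ∈ supp, ((1 : ℕ) : ℤ) ≤ ∑ y ∈ supp, E u y := by
      apply Finset.sum_le_sum
      intro y hy
      have hy' : E u y ≠ 0 := (Finset.mem_filter.mp hy).2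
      have := hE u y
      push_cast
      omega
    exact h1.trans (Finset.sum_le_sum_of_subset_of_nonneg (Finset.subset_univ _)
      (fun i _ _ => hE u i))
  have hsub : univ.filter (fun v => Aligned G E D R0 u v) ⊆
      supp.biUnion (fun y => univ.filter (fun c => G.dist y c ≤ D)) := by
    intro v hv
    have hA := (Finset.mem_filter.mp hv).2
    obtain ⟨φ, c, hφ, hc, t, ht, hct⟩ := hA
    obtain ⟨y, hy, _⟩ := h.extend (a := v) (b := v) t (by simp; omega)
    have h1 := (aligned_coef (D := D) h hr φ c hφ hc t (by omega)).2 y hy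
    rw [Finset.mem_biUnion]
    refine ⟨y, ?_, ?_⟩
    · rw [hsupp, Finset.mem_filter]
      exact ⟨mem_univ _, by rw [h1]; exact hct⟩
    · rw [Finset.mem_filter]
      exact ⟨mem_univ _, by rw [G.dist_comm, hy]; exact ht⟩
  have hcard : (univ.filter (fun v => Aligned G E D R0 u v)).card ≤ D * 6 ^ D := by
    refine (Finset.card_le_card hsub).trans ?_
    refine (Finset.card_biUnion_le_card_mul _ _ (6 ^ D) (fun y _ => card_ball_le h y D)).trans ?_
    exact Nat.mul_le_mul_right _ (by exact_mod_cast hsuppcard)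
  have hzero : ∀ v ∉ univ.filter (fun v => Aligned G E D R0 u v),
      |ev (PM G E D R0 u v) x| = 0 := by
    intro v hv
    have hv' : ¬ Aligned G E D R0 u v := fun hh => hv (Finset.mem_filter.mpr ⟨mem_univ _, hh⟩)
    simp only [PM, Matrix.of_apply, if_neg hv']
    simp
  rw [← Finset.sum_subset (Finset.subset_univ (univ.filter (fun v => Aligned G E D R0 u v)))
    (fun v _ hv => hzero v hv)]
  refine (Finset.sum_le_card_nsmul _ _ (B : ℝ) (fun v _ => hterm v)).trans ?_
  rw [nsmul_eq_mul]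
  push_cast
  apply mul_le_mul_of_nonneg_right _ (by positivity)
  exact_mod_cast hcard

end Pool.Agent.H18.Cage
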