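import Pool.Agent.H18.Cage.Struct1
import Pool.Agent.H18.Cage.Local5

/-! Auxiliary lemmas for the modules STRUCT-2, STRUCT-3 and STRUCT-4. -/

set_option autoImplicit false

namespace Pool.Agent.H18.Cage

open Polynomial Matrix Finset

variable {V : Type} [Fintype V] [DecidableEq V]

/-! ### Nonnegative integer matrices -/

omit [DecidableEq V] in
theorem mul_nonneg_entry {P Q : Matrix V V ℤ} (hP : ∀ u v, 0 ≤ P u v) (hQ : ∀ u v, 0 ≤ Q u v)
    (u v : V) : 0 ≤ (P * Q) u v := by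
  rw [Matrix.mul_apply]
  exact Finset.sum_nonneg fun w _ => mul_nonneg (hP _ _) (hQ _ _)

theorem pow_nonneg_entry {Q : Matrix V V ℤ} (hQ : ∀ u v, 0 ≤ Q u v) (n : ℕ) :
    ∀ u v, 0 ≤ (Q ^ n) u v := by
  induction n with
  | zero =>
    intro u v
    rw [pow_zero, Matrix.one_apply]
    split_ifs <;> norm_num
  | succ n ih =>
    intro u v
    rw [pow_succ]
    exact mul_nonneg_entry ih hQ u v

omit [DecidableEq V] in
theorem mul_ne_zero_entry {P Q : Matrix V V ℤ} (hP : ∀ u v, 0 ≤ P u v) (hQ : ∀ u v, 0 ≤ Q u v)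
    {u v w : V} (h1 : P u v ≠ 0) (h2 : Q v w ≠ 0) : (P * Q) u w ≠ 0 := by
  apply ne_of_gt
  rw [Matrix.mul_apply]
  apply Finset.sum_pos'
  · intro i _
    exact mul_nonneg (hP _ _) (hQ _ _)
  · exact ⟨v, mem_univ _, mul_pos (lt_of_le_of_ne (hP _ _) (Ne.symm h1))
      (lt_of_le_of_ne (hQ _ _) (Ne.symm h2))⟩

theorem pow_trans_entry {Q : Matrix V V ℤ} (hQ : ∀ u v, 0 ≤ Q u v) {n m : ℕ} {u v w : V}
    (h1 : (Q ^ n) u v ≠ 0) (h2 : (Q ^ m) v w ≠ 0) : (Q ^ (n + m)) u w ≠ 0 := by
  rw [pow_add]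
  exact mul_ne_zero_entry (pow_nonneg_entry hQ n) (pow_nonneg_entry hQ m) h1 h2

theorem pow_mono_entry {Q : Matrix V V ℤ} (hQ : ∀ u v, 0 ≤ Q u v) (hd : ∀ u, Q u u ≠ 0)
    {n m : ℕ} (hnm : n ≤ m) {u v : V} (h1 : (Q ^ n) u v ≠ 0) : (Q ^ m) u v ≠ 0 := by
  have hdk : ∀ k, ∀ w, (Q ^ k) w w ≠ 0 := by
    intro k
    induction k with
    | zero => intro w; simp
    | succ k ih =>
      intro w
      rw [pow_succ]
      exact mul_ne_zero_entry (pow_nonneg_entry hQ k) hQ (ih w) (hd w)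
  obtain ⟨k, rfl⟩ := Nat.exists_eq_add_of_le hnm
  exact pow_trans_entry hQ h1 (hdk k v)

/-! ### The step matrix -/

section Step

variable {G : SimpleGraph V} [DecidableRel G.Adj] {E : Matrix V V ℤ} {D b r : ℕ}

theorem step_nonneg (hE : ∀ u v, 0 ≤ E u v) (u v : V) : 0 ≤ (1 + G.adjMatrix ℤ + E) u v := by
  rw [Matrix.add_apply, Matrix.add_apply, Matrix.one_apply, SimpleGraph.adjMatrix_apply]
  have := hE u v
  split_ifs <;> omega

theorem step_diag (hE : ∀ u v, 0 ≤ E u v) (u : V) : (1 + G.adjMatrix ℤ + E) u u ≠ 0 := by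
  rw [Matrix.add_apply, Matrix.add_apply, Matrix.one_apply_eq, SimpleGraph.adjMatrix_apply]
  have := hE u u
  split_ifs <;> omega

theorem step_adj (hE : ∀ u v, 0 ≤ E u v) {u v : V} (h : G.Adj u v) :
    (1 + G.adjMatrix ℤ + E) u v ≠ 0 := by
  rw [Matrix.add_apply, Matrix.add_apply, Matrix.one_apply, SimpleGraph.adjMatrix_apply, if_pos h]
  have := hE u v
  split_ifs <;> omega

theorem step_E (hE : ∀ u v, 0 ≤ E u v) {u v : V} (h : E u v ≠ 0) :
    (1 + G.adjMatrix ℤ + E) u v ≠ 0 := by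
  rw [Matrix.add_apply, Matrix.add_apply, Matrix.one_apply, SimpleGraph.adjMatrix_apply]
  have := hE u v
  split_ifs <;> omega

/-- Reachability in `n` steps. -/
def Reach (G : SimpleGraph V) [DecidableRel G.Adj] (E : Matrix V V ℤ) (n : ℕ) (u v : V) : Prop :=
  ((1 + G.adjMatrix ℤ + E) ^ n) u v ≠ 0

theorem Reach.trans (hE : ∀ u v, 0 ≤ E u v) {n m : ℕ} {u v w : V} (h1 : Reach G E n u v)
    (h2 : Reach G E m v w) : Reach G E (n + m) u w :=
  pow_trans_entry (step_nonneg hE) h1 h2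

theorem Reach.mono (hE : ∀ u v, 0 ≤ E u v) {n m : ℕ} {u v : V} (h1 : Reach G E n u v)
    (h : n ≤ m) : Reach G E m u v :=
  pow_mono_entry (step_nonneg hE) (step_diag hE) h h1

theorem Reach.of_E (hE : ∀ u v, 0 ≤ E u v) {u v : V} (h : E u v ≠ 0) : Reach G E 1 u v := by
  rw [Reach, pow_one]
  exact step_E hE h

theorem Reach.refl (hE : ∀ u v, 0 ≤ E u v) (n : ℕ) (u : V) : Reach G E n u u := by
  have : Reach G E 0 u u := by
    rw [Reach, pow_zero]
    simp
  exact this.mono hE (Nat.zero_le n)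

theorem Reach.of_dist (h : TreeLike G r) (hE : ∀ u v, 0 ≤ E u v) :
    ∀ (n : ℕ) {u v : V}, G.dist u v ≤ n → Reach G E n u v := by
  intro n
  induction n with
  | zero =>
    intro u v huv
    have : u = v := h.conn.dist_eq_zero_iff.mp (by omega)
    subst this
    exact Reach.refl hE 0 u
  | succ n ih =>
    intro u v huv
    by_cases hne : u = v
    · subst hne
      exact Reach.refl hE _ u
    · obtain ⟨w, hw1, hw2⟩ := h.exists_closer hne
      have h1 := ih (u := u) (v := w) (by omega)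
      have h2 : Reach G E 1 w v := by
        rw [Reach, pow_one]
        exact step_adj hE hw1.symm
      exact h1.trans hE h2

theorem notMem_badN_of_reach {K : ℕ} {v w : V} (hv : v ∈ typN G E D b r K)
    (hw : Reach G E K v w) : w ∉ badN G E D b r := by
  classical
  intro hbad
  rw [typN, Finset.mem_filter] at hv
  exact hw (hv.2 w hbad)

theorem typN_of_reach (hE : ∀ u v, 0 ≤ E u v) {K n : ℕ} {v w : V}
    (hv : v ∈ typN G E D b r (n + K)) (hw : Reach G E n v w) : w ∈ typN G E D b r K := by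
  classical
  rw [typN, Finset.mem_filter]
  refine ⟨mem_univ _, fun z hz => ?_⟩
  by_contra hne
  exact notMem_badN_of_reach hv (hw.trans hE hne) hz

theorem typN_mono (hE : ∀ u v, 0 ≤ E u v) {K n : ℕ} {v : V}
    (hv : v ∈ typN G E D b r n) (hKn : K ≤ n) : v ∈ typN G E D b r K := by
  classical
  rw [typN, Finset.mem_filter]
  refine ⟨mem_univ _, fun z hz => ?_⟩
  by_contra hne
  exact notMem_badN_of_reach hv (Reach.mono hE (show Reach G E K v z from hne) hKn) hz

/-! ### The dominating matrix -/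

theorem aeval_Gp (h : TreeLike G r) (hD : D ≤ r) (x y : V) :
    (aeval (G.adjMatrix ℤ) (Gp D)) x y = if G.dist x y ≤ D then 1 else 0 := by
  classical
  rw [Gp, map_sum, Matrix.sum_apply]
  have e1 : ∀ t ∈ range (D + 1), (aeval (G.adjMatrix ℤ) (F t)) x y =
      if G.dist x y = t then 1 else 0 := by
    intro t ht
    have ht' := Finset.mem_range.mp ht
    rw [h.aeval_F t (by omega), Dm, Matrix.of_apply]
  rw [Finset.sum_congr rfl e1, Finset.sum_ite_eq]
  simp only [Finset.mem_range, Nat.lt_succ_iff]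

theorem N1_nonneg (h : TreeLike G r) (hE : ∀ u v, 0 ≤ E u v) (hD : D ≤ r) (x y : V) :
    0 ≤ (E * aeval (G.adjMatrix ℤ) (Gp D)) x y := by
  apply mul_nonneg_entry hE
  intro u v
  rw [aeval_Gp h hD]
  split_ifs <;> norm_num

theorem N1_ne (h : TreeLike G r) (hE : ∀ u v, 0 ≤ E u v) (hD : D ≤ r) {x y z : V}
    (h1 : E x z ≠ 0) (h2 : G.dist z y ≤ D) : (E * aeval (G.adjMatrix ℤ) (Gp D)) x y ≠ 0 := by
  apply mul_ne_zero_entry hE _ h1
  · rw [aeval_Gp h hD, if_pos h2]
    norm_num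
  · intro u v
    rw [aeval_Gp h hD]
    split_ifs <;> norm_num

theorem Nm_ne (h : TreeLike G r) (hE : ∀ u v, 0 ≤ E u v) (hD : D ≤ r) {x y : V} {j : ℕ}
    (hj : j ≤ b) (h1 : ((E * aeval (G.adjMatrix ℤ) (Gp D)) ^ j) x y ≠ 0) :
    Nm G E D b x y ≠ 0 := by
  have hN := N1_nonneg h hE hD
  apply ne_of_gt
  rw [Nm, Matrix.sum_apply]
  apply Finset.sum_pos'
  · intro i _
    exact pow_nonneg_entry hN i x y
  · exact ⟨j, Finset.mem_range.mpr (by omega),
      lt_of_le_of_ne (pow_nonneg_entry hN j x y) (Ne.symm h1)⟩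

/-- A vertex which is not bad has no partner at intermediate distance. -/
theorem not_bad {x y : V} (hx : x ∉ badN G E D b r) (hN : Nm G E D b x y ≠ 0) :
    G.dist x y ≤ rowN D b ∨ r < 2 * G.dist x y := by
  classical
  by_contra hcon
  push Not at hcon
  apply hx
  rw [badN, Finset.mem_filter]
  exact ⟨mem_univ _, y, by omega, by omega, hN⟩

/-- The window property. -/
theorem window (h : TreeLike G r) (hE : ∀ u v, 0 ≤ E u v) (hsymm : E.IsSymm) (hD : D ≤ r)
    (hb : 2 ≤ b) {u x y : V} (hx : x ∉ badN G E D b r) (h1 : E u x ≠ 0) (h2 : E u y ≠ 0) :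
    G.dist x y ≤ rowN D b ∨ r < 2 * G.dist x y := by
  apply not_bad hx
  apply Nm_ne h hE hD hb
  have h1' : E x u ≠ 0 := by rwa [hsymm.apply]
  have a1 : ((E * aeval (G.adjMatrix ℤ) (Gp D)) ^ 1) x u ≠ 0 := by
    rw [pow_one]
    exact N1_ne h hE hD h1' (by simp)
  have a2 : ((E * aeval (G.adjMatrix ℤ) (Gp D)) ^ 1) u y ≠ 0 := by
    rw [pow_one]
    exact N1_ne h hE hD h2 (by simp)
  exact pow_trans_entry (N1_nonneg h hE hD) a1 a2

/-- `E` commutes with the adjacency matrix. -/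
theorem Setup.comm {s : ℤ} (hS : Setup G s r D E) :
    G.adjMatrix ℤ * E = E * G.adjMatrix ℤ := by
  have hE : E = (1 + s) • Matrix.of (fun _ _ : V => (1 : ℤ)) - aeval (G.adjMatrix ℤ) (W s r) := by
    rw [← hS.rel]
    abel
  have h1 : G.adjMatrix ℤ * aeval (G.adjMatrix ℤ) (W s r) =
      aeval (G.adjMatrix ℤ) (W s r) * G.adjMatrix ℤ := by
    have e1 : aeval (G.adjMatrix ℤ) (X * W s r) = G.adjMatrix ℤ * aeval (G.adjMatrix ℤ) (W s r) := by
      rw [map_mul, aeval_X]
    have e2 : aeval (G.adjMatrix ℤ) (W s r * X) = aeval (G.adjMatrix ℤ) (W s r) * G.adjMatrix ℤ := by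
      rw [map_mul, aeval_X]
    rw [← e1, ← e2, mul_comm]
  have h2 : G.adjMatrix ℤ * Matrix.of (fun _ _ : V => (1 : ℤ)) =
      Matrix.of (fun _ _ : V => (1 : ℤ)) * G.adjMatrix ℤ := by
    ext u v
    rw [SimpleGraph.adjMatrix_mul_apply, SimpleGraph.mul_adjMatrix_apply]
    simp only [Matrix.of_apply, Finset.sum_const, SimpleGraph.card_neighborFinset_eq_degree,
      hS.tl.deg.degree_eq]
  rw [hE, mul_sub, sub_mul, h1, Matrix.mul_smul, Matrix.smul_mul, h2]

/-- The support of a row has at most `D` elements. -/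
theorem card_supp_row_le (hE : ∀ u v, 0 ≤ E u v) (hrow : ∀ u, ∑ v, E u v ≤ (D : ℤ)) (u : V) :
    (univ.filter (fun y => E u y ≠ 0)).card ≤ D := by
  classical
  have : (((univ.filter (fun y => E u y ≠ 0)).card : ℕ) : ℤ) ≤ D := by
    refine le_trans ?_ (hrow u)
    rw [Finset.card_eq_sum_ones, Nat.cast_sum]
    have h1 : ∑ y ∈ univ.filter (fun y => E u y ≠ 0), ((1 : ℕ) : ℤ) ≤
        ∑ y ∈ univ.filter (fun y => E u y ≠ 0), E u y := by
      apply Finset.sum_le_sum
      intro y hy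
      have hy' : E u y ≠ 0 := (Finset.mem_filter.mp hy).2
      have := hE u y
      push_cast
      omega
    exact h1.trans (Finset.sum_le_sum_of_subset_of_nonneg (Finset.subset_univ _)
      (fun i _ _ => hE u i))
  exact_mod_cast this

/-! ### The push lemma -/

theorem LocIso.inj {r : ℕ} (h : TreeLike G r) {R0 : ℕ} {v m : V} {φ : V → V}
    (hφ : LocIso G R0 v m φ) {a b : V} (ha : G.dist v a ≤ R0) (hb : G.dist v b ≤ R0)
    (hab : φ a = φ b) : a = b := by
  have h1 := hφ.iso a b ha hb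
  rw [hab, SimpleGraph.dist_self] at h1
  exact h.conn.dist_eq_zero_iff.mp h1.symm

theorem LocIso.refl (G : SimpleGraph V) (R0 : ℕ) (v : V) : LocIso G R0 v v id :=
  ⟨rfl, fun _ _ _ _ => rfl, fun y hy => ⟨y, hy, rfl⟩⟩

theorem LocIso.comp {R0 : ℕ} {v m m' : V} {φ φ' : V → V}
    (hφ : LocIso G R0 v m φ) (hφ' : LocIso G R0 m m' φ') : LocIso G R0 v m' (φ' ∘ φ) := by
  refine ⟨?_, ?_, ?_⟩
  · simp only [Function.comp_apply, hφ.base, hφ'.base]
  · intro u w hu hw
    simp only [Function.comp_apply]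
    rw [hφ'.iso _ _ (by rw [hφ.dist_base hu]; exact hu) (by rw [hφ.dist_base hw]; exact hw),
      hφ.iso u w hu hw]
  · intro y hy
    obtain ⟨w, hw1, hw2⟩ := hφ'.onto y hy
    obtain ⟨u, hu1, hu2⟩ := hφ.onto w hw1
    exact ⟨u, hu1, by simp only [Function.comp_apply, hu2, hw2]⟩

/-- PUSH LEMMA. -/
theorem push (h : TreeLike G r) {R0 : ℕ} {v m m' : V} {φ φ' : V → V}
    (hφ : LocIso G R0 v m φ) (hφ' : LocIso G R0 v m' φ') (hne : m ≠ m') :
    ∀ l : ℕ, l ≤ R0 → R0 ≤ r → G.dist m m' + 2 * l ≤ r →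
      ∃ u, G.dist v u = l ∧ G.dist (φ u) (φ' u) = G.dist m m' + 2 * l := by
  classical
  have tri : ∀ a b c : V, G.dist a c ≤ G.dist a b + G.dist b c := fun a b c =>
    h.conn.dist_triangle
  have dc : ∀ a b : V, G.dist a b = G.dist b a := fun a b => G.dist_comm
  have hd0 : 0 < G.dist m m' := by
    have : G.dist m m' ≠ 0 := fun hh => hne (h.conn.dist_eq_zero_iff.mp hh)
    omega
  intro l
  induction l with
  | zero =>
    intro _ _ _
    exact ⟨v, by simp, by rw [hφ.base, hφ'.base]; ring⟩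
  | succ l ih =>
    intro hl hR hr
    obtain ⟨u, hu1, hu2⟩ := ih (by omega) hR (by omega)
    have step : ∀ {a c : V}, G.Adj a c → G.dist a c = 1 := fun hac =>
      SimpleGraph.dist_eq_one_iff_adj.mpr hac
    have hin : ∀ {c : V}, G.Adj u c → G.dist v c ≤ R0 := by
      intro c hc
      have := tri v u c
      have := step hc
      omega
    have hadjφ : ∀ {c : V}, G.Adj u c → G.Adj (φ u) (φ c) := by
      intro c hc
      apply SimpleGraph.dist_eq_one_iff_adj.mp
      rw [hφ.iso u c (by omega) (hin hc)]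
      exact step hc
    have hadjφ' : ∀ {c : V}, G.Adj u c → G.Adj (φ' u) (φ' c) := by
      intro c hc
      apply SimpleGraph.dist_eq_one_iff_adj.mp
      rw [hφ'.iso u c (by omega) (hin hc)]
      exact step hc
    set S1 := (G.neighborFinset u).filter (fun c => G.dist v c ≤ G.dist v u) with hS1
    set S2 := (G.neighborFinset u).filter
      (fun c => G.dist (φ' u) (φ c) ≤ G.dist (φ' u) (φ u)) with hS2
    set S3 := (G.neighborFinset u).filter
      (fun c => G.dist (φ u) (φ' c) ≤ G.dist (φ u) (φ' u)) with hS3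
    have c1 : S1.card ≤ 1 := by
      rw [Finset.card_le_one]
      intro a ha c hc
      simp only [hS1, mem_filter, SimpleGraph.mem_neighborFinset] at ha hc
      exact h.closer_unique (u := v) (w := u) (by omega) ha.1 hc.1 ha.2 hc.2
    have c2 : S2.card ≤ 1 := by
      rw [Finset.card_le_one]
      intro a ha c hc
      simp only [hS2, mem_filter, SimpleGraph.mem_neighborFinset] at ha hc
      apply hφ.inj h (hin ha.1) (hin hc.1)
      exact h.closer_unique (u := φ' u) (w := φ u) (by rw [dc (φ' u) (φ u)]; omega)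
        (hadjφ ha.1) (hadjφ hc.1) ha.2 hc.2
    have c3 : S3.card ≤ 1 := by
      rw [Finset.card_le_one]
      intro a ha c hc
      simp only [hS3, mem_filter, SimpleGraph.mem_neighborFinset] at ha hc
      apply hφ'.inj h (hin ha.1) (hin hc.1)
      exact h.closer_unique (u := φ u) (w := φ' u) (by omega)
        (hadjφ' ha.1) (hadjφ' hc.1) ha.2 hc.2
    have hex : ∃ c ∈ G.neighborFinset u, c ∉ S1 ∪ S2 ∪ S3 := by
      by_contra hcon
      push Not at hcon
      have h1 : (G.neighborFinset u).card ≤ (S1 ∪ S2 ∪ S3).card :=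
        Finset.card_le_card (fun c hc => hcon c hc)
      rw [SimpleGraph.card_neighborFinset_eq_degree, h.deg.degree_eq] at h1
      have h2 := Finset.card_union_le (S1 ∪ S2) S3
      have h3 := Finset.card_union_le S1 S2
      omega
    obtain ⟨c, hc1, hc2⟩ := hex
    have hadj : G.Adj u c := by simpa using hc1
    have n1 : ¬ G.dist v c ≤ G.dist v u := by
      intro hle
      exact hc2 (Finset.mem_union_left _ (Finset.mem_union_left _
        (Finset.mem_filter.mpr ⟨hc1, hle⟩)))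
    have n2 : ¬ G.dist (φ' u) (φ c) ≤ G.dist (φ' u) (φ u) := by
      intro hle
      exact hc2 (Finset.mem_union_left _ (Finset.mem_union_right _
        (Finset.mem_filter.mpr ⟨hc1, hle⟩)))
    have n3 : ¬ G.dist (φ u) (φ' c) ≤ G.dist (φ u) (φ' u) := by
      intro hle
      exact hc2 (Finset.mem_union_right _ (Finset.mem_filter.mpr ⟨hc1, hle⟩))
    have t1 := tri v u c
    have t2 := tri (φ' u) (φ u) (φ c)
    have t3 := tri (φ u) (φ' u) (φ' c)
    have s1 := step hadj
    have s2 := step (hadjφ hadj)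
    have s3 := step (hadjφ' hadj)
    have d1 := dc (φ' u) (φ u)
    have d2 := dc (φ' u) (φ c)
    have hPP : φ u ≠ φ' u := by
      intro hh
      rw [hh, SimpleGraph.dist_self] at hu2
      omega
    obtain ⟨z, hz1, hz2⟩ := h.exists_closer hPP
    have t4 := tri (φ c) (φ u) z
    rw [dc (φ c) (φ u)] at t4
    have n4 : ¬ G.dist (φ c) (φ' c) ≤ G.dist (φ c) (φ' u) := by
      intro hle
      have := h.closer_unique (u := φ c) (w := φ' u) (by omega) hz1 (hadjφ' hadj)
        (by omega) hle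
      rw [this] at hz2
      omega
    have t5 := tri (φ c) (φ' u) (φ' c)
    exact ⟨c, by omega, by omega⟩

end Step

end Pool.Agent.H18.Cage
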