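import Pool.Agent.H18.Cage.StructDefs
import Pool.Agent.H18.Cage.Growth
import Pool.Agent.H18.Cage.StructAux

/-! Module STRUCT-2. -/

set_option autoImplicit false

namespace Pool.Agent.H18.Cage

open Polynomial Matrix Finset

section Rows

variable {V : Type} [Fintype V] [DecidableEq V]

omit [DecidableEq V] in
theorem row_mul_le {P Q : Matrix V V ℤ} (hP : ∀ u v, 0 ≤ P u v) {p q : ℤ} (hq : 0 ≤ q)
    (h1 : ∀ u, ∑ v, P u v ≤ p) (h2 : ∀ u, ∑ v, Q u v ≤ q) (u : V) :
    ∑ v, (P * Q) u v ≤ p * q := by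
  calc ∑ v, (P * Q) u v = ∑ v, ∑ w, P u w * Q w v := by
        simp only [Matrix.mul_apply]
    _ = ∑ w, P u w * ∑ v, Q w v := by
        rw [Finset.sum_comm]
        simp only [Finset.mul_sum]
    _ ≤ ∑ w, P u w * q := Finset.sum_le_sum fun w _ => mul_le_mul_of_nonneg_left (h2 w) (hP u w)
    _ = (∑ w, P u w) * q := by rw [Finset.sum_mul]
    _ ≤ p * q := mul_le_mul_of_nonneg_right (h1 u) hq

theorem s2_row_pow_le {Q : Matrix V V ℤ} (hQ : ∀ u v, 0 ≤ Q u v) {q : ℤ} (hq : 0 ≤ q)
    (h2 : ∀ u, ∑ v, Q u v ≤ q) (n : ℕ) : ∀ u, ∑ v, (Q ^ n) u v ≤ q ^ n := by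
  induction n with
  | zero =>
    intro u
    rw [pow_zero, pow_zero]
    simp [Matrix.one_apply]
  | succ n ih =>
    intro u
    rw [pow_succ, pow_succ]
    exact row_mul_le (pow_nonneg_entry hQ n) hq ih h2 u

end Rows

/-- MODULE STRUCT-2: atypical vertices are rare. -/
theorem typN_card (D b K : ℕ) (ε : ℝ) (hε : 0 < ε) : ∃ r0 : ℕ,
    ∀ (V : Type) [Fintype V] [DecidableEq V] (G : SimpleGraph V) [DecidableRel G.Adj]
      (s : ℤ) (r : ℕ) (E : Matrix V V ℤ), r0 ≤ r → Setup G s r D E →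
      (((typN G E D b r K)ᶜ).card : ℝ) * (r + 1) ≤ ε * Fintype.card V := by
  have hpos : (0 : ℝ) < ((6 + D : ℕ) : ℝ) ^ K := by positivity
  obtain ⟨r0, hr0⟩ := growth (rowN D b) (ε / ((6 + D : ℕ) : ℝ) ^ K) (by positivity)
  refine ⟨r0 + D, ?_⟩
  intro V _ _ G _ s r E hr hS
  classical
  have h := hS.tl
  have hE := hS.nonneg
  have hsymm := hS.symm
  have hcomm := hS.comm
  have hDr : D ≤ r := by omega
  set A := G.adjMatrix ℤ with hA
  set Gm := aeval A (Gp D) with hGm
  have hGe : ∀ x y, Gm x y = if G.dist x y ≤ D then 1 else 0 := fun x y => aeval_Gp h hDr x y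
  have hG0 : ∀ x y, 0 ≤ Gm x y := by
    intro x y
    rw [hGe]
    split_ifs <;> norm_num
  have hGsymm : Gmᵀ = Gm := by
    ext x y
    rw [Matrix.transpose_apply, hGe, hGe, G.dist_comm]
  have hGrow : ∀ u, ∑ v, Gm u v ≤ ((6 ^ (D + 1) : ℕ) : ℤ) := by
    intro u
    simp only [hGe]
    rw [Finset.sum_boole]
    have h1 := card_ball_le h u D
    have h2 : 6 ^ D ≤ 6 ^ (D + 1) := Nat.pow_le_pow_right (by norm_num) (by omega)
    exact_mod_cast h1.trans h2
  have cA : Commute A E := hcomm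
  have cEG : Commute E Gm := by
    have : ∀ p : ℤ[X], Commute E (aeval A p) := by
      intro p
      induction p using Polynomial.induction_on' with
      | add p q hp hq => rw [map_add]; exact hp.add_right hq
      | monomial n a =>
        rw [Polynomial.aeval_monomial]
        exact (Algebra.commute_algebraMap_right a E).mul_right (cA.symm.pow_right n)
    exact this _
  have cAG : Commute A Gm := by
    have : ∀ p : ℤ[X], Commute A (aeval A p) := by
      intro p
      induction p using Polynomial.induction_on' with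
      | add p q hp hq => rw [map_add]; exact hp.add_right hq
      | monomial n a =>
        rw [Polynomial.aeval_monomial]
        exact (Algebra.commute_algebraMap_right a A).mul_right ((Commute.refl A).pow_right n)
    exact this _
  have hN1 : ∀ x y, 0 ≤ (E * Gm) x y := mul_nonneg_entry hE hG0
  have hN1symm : (E * Gm)ᵀ = E * Gm := by
    rw [Matrix.transpose_mul, hGsymm, hsymm.eq]
    exact cEG.symm.eq
  have hN1row : ∀ u, ∑ v, (E * Gm) u v ≤ ((D * 6 ^ (D + 1) : ℕ) : ℤ) := by
    intro u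
    have := row_mul_le hE (p := (D : ℤ)) (q := ((6 ^ (D + 1) : ℕ) : ℤ)) (by positivity)
      hS.row hGrow u
    push_cast at this ⊢
    exact this
  have hNm : Nm G E D b = ∑ j ∈ range (b + 1), (E * Gm) ^ j := rfl
  have hNm0 : ∀ u v, 0 ≤ Nm G E D b u v := by
    intro u v
    rw [hNm, Matrix.sum_apply]
    exact Finset.sum_nonneg fun j _ => pow_nonneg_entry hN1 j u v
  have hNmsymm : (Nm G E D b).IsSymm := by
    rw [Matrix.IsSymm, hNm, Matrix.transpose_sum]
    apply Finset.sum_congr rfl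
    intro j _
    rw [Matrix.transpose_pow, hN1symm]
  have hNmcomm : A * Nm G E D b = Nm G E D b * A := by
    have hc : Commute A (E * Gm) := cA.mul_right cAG
    have : Commute A (Nm G E D b) := by
      rw [hNm]
      exact Commute.sum_right _ _ _ fun j _ => hc.pow_right j
    exact this.eq
  have hNmrow : ∀ u, ∑ v, Nm G E D b u v ≤ ((rowN D b : ℕ) : ℤ) := by
    intro u
    rw [hNm]
    simp only [Matrix.sum_apply]
    rw [Finset.sum_comm]
    have h1 : ∀ j ∈ range (b + 1), ∑ v, ((E * Gm) ^ j) u v ≤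
        (((D * 6 ^ (D + 1) + 1) ^ b : ℕ) : ℤ) := by
      intro j hj
      refine (s2_row_pow_le hN1 (by positivity) hN1row j u).trans ?_
      have hj' := Finset.mem_range.mp hj
      have h2 : (D * 6 ^ (D + 1)) ^ j ≤ (D * 6 ^ (D + 1) + 1) ^ b :=
        (Nat.pow_le_pow_left (by omega) j).trans (Nat.pow_le_pow_right (by omega) (by omega))
      exact_mod_cast h2
    refine (Finset.sum_le_card_nsmul _ _ _ h1).trans ?_
    rw [Finset.card_range, nsmul_eq_mul, rowN]
    push_cast
    exact le_rfl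
  have hgrow := hr0 V G r (Nm G E D b) (by omega) h hNm0 hNmsymm hNmcomm hNmrow
  have hbad : (univ.filter (fun u => ∃ w, rowN D b + 1 ≤ G.dist u w ∧ 2 * G.dist u w ≤ r ∧
      Nm G E D b u w ≠ 0)) = badN G E D b r := by
    ext u
    simp only [badN, Finset.mem_filter]
  have hgrow' : ((badN G E D b r).card : ℝ) * (r + 1) ≤
      ε / ((6 + D : ℕ) : ℝ) ^ K * Fintype.card V := by
    rw [← hbad]
    convert hgrow using 4
  -- the step matrix
  set Q := (1 + A + E) with hQdef
  have hQ : ∀ u v, 0 ≤ Q u v := step_nonneg hE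
  have hQsymm : Qᵀ = Q := by
    rw [hQdef, Matrix.transpose_add, Matrix.transpose_add, Matrix.transpose_one, hsymm.eq, hA,
      SimpleGraph.transpose_adjMatrix]
  have hQrow : ∀ u, ∑ v, Q u v ≤ ((6 + D : ℕ) : ℤ) := by
    intro u
    have e1 : ∑ v, A u v = 5 := by
      have := SimpleGraph.adjMatrix_mulVec_const_apply (G := G) (a := (1 : ℤ)) (v := u)
      simp only [Matrix.mulVec, dotProduct, Function.const_apply, mul_one] at this
      rw [hA, this, h.deg.degree_eq]
      norm_num
    have e2 : ∑ v, (1 : Matrix V V ℤ) u v = 1 := by simp [Matrix.one_apply]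
    have e3 := hS.row u
    rw [hQdef]
    simp only [Matrix.add_apply, Finset.sum_add_distrib]
    rw [e1, e2]
    push_cast
    linarith
  have hQKrow := s2_row_pow_le hQ (by positivity) hQrow K
  have hcol : ∀ w, (univ.filter (fun v => (Q ^ K) v w ≠ 0)).card ≤ (6 + D) ^ K := by
    intro w
    have hs : ∀ v, (Q ^ K) v w = (Q ^ K) w v := by
      intro v
      have : (Q ^ K)ᵀ = Q ^ K := by rw [Matrix.transpose_pow, hQsymm]
      rw [← Matrix.transpose_apply (Q ^ K) w v, this]
    have h1 : (((univ.filter (fun v => (Q ^ K) v w ≠ 0)).card : ℕ) : ℤ) ≤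
        ((6 + D : ℕ) : ℤ) ^ K := by
      refine le_trans ?_ (hQKrow w)
      rw [Finset.card_eq_sum_ones, Nat.cast_sum]
      have h2 : ∑ v ∈ univ.filter (fun v => (Q ^ K) v w ≠ 0), ((1 : ℕ) : ℤ) ≤
          ∑ v ∈ univ.filter (fun v => (Q ^ K) v w ≠ 0), (Q ^ K) w v := by
        apply Finset.sum_le_sum
        intro v hv
        have hv' : (Q ^ K) v w ≠ 0 := (Finset.mem_filter.mp hv).2
        rw [hs v] at hv'
        have := pow_nonneg_entry hQ K w v
        push_cast
        omega
      exact h2.trans (Finset.sum_le_sum_of_subset_of_nonneg (Finset.subset_univ _)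
        (fun i _ _ => pow_nonneg_entry hQ K w i))
    exact_mod_cast h1
  have hsub : (typN G E D b r K)ᶜ ⊆
      (badN G E D b r).biUnion (fun w => univ.filter (fun v => (Q ^ K) v w ≠ 0)) := by
    intro v hv
    rw [Finset.mem_compl, typN, Finset.mem_filter] at hv
    push Not at hv
    obtain ⟨w, hw1, hw2⟩ := hv (mem_univ v)
    rw [Finset.mem_biUnion]
    exact ⟨w, hw1, Finset.mem_filter.mpr ⟨mem_univ _, hw2⟩⟩
  have hcard : ((typN G E D b r K)ᶜ).card ≤ (badN G E D b r).card * (6 + D) ^ K :=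
    (Finset.card_le_card hsub).trans (Finset.card_biUnion_le_card_mul _ _ _ (fun w _ => hcol w))
  have hcardR : (((typN G E D b r K)ᶜ).card : ℝ) ≤
      ((badN G E D b r).card : ℝ) * ((6 + D : ℕ) : ℝ) ^ K := by exact_mod_cast hcard
  calc (((typN G E D b r K)ᶜ).card : ℝ) * (r + 1)
      ≤ ((badN G E D b r).card : ℝ) * ((6 + D : ℕ) : ℝ) ^ K * (r + 1) := by
        apply mul_le_mul_of_nonneg_right hcardR (by positivity)
    _ = (((badN G E D b r).card : ℝ) * (r + 1)) * ((6 + D : ℕ) : ℝ) ^ K := by ring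
    _ ≤ (ε / ((6 + D : ℕ) : ℝ) ^ K * Fintype.card V) * ((6 + D : ℕ) : ℝ) ^ K :=
        mul_le_mul_of_nonneg_right hgrow' hpos.le
    _ = ε * Fintype.card V := by field_simp

end Pool.Agent.H18.Cage
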