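import Pool.Agent.H18.Cage.Struct1
import Pool.Agent.H18.Cage.Local5
import Pool.Agent.H18.Cage.StructAux

/-! Module STRUCT-3. -/

set_option autoImplicit false

namespace Pool.Agent.H18.Cage

open Polynomial Matrix Finset

/-- MODULE STRUCT-3: for typical vertices the row of `E` is a sum of radial functions around
aligned vertices, and different aligned vertices are far apart. -/
theorem rep_one (D b R0 : ℕ) (hb : 2 ≤ b) (hR0 : 10 * (rowN D b + D + 2) ≤ R0) :
    ∃ K r0 : ℕ, ∀ (V : Type) [Fintype V] [DecidableEq V] (G : SimpleGraph V)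
      [DecidableRel G.Adj] (s : ℤ) (r : ℕ) (E : Matrix V V ℤ), r0 ≤ r → Setup G s r D E →
      ∀ v ∈ typN G E D b r K, ∀ w,
        E w v = ∑ m, (aeval (G.adjMatrix ℤ) (PM G E D R0 m v)) w m := by
  obtain ⟨T, hT⟩ : ∃ T, T = rowN D b := ⟨_, rfl⟩
  rw [← hT] at hR0
  obtain ⟨Rw, hRw⟩ := local_class T R0
  refine ⟨Rw + R0 + 10, 2 * Rw + 20 * R0 + 20, ?_⟩
  intro V _ _ G _ s r E hr hS v hv w
  classical
  have h := hS.tl
  have hE := hS.nonneg
  have hsymm := hS.symm
  have tri : ∀ a b c : V, G.dist a c ≤ G.dist a b + G.dist b c := fun a b c =>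
    h.conn.dist_triangle
  have dc : ∀ a b : V, G.dist a b = G.dist b a := fun a b => G.dist_comm
  have hcomm := hS.comm
  have hwin : ∀ u x y, x ∉ badN G E D b r → E u x ≠ 0 → E u y ≠ 0 →
      G.dist x y ≤ T ∨ r < 2 * G.dist x y := by
    intro u x y hx h1 h2
    rw [hT]
    exact window h hE hsymm (by omega) hb hx h1 h2
  -- centres for the support points
  have hcentre : ∀ w, E v w ≠ 0 → ∃ m, Aligned G E D R0 v m ∧ G.dist w m ≤ D := by
    intro w hw
    obtain ⟨φ, c, m, hφ, hmw, hc⟩ := hRw V G r E v w (by omega) h hE hsymm hcomm hw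
      (by
        intro u hu x y hx hy
        have hreach : Reach G E (Rw + R0 + 10) v x :=
          ((Reach.of_dist h hE Rw hu).trans hE (Reach.of_E hE hx)).mono hE (by omega)
        rcases hwin u x y (notMem_badN_of_reach hv hreach) hx hy with h1 | h1
        · exact Or.inl h1
        · right; omega)
      (by
        intro x hx u u' hu hu'
        have hux : E x u ≠ 0 := by rwa [hsymm.apply]
        have hux' : E x u' ≠ 0 := by rwa [hsymm.apply]
        have hreach : Reach G E (Rw + R0 + 10) v u :=
          (((Reach.of_E hE hw).trans hE (Reach.of_dist h hE Rw hx)).trans hE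
            (Reach.of_E hE hux)).mono hE (by omega)
        rcases hwin x u u' (notMem_badN_of_reach hv hreach) hux hux' with h1 | h1
        · exact Or.inl h1
        · right; omega)
    have hct : c (G.dist m w) ≠ 0 := by
      have := hc v w (by simp) (by omega)
      rw [hφ.base] at this
      rw [← this]
      exact hw
    have ht0 : G.dist m w ≤ D := by
      by_cases h0 : G.dist m w = 0
      · omega
      · obtain ⟨t, ht⟩ : ∃ t, G.dist m w = t + 1 := ⟨G.dist m w - 1, by omega⟩
        have h1 := h.card_sphere m t (by omega)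
        have hsub : univ.filter (fun c => G.dist m c = t + 1) ⊆
            univ.filter (fun y => E v y ≠ 0) := by
          intro y hy
          simp only [mem_filter, mem_univ, true_and] at hy ⊢
          have := hc v y (by simp) (by omega)
          rw [hφ.base, hy, ← ht] at this
          rw [this]
          exact hct
        have h2 := (Finset.card_le_card hsub).trans (card_supp_row_le hE hS.row v)
        rw [h1] at h2
        have h3 : t < 4 ^ t := Nat.lt_pow_self (by norm_num)
        omega
    exact ⟨m, ⟨φ, c, hφ, hc, G.dist m w, ht0, hct⟩, by rw [dc w m]; exact ht0⟩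
  -- different aligned vertices are far apart
  have huniq : ∀ m m', Aligned G E D R0 v m → Aligned G E D R0 v m' →
      G.dist m m' ≤ 2 * D → m = m' := by
    rintro m m' ⟨φ, c, hφ, hc, t, ht, hct⟩ ⟨φ', c', hφ', hc', t', ht', hct'⟩ hmm
    by_contra hne
    have hpos : G.dist m m' ≠ 0 := fun hh => hne (h.conn.dist_eq_zero_iff.mp hh)
    obtain ⟨u, hu1, hu2⟩ := push h hφ hφ' hne (T + D) (by omega) (by omega) (by omega)
    obtain ⟨y, hy, _⟩ := h.extend (a := φ u) (b := φ u) t (by simp; omega)
    obtain ⟨y', hy', _⟩ := h.extend (a := φ' u) (b := φ' u) t' (by simp; omega)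
    have e1 := hφ.dist_base (u := u) (by omega)
    have e2 := hφ'.dist_base (u := u) (by omega)
    have t1 := tri m (φ u) y
    have t2 := tri m' (φ' u) y'
    have f1 := hc u y (by omega) (by omega)
    have f2 := hc' u y' (by omega) (by omega)
    rw [hy] at f1
    rw [hy'] at f2
    rw [← f1] at hct
    rw [← f2] at hct'
    have hreach : Reach G E (Rw + R0 + 10) v y :=
      ((Reach.of_dist h hE (T + D) hu1.le).trans hE (Reach.of_E hE hct)).mono hE (by omega)
    have t3 := tri (φ u) y (φ' u)
    have t4 := tri y y' (φ' u)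
    have t5 := tri y (φ u) y'
    have t6 := tri (φ u) (φ' u) y'
    rw [dc y' (φ' u)] at t4
    rw [dc y (φ u)] at t5
    rcases hwin u y y' (notMem_badN_of_reach hv hreach) hct hct' with h1 | h1 <;> omega
  -- the sum
  have hterm : ∀ m, (aeval (G.adjMatrix ℤ) (PM G E D R0 m v)) w m =
      if Aligned G E D R0 v m ∧ G.dist w m ≤ D then E w v else 0 := by
    intro m
    have hs : PM G E D R0 m v = PM G E D R0 v m :=
      (PM_symm h hsymm (by omega) (by omega)).apply v m
    rw [hs]
    by_cases hA : Aligned G E D R0 v m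
    · rw [aeval_PM h (by omega) v m w m hA]
      by_cases hd : G.dist w m ≤ D
      · rw [if_pos hd, if_pos ⟨hA, hd⟩]
        obtain ⟨φ, c, hφ, hc, _⟩ := hA
        obtain ⟨h1, h2⟩ := aligned_coef (D := D) h (by omega) φ c hφ hc (G.dist w m) (by omega)
        rw [h1, ← h2 w (dc m w), hsymm.apply]
      · rw [if_neg hd, if_neg (fun hh => hd hh.2)]
    · rw [if_neg (fun hh => hA hh.1)]
      simp only [PM, Matrix.of_apply, if_neg hA]
      simp
  rw [Finset.sum_congr rfl (fun m _ => hterm m)]
  by_cases hw : E v w = 0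
  · have : E w v = 0 := by rwa [hsymm.apply]
    rw [this]
    simp
  · obtain ⟨m, hm1, hm2⟩ := hcentre w hw
    rw [Finset.sum_eq_single m]
    · rw [if_pos ⟨hm1, hm2⟩]
    · intro m' _ hne
      rw [if_neg]
      rintro ⟨hA, hd⟩
      apply hne
      apply huniq m' m hA hm1
      have := tri m' w m
      rw [dc m' w] at this
      omega
    · intro hh
      exact absurd (mem_univ m) hh

end Pool.Agent.H18.Cage
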