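import Pool.Agent.H18.Cage.CombDefs

/-! Definitions for the structure modules. -/

set_option autoImplicit false

namespace Pool.Agent.H18.Cage

open Polynomial Matrix Finset

variable {V : Type} [Fintype V] [DecidableEq V]

/-- `v` and `m` are aligned: near `(v, m)` the matrix `E` is a radial function composed with an
isomorphism of balls of radius `R0`. -/
def Aligned (G : SimpleGraph V) (E : Matrix V V ℤ) (D R0 : ℕ) (v m : V) : Prop :=
  ∃ (φ : V → V) (c : ℕ → ℤ), LocIso G R0 v m φ ∧
    (∀ u y, G.dist v u ≤ R0 → G.dist m y ≤ R0 → E u y = c (G.dist (φ u) y)) ∧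
    ∃ t ≤ D, c t ≠ 0

open scoped Classical in
/-- The radial coefficient, read off from any point at distance `t` from `m`. -/
noncomputable def coef (G : SimpleGraph V) (E : Matrix V V ℤ) (v m : V) (t : ℕ) : ℤ :=
  if h : ∃ y, G.dist m y = t then E v h.choose else 0

open scoped Classical in
/-- The polynomial matrix. -/
noncomputable def PM (G : SimpleGraph V) (E : Matrix V V ℤ) (D R0 : ℕ) : Matrix V V ℤ[X] :=
  Matrix.of (fun v m => if Aligned G E D R0 v m then
    ∑ t ∈ range (D + 1), C (coef G E v m t) * F t else 0)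

/-- The dominating matrix: `N b = ∑ j ≤ b, (E * (F 0 + ... + F D)(A))^j`. -/
noncomputable def Nm (G : SimpleGraph V) [DecidableRel G.Adj] (E : Matrix V V ℤ) (D b : ℕ) :
    Matrix V V ℤ :=
  ∑ j ∈ range (b + 1), (E * aeval (G.adjMatrix ℤ) (Gp D)) ^ j

/-- Bound for the row sums of `Nm`. -/
def rowN (D b : ℕ) : ℕ := (b + 1) * (D * 6 ^ (D + 1) + 1) ^ b

open scoped Classical in
/-- Vertices with a partner at intermediate distance. -/
noncomputable def badN (G : SimpleGraph V) [DecidableRel G.Adj] (E : Matrix V V ℤ)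
    (D b r : ℕ) : Finset V :=
  univ.filter (fun u => ∃ w, rowN D b + 1 ≤ G.dist u w ∧ 2 * G.dist u w ≤ r ∧ Nm G E D b u w ≠ 0)

open scoped Classical in
/-- Vertices from which no bad vertex can be reached by `K` steps along edges of `G` or `E`. -/
noncomputable def typN (G : SimpleGraph V) [DecidableRel G.Adj] (E : Matrix V V ℤ)
    (D b r K : ℕ) : Finset V :=
  univ.filter (fun v => ∀ w ∈ badN G E D b r, ((1 + G.adjMatrix ℤ + E) ^ K) v w = 0)

end Pool.Agent.H18.Cage
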